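import Mathlib
import Pool.Agent.MP_1ba41f_an.K3.Spec

/-! PROJECT KAM3, module AREA1: the measure of the image of a torus is continuous. -/

noncomputable section
open MeasureTheory Filter Topology Set Metric
open scoped NNReal

namespace Pool.Agent.MP_1ba41f_an.K3

namespace Area1

/-- the range of a periodic map is the image of a box -/
theorem range_eq {G : (Fin 2 → ℝ) → (Fin 2 → ℝ)}
    (h : ∀ θ j, G (θ + Pi.single j (2 * Real.pi)) = G θ) :
    range G = G '' Icc 0 (fun _ => 2 * Real.pi) := by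
  have hp : (0 : ℝ) < 2 * Real.pi := by positivity
  refine Subset.antisymm ?_ (image_subset_range _ _)
  rintro _ ⟨θ, rfl⟩
  have p0 : Function.Periodic G (Pi.single 0 (2 * Real.pi)) := fun x => h x 0
  have p1 : Function.Periodic G (Pi.single 1 (2 * Real.pi)) := fun x => h x 1
  refine ⟨fun j => toIcoMod hp 0 (θ j), ⟨fun j => (toIcoMod_mem_Ico' hp (θ j)).1,
    fun j => (toIcoMod_mem_Ico' hp (θ j)).2.le⟩, ?_⟩
  have e : θ = ((fun j => toIcoMod hp 0 (θ j)) +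
      toIcoDiv hp 0 (θ 0) • (Pi.single 0 (2 * Real.pi) : Fin 2 → ℝ)) +
      toIcoDiv hp 0 (θ 1) • (Pi.single 1 (2 * Real.pi) : Fin 2 → ℝ) := by
    funext j
    fin_cases j <;> simp
  conv_rhs => rw [e]
  rw [p1.zsmul, p0.zsmul]

/-- a regular value stays in the interior of the range -/
theorem stable {F : I01 → (Fin 2 → ℝ) → (Fin 2 → ℝ)}
    {F' : I01 → (Fin 2 → ℝ) → ((Fin 2 → ℝ) →L[ℝ] (Fin 2 → ℝ))}
    (h' : Continuous (Function.uncurry F')) (hd : ∀ y θ, HasFDerivAt (F y) (F' y θ) θ)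
    (y₀ : I01) (θ₀ : Fin 2 → ℝ) (h0 : (F' y₀ θ₀).det ≠ 0) :
    ∃ δ, 0 < δ ∧ ∀ᶠ y in 𝓝 y₀, closedBall (F y θ₀) δ ⊆ range (F y) := by
  set A := (F' y₀ θ₀).toContinuousLinearEquivOfDetNeZero h0 with hA
  have hAe : (A : (Fin 2 → ℝ) →L[ℝ] (Fin 2 → ℝ)) = F' y₀ θ₀ :=
    ContinuousLinearMap.coe_toContinuousLinearEquivOfDetNeZero _ _
  set R := A.toNonlinearRightInverse with hR
  have hN : (0 : ℝ) < R.nnnorm := by
    have : 0 < ‖(A.symm : (Fin 2 → ℝ) →L[ℝ] (Fin 2 → ℝ))‖₊ := A.nnnorm_symm_pos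
    exact_mod_cast this
  have hc : (0 : ℝ) < (R.nnnorm : ℝ)⁻¹ / 2 := by positivity
  have hev : ∀ᶠ q in 𝓝 (y₀, θ₀), ‖Function.uncurry F' q - F' y₀ θ₀‖ ≤ (R.nnnorm : ℝ)⁻¹ / 2 := by
    have := (h'.tendsto (y₀, θ₀)).eventually (closedBall_mem_nhds _ hc)
    refine this.mono fun q hq => ?_
    rw [← dist_eq_norm]; exact hq
  rw [nhds_prod_eq, eventually_prod_iff] at hev
  obtain ⟨pa, ha, pb, hb, hab⟩ := hev
  obtain ⟨ε, hε, hball⟩ := Metric.nhds_basis_closedBall.mem_iff.1 hb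
  refine ⟨((R.nnnorm : ℝ)⁻¹ - (R.nnnorm : ℝ)⁻¹ / 2) * ε, mul_pos (by linarith) hε,
    ha.mono fun y hy => ?_⟩
  have hap : ApproximatesLinearOn (F y) (A : (Fin 2 → ℝ) →L[ℝ] (Fin 2 → ℝ)) (closedBall θ₀ ε)
      ⟨(R.nnnorm : ℝ)⁻¹ / 2, hc.le⟩ := by
    intro x hx z hz
    refine (convex_closedBall θ₀ ε).norm_image_sub_le_of_norm_hasFDerivWithin_le'
      (f' := F' y) (fun w _ => (hd y w).hasFDerivWithinAt) (fun w hw => ?_) hz hx
    have h5 : ‖F' y w - F' y₀ θ₀‖ ≤ (R.nnnorm : ℝ)⁻¹ / 2 := hab hy (hball hw)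
    have h6 : F' y w - (A : (Fin 2 → ℝ) →L[ℝ] (Fin 2 → ℝ)) = F' y w - F' y₀ θ₀ := by rw [hAe]
    rw [h6]; exact h5
  exact (hap.surjOn_closedBall_of_nonlinearRightInverse R hε.le Subset.rfl).trans
    (image_subset_range _ _)

end Area1

open Area1 in
theorem area1 : Area1Stmt := by
  intro ν _ hν F F' hF hF' hd hp
  have hr : ∀ y, range (F y) = F y '' Icc 0 (fun _ => 2 * Real.pi) := fun y => range_eq (hp y)
  have hcpt : ∀ y, IsCompact (range (F y)) := fun y => by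
    rw [hr]; exact isCompact_Icc.image (hF.comp (Continuous.prodMk_right y))
  refine ⟨hcpt, continuous_iff_continuousAt.2 fun y₀ => ?_, fun y θ h => ?_⟩
  · refine (ENNReal.tendsto_toReal (measure_ne_top ν _)).comp ?_
    refine tendsto_measure_of_ae_tendsto_indicator_of_isFiniteMeasure (𝓝 y₀)
      (hcpt y₀).measurableSet (fun y => (hcpt y).measurableSet) ?_
    have hs : volume (F y₀ '' {θ | (F' y₀ θ).det = 0}) = 0 :=
      addHaar_image_eq_zero_of_det_fderivWithin_eq_zero volume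
        (fun x _ => (hd y₀ x).hasFDerivWithinAt) fun x hx => hx
    filter_upwards [measure_eq_zero_iff_ae_notMem.1 (hν hs)] with v hv
    by_cases hm : v ∈ range (F y₀)
    · obtain ⟨θ₀, rfl⟩ := hm
      obtain ⟨δ, hδ, h1⟩ := stable hF' hd y₀ θ₀ fun h => hv ⟨θ₀, h, rfl⟩
      have h2 : Tendsto (fun y => F y θ₀) (𝓝 y₀) (𝓝 (F y₀ θ₀)) :=
        (hF.comp (Continuous.prodMk_left θ₀)).tendsto y₀
      filter_upwards [h1, h2.eventually (closedBall_mem_nhds _ hδ)] with y h3 h4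
      exact iff_of_true (h3 (mem_closedBall_comm.1 h4)) ⟨θ₀, rfl⟩
    · have h1 : ∀ᶠ y in 𝓝 y₀, ∀ θ ∈ Icc (0 : Fin 2 → ℝ) (fun _ => 2 * Real.pi), F y θ ≠ v := by
        refine isCompact_Icc.eventually_forall_of_forall_eventually fun θ _ => ?_
        exact (hF.tendsto (y₀, θ)).eventually_ne fun h => hm ⟨θ, h⟩
      filter_upwards [h1] with y h2
      refine iff_of_false ?_ hm
      rw [hr]; rintro ⟨θ, h3, h4⟩; exact h2 θ h3 h4
  · obtain ⟨δ, hδ, h1⟩ := stable hF' hd y θ h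
    exact ⟨F y θ, mem_interior_iff_mem_nhds.2
      (mem_of_superset (closedBall_mem_nhds _ hδ) h1.self_of_nhds)⟩

end Pool.Agent.MP_1ba41f_an.K3
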