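import Mathlib
import Pool.Agent.MP_1ba41f_an.K3.Basic

/-! PROJECT KAM3, module BASE: the unperturbed torus and its frames. -/

noncomputable section
open Finset Matrix Complex

namespace Pool.Agent.MP_1ba41f_an.K3

namespace BaseA

/-- a character in the second angle -/
def ex (n : ℤ) (φ : ℝ) : ℂ := exp (I * (n * φ))

lemma ex_zero (φ : ℝ) : ex 0 φ = 1 := by simp [ex]
lemma ex_one (φ : ℝ) : ex 1 φ = exp (I * φ) := by simp [ex]
lemma ex_add (n m : ℤ) (φ : ℝ) : ex (n + m) φ = ex n φ * ex m φ := by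
  rw [ex, ex, ex, ← exp_add]; congr 1; push_cast; ring
lemma ex_conj (n : ℤ) (φ : ℝ) : (starRingEnd ℂ) (ex n φ) = ex (-n) φ := by
  rw [ex, ex, ← exp_conj]; congr 1; simp
lemma ex_neg (n : ℤ) (φ : ℝ) : ex n (-φ) = (starRingEnd ℂ) (ex n φ) := by
  rw [ex_conj, ex, ex]; congr 1; push_cast; ring

section Bd
variable {Y : Type} [TopologicalSpace Y] {J : Type} [Fintype J] {s c : ℝ}

lemma bd_conj {F : Y → (J → ℝ) → ℂ} (h : BdF s F c) :
    BdF s (fun y θ => (starRingEnd ℂ) (F y θ)) c := by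
  obtain ⟨ι, k, a, b, h0, h1, h2, h3, h4⟩ := h
  refine ⟨ι, fun i => -k i, fun i => star (a i), b, h0, fun i y => by simpa using h1 i y,
    by simpa only [sz_neg] using h2, by simpa only [sz_neg] using h3, fun y θ => ?_⟩
  have e : ∀ i, ph (-k i) θ = (starRingEnd ℂ) (ph (k i) θ) := fun i => by
    rw [ph, ph, ← exp_conj]; congr 1; simp
  simpa [e] using (h4 y θ).star

lemma bd_re {F : Y → (J → ℝ) → ℂ} (h : BdF s F c) :
    ∃ c, BdF s (fun y θ => ((F y θ).re : ℂ)) c := by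
  have := (BdF.const s (1 / 2)).mul (h.add (bd_conj h))
  simp only [add_conj] at this
  refine ⟨_, (congrArg (BdF s · _) ?_).mp this⟩
  funext y θ
  push_cast
  ring

lemma bd_lift {f : ℝ → ℂ} (h : An1 s f) (n : ℤ) :
    ∃ c, BdF s (fun (_ : Y) (θ : Fin 2 → ℝ) => ((f (θ 0) * ex n (θ 1)).re : ℂ)) c := by
  obtain ⟨c, ι, k, a, b, h0, h1, h2, h3, h4⟩ := h
  have e : ∀ i, sz ![k i 0, 0] = sz (k i) := fun i => by simp [sz]
  have h5 : BdF s (fun (_ : Y) (θ : Fin 2 → ℝ) => f (θ 0)) c :=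
    ⟨ι, fun i => ![k i 0, 0], fun i => .const _ (a i ()), b, h0, fun i _ => h1 i (),
      by simpa only [e] using h2, by simpa only [e] using h3,
      fun _ θ => by simpa [ph] using h4 () fun _ => θ 0⟩
  have h6 := BdF.mode s ![0, n] (1 : C(Y, ℂ)) zero_le_one fun _ => by simp
  simpa [ph, ex] using bd_re (h5.mul h6)

lemma an_smul {f : ℝ → ℂ} (z : ℂ) (h : An1 s f) : An1 s fun x => z * f x :=
  let ⟨_, h⟩ := h; ⟨_, (BdF.const s z).mul h⟩

lemma an_exp (s : ℝ) : An1 s fun x => exp (I * x) :=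
  ⟨_, by simpa [ph] using BdF.mode s (fun _ : Fin 1 => 1) (1 : C(Unit, ℂ)) zero_le_one fun _ => by simp⟩

end Bd

/-- the algebra of the model -/
abbrev AA : Type := AlgR I01 (Fin 2)

/-- evaluation at a point -/
def ev (y : I01) (θ : Fin 2 → ℝ) : AA →ₐ[ℝ] ℝ :=
  ((Pi.evalAlgHom ℝ (fun _ => ℝ) θ).comp (Pi.evalAlgHom ℝ _ y)).comp (AlgR I01 (Fin 2)).val

lemma ev_ext {F G : AA} (h : ∀ y θ, ev y θ F = ev y θ G) : F = G :=
  Subtype.ext (funext fun y => funext fun θ => h y θ)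

/-- `F` is the real part of a single mode in the second angle -/
def Rep (F : AA) (f : ℝ → ℂ) (n : ℤ) : Prop := ∀ y θ, ev y θ F = (f (θ 0) * ex n (θ 1)).re

variable {S : Scale AA (Fin 2)} {s ρ γ β e : ℝ} {F G : AA} {f f' : ℝ → ℂ} {n : ℤ}

lemma Rep.ext (h : Rep F f n) (h' : Rep G f' n) (e : ∀ x, f x = f' x) : F = G :=
  ev_ext fun y θ => by rw [h, h', e]

lemma exists_rep (hS : IsModR S) (hs : 0 < s) (h : An1 s f) (n : ℤ) :
    ∃ F, S.An s F ∧ Rep F f n :=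
  let ⟨c, h⟩ := bd_lift (Y := I01) h n
  ⟨⟨fun _ θ => (f (θ 0) * ex n (θ 1)).re, s, hs, c, h⟩, ⟨c, (hS.bd _ _ _).2 h⟩, fun _ _ => rfl⟩

lemma dv (hS : IsModR S) (F : AA) (j : Fin 2) (y : I01) (θ : Fin 2 → ℝ) :
    HasDerivAt (fun t : ℝ => ev y (θ + t • Pi.single j 1) F) (ev y θ (S.D j F)) 0 := by
  refine ((hS.der F y θ).hasLineDerivAt (Pi.single j 1)).congr_deriv ?_
  rw [grad_apply, sum_eq_single j (fun i _ hi => by simp [Pi.single_eq_of_ne hi]) (by simp)]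
  simp only [Pi.single_eq_same, one_smul]
  rfl

lemma re_deriv {u : ℝ → ℂ} {u' : ℂ} {x : ℝ} (h : HasDerivAt u u' x) :
    HasDerivAt (fun t => (u t).re) u'.re x := reCLM.hasFDerivAt.comp_hasDerivAt x h

lemma Rep.d1 (hS : IsModR S) (h : Rep F f n) : Rep (S.D 1 F) (fun x => I * n * f x) n := by
  intro y θ
  refine (dv hS F 1 y θ).unique ?_
  have h1 := re_deriv ((((((hasDerivAt_id (0 : ℝ)).const_add (θ 1)).ofReal_comp.const_mul
    (n : ℂ)).const_mul I).cexp).const_mul (f (θ 0)))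
  refine (h1.congr_deriv ?_).congr_of_eventuallyEq (.of_forall fun t => by simp [ex, h y])
  congr 1
  simp only [ex, id, add_zero, ofReal_one]
  ring

lemma Rep.L (hS : IsModR S) (h : Rep F f n) (hf : ∀ x, HasDerivAt f (f' x) x) :
    Rep (S.L ρ F) (fun x => f' x + ρ * (I * n * f x)) n := by
  intro y θ
  have h0 : ev y θ (S.D 0 F) = (f' (θ 0) * ex n (θ 1)).re := by
    refine (dv hS F 0 y θ).unique ?_
    have h1 := re_deriv ((HasDerivAt.comp_const_add (θ 0) 0 (hf _)).mul_const (ex n (θ 1)))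
    exact (h1.congr_deriv (by rw [add_zero])).congr_of_eventuallyEq
      (.of_forall fun t => by simp [h y])
  rw [Scale.L_apply, map_add, map_smul, h0, h.d1 hS, add_mul, add_re, mul_assoc (ρ : ℂ),
    re_ofReal_mul, smul_eq_mul]

/-- a single nonzero mode is a derivative along the flow -/
lemma Rep.solve (hS : IsModR S) (hv : S.Solv ρ γ) (h : Rep F f n) (hn : n ≠ 0) :
    ∃ G, S.L ρ G = F := by
  obtain ⟨s, hs, c, hc⟩ := (S.D 1 F).2
  obtain ⟨G, m, h1, -, h2, -⟩ := hv.solve hs ((hS.bd _ _ _).2 hc)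
  have h3 : (n : ℝ) ≠ 0 := Int.cast_ne_zero.2 hn
  refine ⟨(-((n : ℝ) ^ 2)⁻¹) • S.D 1 G, ev_ext fun y θ => ?_⟩
  rw [Derivation.map_smul, ← Scale.DL, h2, map_sub, h1 1, sub_zero, map_smul,
    (h.d1 hS).d1 hS, h, smul_eq_mul]
  rw [show I * n * (I * n * f (θ 0)) * ex n (θ 1) =
    ((-(n : ℝ) ^ 2 : ℝ) : ℂ) * (f (θ 0) * ex n (θ 1)) by
      push_cast; linear_combination (n ^ 2 * f (θ 0) * ex n (θ 1)) * I_mul_I, re_ofReal_mul]
  field_simp

/-- an invariant function of the first angle is a real constant -/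
lemma Rep.const (hS : IsModR S) (h : Rep F f 0) (h0 : S.L ρ F = 0) :
    F = algebraMap ℝ AA (f 0).re := by
  have h1 : S.D 1 F = 0 := ev_ext fun y θ => by simpa using h.d1 hS y θ
  have h2 : S.D 0 F = 0 := by simpa [Scale.L_apply, h1] using h0
  refine ev_ext fun y θ => ?_
  have h3 : ∀ θ, HasFDerivAt (F.1 y) (0 : (Fin 2 → ℝ) →L[ℝ] ℝ) θ := fun θ =>
    (hS.der F y θ).congr_fderiv (by simp [grad, h1, h2])
  have := is_const_of_fderiv_eq_zero (fun θ => (h3 θ).differentiableAt)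
    (fun θ => (h3 θ).fderiv) θ 0
  rw [AlgHom.commutes]
  exact this.trans ((h y 0).trans (by simp [ex_zero]))

lemma pair {U V : Fin 4 → AA} {u v : ℝ → Fin 4 → ℂ} {c d : ℂ} {m : ℤ}
    (hU : ∀ j, Rep (U j) (fun x => c * u x j) n) (hV : ∀ j, Rep (V j) (fun x => d * v x j) m)
    (y : I01) (θ : Fin 2 → ℝ) : ev y θ (U ⬝ᵥ V) =
      (c * d * ex (n + m) (θ 1) * (u (θ 0) ⬝ᵥ v (θ 0)) + c * (starRingEnd ℂ) d * ex (n + -m) (θ 1) *
        (u (θ 0) ⬝ᵥ fun j => (starRingEnd ℂ) (v (θ 0) j))).re / 2 := by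
  simp only [dotProduct, map_sum, map_mul, hU _ y, hV _ y, mul_sum, ← sum_add_distrib, re_sum,
    sum_div, ex_add, ← ex_conj]
  refine sum_congr rfl fun j _ => ?_
  simp only [add_re, mul_re, mul_im, conj_re, conj_im]
  ring

lemma amat {g : AA} (hg : ∀ y θ, ev y θ g = (1 + e * Real.cos (θ 0))⁻¹) {K : Fin 4 → AA}
    {v : ℝ → Fin 4 → ℂ} {c : ℂ} (h : ∀ j, Rep (K j) (fun x => c * v x j) n) (i : Fin 4) :
    Rep ((Amat β g *ᵥ K) i) (fun x => c * (Ac β e x *ᵥ v x) i) n := by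
  intro y θ
  have h' := fun j => h j y θ
  simp only [Ac]
  rw [← hg y θ]
  fin_cases i <;> simp [Amat, mulVec, dotProduct, Fin.sum_univ_four, h', map_ofNat] <;> ring

lemma dmat {g cs : AA} (hg : ∀ y θ, ev y θ g = (1 + e * Real.cos (θ 0))⁻¹)
    (hc : ∀ y θ, ev y θ cs = Real.cos (θ 0)) {K : Fin 4 → AA}
    {v : ℝ → Fin 4 → ℂ} {c : ℂ} (h : ∀ j, Rep (K j) (fun x => c * v x j) n) (i : Fin 4) :
    Rep (((-(cs * g * g)) • (Dhat AA β *ᵥ K)) i) (fun x => c * (Ae β e x *ᵥ v x) i) n := by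
  intro y θ
  have h' := fun j => h j y θ
  simp only [Ae]
  rw [← hg y θ, ← hc y θ]
  fin_cases i <;> simp [Dhat, mulVec, dotProduct, Fin.sum_univ_four, h'] <;> ring

/-- the symplectic form applied to a vector -/
def om {A : Type} [CommRing A] (u : Fin 4 → A) : Fin 4 → A :=
  ![u 2 - 2 * u 1, 2 * u 0 + u 3, -u 0, -u 1]

lemma om_L {A : Type} [CommRing A] [Algebra ℝ A] (δ : Derivation ℝ A A) {g : A} {u v : Fin 4 → A}
    {l : ℝ} (hu : ∀ i, δ (u i) = (Amat β g *ᵥ u) i) (hv : ∀ i, δ (v i) = (Amat β g *ᵥ v) i - l • v i) :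
    δ (om u ⬝ᵥ v) = (-l) • (om u ⬝ᵥ v) := by
  have h2 : δ 2 = 0 := by rw [← map_ofNat (algebraMap ℝ A) 2]; exact δ.map_algebraMap _
  simp [om, dotProduct, Fin.sum_univ_four, hu, hv, h2, Amat, mulVec, Algebra.smul_def, map_ofNat]
  ring

lemma map_mul_der {A : Type} [CommRing A] [Algebra ℝ A] (δ : Derivation ℝ A A)
    (M N : Matrix (Fin 4) (Fin 4) A) : (M * N).map δ = M.map δ * N + M * N.map δ := by
  ext i j
  simp only [map_apply, Matrix.mul_apply, Matrix.add_apply, map_sum, Derivation.leibniz, smul_eq_mul,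
    ← sum_add_distrib]
  exact sum_congr rfl fun k _ => by ring

def ia : Fin 4 → Fin 3 := ![0, 0, 1, 2]
def na : Fin 4 → ℤ := ![1, 1, 0, 0]
def cP : Fin 4 → ℂ := ![I, 1, 1, 1]
def cQ : Fin 4 → ℂ := ![-2 * I, 2, 1, 1]

end BaseA

open BaseA in
theorem base (hR : RegStmt) : BaseStmt := by
  intro S β e s ρ γ l2 l3 p q hS hv hβ he he' hs h
  choose P aP rP using fun i b => exists_rep hS hs (an_smul (cP b) (h.anp (ia b) i)) (na b)
  choose Q aQ rQ using fun a j => exists_rep hS hs (an_smul (cQ a) (h.anq (ia a) j)) (-na a)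
  obtain ⟨g, ag, rg⟩ := exists_rep hS hs h.ang 0
  obtain ⟨cs, ac, rc⟩ := exists_rep hS hs (an_exp s) 0
  have hg : ∀ y θ, ev y θ g = (1 + e * Real.cos (θ 0))⁻¹ := fun y θ => by
    rw [rg, ex_zero, mul_one, ofReal_re]
  have hc : ∀ y θ, ev y θ cs = Real.cos (θ 0) := fun y θ => by
    rw [rc, ex_zero, mul_one, ← exp_ofReal_mul_I_re, mul_comm]
  change Matrix (Fin 4) (Fin 4) AA at P Q
  have col : ∀ i, P i 0 = S.D 1 (P i 1) := fun i =>
    (rP i 0).ext ((rP i 1).d1 hS) fun x => by simp [cP, ia, na]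
  have LP : ∀ b i, S.L ρ (P i b) = (Amat β g *ᵥ fun j => P j b) i - ![0, 0, l2, l3] b • P i b :=
    fun b i => ev_ext fun y θ => by
      rw [(rP i b).L hS fun x => (h.ode (ia b) x i).const_mul (cP b), map_sub, map_smul,
        amat hg (fun j => rP j b), rP, smul_eq_mul, ← re_ofReal_mul, ← sub_re]
      congr 1
      fin_cases b <;> simp [ia, na, -mul_eq_mul_right_iff] <;> ring
  have LK : ∀ b, b = 0 ∨ b = 1 → ∀ i, S.L ρ (P i b) = (Amat β g *ᵥ fun j => P j b) i := by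
    rintro b (rfl | rfl) i <;> simp [LP]
  have cj : ∀ x, (fun j => (starRingEnd ℂ) (p 1 x j)) = p 1 x ∧
      (fun j => (starRingEnd ℂ) (p 2 x j)) = p 2 x := fun x =>
    ⟨funext fun j => conj_eq_iff_im.2 (h.real x j).1, funext fun j => conj_eq_iff_im.2 (h.real x j).2⟩
  have QP : Q * P = 1 := Matrix.ext fun a b => ev_ext fun y θ => by
    refine (pair (rQ a) (fun j => rP j b) y θ).trans ?_
    fin_cases a <;> fin_cases b <;>
      simp [ia, na, cP, cQ, h.dual, h.dualc, ex_zero, (cj _).1, (cj _).2]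
  have PQ : P * Q = 1 := mul_eq_one_comm.1 QP
  -- the symplectic pairing of the first two columns
  have rom : ∀ j, Rep (om (fun i => P i 0) j) (fun x => I * om (p 0 x) j) 1 := fun j y θ => by
    have := fun i => rP i 0 y θ
    fin_cases j <;> simp [om, this, map_ofNat, cP, ia, na] <;> ring
  obtain ⟨κ, hκ⟩ : ∃ κ : ℝ, om (fun i => P i 0) ⬝ᵥ (fun i => P i 1) = algebraMap ℝ AA κ := by
    refine ⟨_, Rep.const (ρ := ρ) (f := fun x => I * (om (p 0 x) ⬝ᵥ fun j =>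
      (starRingEnd ℂ) (p 0 x j)) / 2) hS (fun y θ => ?_) (by
        simpa using om_L _ (LK 0 (.inl rfl)) (LP 1))⟩
    have : om (p 0 (θ 0)) ⬝ᵥ p 0 (θ 0) = 0 := by simp [om, dotProduct, Fin.sum_univ_four]; ring
    rw [pair rom (fun j => rP j 1)]
    simp [ia, na, cP, this, ex_zero]
  have n0 : om (fun i => P i 0) ᵥ* P = Pi.single 1 (algebraMap ℝ AA κ) := by
    funext b
    have := om_L _ (LK 0 (.inl rfl)) (LP b)
    fin_cases b
    · simp [om, vecMul, dotProduct, Fin.sum_univ_four]; ring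
    · exact hκ
    · exact hv.huniq _ (neg_ne_zero.2 h.l2ne) this
    · exact hv.huniq _ (neg_ne_zero.2 h.l3ne) this
  have n1 : ∀ j, om (fun i => P i 0) j = κ • Q 1 j := fun j => by
    rw [← vecMul_one (om _), ← PQ, ← vecMul_vecMul, n0, single_vecMul, Algebra.smul_def]
    rfl
  have κ0 : κ ≠ 0 := by
    rintro rfl
    have a0 := n1 0
    have a1 := n1 1
    have a2 := n1 2
    have a3 := n1 3
    have a4 := congrFun (congrFun QP 0) 0
    simp [om] at a0 a1 a2 a3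
    simp [a2, a3] at a0 a1
    simp [Matrix.mul_apply, Fin.sum_univ_four, a0, a1, a2, a3] at a4
  -- torsion
  obtain ⟨W, τ, aW, hτ, dW⟩ := h.tors
  obtain ⟨G1, -, rG⟩ := exists_rep hS hs (an_smul (-I) aW) 0
  have rZ := dmat (β := β) hg hc fun j => rP j 1
  obtain ⟨G2, hG2⟩ := Rep.solve (F := Q 0 ⬝ᵥ ((-(cs * g * g)) • (Dhat AA β *ᵥ fun j => P j 1)) -
      algebraMap ℝ AA τ.im - S.L ρ G1)
      (f := fun x => -I * (q 0 x ⬝ᵥ fun j => (starRingEnd ℂ) ((Ae β e x *ᵥ p 0 x) j))) (n := -2)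
      hS hv (fun y θ => by
        rw [map_sub, map_sub, pair (rQ 0) rZ, rG.L hS fun x => (dW x).const_mul (-I),
          AlgHom.commutes]
        simp [ia, na, cP, cQ, ex_zero]
        ring) (by norm_num)
  refine ⟨⟨fun i => P i 1, algebraMap ℝ AA e, P, Q, Amat β g,
    (-(cs * g * g)) • (Dhat AA β *ᵥ fun j => P j 1), G1 + G2, κ⁻¹ • Om0, R0, ![0, 0, l2, l3], τ.im⟩,
    cs, g, ⟨hs, fun i => aP i 1, .alg _ _, aP, aQ, fun i j => ?_, fun i => ?_, .alg _, QP, col,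
      fun j => ?_, fun i j => ?_, LK 1 (.inr rfl), rfl, rfl, h.l2ne, h.l3ne, ?_, hτ, fun i => ?_,
      fun i => ?_, fun i j => ?_, fun i j => ?_⟩,
    ⟨ac, ag, ev_ext fun y θ => by simpa using rc.d1 hS y θ, ev_ext fun y θ => ?_,
      ev_ext fun y θ => ?_, rfl, rfl, rfl, ⟨_, rfl⟩, rfl⟩, hc, ?_⟩
  · fin_cases i <;> fin_cases j <;> first
      | exact .zero _ | exact .one _ | exact .smul _ ag | exact .ofNat _ 2 | exact .neg (.ofNat _ 2)
  · refine ((ac.mul ag).mul ag).neg.mul (.mulVec (fun i j => ?_) (fun j => aP j 1) i)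
    fin_cases i <;> fin_cases j <;> first | exact .zero _ | exact .smul _ (.one _)
  · have : Q 1 j = κ⁻¹ • om (fun i => P i 0) j := by rw [n1, inv_smul_smul₀ κ0]
    refine this.trans ?_
    fin_cases j <;> simp [om, Om0, Fin.sum_univ_four, Algebra.smul_def, map_ofNat] <;> ring
  · have e1 : P.map (S.L ρ) = Amat β g * P - P * diagonal fun b =>
        algebraMap ℝ AA (![0, 0, l2, l3] b) := by
      ext i b : 2
      rw [map_apply, LP, Matrix.sub_apply, mul_diagonal, Algebra.smul_def, mul_comm (P i b)]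
      rfl
    have e2 : (1 : Matrix (Fin 4) (Fin 4) AA).map (S.L ρ) = 0 := by
      ext i j : 2
      by_cases e : i = j <;> simp [e]
    have e3 := map_mul_der (S.L ρ) Q P
    rw [QP, e2, e1, Matrix.mul_sub, ← Matrix.mul_assoc Q P, QP, Matrix.one_mul, ← add_sub_assoc,
      ← Matrix.mul_assoc, ← Matrix.add_mul, eq_comm, sub_eq_zero] at e3
    have e4 := congrArg (· * Q) e3
    simp only [Matrix.mul_assoc, PQ, Matrix.mul_one] at e4
    have e5 := congrFun (congrFun e4 i) j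
    rwa [diagonal_mul, ← Algebra.smul_def] at e5
  · rw [map_add, hG2]
    simp only [add_sub_cancel]
    rfl
  · refine ev_ext fun y θ => (hS.refl _ y θ).trans ((rP i 1 y (-θ)).trans ?_)
    rw [map_smul, rP, ← conj_re, Pi.neg_apply, Pi.neg_apply, ex_neg, map_mul, conj_conj,
      smul_eq_mul, ← re_ofReal_mul]
    simp [cP, ia, h.sym, mul_assoc]
  · fin_cases i <;> simp [R0]
  · fin_cases i <;> fin_cases j <;> simp [Om0]
  · fin_cases i <;> fin_cases j <;> simp [Om0, R0]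
  · exact (hS.refl _ y θ).trans ((hc y (-θ)).trans (by rw [hc, Pi.neg_apply, Real.cos_neg]))
  · rw [map_mul, map_add, map_one, map_smul, hc, hg, smul_eq_mul]
    exact mul_inv_cancel₀ (by nlinarith [Real.neg_one_le_cos (θ 0)])
  · obtain ⟨x, φ, hx⟩ := hR β e ρ (p 0) hβ he he' (h.ode 0) fun e => by
      simpa [e] using h.dual 0 0 0
    refine ⟨![x, φ], _, sub_ne_zero.2 hx, fun y => ?_⟩
    have a0 := LK 1 (.inr rfl) 0
    have a1 := LK 1 (.inr rfl) 1
    rw [Scale.L_apply, ← eq_sub_iff_add_eq, ← col] at a0 a1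
    change ev y ![x, φ] (S.D 0 (P 0 1) * S.D 1 (P 1 1) - S.D 0 (P 1 1) * S.D 1 (P 0 1)) = _
    rw [a0, a1, ← col, ← col]
    simp [Amat, mulVec, dotProduct, Fin.sum_univ_four, rP _ _ y, cP, ia, na, ex_one]
    ring

end Pool.Agent.MP_1ba41f_an.K3
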