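import Mathlib
import Pool.Agent.MP_1ba41f_an.K3.Spec

/-! PROJECT KAM3: back to the bodies. -/

noncomputable section
open Finset Matrix

namespace Pool.Agent.MP_1ba41f_an.K3

namespace Body
variable {m x y : Fin 3 → ℝ}

/-- completeness relation of the mass-orthonormal basis -/
theorem complete (h : Eul m x y) (i j : Fin 3) :
    m i / (m 0 + m 1 + m 2) + m i * x i * x j + m i * y i * y j = if i = j then 1 else 0 := by
  have h0 := h.pos 0
  have h1 := h.pos 1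
  have h2 := h.pos 2
  have hM : m 0 + m 1 + m 2 ≠ 0 := by positivity
  have cx := h.cx
  have cy := h.cy
  have xx := h.xx
  have yy := h.yy
  have xy := h.xy
  simp only [Fin.sum_univ_three] at cx cy xx yy xy
  let A : Matrix (Fin 3) (Fin 3) ℝ := Matrix.of ![fun _ => 1, x, y]
  let B : Matrix (Fin 3) (Fin 3) ℝ :=
    Matrix.of fun i => ![m i / (m 0 + m 1 + m 2), m i * x i, m i * y i]
  have hAB : A * B = 1 := by
    ext a b
    fin_cases a <;> fin_cases b <;>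
      simp [A, B, Matrix.mul_apply, Fin.sum_univ_three]
    · field_simp
    · linear_combination cx
    · linear_combination cy
    · linear_combination cx / (m 0 + m 1 + m 2)
    · linear_combination xx
    · linear_combination xy
    · linear_combination cy / (m 0 + m 1 + m 2)
    · linear_combination xy
    · linear_combination yy
  have hBA := mul_eq_one_comm.1 hAB
  have := congrFun (congrFun hBA i) j
  simpa [A, B, Matrix.mul_apply, Fin.sum_univ_three, Matrix.one_apply] using this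

theorem dk_pos (h : Eul m x y) (k : Fin 3) : 0 < dk x k := by
  have := h.lt1
  have := h.lt2
  fin_cases k <;> simp [dk, pr1, pr2] <;> linarith

theorem muC_pos (h : Eul m x y) : 0 < muC m x :=
  sum_pos (fun k _ => div_pos (mul_pos (h.pos _) (h.pos _)) (dk_pos h k)) univ_nonempty

theorem wv_mul (l z1 z2 : ℂ) : wv (l * z1) (l * z2) = (‖l‖ ^ 2) • wv z1 z2 := by
  have e : l * z1 * (starRingEnd ℂ) (l * z2) = ((‖l‖ ^ 2 : ℝ) : ℂ) * (z1 * (starRingEnd ℂ) z2) := by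
    rw [map_mul, Complex.ofReal_pow, ← Complex.mul_conj']; ring
  unfold wv
  rw [e, norm_mul, norm_mul, Complex.re_ofReal_mul, Complex.im_ofReal_mul]
  ext i
  fin_cases i <;> simp
  ring

theorem dir_mul {l : ℂ} (hl : l ≠ 0) (z1 z2 : ℂ) :
    (2 * ‖wv (l * z1) (l * z2)‖)⁻¹ • wv (l * z1) (l * z2) = (2 * ‖wv z1 z2‖)⁻¹ • wv z1 z2 := by
  have hl' : 0 < ‖l‖ ^ 2 := by positivity
  rw [wv_mul, norm_smul, smul_smul, Real.norm_of_nonneg hl'.le]
  congr 1
  rw [mul_left_comm, mul_inv, mul_right_comm, inv_mul_cancel₀ hl'.ne', one_mul]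

/-- real Jacobi coordinates -/
def j1 (m x : Fin 3 → ℝ) : ℝ := √(m 0 * m 1 / (m 0 + m 1)) * (x 1 - x 0)
def j2 (m x : Fin 3 → ℝ) : ℝ := √(m 2 * (m 0 + m 1) / (m 0 + m 1 + m 2)) *
  (x 2 - (m 0 * x 0 + m 1 * x 1) / (m 0 + m 1))

theorem j_polar (hm : ∀ i, 0 < m i) (hx : ∑ i, m i * x i = 0) (hy : ∑ i, m i * y i = 0) :
    j1 m x * j1 m y + j2 m x * j2 m y = ∑ i, m i * x i * y i := by
  have h0 := hm 0
  have h1 := hm 1
  have h2 := hm 2
  simp only [Fin.sum_univ_three] at hx hy ⊢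
  have e1 := Real.mul_self_sqrt (show 0 ≤ m 0 * m 1 / (m 0 + m 1) by positivity)
  have e2 := Real.mul_self_sqrt (show 0 ≤ m 2 * (m 0 + m 1) / (m 0 + m 1 + m 2) by positivity)
  have hx2 : x 2 = -(m 0 * x 0 + m 1 * x 1) / m 2 := by field_simp; linarith
  have hy2 : y 2 = -(m 0 * y 0 + m 1 * y 1) / m 2 := by field_simp; linarith
  unfold j1 j2
  rw [mul_mul_mul_comm, e1, mul_mul_mul_comm (√(m 2 * (m 0 + m 1) / (m 0 + m 1 + m 2))), e2,
    hx2, hy2]
  field_simp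
  ring

theorem jac1_eq (L : ℝ) (Z w : ℂ) :
    jac1 m (fun i => (L : ℂ) * ((x i : ℂ) * Z + (y i : ℂ) * (w * Z))) =
      (L : ℂ) * Z * ((j1 m x : ℂ) + (j1 m y : ℂ) * w) := by
  simp only [jac1, j1]; push_cast; ring

theorem jac2_eq (L : ℝ) (Z w : ℂ) :
    jac2 m (fun i => (L : ℂ) * ((x i : ℂ) * Z + (y i : ℂ) * (w * Z))) =
      (L : ℂ) * Z * ((j2 m x : ℂ) + (j2 m y : ℂ) * w) := by
  simp only [jac2, j2]; push_cast; ring

theorem diff_eq (h : Eul m x y) (L : ℝ) (Z1 Z2 : ℂ) (k : Fin 3) :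
    (L : ℂ) * ((x (pr2 k) : ℂ) * Z1 + (y (pr2 k) : ℂ) * Z2) -
      (L : ℂ) * ((x (pr1 k) : ℂ) * Z1 + (y (pr1 k) : ℂ) * Z2) =
      ((L * dk x k : ℝ) : ℂ) * (Z1 + (tk x y k : ℂ) * Z2) := by
  have hd : ((dk x k : ℝ) : ℂ) ≠ 0 := Complex.ofReal_ne_zero.2 (dk_pos h k).ne'
  have e : ((dk x k : ℝ) : ℂ) * (tk x y k : ℂ) = (dk y k : ℂ) := by
    rw [tk]; push_cast; field_simp
  have : ((L * dk x k : ℝ) : ℂ) * (Z1 + (tk x y k : ℂ) * Z2) =
      (L : ℂ) * ((dk x k : ℂ) * Z1 + (dk y k : ℂ) * Z2) := by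
    rw [← e]; push_cast; ring
  rw [this, dk, dk]; push_cast; ring

/-- the force of a pair -/
theorem force (c : ℝ) (hc : 0 < c) (u : ℂ) :
    ((c : ℂ) * u) / ((‖(c : ℂ) * u‖ : ℝ) : ℂ) ^ 3 =
      ((1 / c ^ 2 : ℝ) : ℂ) * (u / ((‖u‖ : ℝ) : ℂ) ^ 3) := by
  have hc' : (c : ℂ) ≠ 0 := Complex.ofReal_ne_zero.2 hc.ne'
  rw [norm_mul, Complex.norm_real, Real.norm_of_nonneg hc.le]
  push_cast
  by_cases hu : ((‖u‖ : ℝ) : ℂ) = 0
  · simp [hu]
  · field_simp

theorem coef (h : Eul m x y) {L : ℝ} (hL : 0 < L) (h3 : L ^ 3 = muC m x) (i k : Fin 3) :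
    m i * L * (x i * ak m x k + y i * (ak m x k * tk x y k)) =
      m (pr1 k) * m (pr2 k) * (1 / (L * dk x k) ^ 2) *
        ((if i = pr2 k then 1 else 0) - if i = pr1 k then 1 else 0) := by
  have hd := (dk_pos h k).ne'
  have e : m i * (x i * dk x k + y i * dk y k) =
      (if i = pr2 k then 1 else 0) - if i = pr1 k then 1 else 0 := by
    rw [← complete h i (pr2 k), ← complete h i (pr1 k), dk, dk]; ring
  rw [← e, ak, tk, ← h3]
  field_simp

end Body

open Body in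
theorem body : BodyStmt := by
  intro m x y h
  have hμ := muC_pos h
  obtain ⟨L, hL, h3⟩ : ∃ L : ℝ, 0 < L ∧ L ^ 3 = muC m x :=
    ⟨muC m x ^ ((3 : ℕ) : ℝ)⁻¹, Real.rpow_pos_of_pos hμ _,
      Real.rpow_inv_natCast_pow hμ.le three_ne_zero⟩
  refine ⟨!![j1 m x, j1 m y; j2 m x, j2 m y], ?_, ?_⟩
  · have e1 := j_polar h.pos h.cx h.cx
    have e2 := j_polar h.pos h.cx h.cy
    have e3 := j_polar h.pos h.cy h.cy
    have f1 : ∑ i, m i * x i * x i = 1 := by
      rw [← h.xx]; exact sum_congr rfl fun i _ => by ring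
    have f3 : ∑ i, m i * y i * y i = 1 := by
      rw [← h.yy]; exact sum_congr rfl fun i _ => by ring
    rw [f1] at e1
    rw [h.xy] at e2
    rw [f3] at e3
    ext a b
    fin_cases a <;> fin_cases b <;> simp [Matrix.mul_apply, Fin.sum_univ_two]
    · exact e1
    · exact e2
    · linear_combination e2
    · exact e3
  · rintro Z1 Z2 ⟨W1, W2, hZ⟩
    refine ⟨fun s i => (L : ℂ) * ((x i : ℂ) * Z1 s + (y i : ℂ) * Z2 s), ⟨?_, ?_, ?_⟩, ?_⟩
    · have key : ∀ s k, (L : ℂ) * ((x (pr2 k) : ℂ) * Z1 s + (y (pr2 k) : ℂ) * Z2 s) ≠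
          (L : ℂ) * ((x (pr1 k) : ℂ) * Z1 s + (y (pr1 k) : ℂ) * Z2 s) := by
        intro s k
        rw [← sub_ne_zero, diff_eq h]
        exact mul_ne_zero (Complex.ofReal_ne_zero.2 (mul_pos hL (dk_pos h k)).ne')
          ((hZ s).2.1 k)
      intro s i j hij
      have k0 := key s 0
      have k1 := key s 1
      have k2 := key s 2
      fin_cases i <;> fin_cases j <;>
        first | exact absurd rfl hij | exact k0 | exact k1 | exact k2 | exact k0.symm |
          exact k1.symm | exact k2.symm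
    · intro s
      have cx : ∑ i, (m i : ℂ) * (x i : ℂ) = 0 := by exact_mod_cast h.cx
      have cy : ∑ i, (m i : ℂ) * (y i : ℂ) = 0 := by exact_mod_cast h.cy
      simp only [Fin.sum_univ_three] at cx cy ⊢
      linear_combination (L : ℂ) * Z1 s * cx + (L : ℂ) * Z2 s * cy
    · refine ⟨fun s i => (L : ℂ) * ((x i : ℂ) * W1 s + (y i : ℂ) * W2 s),
        fun s i => (L : ℂ) * ((x i : ℂ) * (-∑ k, (ak m x k : ℂ) * (Z1 s + (tk x y k : ℂ) * Z2 s) /
          ((‖Z1 s + (tk x y k : ℂ) * Z2 s‖ : ℝ) : ℂ) ^ 3) + (y i : ℂ) *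
          (-∑ k, (ak m x k : ℂ) * (tk x y k : ℂ) * (Z1 s + (tk x y k : ℂ) * Z2 s) /
            ((‖Z1 s + (tk x y k : ℂ) * Z2 s‖ : ℝ) : ℂ) ^ 3)), fun s i => ⟨?_, ?_, ?_⟩⟩
      · exact (((hZ s).2.2.1.const_mul _).add ((hZ s).2.2.2.1.const_mul _)).const_mul _
      · exact (((hZ s).2.2.2.2.1.const_mul _).add ((hZ s).2.2.2.2.2.const_mul _)).const_mul _
      · set U : Fin 3 → ℂ := fun k => (Z1 s + (tk x y k : ℂ) * Z2 s) /
          ((‖Z1 s + (tk x y k : ℂ) * Z2 s‖ : ℝ) : ℂ) ^ 3 with hU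
        set q : Fin 3 → ℂ := fun i => (L : ℂ) * ((x i : ℂ) * Z1 s + (y i : ℂ) * Z2 s) with hq
        have fp : ∀ k, (q (pr2 k) - q (pr1 k)) / ((‖q (pr2 k) - q (pr1 k)‖ : ℝ) : ℂ) ^ 3 =
            ((1 / (L * dk x k) ^ 2 : ℝ) : ℂ) * U k := by
          intro k
          simp only [hq]
          rw [diff_eq h, force _ (mul_pos hL (dk_pos h k))]
        have fn : ∀ k, (q (pr1 k) - q (pr2 k)) / ((‖q (pr1 k) - q (pr2 k)‖ : ℝ) : ℂ) ^ 3 =
            -(((1 / (L * dk x k) ^ 2 : ℝ) : ℂ) * U k) := by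
          intro k
          rw [← fp, norm_sub_rev, ← neg_div, neg_sub]
        have hc : ∀ k, (m i : ℂ) * (L : ℂ) * ((x i : ℂ) * (ak m x k : ℂ) +
            (y i : ℂ) * ((ak m x k : ℂ) * (tk x y k : ℂ))) =
            (m (pr1 k) : ℂ) * (m (pr2 k) : ℂ) * ((1 / (L * dk x k) ^ 2 : ℝ) : ℂ) *
              (((if i = pr2 k then 1 else 0) - if i = pr1 k then 1 else 0 : ℝ) : ℂ) := by
          intro k
          exact_mod_cast coef h hL h3 i k
        have lhs : (m i : ℂ) * ((L : ℂ) * ((x i : ℂ) * (-∑ k, (ak m x k : ℂ) *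
            (Z1 s + (tk x y k : ℂ) * Z2 s) / ((‖Z1 s + (tk x y k : ℂ) * Z2 s‖ : ℝ) : ℂ) ^ 3) +
            (y i : ℂ) * (-∑ k, (ak m x k : ℂ) * (tk x y k : ℂ) * (Z1 s + (tk x y k : ℂ) * Z2 s) /
            ((‖Z1 s + (tk x y k : ℂ) * Z2 s‖ : ℝ) : ℂ) ^ 3))) =
            -∑ k, (m (pr1 k) : ℂ) * (m (pr2 k) : ℂ) * ((1 / (L * dk x k) ^ 2 : ℝ) : ℂ) *
              (((if i = pr2 k then 1 else 0) - if i = pr1 k then 1 else 0 : ℝ) : ℂ) * U k := by
          simp only [← hc, Fin.sum_univ_three, hU]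
          ring
        rw [lhs]
        change _ = ∑ j ∈ univ.erase i, (m i : ℂ) * (m j : ℂ) * (q j - q i) /
          ((‖q j - q i‖ : ℝ) : ℂ) ^ 3
        have p0 := fp 0
        have p1 := fp 1
        have p2 := fp 2
        have n0 := fn 0
        have n1 := fn 1
        have n2 := fn 2
        simp only [mul_div_assoc]
        rw [sum_erase_eq_sub (mem_univ i), sub_self (q i), zero_div, mul_zero, sub_zero]
        simp only [Fin.sum_univ_three]
        simp only [pr1, pr2, Matrix.cons_val_zero, Matrix.cons_val_one, Matrix.cons_val]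
          at p0 p1 p2 n0 n1 n2 ⊢
        fin_cases i
        · simp only [Fin.zero_eta, p0, p2, sub_self, zero_div]
          simp
          ring
        · simp only [Fin.mk_one, n0, p1, sub_self, zero_div]
          simp
          ring
        · simp only [Fin.reduceFinMk, n1, n2, sub_self, zero_div]
          simp
          ring
    · intro s w hw
      have hl : (L : ℂ) * Z1 s ≠ 0 := mul_ne_zero (Complex.ofReal_ne_zero.2 hL.ne') (hZ s).1
      simp only [shape, sh, hw, jac1_eq, jac2_eq]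
      rw [dir_mul hl]
      simp

end Pool.Agent.MP_1ba41f_an.K3
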