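import Mathlib
import Pool.Agent.MP_1ba41f_an.K3.Spec

/-! PROJECT KAM3, module DIO: Diophantine numbers are dense; Kronecker density. -/

noncomputable section

namespace Pool.Agent.MP_1ba41f_an.K3

namespace Dio

theorem norm_ge {A B : ℤ} (h : ¬ (A = 0 ∧ B = 0)) :
    (1 : ℝ) ≤ |(A : ℝ) + B * √2| * |(A : ℝ) - B * √2| := by
  have s2 : √2 * √2 = (2 : ℝ) := Real.mul_self_sqrt (by norm_num)
  have e : ((A : ℝ) + B * √2) * ((A : ℝ) - B * √2) = ((A ^ 2 - 2 * B ^ 2 : ℤ) : ℝ) := by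
    push_cast; linear_combination (-(B : ℝ) ^ 2) * s2
  have hne : ∀ C : ℤ, ¬ (A = 0 ∧ C = 0) → (A : ℝ) + C * √2 ≠ 0 := by
    intro C hC h0
    by_cases h1 : C = 0
    · rw [h1] at h0
      exact hC ⟨by simpa using h0, h1⟩
    · exact ((irrational_sqrt_two.intCast_mul h1).intCast_add A).ne_zero h0
  have h2 : (A ^ 2 - 2 * B ^ 2 : ℤ) ≠ 0 := by
    intro h0
    rw [h0, Int.cast_zero] at e
    rcases mul_eq_zero.1 e with h3 | h3
    · exact hne B h h3
    · refine hne (-B) (by simpa using h) ?_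
      push_cast; linear_combination h3
  rw [← abs_mul, e, ← Int.cast_abs]
  exact_mod_cast Int.one_le_abs h2

end Dio

open Dio in
theorem dio : DioStmt := by
  intro a b hab
  obtain ⟨n, hn⟩ := exists_nat_one_div_lt (sub_pos.2 hab)
  have hN : (0 : ℝ) < (n : ℝ) + 1 := by positivity
  rw [div_lt_iff₀ hN] at hn
  set P : ℤ := ⌊a * (n + 1) - √2⌋ + 1 with hP
  have p1 : a * (n + 1) - √2 < P := by rw [hP]; push_cast; exact Int.lt_floor_add_one _
  have p2 : (P : ℝ) ≤ a * (n + 1) - √2 + 1 := by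
    rw [hP]; push_cast; have := Int.floor_le (a * (n + 1) - √2); linarith
  have s1 : (0 : ℝ) ≤ √2 := Real.sqrt_nonneg _
  have s2 : √2 ≤ (2 : ℝ) := Real.sqrt_le_iff.2 ⟨by norm_num, by norm_num⟩
  have hC : (0 : ℝ) < (n : ℝ) + 1 + |(P : ℝ)| + 2 := by positivity
  refine ⟨(P + √2) / (n + 1), 1 / ((n + 1) * ((n : ℝ) + 1 + |(P : ℝ)| + 2)), ?_, ?_,
    ⟨by positivity, fun k hk => ?_⟩, ?_⟩
  · rw [lt_div_iff₀ hN]; linarith
  · rw [div_lt_iff₀ hN]; linarith
  · have h0 : ¬ (((n : ℤ) + 1) * k 0 + P * k 1 = 0 ∧ k 1 = 0) := by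
      rintro ⟨h1, h2⟩
      rw [h2, mul_zero, add_zero] at h1
      have h3 : k 0 = 0 := (mul_eq_zero.1 h1).resolve_left (by omega)
      exact hk (funext fun i => by fin_cases i; exacts [h3, h2])
    have h1 := norm_ge h0
    push_cast at h1
    have e : (k 0 : ℝ) + k 1 * ((P + √2) / (n + 1)) =
        (((n : ℝ) + 1) * k 0 + P * k 1 + k 1 * √2) / (n + 1) := by field_simp; ring
    have h2 : |((n : ℝ) + 1) * k 0 + P * k 1 - k 1 * √2| ≤ ((n : ℝ) + 1 + |(P : ℝ)| + 2) * sz k := by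
      have a0 := abs_nonneg (k 0 : ℝ)
      have a1 := abs_nonneg (k 1 : ℝ)
      have a2 := abs_nonneg (P : ℝ)
      calc _ ≤ |((n : ℝ) + 1) * k 0| + |(P : ℝ) * k 1| + |(k 1 : ℝ) * √2| :=
            (abs_sub _ _).trans (add_le_add_left (abs_add_le _ _) _)
        _ = ((n : ℝ) + 1) * |(k 0 : ℝ)| + |(P : ℝ)| * |(k 1 : ℝ)| + |(k 1 : ℝ)| * √2 := by
            rw [abs_mul, abs_mul, abs_mul, abs_of_pos hN, abs_of_nonneg s1]
        _ ≤ _ := by
            rw [sz, Fin.sum_univ_two]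
            nlinarith [mul_nonneg a0 a2, mul_nonneg a1 hN.le, mul_le_mul_of_nonneg_left s2 a1]
    rw [e, abs_div, abs_of_pos hN, div_mul_eq_mul_div, div_le_div_iff₀ (by positivity) hN]
    have h3 := h1.trans (mul_le_mul_of_nonneg_left h2 (abs_nonneg _))
    nlinarith
  · have := (irrational_sqrt_two.intCast_add P).div_natCast (Nat.succ_ne_zero n)
    simpa using this

theorem kron : KronStmt := by
  intro ρ X _ F hρ hF hp
  rintro _ ⟨θ, rfl⟩
  have hπ : (2 * Real.pi) ≠ 0 := by positivity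
  have p0 : Function.Periodic F (Pi.single 0 (2 * Real.pi)) := fun x => hp x 0
  have p1 : Function.Periodic F (Pi.single 1 (2 * Real.pi)) := fun x => hp x 1
  have hd : Dense (AddSubgroup.closure {ρ * (2 * Real.pi), 2 * Real.pi} : Set ℝ) :=
    dense_addSubgroupClosure_pair_iff.2 (by rwa [mul_div_cancel_right₀ _ hπ])
  have hc : Continuous fun x : ℝ => F ![θ 0, ρ * θ 0 + x] := hF.comp (by fun_prop)
  have key : ∀ x : ℝ, F ![θ 0, ρ * θ 0 + x] ∈ closure (Set.range fun t : ℝ => F ![t, ρ * t]) := by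
    intro x
    refine hd.induction (P := fun x => F ![θ 0, ρ * θ 0 + x] ∈
      closure (Set.range fun t : ℝ => F ![t, ρ * t])) (fun z hz => ?_)
      (isClosed_closure.preimage hc) x
    obtain ⟨m, n, rfl⟩ := AddSubgroup.mem_closure_pair.1 hz
    refine subset_closure ⟨θ 0 + m * (2 * Real.pi), ?_⟩
    have e : (![θ 0 + m * (2 * Real.pi), ρ * (θ 0 + m * (2 * Real.pi))] : Fin 2 → ℝ) +
        n • (Pi.single 1 (2 * Real.pi) : Fin 2 → ℝ) =
        ![θ 0, ρ * θ 0 + (m • (ρ * (2 * Real.pi)) + n • (2 * Real.pi))] +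
        m • (Pi.single 0 (2 * Real.pi) : Fin 2 → ℝ) := by
      funext j
      fin_cases j
      · simp
      · simp; ring
    show F _ = F _
    rw [← p1.zsmul n, e, p0.zsmul m]
  have e : θ = ![θ 0, ρ * θ 0 + (θ 1 - ρ * θ 0)] := by
    funext j
    fin_cases j <;> simp
  rw [e]
  exact key _

end Pool.Agent.MP_1ba41f_an.K3
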