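import Mathlib
import Pool.Agent.MP_1ba41f_an.K3.Spec

/-! PROJECT KAM3, module EIG: eigenvalues and the second order normal form coefficient. -/

noncomputable section
open Finset Matrix Complex

namespace Pool.Agent.MP_1ba41f_an.K3
namespace Eig

/-- right eigenvector -/
def rv (m h : ℂ) : Fin 4 → ℂ := ![2 * m, h, 2 * m ^ 2, m * h]
/-- normalisation -/
def nn (l m h : ℂ) : ℂ := 2 * m * (4 * l - h ^ 2)
/-- left eigenvector -/
def lv (l m h : ℂ) : Fin 4 → ℂ :=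
  ![(2 * m ^ 2 - 2 * h) / nn l m h, (-(m * h) - 4 * m) / nn l m h, 2 * m / nn l m h, -h / nn l m h]

/-- `m` is a simple eigenvalue, `h = m ^ 2 - l1` -/
structure Root (β : ℝ) (m h : ℂ) : Prop where
  hh : h = m ^ 2 - (2 * β + 3)
  ch : (m ^ 2 + β) * h + 4 * m ^ 2 = 0
  ne : nn (2 * β + 3) m h ≠ 0

theorem right {β : ℝ} {m h : ℂ} (r : Root β m h) (i : Fin 4) :
    ∑ k, Amat β (1 : ℂ) i k * rv m h k = rv m h i * m := by
  have h1 := r.hh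
  have h2 := r.ch
  fin_cases i <;> simp [Amat, rv, Fin.sum_univ_four]
  · ring
  · ring
  · linear_combination (2 * m) * h1
  · linear_combination -h2

theorem dot_self {β : ℝ} {m h : ℂ} (r : Root β m h) :
    ∑ k, lv (2 * β + 3) m h k * rv m h k = 1 := by
  have h1 := r.hh
  have h3 := r.ne
  simp [lv, rv, Fin.sum_univ_four]
  field_simp
  unfold nn
  linear_combination (-8 * m) * h1

theorem dot_ne {β : ℝ} {m h m' h' : ℂ} (r : Root β m h) (r' : Root β m' h') (hne : m ≠ m') :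
    ∑ k, lv (2 * β + 3) m h k * rv m' h' k = 0 := by
  have h1 := r.hh
  have h2 := r.ch
  have h3 := r.ne
  have h1' := r'.hh
  have h2' := r'.ch
  have key : (m - m') * ((2 * m ^ 2 - 2 * h) * (2 * m') + (-(m * h) - 4 * m) * h' +
      2 * m * (2 * m' ^ 2) + -h * (m' * h')) = 0 := by
    linear_combination (-4 * m * m') * h1 + (4 * m * m') * h1' - h' * h2 + h * h2'
  have key2 := (mul_eq_zero.1 key).resolve_left (sub_ne_zero.2 hne)
  simp [lv, rv, Fin.sum_univ_four]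
  field_simp
  linear_combination key2

/-- entries of the perturbation in the eigenbasis -/
def Mf (l1 l2 m h m' h' : ℂ) : ℂ := (4 * m * m' * l1 - l2 * h * h') / nn l1 m h

theorem entry (β : ℝ) (m h : Fin 4 → ℂ) (a j : Fin 4) :
    ((Matrix.of fun a i => lv (2 * β + 3) (m a) (h a) i) * Dhat ℂ β *
      (Matrix.of fun i j => rv (m j) (h j) i) : Matrix (Fin 4) (Fin 4) ℂ) a j =
      Mf (2 * β + 3) (-β) (m a) (h a) (m j) (h j) := by
  simp [Matrix.mul_apply, Fin.sum_univ_four, Dhat, lv, rv, Mf]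
  ring

/-- the real part of the computation -/
def Th (W L l1 l2 h k : ℝ) : ℝ :=
  (-4 * W * l1 - l2 * h ^ 2) / 2 +
    (4 * W * l1 - l2 * h ^ 2) ^ 2 / (2 * (4 * W - 1) * (4 * l1 - h ^ 2)) -
    (2 * ((l2 * h * k) ^ 2 - 16 * W * L * l1 ^ 2 + 8 * l1 * (l2 * h * k) * W) * (W + 1 + L) -
      4 * (8 * l1 * (l2 * h * k)) * W) / (4 * ((W + 1 + L) ^ 2 - 4 * W) * (4 * l1 - k ^ 2))

theorem inv_lin (σ x : ℝ) (hx : x ≠ 0) :
    1 / (I * σ + x) = (x - I * σ) / ((σ ^ 2 + x ^ 2 : ℝ) : ℂ) := by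
  have h0 : (σ ^ 2 + x ^ 2 : ℝ) ≠ 0 := by positivity
  have h1 : ((σ ^ 2 + x ^ 2 : ℝ) : ℂ) ≠ 0 := by exact_mod_cast h0
  have h2 : (I * σ + x) * (x - I * σ) = ((σ ^ 2 + x ^ 2 : ℝ) : ℂ) := by
    push_cast; linear_combination (-(σ : ℂ) ^ 2) * I_sq
  have h3 : (I * σ + x : ℂ) ≠ 0 := by
    intro h; rw [h, zero_mul] at h2; exact h1 h2.symm
  rw [div_eq_div_iff h3 h1, ← h2]; ring

theorem pair (σ w x l B : ℝ) (hx : x ≠ 0) :
    (4 * (I * w) * x * l - B) ^ 2 * (1 / (I * σ + (-x : ℝ))) -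
      (4 * (I * w) * x * l + B) ^ 2 * (1 / (I * σ + x)) =
      ((-(2 * x * (B ^ 2 - 16 * w ^ 2 * x ^ 2 * l ^ 2 + 8 * w * l * B * σ)) /
        (σ ^ 2 + x ^ 2) : ℝ) : ℂ) := by
  rw [inv_lin σ x hx, inv_lin σ (-x) (neg_ne_zero.2 hx), neg_sq]
  have h0 : (σ ^ 2 + x ^ 2 : ℝ) ≠ 0 := by positivity
  have h1 : ((σ ^ 2 + x ^ 2 : ℝ) : ℂ) ≠ 0 := by exact_mod_cast h0
  rw [ofReal_div, ← mul_div_assoc, ← mul_div_assoc, ← sub_div]
  congr 1
  push_cast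
  linear_combination (-32 * (w : ℂ) ^ 2 * x ^ 3 * l ^ 2 + 16 * w * x * l * B * σ) * I_sq

theorem value (w x l1 l2 h k : ℝ) (hw : 1 < w ^ 2) (hx : x ≠ 0) (hp : 4 * l1 - h ^ 2 ≠ 0)
    (hq : 4 * l1 - k ^ 2 ≠ 0) :
    Mf l1 l2 (I * w) h (I * w) h / 2 + (1 / 4) *
      (Mf l1 l2 (I * w) h (-(I * w)) h * Mf l1 l2 (-(I * w)) h (I * w) h *
          (1 / (I * w - -(I * w) + I) + 1 / (I * w - -(I * w) - I)) +
        Mf l1 l2 (I * w) h x k * Mf l1 l2 x k (I * w) h *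
          (1 / (I * w - x + I) + 1 / (I * w - x - I)) +
        Mf l1 l2 (I * w) h (-x) k * Mf l1 l2 (-x) k (I * w) h *
          (1 / (I * w - -x + I) + 1 / (I * w - -x - I))) =
      I * ((Th (w ^ 2) (x ^ 2) l1 l2 h k / (2 * w * (h ^ 2 - 4 * l1)) : ℝ) : ℂ) := by
  have hw0 : w ≠ 0 := by rintro rfl; norm_num at hw
  have ha : 2 * w + 1 ≠ 0 := by intro h0; nlinarith
  have hb : 2 * w - 1 ≠ 0 := by intro h0; nlinarith
  have hc : (w + 1) ^ 2 + x ^ 2 ≠ 0 := by positivity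
  have hd : (w - 1) ^ 2 + x ^ 2 ≠ 0 := by positivity
  have p1 := pair (w + 1) w x l1 (l2 * h * k) hx
  have p2 := pair (w - 1) w x l1 (l2 * h * k) hx
  have e1 : (I * w - x + I : ℂ) = I * ((w + 1 : ℝ) : ℂ) + ((-x : ℝ) : ℂ) := by push_cast; ring
  have e2 : (I * w - x - I : ℂ) = I * ((w - 1 : ℝ) : ℂ) + ((-x : ℝ) : ℂ) := by push_cast; ring
  have e3 : (I * w - -x + I : ℂ) = I * ((w + 1 : ℝ) : ℂ) + x := by push_cast; ring
  have e4 : (I * w - -x - I : ℂ) = I * ((w - 1 : ℝ) : ℂ) + x := by push_cast; ring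
  rw [e1, e2, e3, e4]
  set a1 := 1 / (I * ((w + 1 : ℝ) : ℂ) + ((-x : ℝ) : ℂ))
  set a2 := 1 / (I * ((w - 1 : ℝ) : ℂ) + ((-x : ℝ) : ℂ))
  set a3 := 1 / (I * ((w + 1 : ℝ) : ℂ) + x)
  set a4 := 1 / (I * ((w - 1 : ℝ) : ℂ) + x)
  have cw : (w : ℂ) ≠ 0 := by exact_mod_cast hw0
  have cx : (x : ℂ) ≠ 0 := by exact_mod_cast hx
  have cp : (4 * l1 - h ^ 2 : ℂ) ≠ 0 := by exact_mod_cast hp
  have cq : (4 * l1 - k ^ 2 : ℂ) ≠ 0 := by exact_mod_cast hq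
  have ca : (2 * w + 1 : ℂ) ≠ 0 := by exact_mod_cast ha
  have cb : (2 * w - 1 : ℂ) ≠ 0 := by exact_mod_cast hb
  have hI : (I : ℂ) ≠ 0 := I_ne_zero
  set P1 : ℝ := -(2 * x * ((l2 * h * k) ^ 2 - 16 * w ^ 2 * x ^ 2 * l1 ^ 2 +
    8 * w * l1 * (l2 * h * k) * (w + 1))) / ((w + 1) ^ 2 + x ^ 2) with hP1
  set P2 : ℝ := -(2 * x * ((l2 * h * k) ^ 2 - 16 * w ^ 2 * x ^ 2 * l1 ^ 2 +
    8 * w * l1 * (l2 * h * k) * (w - 1))) / ((w - 1) ^ 2 + x ^ 2) with hP2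
  have t23 : Mf l1 l2 (I * w) h x k * Mf l1 l2 x k (I * w) h * (a1 + a2) +
      Mf l1 l2 (I * w) h (-x) k * Mf l1 l2 (-x) k (I * w) h * (a3 + a4) =
      ((P1 : ℂ) + P2) / (nn l1 (I * w) h * nn l1 x k) := by
    rw [← p1, ← p2]
    unfold Mf nn
    push_cast
    field_simp
    ring
  have t1 : Mf l1 l2 (I * w) h (-(I * w)) h * Mf l1 l2 (-(I * w)) h (I * w) h *
      (1 / (I * w - -(I * w) + I) + 1 / (I * w - -(I * w) - I)) =
      (2 * (4 * w ^ 2 * l1 - l2 * h ^ 2) ^ 2 / ((2 * w + 1) * (2 * w - 1) * (4 * l1 - h ^ 2))) /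
        nn l1 (I * w) h := by
    have f1 : (I * w - -(I * w) + I : ℂ) = I * (2 * w + 1) := by ring
    have f2 : (I * w - -(I * w) - I : ℂ) = I * (2 * w - 1) := by ring
    have f3 : (4 * (I * w) * -(I * w) * l1 - l2 * h * h : ℂ) = 4 * w ^ 2 * l1 - l2 * h ^ 2 := by
      linear_combination (-4 * (w : ℂ) ^ 2 * l1) * I_sq
    have f4 : (4 * -(I * w) * (I * w) * l1 - l2 * h * h : ℂ) = 4 * w ^ 2 * l1 - l2 * h ^ 2 := by
      linear_combination (-4 * (w : ℂ) ^ 2 * l1) * I_sq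
    rw [f1, f2]
    unfold Mf
    rw [f3, f4]
    unfold nn
    generalize (4 * w ^ 2 * l1 - l2 * h ^ 2 : ℂ) = Q
    field_simp
    linear_combination (-4 * Q ^ 2 * w) * I_sq
  have t0 : Mf l1 l2 (I * w) h (I * w) h = (-4 * w ^ 2 * l1 - l2 * h ^ 2) / nn l1 (I * w) h := by
    unfold Mf
    congr 1
    linear_combination (4 * (w : ℂ) ^ 2 * l1) * I_sq
  have hT : Th (w ^ 2) (x ^ 2) l1 l2 h k = (-4 * w ^ 2 * l1 - l2 * h ^ 2) / 2 + (1 / 4) *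
      (2 * (4 * w ^ 2 * l1 - l2 * h ^ 2) ^ 2 / ((2 * w + 1) * (2 * w - 1) * (4 * l1 - h ^ 2)) +
        (P1 + P2) / (2 * x * (4 * l1 - k ^ 2))) := by
    have g1 : 4 * w ^ 2 - 1 = (2 * w + 1) * (2 * w - 1) := by ring
    have g2 : (w ^ 2 + 1 + x ^ 2) ^ 2 - 4 * w ^ 2 =
        ((w + 1) ^ 2 + x ^ 2) * ((w - 1) ^ 2 + x ^ 2) := by ring
    unfold Th
    rw [g1, g2, hP1, hP2]
    field_simp
    ring
  rw [add_assoc, t23, t1, t0, hT]
  have cp' : (h ^ 2 - 4 * l1 : ℂ) ≠ 0 := by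
    intro h0; apply cp; linear_combination -h0
  unfold nn
  push_cast
  generalize (2 * (4 * (w : ℂ) ^ 2 * l1 - l2 * h ^ 2) ^ 2 /
    ((2 * w + 1) * (2 * w - 1) * (4 * l1 - h ^ 2))) = X
  generalize (-4 * (w : ℂ) ^ 2 * l1 - l2 * h ^ 2) = Y
  generalize ((P1 : ℂ) + P2) = Z
  have e5 : (h ^ 2 - 4 * l1 : ℂ) = -(4 * l1 - h ^ 2) := by ring
  rw [e5]
  generalize (4 * l1 - h ^ 2 : ℂ) = p at *
  generalize (4 * l1 - k ^ 2 : ℂ) = q at *
  field_simp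
  linear_combination (4 * Y * x * q + 2 * X * x * q + Z) * I_sq

theorem param {β : ℝ} (hβ : 0 < β) : ∃ u : ℝ, 0 < u ∧ β = (1 + u) / (u * (3 + 4 * u)) := by
  have hc : ContinuousOn (fun u : ℝ => β * (u * (3 + 4 * u)) - (1 + u)) (Set.Icc 0 (1 + 1 / β)) := by
    fun_prop
  have hb : (0 : ℝ) < 1 / β := by positivity
  have h1 : β * (1 / β) = 1 := by field_simp
  obtain ⟨u, ⟨hu0, -⟩, hu⟩ := intermediate_value_Icc (by linarith : (0 : ℝ) ≤ 1 + 1 / β) hc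
    (show (0 : ℝ) ∈ Set.Icc _ _ from ⟨by simp, by
      show (0 : ℝ) ≤ β * ((1 + 1 / β) * (3 + 4 * (1 + 1 / β))) - (1 + (1 + 1 / β))
      generalize 1 / β = c at *
      have : β * ((1 + c) * (3 + 4 * (1 + c))) = 7 * β + 11 + 4 * c := by
        linear_combination (11 + 4 * c) * h1
      rw [this]; linarith⟩)
  simp only at hu
  have hu1 : 0 < u := by
    rcases hu0.eq_or_lt with h | h
    · subst h; norm_num at hu
    · exact h
  refine ⟨u, hu1, ?_⟩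
  field_simp
  linarith

theorem Th_ne {u : ℝ} (hu : 0 < u) :
    Th ((1 + u) * (1 + 4 * u) / (u * (3 + 4 * u))) ((2 + 3 * u) / (u * (3 + 4 * u)))
      ((1 + 4 * u) * (2 + 3 * u) / (u * (3 + 4 * u))) (-((1 + u) / (u * (3 + 4 * u))))
      (-((1 + 4 * u) / u)) (-(4 * (2 + 3 * u) / (3 + 4 * u))) ≠ 0 := by
  have h1 : 4 * ((1 + u) * (1 + 4 * u) / (u * (3 + 4 * u))) - 1 =
      (4 + 17 * u + 12 * u ^ 2) / (u * (3 + 4 * u)) := by field_simp; ring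
  have h2 : ((1 + u) * (1 + 4 * u) / (u * (3 + 4 * u)) + 1 + (2 + 3 * u) / (u * (3 + 4 * u))) ^ 2 -
      4 * ((1 + u) * (1 + 4 * u) / (u * (3 + 4 * u))) =
      3 * (1 + u) * (3 + 15 * u + 16 * u ^ 2) / (u * (3 + 4 * u)) ^ 2 := by field_simp; ring
  have h3 : 4 * ((1 + 4 * u) * (2 + 3 * u) / (u * (3 + 4 * u))) - (-((1 + 4 * u) / u)) ^ 2 =
      -((1 + 4 * u) * (1 + 2 * u) * (3 + 2 * u) / (u ^ 2 * (3 + 4 * u))) := by field_simp; ring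
  have h4 : 4 * ((1 + 4 * u) * (2 + 3 * u) / (u * (3 + 4 * u))) -
      (-(4 * (2 + 3 * u) / (3 + 4 * u))) ^ 2 =
      4 * (2 + 3 * u) * (1 + 2 * u) * (3 + 2 * u) / (u * (3 + 4 * u) ^ 2) := by field_simp; ring
  have key : Th ((1 + u) * (1 + 4 * u) / (u * (3 + 4 * u))) ((2 + 3 * u) / (u * (3 + 4 * u)))
      ((1 + 4 * u) * (2 + 3 * u) / (u * (3 + 4 * u))) (-((1 + u) / (u * (3 + 4 * u))))
      (-((1 + 4 * u) / u)) (-(4 * (2 + 3 * u) / (3 + 4 * u))) =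
      (1 + 4 * u) * (1 + 2 * u) * (27 + 324 * u + 1479 * u ^ 2 + 3222 * u ^ 3 + 3432 * u ^ 4 +
        1584 * u ^ 5 + 192 * u ^ 6) / (2 * u ^ 3 * (3 + 4 * u) ^ 2 * (4 + 17 * u + 12 * u ^ 2) *
        (3 + 15 * u + 16 * u ^ 2)) := by
    unfold Th
    rw [h1, h2, h3, h4]
    field_simp
    ring
  rw [key]; positivity

end Eig

open Eig in
theorem eig : EigStmt := by
  intro β hβ
  obtain ⟨u, hu, hb⟩ := param hβ
  have hT := Th_ne hu
  obtain ⟨W, hW⟩ : ∃ W : ℝ, W = (1 + u) * (1 + 4 * u) / (u * (3 + 4 * u)) := ⟨_, rfl⟩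
  obtain ⟨L, hL⟩ : ∃ L : ℝ, L = (2 + 3 * u) / (u * (3 + 4 * u)) := ⟨_, rfl⟩
  obtain ⟨h, hh⟩ : ∃ h : ℝ, h = -((1 + 4 * u) / u) := ⟨_, rfl⟩
  obtain ⟨k, hk⟩ : ∃ k : ℝ, k = -(4 * (2 + 3 * u) / (3 + 4 * u)) := ⟨_, rfl⟩
  have hl : (1 + 4 * u) * (2 + 3 * u) / (u * (3 + 4 * u)) = 2 * β + 3 := by
    rw [hb]; field_simp; ring
  rw [hl, ← hb, ← hW, ← hL, ← hh, ← hk] at hT
  have hW1 : 1 < W := by
    rw [hW, lt_div_iff₀ (by positivity)]; nlinarith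
  have hL0 : 0 < L := by rw [hL]; positivity
  have a1 : h = -W - (2 * β + 3) := by rw [hh, hW, hb]; field_simp; ring
  have a2 : (-W + β) * h - 4 * W = 0 := by rw [hh, hW, hb]; field_simp; ring
  have a3 : k = L - (2 * β + 3) := by rw [hk, hL, hb]; field_simp; ring
  have a4 : (L + β) * k + 4 * L = 0 := by rw [hk, hL, hb]; field_simp; ring
  have hp : 4 * (2 * β + 3) - h ^ 2 ≠ 0 := by
    have : 4 * (2 * β + 3) - h ^ 2 =
        -((1 + 4 * u) * (1 + 2 * u) * (3 + 2 * u) / (u ^ 2 * (3 + 4 * u))) := by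
      rw [hh, hb]; field_simp; ring
    rw [this, neg_ne_zero]; positivity
  have hq : 4 * (2 * β + 3) - k ^ 2 ≠ 0 := by
    have : 4 * (2 * β + 3) - k ^ 2 =
        4 * (2 + 3 * u) * (1 + 2 * u) * (3 + 2 * u) / (u * (3 + 4 * u) ^ 2) := by
      rw [hk, hb]; field_simp; ring
    rw [this]; positivity
  obtain ⟨w, hw1, hw⟩ : ∃ w : ℝ, 1 < w ∧ w ^ 2 = W :=
    ⟨√W, by rw [Real.lt_sqrt (by norm_num)]; linarith, Real.sq_sqrt (by linarith)⟩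
  obtain ⟨x, hx0, hx⟩ : ∃ x : ℝ, 0 < x ∧ x ^ 2 = L :=
    ⟨√L, Real.sqrt_pos.2 hL0, Real.sq_sqrt hL0.le⟩
  subst hw hx
  have cw : (w : ℂ) ≠ 0 := by exact_mod_cast (by linarith : w ≠ 0)
  have cx : (x : ℂ) ≠ 0 := by exact_mod_cast hx0.ne'
  have cp : (4 * (2 * β + 3) - h ^ 2 : ℂ) ≠ 0 := by exact_mod_cast hp
  have cq : (4 * (2 * β + 3) - k ^ 2 : ℂ) ≠ 0 := by exact_mod_cast hq
  have b1 : (h : ℂ) = -w ^ 2 - (2 * β + 3) := by exact_mod_cast a1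
  have b2 : (-w ^ 2 + β : ℂ) * h - 4 * w ^ 2 = 0 := by exact_mod_cast a2
  have b3 : (k : ℂ) = x ^ 2 - (2 * β + 3) := by exact_mod_cast a3
  have b4 : (x ^ 2 + β : ℂ) * k + 4 * x ^ 2 = 0 := by exact_mod_cast a4
  let hv : Fin 4 → ℂ := ![h, h, k, k]
  have rt : ∀ j, Root β (muE w x j) (hv j) := by
    intro j
    fin_cases j
    · refine ⟨?_, ?_, ?_⟩
      · show (h : ℂ) = (I * w) ^ 2 - (2 * β + 3)
        linear_combination b1 - (w : ℂ) ^ 2 * I_sq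
      · show ((I * w) ^ 2 + β : ℂ) * h + 4 * (I * w) ^ 2 = 0
        linear_combination b2 + ((w : ℂ) ^ 2 * h + 4 * w ^ 2) * I_sq
      · exact mul_ne_zero (mul_ne_zero two_ne_zero (mul_ne_zero I_ne_zero cw)) cp
    · refine ⟨?_, ?_, ?_⟩
      · show (h : ℂ) = (-(I * w)) ^ 2 - (2 * β + 3)
        linear_combination b1 - (w : ℂ) ^ 2 * I_sq
      · show ((-(I * w)) ^ 2 + β : ℂ) * h + 4 * (-(I * w)) ^ 2 = 0
        linear_combination b2 + ((w : ℂ) ^ 2 * h + 4 * w ^ 2) * I_sq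
      · exact mul_ne_zero (mul_ne_zero two_ne_zero (neg_ne_zero.2 (mul_ne_zero I_ne_zero cw))) cp
    · exact ⟨b3, b4, mul_ne_zero (mul_ne_zero two_ne_zero cx) cq⟩
    · refine ⟨?_, ?_, ?_⟩
      · show (k : ℂ) = (-x) ^ 2 - (2 * β + 3)
        linear_combination b3
      · show ((-x) ^ 2 + β : ℂ) * k + 4 * (-x) ^ 2 = 0
        linear_combination b4
      · exact mul_ne_zero (mul_ne_zero two_ne_zero (neg_ne_zero.2 cx)) cq
  have inj : ∀ a j, a ≠ j → muE w x a ≠ muE w x j := by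
    intro a j haj he
    have h1 := congrArg Complex.re he
    have h2 := congrArg Complex.im he
    fin_cases a <;> fin_cases j <;> simp [muE] at h1 h2 haj <;> linarith
  have hne : h ^ 2 - 4 * (2 * β + 3) ≠ 0 := by intro h0; apply hp; linarith
  have hw2 : 1 < w ^ 2 := hW1
  have cl : ((2 * β + 3 : ℝ) : ℂ) = 2 * β + 3 := by push_cast; ring
  refine ⟨w, x, Th (w ^ 2) (x ^ 2) (2 * β + 3) (-β) h k / (2 * w * (h ^ 2 - 4 * (2 * β + 3))),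
    Matrix.of fun i j => rv (muE w x j) (hv j) i,
    Matrix.of fun a i => lv (2 * β + 3) (muE w x a) (hv a) i, hw1, hx0, ?_, ?_, ?_, ?_, ?_⟩
  · exact div_ne_zero hT (mul_ne_zero (by linarith) hne)
  · rw [mul_eq_one_comm]
    ext a j
    rw [Matrix.mul_apply, Matrix.one_apply]
    split_ifs with haj
    · subst haj; exact dot_self (rt a)
    · exact dot_ne (rt a) (rt j) (inj a j haj)
  · ext i j
    rw [Matrix.mul_diagonal, Matrix.mul_apply]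
    exact right (rt j) i
  · have hv0 := value w x (2 * β + 3) (-β) h k hw2 hx0.ne' hp hq
    rw [cl, ofReal_neg] at hv0
    rw [← hv0]
    unfold nfc
    simp only [entry, Fin.sum_univ_four]
    simp [muE, hv]
  · have hv0 := value (-w) x (2 * β + 3) (-β) h k (by rwa [neg_sq]) hx0.ne' hp hq
    rw [cl, ofReal_neg, ofReal_neg, neg_sq, mul_neg, neg_neg] at hv0
    have e : -(I * ((Th (w ^ 2) (x ^ 2) (2 * β + 3) (-β) h k /
        (2 * w * (h ^ 2 - 4 * (2 * β + 3))) : ℝ) : ℂ)) =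
        I * ((Th (w ^ 2) (x ^ 2) (2 * β + 3) (-β) h k /
        (2 * -w * (h ^ 2 - 4 * (2 * β + 3))) : ℝ) : ℂ) := by
      rw [mul_neg 2 w, neg_mul, div_neg, ofReal_neg, mul_neg]
    rw [e, ← hv0]
    unfold nfc
    simp only [entry, Fin.sum_univ_four]
    simp [muE, hv]

end Pool.Agent.MP_1ba41f_an.K3
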