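import Mathlib
import Pool.Agent.MP_1ba41f_an.K3.Spec

/-! PROJECT KAM3: the Euler configuration. -/

noncomputable section
open Finset

namespace Pool.Agent.MP_1ba41f_an.K3

namespace Euler

/-- the ratio of the gaps -/
theorem ratio (m0 m1 m2 : ℝ) (h0 : 0 < m0) (h1 : 0 < m1) (h2 : 0 < m2) :
    ∃ r : ℝ, 0 < r ∧ r < 1 ∧ -((m0 + m1 * (1 - r)) * (1 - r) ^ 2) + (m1 * r + m2) * r ^ 2 +
      (m0 * r - m2 * (1 - r)) * (r ^ 2 * (1 - r) ^ 2) = 0 := by
  have hc : ContinuousOn (fun r : ℝ => -((m0 + m1 * (1 - r)) * (1 - r) ^ 2) +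
      (m1 * r + m2) * r ^ 2 + (m0 * r - m2 * (1 - r)) * (r ^ 2 * (1 - r) ^ 2)) (Set.Icc 0 1) := by
    fun_prop
  have := intermediate_value_Ioo (zero_le_one' ℝ) hc
  obtain ⟨r, hr, he⟩ := this (show (0 : ℝ) ∈ Set.Ioo _ _ from ⟨by norm_num; linarith,
    by norm_num; linarith⟩)
  exact ⟨r, hr.1, hr.2, he⟩

/-- the gaps, normalised -/
theorem gaps (m0 m1 m2 : ℝ) (h0 : 0 < m0) (h1 : 0 < m1) (h2 : 0 < m2) :
    ∃ p q : ℝ, 0 < p ∧ 0 < q ∧
      m0 * m1 * p ^ 2 + m1 * m2 * q ^ 2 + m0 * m2 * (p + q) ^ 2 = m0 + m1 + m2 ∧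
      -((m0 * (p + q) + m1 * q) * (q ^ 2 * (p + q) ^ 2)) +
        (m1 * p + m2 * (p + q)) * (p ^ 2 * (p + q) ^ 2) +
        (m0 * p - m2 * q) * (p ^ 2 * q ^ 2) = 0 := by
  obtain ⟨r, hr0, hr1, he⟩ := ratio m0 m1 m2 h0 h1 h2
  have hq : 0 < 1 - r := by linarith
  set S : ℝ := m0 * m1 * r ^ 2 + m1 * m2 * (1 - r) ^ 2 + m0 * m2 with hS
  have hS0 : 0 < S := by positivity
  have hM : 0 < (m0 + m1 + m2) / S := by positivity
  set s : ℝ := √((m0 + m1 + m2) / S) with hs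
  have hs0 : 0 < s := Real.sqrt_pos.2 hM
  have hs2 : s ^ 2 * S = m0 + m1 + m2 := by
    rw [hs, Real.sq_sqrt hM.le]; field_simp
  refine ⟨s * r, s * (1 - r), by positivity, by positivity, ?_, ?_⟩
  · rw [← hs2, hS]; ring
  · linear_combination s ^ 5 * he

theorem kap_gt (m0 m1 m2 p q c μ : ℝ) (h0 : 0 < m0) (h1 : 0 < m1) (h2 : 0 < m2) (hp : 0 < p)
    (hq : 0 < q)
    (hn : m0 * m1 * p ^ 2 + m1 * m2 * q ^ 2 + m0 * m2 * (p + q) ^ 2 = m0 + m1 + m2)
    (he : -((m0 * (p + q) + m1 * q) * (q ^ 2 * (p + q) ^ 2)) +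
        (m1 * p + m2 * (p + q)) * (p ^ 2 * (p + q) ^ 2) +
        (m0 * p - m2 * q) * (p ^ 2 * q ^ 2) = 0)
    (hc : c ^ 2 * (m0 + m1 + m2) = m0 * m1 * m2)
    (hμ : μ = m0 * m1 / p + m1 * m2 / q + m0 * m2 / (p + q)) :
    μ < m0 * m1 / p * ((c * (-(p + q) / m1) - c * (q / m0)) / p) ^ 2 +
      m1 * m2 / q * ((c * (p / m2) - c * (-(p + q) / m1)) / q) ^ 2 +
      m0 * m2 / (p + q) * ((c * (p / m2) - c * (q / m0)) / (p + q)) ^ 2 := by
  have hM : 0 < m0 + m1 + m2 := by positivity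
  have hc' : c ^ 2 = m0 * m1 * m2 / (m0 + m1 + m2) := by field_simp; linarith
  have hd : 0 < p + q := by positivity
  have e0 : (c * (-(p + q) / m1) - c * (q / m0)) ^ 2 = (m0 + m1) / (m0 * m1) - p ^ 2 := by
    rw [← mul_sub, mul_pow, hc']; field_simp
    linear_combination (m0 + m1) * hn
  have e1 : (c * (p / m2) - c * (-(p + q) / m1)) ^ 2 = (m1 + m2) / (m1 * m2) - q ^ 2 := by
    rw [← mul_sub, mul_pow, hc']; field_simp
    linear_combination (m1 + m2) * hn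
  have e2 : (c * (p / m2) - c * (q / m0)) ^ 2 = (m0 + m2) / (m0 * m2) - (p + q) ^ 2 := by
    rw [← mul_sub, mul_pow, hc']; field_simp
    linear_combination (m0 + m2) * hn
  rw [div_pow _ p, div_pow _ q, div_pow _ (p + q), e0, e1, e2]
  have f : m0 * m1 / p * (((m0 + m1) / (m0 * m1) - p ^ 2) / p ^ 2) +
      m1 * m2 / q * (((m1 + m2) / (m1 * m2) - q ^ 2) / q ^ 2) +
      m0 * m2 / (p + q) * (((m0 + m2) / (m0 * m2) - (p + q) ^ 2) / (p + q) ^ 2) =
      (m0 + m1) / p ^ 3 + (m1 + m2) / q ^ 3 + (m0 + m2) / (p + q) ^ 3 - μ := by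
    rw [hμ]; field_simp; ring
  rw [f]
  set A : ℝ := (m0 + m1) / p ^ 2 + m2 / (p + q) ^ 2 - m2 / q ^ 2 with hA
  set B : ℝ := (m1 + m2) / q ^ 2 + m0 / (p + q) ^ 2 - m0 / p ^ 2 with hB
  have hAB : q * A = p * B := by
    rw [hA, hB]; field_simp
    linear_combination (-1) * he
  have hsum : m0 * m1 * p * A + m1 * m2 * q * B + m0 * m2 * (p + q) * (A + B) =
      (m0 + m1 + m2) * μ := by
    rw [hA, hB, hμ]; field_simp; ring
  have hAp : A = μ * p := by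
    have : (m0 + m1 + m2) * A = (m0 + m1 + m2) * (μ * p) := by
      linear_combination p * hsum - A * hn + (m1 * m2 * q + m0 * m2 * (p + q)) * hAB
    exact mul_left_cancel₀ hM.ne' this
  have hBq : B = μ * q := by
    have : p * B = p * (μ * q) := by rw [← hAB, hAp]; ring
    exact mul_left_cancel₀ hp.ne' this
  have g0 : m2 / (p + q) ^ 2 < m2 / q ^ 2 :=
    div_lt_div_of_pos_left h2 (by positivity)
      (pow_lt_pow_left₀ (lt_add_of_pos_left q hp) hq.le two_ne_zero)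
  have g1 : m0 / (p + q) ^ 2 < m0 / p ^ 2 :=
    div_lt_div_of_pos_left h0 (by positivity)
      (pow_lt_pow_left₀ (lt_add_of_pos_right p hq) hp.le two_ne_zero)
  have k0 : μ < (m0 + m1) / p ^ 3 := by
    have : μ * p < (m0 + m1) / p ^ 2 := by linarith
    rw [lt_div_iff₀ (by positivity)] at this ⊢
    linear_combination this
  have k1 : μ < (m1 + m2) / q ^ 3 := by
    have : μ * q < (m1 + m2) / q ^ 2 := by linarith
    rw [lt_div_iff₀ (by positivity)] at this ⊢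
    linear_combination this
  have k2 : 0 < (m0 + m2) / (p + q) ^ 3 := by positivity
  linarith

end Euler

theorem euler : EulerStmt := by
  intro m hm
  have h0 := hm 0
  have h1 := hm 1
  have h2 := hm 2
  obtain ⟨p, q, hp, hq, hn, he⟩ := Euler.gaps (m 0) (m 1) (m 2) h0 h1 h2
  have hM : 0 < m 0 + m 1 + m 2 := by positivity
  have hd : 0 < p + q := by positivity
  have hc0 : 0 < m 0 * m 1 * m 2 / (m 0 + m 1 + m 2) := by positivity
  obtain ⟨c, hc⟩ : ∃ c : ℝ, c ^ 2 * (m 0 + m 1 + m 2) = m 0 * m 1 * m 2 :=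
    ⟨√(m 0 * m 1 * m 2 / (m 0 + m 1 + m 2)), by rw [Real.sq_sqrt hc0.le]; field_simp⟩
  obtain ⟨x0, hx0⟩ : ∃ x0 : ℝ, (m 0 + m 1 + m 2) * x0 = -(m 1 * p + m 2 * (p + q)) :=
    ⟨-(m 1 * p + m 2 * (p + q)) / (m 0 + m 1 + m 2), by field_simp⟩
  obtain ⟨μ, hμ⟩ : ∃ μ : ℝ, μ = m 0 * m 1 / p + m 1 * m 2 / q + m 0 * m 2 / (p + q) := ⟨_, rfl⟩
  have hμ0 : 0 < μ := by rw [hμ]; positivity
  set x : Fin 3 → ℝ := ![x0, x0 + p, x0 + (p + q)] with hx
  set y : Fin 3 → ℝ := ![c * (q / m 0), c * (-(p + q) / m 1), c * (p / m 2)] with hy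
  have d0 : dk x 0 = p := by simp [dk, pr1, pr2, hx]
  have d1 : dk x 1 = q := by simp [dk, pr1, pr2, hx]
  have d2 : dk x 2 = p + q := by simp [dk, pr1, pr2, hx]
  have y0 : dk y 0 = c * (-(p + q) / m 1) - c * (q / m 0) := by simp [dk, pr1, pr2, hy]
  have y1 : dk y 1 = c * (p / m 2) - c * (-(p + q) / m 1) := by simp [dk, pr1, pr2, hy]
  have y2 : dk y 2 = c * (p / m 2) - c * (q / m 0) := by simp [dk, pr1, pr2, hy]
  have hmu : muC m x = μ := by
    rw [hμ, muC, Fin.sum_univ_three, d0, d1, d2]; simp [pr1, pr2]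
  have a0 : ak m x 0 = m 0 * m 1 / p / μ := by rw [ak, d0, hmu]; simp [pr1, pr2]
  have a1 : ak m x 1 = m 1 * m 2 / q / μ := by rw [ak, d1, hmu]; simp [pr1, pr2]
  have a2 : ak m x 2 = m 0 * m 2 / (p + q) / μ := by rw [ak, d2, hmu]; simp [pr1, pr2]
  refine ⟨x, y, ⟨hm, ?_, ?_, ?_, ?_, ?_, ?_, ?_⟩, ?_, ?_, ?_⟩
  · simp [hx, hp]
  · simp [hx, hq]
  · simp only [Fin.sum_univ_three, hx, Matrix.cons_val_zero, Matrix.cons_val_one,
      Matrix.cons_val]
    linear_combination hx0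
  · simp only [Fin.sum_univ_three, hy, Matrix.cons_val_zero, Matrix.cons_val_one,
      Matrix.cons_val]
    field_simp; ring
  · simp only [Fin.sum_univ_three, hx, Matrix.cons_val_zero, Matrix.cons_val_one,
      Matrix.cons_val]
    refine mul_left_cancel₀ hM.ne' ?_
    linear_combination hn + ((m 0 + m 1 + m 2) * x0 + (m 1 * p + m 2 * (p + q))) * hx0
  · simp only [Fin.sum_univ_three, hy, Matrix.cons_val_zero, Matrix.cons_val_one,
      Matrix.cons_val]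
    refine mul_left_cancel₀ hM.ne' ?_
    field_simp
    linear_combination c ^ 2 * hn + hc
  · simp only [Fin.sum_univ_three, hx, hy, Matrix.cons_val_zero, Matrix.cons_val_one,
      Matrix.cons_val]
    field_simp; ring
  · rw [Fin.sum_univ_three, a0, a1, a2, ← add_div, ← add_div, ← hμ, div_self hμ0.ne']
  · rw [Fin.sum_univ_three, a0, a1, a2, tk, tk, tk, d0, d1, d2, y0, y1, y2]
    field_simp
    linear_combination c * he
  · rw [kap, Fin.sum_univ_three, a0, a1, a2, tk, tk, tk, d0, d1, d2, y0, y1, y2]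
    have := Euler.kap_gt (m 0) (m 1) (m 2) p q c μ h0 h1 h2 hp hq hn he hc hμ
    rw [div_mul_eq_mul_div _ μ, div_mul_eq_mul_div _ μ, div_mul_eq_mul_div _ μ, ← add_div,
      ← add_div, lt_div_iff₀ hμ0, one_mul]
    exact this

end Pool.Agent.MP_1ba41f_an.K3
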