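import Mathlib
import Pool.Agent.MP_1ba41f_an.K3.Basic

/-! PROJECT KAM3, module EXPR: bounds and Taylor remainder for expressions in a scale. -/

noncomputable section
open Finset Filter Topology

namespace Pool.Agent.MP_1ba41f_an.K3
namespace ExprM

variable {A : Type} [CommRing A] [Algebra ℝ A] {J V ι : Type} {S : Scale A J} {F : Filter ι}
  {l w κ : ι → ℝ} {S0 : ℝ} {x0 : V → A}

theorem an_eval (hx0 : ∀ v, S.An S0 (x0 v)) :
    ∀ {E : Ex V}, Ex.Ok S S0 x0 E → S.An S0 (E.eval S.isq x0)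
  | .c a, _ => Scale.An.alg S0 a
  | .v i, _ => hx0 i
  | .add _ _, h => (an_eval hx0 h.1).add (an_eval hx0 h.2)
  | .mul _ _, h => (an_eval hx0 h.1).mul (an_eval hx0 h.2)
  | .inv a, h => by
    obtain ⟨-, g, hg, ha⟩ := h
    simp only [Ex.eval]; rw [inverse_eq hg]; exact ha
  | .isq a, h => by
    simp only [Ex.eval]; rw [h.2, Scale.isq_one]; exact Scale.An.one S0

theorem near (hx0 : ∀ v, S.An S0 (x0 v)) (hl : ∀ᶠ i in F, 0 < l i) (hl' : ∀ᶠ i in F, l i ≤ S0)
    (hw : Tendsto w F (𝓝 0)) (hw0 : ∀ᶠ i in F, 0 ≤ w i) {x : ι → V → A}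
    (hx : ∀ v, O S F l (fun i => x i v - x0 v) w) :
    ∀ {E : Ex V}, Ex.Ok S S0 x0 E → (∀ᶠ i in F, Ex.Rel S (x i) E) ∧
      O S F l (fun i => E.eval S.isq (x i) - E.eval S.isq x0) w
  | .c a, _ => ⟨.of_forall fun _ => trivial, (O.zero hw0).congr' fun _ => by simp [Ex.eval]⟩
  | .v j, _ => ⟨.of_forall fun _ => trivial, hx j⟩
  | .add a b, h => by
    obtain ⟨r1, o1⟩ := near hx0 hl hl' hw hw0 hx h.1
    obtain ⟨r2, o2⟩ := near hx0 hl hl' hw hw0 hx h.2
    exact ⟨r1.and r2, (o1.add o2).congr' fun _ => by simp only [Ex.eval]; ring⟩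
  | .mul a b, h => by
    obtain ⟨r1, o1⟩ := near hx0 hl hl' hw hw0 hx h.1
    obtain ⟨r2, o2⟩ := near hx0 hl hl' hw hw0 hx h.2
    have b1 := O.of_an (an_eval hx0 h.1) hl'
    have b2 := o2.near hw (O.of_an (an_eval hx0 h.2) hl')
    exact ⟨r1.and r2, ((o1.mul1 b2).add (b1.mul1' o2)).congr' fun _ => by
      simp only [Ex.eval]; ring⟩
  | .inv a, h => by
    obtain ⟨r1, o1⟩ := near hx0 hl hl' hw hw0 hx h.1
    obtain ⟨-, g, hg, ha⟩ := h
    obtain ⟨e, o⟩ := o1.inv (g0 := fun _ => g) hw hl (.of_forall fun _ => hg) (O.of_an ha hl')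
    refine ⟨?_, o.congr' fun _ => by simp only [Ex.eval]; rw [inverse_eq hg]⟩
    filter_upwards [r1, e] with i r e
    exact ⟨r, IsUnit.of_mul_eq_one _ e⟩
  | .isq a, h => by
    obtain ⟨r1, o1⟩ := near hx0 hl hl' hw hw0 hx h.1
    rw [h.2] at o1
    obtain ⟨e, o⟩ := o1.isq hw hl
    refine ⟨?_, o.congr' fun _ => by simp only [Ex.eval]; rw [h.2, Scale.isq_one]⟩
    filter_upwards [r1, e] with i r e
    exact ⟨r, _, e⟩

theorem osum [Fintype V] {f : V → ι → A} (h : ∀ k, O S F l (f k) w) (hw0 : ∀ᶠ i in F, 0 ≤ w i) :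
    O S F l (fun i => ∑ k, f k i) w := by
  cases isEmpty_or_nonempty V with
  | inl _ => exact (O.zero hw0).congr' fun _ => by simp
  | inr _ => exact O.sum h

/-- the linear part of the increment -/
def lin [Fintype V] [DecidableEq V] (q : A → A) (x h : V → A) (E : Ex V) : A :=
  ∑ v, (E.d v).eval q x * h v

section
variable [Fintype V] [DecidableEq V] (q : A → A) (x h : V → A)

theorem lin_c (a : ℝ) : lin q x h (.c a) = 0 := by simp [lin, Ex.d, Ex.eval]
theorem lin_v (j : V) : lin q x h (.v j) = h j := by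
  unfold lin
  rw [sum_eq_single j]
  · simp [Ex.eval, Ex.d]
  · intro i _ e; simp [Ex.eval, Ex.d, e.symm]
  · simp
theorem lin_add (a b : Ex V) : lin q x h (.add a b) = lin q x h a + lin q x h b := by
  simp only [lin, Ex.d, Ex.eval, add_mul, sum_add_distrib]
theorem lin_mul (a b : Ex V) :
    lin q x h (.mul a b) = lin q x h a * b.eval q x + a.eval q x * lin q x h b := by
  simp only [lin, Ex.d, Ex.eval, sum_mul, mul_sum, ← sum_add_distrib]
  exact sum_congr rfl fun i _ => by ring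
theorem lin_inv (a : Ex V) : lin q x h (.inv a) =
    -(Ring.inverse (a.eval q x) * Ring.inverse (a.eval q x) * lin q x h a) := by
  simp only [lin, Ex.d, Ex.eval, mul_sum, ← sum_neg_distrib]
  exact sum_congr rfl fun i _ => by simp only [map_neg, map_one]; ring
theorem lin_isq (a : Ex V) : lin q x h (.isq a) =
    algebraMap ℝ A (-1 / 2) * (q (a.eval q x) * (q (a.eval q x) * q (a.eval q x)) * lin q x h a) := by
  simp only [lin, Ex.d, Ex.eval, mul_sum]
  exact sum_congr rfl fun i _ => by ring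

end

theorem taylor [Fintype V] [DecidableEq V] (hx0 : ∀ v, S.An S0 (x0 v)) (hl : ∀ᶠ i in F, 0 < l i)
    (hl' : ∀ᶠ i in F, l i ≤ S0) (hw : Tendsto w F (𝓝 0)) (hw0 : ∀ᶠ i in F, 0 ≤ w i)
    (hκ : Tendsto κ F (𝓝 0)) (hκ0 : ∀ᶠ i in F, 0 ≤ κ i) {x h : ι → V → A}
    (hx : ∀ v, O S F l (fun i => x i v - x0 v) w)
    (hx' : ∀ v, O S F l (fun i => (x i + h i) v - x0 v) w)
    (hh : ∀ v, O S F l (fun i => h i v) κ) (E : Ex V) (hE : Ex.Ok S S0 x0 E) :
    O S F l (fun i => E.eval S.isq (x i + h i) - E.eval S.isq (x i) - lin S.isq (x i) (h i) E)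
      fun i => κ i * κ i := by
  have bd : ∀ {E : Ex V}, Ex.Ok S S0 x0 E → O S F l (fun i => E.eval S.isq (x i)) fun _ => 1 :=
    fun h => (near hx0 hl hl' hw hw0 hx h).2.near hw (O.of_an (an_eval hx0 h) hl')
  have bd' : ∀ {E : Ex V}, Ex.Ok S S0 x0 E →
      O S F l (fun i => E.eval S.isq (x i + h i)) fun _ => 1 :=
    fun h => (near hx0 hl hl' hw hw0 hx' h).2.near hw (O.of_an (an_eval hx0 h) hl')
  have k1 : ∀ᶠ i in F, κ i * κ i ≤ κ i := by
    filter_upwards [hκ0, ev_le hκ 1 one_pos] with i a b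
    nlinarith
  have k0 : ∀ᶠ i in F, 0 ≤ κ i * κ i := .of_forall fun _ => mul_self_nonneg _
  have inc : ∀ {E : Ex V}, Ex.Ok S S0 x0 E →
      O S F l (fun i => E.eval S.isq (x i + h i) - E.eval S.isq (x i) - lin S.isq (x i) (h i) E)
        (fun i => κ i * κ i) →
      O S F l (fun i => E.eval S.isq (x i + h i) - E.eval S.isq (x i)) κ := by
    intro E hE t
    have := osum (fun v => (bd (hE.d v)).mul1' (hh v)) hκ0
    exact ((t.wt k1).add this).congr' fun i => by simp only [lin]; ring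
  induction E with
  | c a => exact (O.zero k0).congr' fun _ => by simp [Ex.eval, lin_c]
  | v j => exact (O.zero k0).congr' fun _ => by simp [Ex.eval, lin_v]
  | add a b iha ihb =>
    exact ((iha hE.1).add (ihb hE.2)).congr' fun _ => by simp only [Ex.eval, lin_add]; ring
  | mul a b iha ihb =>
    have ta := iha hE.1
    have tb := ihb hE.2
    exact (((ta.mul1 (bd hE.2)).add ((bd hE.1).mul1' tb)).add
      ((inc hE.1 ta).mul (inc hE.2 tb))).congr' fun _ => by simp only [Ex.eval, lin_mul]; ring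
  | inv a iha =>
    have ta := iha hE.1
    have da := inc hE.1 ta
    have g := bd hE
    have g' := bd' hE
    refine ((((g.mul1 g).mul1' ta).neg).add ((da.mul da).mul1 ((g.mul1 g).mul1 g'))).congr ?_
    filter_upwards [(near hx0 hl hl' hw hw0 hx hE).1, (near hx0 hl hl' hw hw0 hx' hE).1]
      with i r r'
    have e := Ring.mul_inverse_cancel _ r.2
    have e' := Ring.mul_inverse_cancel _ r'.2
    simp only [Ex.eval, lin_inv]
    generalize Ring.inverse (a.eval S.isq (x i)) = u at e ⊢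
    generalize Ring.inverse (a.eval S.isq (x i + h i)) = u' at e' ⊢
    generalize a.eval S.isq (x i) = f at e ⊢
    generalize a.eval S.isq (x i + h i) = f' at e' ⊢
    linear_combination (u * u * (f' - f) - u) * e' + (u' - u * u' * (f' - f)) * e
  | isq a iha =>
    have ta := iha hE.1
    have da := inc hE.1 ta
    have y := bd hE
    have y' := bd' hE
    obtain ⟨r, o⟩ := near hx0 hl hl' hw hw0 hx hE
    obtain ⟨r', o'⟩ := near hx0 hl hl' hw hw0 hx' hE
    have h2 : (2 : A) * algebraMap ℝ A (1 / 2) = 1 := by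
      rw [show (2 : A) = algebraMap ℝ A 2 from (map_ofNat _ 2).symm, ← map_mul]; norm_num
    have h3 : algebraMap ℝ A (-1 / 2) = -algebraMap ℝ A (1 / 2) := by
      rw [← map_neg]; norm_num
    have e0 : (Ex.isq a).eval S.isq x0 = 1 := by simp only [Ex.eval]; rw [hE.2, Scale.isq_one]
    rw [e0] at o o'
    obtain ⟨eu, ou⟩ := O.inv
      (f := fun i => (Ex.isq a).eval S.isq (x i) + (Ex.isq a).eval S.isq (x i + h i))
      (f0 := fun _ => 2) (g0 := fun _ => algebraMap ℝ A (1 / 2))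
      ((o.add o').congr' fun _ => by ring) hw hl (.of_forall fun _ => h2)
      (O.of_an (Scale.An.alg S0 _) hl')
    have u := ou.near hw (O.of_an (Scale.An.alg S0 _) hl')
    have hf := O.of_an (F := F) (l := l) (Scale.An.alg (S := S) S0 (1 / 2)) hl'
    have dy : O S F l (fun i => (Ex.isq a).eval S.isq (x i + h i) - (Ex.isq a).eval S.isq (x i))
        κ := by
      refine (da.mul1 ((((y.mul1 y).mul1 (y'.mul1 y'))).mul1 u)).neg.congr ?_
      filter_upwards [r, r', eu] with i r r' eu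
      have e := (Scale.isq_spec r.2).1
      have e' := (Scale.isq_spec r'.2).1
      simp only [Ex.eval] at eu ⊢
      generalize Ring.inverse (S.isq (a.eval S.isq (x i)) + S.isq (a.eval S.isq (x i + h i))) = u
        at eu ⊢
      generalize S.isq (a.eval S.isq (x i)) = z at e eu ⊢
      generalize S.isq (a.eval S.isq (x i + h i)) = z' at e' eu ⊢
      linear_combination (-(z * z * u)) * e' + (z' * z' * u) * e + (z' - z) * eu
    refine ((((hf.mul1 (y.mul1 (y.mul1 y))).mul1' ta).add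
      ((da.mul dy).mul1 (hf.mul1 (y.mul1 (y.add y'))))).add
      ((dy.mul dy).mul1 (hf.mul1 (y.mul1 (bd hE.1))))).neg.congr ?_
    filter_upwards [r, r'] with i r r'
    have e := (Scale.isq_spec r.2).1
    have e' := (Scale.isq_spec r'.2).1
    simp only [Ex.eval, lin_isq, h3]
    generalize S.isq (a.eval S.isq (x i)) = z at e ⊢
    generalize S.isq (a.eval S.isq (x i + h i)) = z' at e' ⊢
    generalize a.eval S.isq (x i) = f at e ⊢
    generalize a.eval S.isq (x i + h i) = f' at e' ⊢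
    generalize algebraMap ℝ A (1 / 2) = t at h2 ⊢
    linear_combination (-(t * z)) * e' + (t * (2 * z' - z)) * e + (z' - z) * h2

end ExprM

open ExprM in
theorem expr : ExprStmt := by
  intro A _ _ J S V _ _ S0 x0 E _ hx0 hE
  refine ⟨an_eval hx0 hE, ?_⟩
  let ι := {p : ℝ × ℝ × ℝ × (V → A) × (V → A) // 0 < p.1 ∧ p.1 ≤ S0 ∧ 0 ≤ p.2.1 ∧ 0 ≤ p.2.2.1 ∧
    (∀ v, S.Bd p.1 (p.2.2.2.1 v - x0 v) p.2.1) ∧ ∀ v, S.Bd p.1 (p.2.2.2.2 v) p.2.2.1}
  let w : ι → ℝ := fun i => i.1.2.1 + i.1.2.2.1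
  let F : Filter ι := comap w (𝓝 0)
  have hw : Tendsto w F (𝓝 0) := tendsto_comap
  have hl : ∀ᶠ i : ι in F, 0 < i.1.1 := .of_forall fun i => i.2.1
  have hl' : ∀ᶠ i : ι in F, i.1.1 ≤ S0 := .of_forall fun i => i.2.2.1
  have hη : Tendsto (fun i : ι => i.1.2.1) F (𝓝 0) :=
    squeeze_zero (fun i => i.2.2.2.1) (fun i => le_add_of_nonneg_right i.2.2.2.2.1) hw
  have hκ : Tendsto (fun i : ι => i.1.2.2.1) F (𝓝 0) :=
    squeeze_zero (fun i => i.2.2.2.2.1) (fun i => le_add_of_nonneg_left i.2.2.2.1) hw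
  have hx : ∀ v, O S F (fun i => i.1.1) (fun i : ι => i.1.2.2.2.1 v - x0 v) fun i => i.1.2.1 :=
    fun v => O.of_bd (.of_forall fun i => i.2.2.2.2.2.1 v)
  have hh : ∀ v, O S F (fun i => i.1.1) (fun i : ι => i.1.2.2.2.2 v) fun i => i.1.2.2.1 :=
    fun v => O.of_bd (.of_forall fun i => i.2.2.2.2.2.2 v)
  obtain ⟨r, C1, c1, o1⟩ := near hx0 hl hl' hη (.of_forall fun i => i.2.2.2.1) hx hE
  obtain ⟨C2, c2, o2⟩ := taylor hx0 hl hl' hw
    (.of_forall fun i => add_nonneg i.2.2.2.1 i.2.2.2.2.1) hκ (.of_forall fun i => i.2.2.2.2.1)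
    (fun v => (hx v).wt (.of_forall fun i => le_add_of_nonneg_right i.2.2.2.2.1))
    (fun v => O.of_bd (.of_forall fun i => Scale.cong
      (S.add (i.2.2.2.2.2.1 v) (i.2.2.2.2.2.2 v)) (by simp only [Pi.add_apply]; ring))) hh E hE
  obtain ⟨η0, h0, H⟩ := ev_comap (r.and (o1.and o2))
  refine ⟨C1 + C2, η0 / 2, half_pos h0, fun s η x s0 s1 hxs e0 e1 => ?_⟩
  have A1 := H ⟨(s, η, 0, x, 0), s0, s1, e0, le_rfl, hxs, fun _ => S.zero' s le_rfl⟩ (by
    simp only [w, add_zero]; rw [abs_of_nonneg e0]; linarith)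
  refine ⟨A1.1, Scale.le A1.2.1 (by nlinarith), fun h κ hhs k0 k1 => ?_⟩
  have A2 := H ⟨(s, η, κ, x, h), s0, s1, e0, k0, hxs, hhs⟩ (by
    simp only [w]; rw [abs_of_nonneg (add_nonneg e0 k0)]; linarith)
  exact Scale.le A2.2.2 (by nlinarith [mul_self_nonneg κ])

end Pool.Agent.MP_1ba41f_an.K3
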