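import Mathlib
import Pool.Agent.MP_1ba41f_an.K3.Spec

/-! PROJECT KAM3, module ZERO: the field and its derivatives at amplitude zero. -/

noncomputable section
open Finset Matrix

namespace Pool.Agent.MP_1ba41f_an.K3

namespace ZeroA
open Ex TrivSqZeroExt

theorem rinv {B : Type} [CommRing B] {x y : B} (h : x * y = 1) : Ring.inverse x = y := by
  have hu : IsUnit x := IsUnit.of_mul_eq_one y h
  calc Ring.inverse x = Ring.inverse x * (x * y) := by rw [h, mul_one]
    _ = y := by rw [← mul_assoc, Ring.inverse_mul_cancel x hu, one_mul]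

section Dual
variable {B : Type} [CommRing B] [Algebra ℝ B]

/-- the inverse square root on dual numbers -/
def qD (q : B → B) (z : TrivSqZeroExt B B) : TrivSqZeroExt B B :=
  inl (q z.fst) + inr (algebraMap ℝ B (-1 / 2) * ((q z.fst * (q z.fst * q z.fst)) * z.snd))

/-- the point moved in the direction `i` -/
def XD {V : Type} [DecidableEq V] (x : V → B) (i : V) (j : V) : TrivSqZeroExt B B :=
  inl (x j) + inr (if j = i then 1 else 0)

omit [Algebra ℝ B] in
theorem XD_fst {V : Type} [DecidableEq V] (x : V → B) (i j : V) : (XD x i j).fst = x j := by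
  rw [XD, fst_add, fst_inl, fst_inr, add_zero]

omit [Algebra ℝ B] in
theorem inv_dual (z : TrivSqZeroExt B B) :
    (Ring.inverse z).fst = Ring.inverse z.fst ∧
      (Ring.inverse z).snd = -(Ring.inverse z.fst * Ring.inverse z.fst * z.snd) := by
  by_cases h : IsUnit z.fst
  · have h1 : z.fst * Ring.inverse z.fst = 1 := Ring.mul_inverse_cancel _ h
    have h2 : z * (inl (Ring.inverse z.fst) +
        inr (-(Ring.inverse z.fst * Ring.inverse z.fst * z.snd))) = 1 := by
      ext
      · simpa using h1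
      · simp only [snd_mul, fst_add, fst_inl, fst_inr, add_zero, snd_add, snd_inl, snd_inr,
          zero_add, smul_eq_mul, MulOpposite.smul_eq_mul_unop, MulOpposite.unop_op, snd_one]
        linear_combination (-(Ring.inverse z.fst * z.snd)) * h1
    rw [rinv h2]; simp
  · have h2 : ¬ IsUnit z := fun h' => h (isUnit_iff_isUnit_fst.1 h')
    rw [Ring.inverse_non_unit _ h, Ring.inverse_non_unit _ h2]; simp

theorem dual {V : Type} [DecidableEq V] (q : B → B) (x : V → B) (i : V) (E : Ex V) :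
    (E.eval (qD q) (XD x i)).fst = E.eval q x ∧
      (E.eval (qD q) (XD x i)).snd = (E.d i).eval q x := by
  induction E with
  | c a => simp [eval, d, algebraMap_eq_inl']
  | v j => by_cases h : j = i <;> simp [eval, d, XD, h]
  | add a b ha hb => simp [eval, d, ha.1, ha.2, hb.1, hb.2]
  | mul a b ha hb =>
    refine ⟨by simp [eval, ha.1, hb.1], ?_⟩
    simp only [eval, d, snd_mul, ha.1, ha.2, hb.1, hb.2, smul_eq_mul,
      MulOpposite.smul_eq_mul_unop, MulOpposite.unop_op]
    ring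
  | inv a ha =>
    have h := inv_dual (a.eval (qD q) (XD x i))
    simp only [eval, d, h.1, h.2, ha.1, ha.2, map_neg, map_one, true_and]
    ring
  | isq a ha => simp [eval, d, qD, ha.1, ha.2]

end Dual

/-- equal values at amplitude zero -/
def Eqv (E F : Ex (Fin 7)) : Prop :=
  ∀ (B : Type) [CommRing B] [Algebra ℝ B] (q : B → B) (x : Fin 7 → B), q 1 = 1 → x 5 = 0 →
    IsUnit (x 4) → IsUnit (1 + x 4 * x 6) → E.eval q x = F.eval q x

theorem Eqv.der {E F : Ex (Fin 7)} (h : Eqv E F) {i : Fin 7} (hi : i ≠ 5) :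
    Eqv (E.d i) (F.d i) := by
  intro B _ _ q x h1 h5 h4 h6
  rw [← (dual q x i E).2, ← (dual q x i F).2, h _ (qD q) (XD x i)]
  · ext <;> simp [qD, h1]
  · ext <;> simp [XD, h5, hi.symm]
  · exact isUnit_iff_isUnit_fst.2 (by rwa [XD_fst])
  · exact isUnit_iff_isUnit_fst.2 (by rwa [fst_add, fst_mul, XD_fst, XD_fst, fst_one])

variable (a t : Fin 3 → ℝ)

/-- potential at amplitude zero -/
def VZ : Ex (Fin 7) := add (mul (c ((1 + 2 * kap a t) / 2)) (sq (v 0)))
  (mul (c ((1 - kap a t) / 2)) (sq (v 1)))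
/-- inverse radius at amplitude zero -/
def uZ : Ex (Fin 7) := add (c 1) (mul (v 4) (v 6))
/-- reduced energy at amplitude zero -/
def etaZ : Ex (Fin 7) :=
  mul (inv (v 4)) (sub (mul (VZ a t) uZ) (mul (c (1 / 2)) (mul kE (sq uZ))))
/-- the field at amplitude zero -/
def xZ : Fin 4 → Ex (Fin 7) :=
  ![v 2, v 3, add (mul (c (2 * (kap a t - 1) + 3)) (mul (inv uZ) (v 0))) (mul (c 2) (v 3)),
    add (mul (c (-(kap a t - 1))) (mul (inv uZ) (v 1))) (mul (c (-2)) (v 2))]

section Val
variable {B : Type} [CommRing B] [Algebra ℝ B] {q : B → B} {x : Fin 7 → B}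

theorem half : (2 : B) * algebraMap ℝ B (1 / 2) = 1 := by
  rw [← map_ofNat (algebraMap ℝ B) 2, ← map_mul]; norm_num

theorem inv2 : Ring.inverse (1 + 1 : B) = algebraMap ℝ B (1 / 2) :=
  rinv (by rw [one_add_one_eq_two]; exact half)

theorem e2_val (h5 : x 5 = 0) : e2E.eval q x = 0 := by simp [e2E, sq, eval, h5]

theorem N_val (h5 : x 5 = 0) : NE.eval q x = 1 := by simp [NE, eval, e2_val h5]

theorem m_val (h5 : x 5 = 0) : mE.eval q x = kE.eval q x := by
  simp [mE, eval, e2_val h5, N_val h5]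

theorem tau_val (h5 : x 5 = 0) (k : Fin 3) :
    (tauE t k).eval q x = algebraMap ℝ B (2 * t k) * x 0 := by
  simp only [tauE, eval, N_val h5, h5, Ring.inverse_one]; ring

theorem Y_val (h1 : q 1 = 1) (h5 : x 5 = 0) (k : Fin 3) : (YE t k).eval q x = 1 := by
  simp [YE, eval, h5, h1]

theorem Vk_val (h1 : q 1 = 1) (h5 : x 5 = 0) (k : Fin 3) :
    (VkE a t k).eval q x = algebraMap ℝ B (3 / 2 * (a k * t k ^ 2)) * (x 0 * x 0) := by
  have e : algebraMap ℝ B (3 / 2 * (a k * t k ^ 2)) = algebraMap ℝ B (a k / 2) *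
      (algebraMap ℝ B (2 * t k) * algebraMap ℝ B (2 * t k)) * ((1 + algebraMap ℝ B 2) *
        (algebraMap ℝ B (1 / 2) * algebraMap ℝ B (1 / 2))) := by
    rw [← map_one (algebraMap ℝ B)]
    simp only [← map_mul, ← map_add]; congr 1; ring
  simp only [VkE, sq, eval, tau_val t h5, Y_val t h1 h5, map_one, inv2, e]; ring

theorem V_val (h1 : q 1 = 1) (h5 : x 5 = 0) : (VE a t).eval q x = (VZ a t).eval q x := by
  have e0 : algebraMap ℝ B ((1 + 2 * kap a t) / 2) = algebraMap ℝ B (-(kap a t - 1) / 2) +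
      (algebraMap ℝ B (3 / 2 * (a 0 * t 0 ^ 2)) + algebraMap ℝ B (3 / 2 * (a 1 * t 1 ^ 2)) +
        algebraMap ℝ B (3 / 2 * (a 2 * t 2 ^ 2))) := by
    simp only [← map_add]; congr 1; simp only [kap, Fin.sum_univ_three]; ring
  have e1 : algebraMap ℝ B ((1 - kap a t) / 2) = algebraMap ℝ B (-(kap a t - 1) / 2) := by
    congr 1; ring
  simp only [VE, VZ, nE, sq, eval, Vk_val a t h1 h5, N_val h5, Ring.inverse_one, e0, e1]; ring

theorem y0_val (h1 : q 1 = 1) (h5 : x 5 = 0) : (y0E a t).eval q x = 1 := by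
  simp [y0E, eval, e2_val h5, h1]

theorem ee_val (h5 : x 5 = 0) : (eeE a t).eval q x = x 4 := by simp [eeE, eval, e2_val h5]

theorem u_val (h5 : x 5 = 0) : (uE a t).eval q x = 1 + x 4 * x 6 := by
  simp [uE, eval, ee_val a t h5]

end Val

theorem eta_eqv : Eqv (etaE a t) (etaZ a t) := by
  intro B _ _ q x h1 h5 h4 _
  have hi := Ring.mul_inverse_cancel _ h4
  have h2 : (2 : B) * algebraMap ℝ B (1 / 2) = 1 := half
  simp only [etaE, etaZ, uZ, DhE, behE, gahE, alE, alhE, sub, sq, eval, e2_val h5, m_val h5,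
    V_val a t h1 h5, y0_val a t h1 h5, map_one, map_neg, map_ofNat, inv2, zero_mul, add_zero,
    zero_add, mul_zero, Ring.inverse_one]
  generalize eval q x kE = m at *
  generalize eval q x (VZ a t) = W at *
  generalize algebraMap ℝ B (1 / 2) = h at *
  generalize Ring.inverse (x 4) = ie at *
  linear_combination (exp := 1)
    (h * ((m * x 6 * x 6 * x 4 * x 4 - m + 2 * W) * ie) + h * m * x 6 * x 6 * x 4 * 2
      + 2 * h * m * x 6 - W * x 6) * hi +
    (W * ie + m * x 6 * x 6 * x 4 + m * x 6) * h2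

theorem g_val {B : Type} [CommRing B] [Algebra ℝ B] {q : B → B} {x : Fin 7 → B} (h1 : q 1 = 1)
    (h5 : x 5 = 0) (h4 : IsUnit (x 4)) (h6 : IsUnit (1 + x 4 * x 6)) (i : Fin 7) (hi : i ≠ 5)
    (hi4 : i ≠ 4) (hi6 : i ≠ 6) :
    (gE a t i).eval q x = algebraMap ℝ B (1 / 2) * (kE.d i).eval q x -
      Ring.inverse (1 + x 4 * x 6) * ((VZ a t).d i).eval q x := by
  have hi' := Ring.mul_inverse_cancel _ h4
  have hg := Ring.mul_inverse_cancel _ h6
  have e := (eta_eqv a t).der hi B q x h1 h5 h4 h6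
  simp only [gE, phiE, sq, eval, e, ee_val a t h5, u_val a t h5]
  simp only [etaZ, uZ, sub, sq, d, eval, if_neg hi4.symm, if_neg hi6.symm, map_zero, map_one,
    map_neg, mul_zero, zero_mul, add_zero, zero_add]
  generalize eval q x (kE.d i) = m at *
  generalize eval q x ((VZ a t).d i) = W at *
  generalize algebraMap ℝ B (1 / 2) = h at *
  generalize Ring.inverse (x 4) = ie at *
  generalize Ring.inverse (1 + x 4 * x 6) = g at *
  generalize 1 + x 4 * x 6 = u at *
  linear_combination (-(g * g * (W * u - h * m * u * u))) * hi' +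
    (h * m * (u * g + 1) - W * g) * hg

theorem x_eqv (i : Fin 4) : Eqv (xE a t i) (xZ a t i) := by
  intro B _ _ q x h1 h5 h4 h6
  have h2 : (2 : B) * algebraMap ℝ B (1 / 2) = 1 := half
  have e0 : algebraMap ℝ B (2 * (kap a t - 1) + 3) = 2 * algebraMap ℝ B ((1 + 2 * kap a t) / 2) := by
    rw [← map_ofNat (algebraMap ℝ B) 2, ← map_mul]; congr 1; ring
  have e1 : algebraMap ℝ B (-(kap a t - 1)) = 2 * algebraMap ℝ B ((1 - kap a t) / 2) := by
    rw [← map_ofNat (algebraMap ℝ B) 2, ← map_mul]; congr 1; ring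
  have g0 : (gE a t 0).eval q x =
      -(algebraMap ℝ B (2 * (kap a t - 1) + 3) * (Ring.inverse (1 + x 4 * x 6) * x 0)) := by
    rw [g_val a t h1 h5 h4 h6 0 (by decide) (by decide) (by decide), e0]
    simp [kE, VZ, sq, d, eval]; ring
  have g1 : (gE a t 1).eval q x =
      -(algebraMap ℝ B (-(kap a t - 1)) * (Ring.inverse (1 + x 4 * x 6) * x 1)) := by
    rw [g_val a t h1 h5 h4 h6 1 (by decide) (by decide) (by decide), e1]
    simp [kE, VZ, sq, d, eval]; ring
  have g2 : (gE a t 2).eval q x = x 2 := by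
    rw [g_val a t h1 h5 h4 h6 2 (by decide) (by decide) (by decide)]
    generalize algebraMap ℝ B (1 / 2) = h at *
    simp [kE, VZ, sq, d, eval]; linear_combination (x 2) * h2
  have g3 : (gE a t 3).eval q x = x 3 := by
    rw [g_val a t h1 h5 h4 h6 3 (by decide) (by decide) (by decide)]
    generalize algebraMap ℝ B (1 / 2) = h at *
    simp [kE, VZ, sq, d, eval]; linear_combination (x 3) * h2
  fin_cases i
  · exact g2
  · exact g3
  · show (sub (mul (c 2) (gE a t 3)) (gE a t 0)).eval q x = (add (mul (c (2 * (kap a t - 1) + 3))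
      (mul (inv uZ) (v 0))) (mul (c 2) (v 3))).eval q x
    simp only [sub, uZ, eval, g0, g3, map_neg, map_one]; ring
  · show (sub (mul (c (-2)) (gE a t 2)) (gE a t 1)).eval q x = (add (mul (c (-(kap a t - 1)))
      (mul (inv uZ) (v 1))) (mul (c (-2)) (v 2))).eval q x
    simp only [sub, uZ, eval, g1, g2, map_one]; simp only [map_neg, map_one]; ring

end ZeroA

open ZeroA Ex in
theorem zero : ZeroStmt := by
  intro A _ _ q a t K e cs g h1 he hg
  have hg' : (1 + algebraMap ℝ A e * cs) * g = 1 := by rwa [← Algebra.smul_def]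
  have h5 : env K (algebraMap ℝ A e) 0 cs 5 = 0 := rfl
  have h4 : IsUnit (env K (algebraMap ℝ A e) 0 cs 4) := (IsUnit.mk0 e he).map (algebraMap ℝ A)
  have h6 : IsUnit (1 + env K (algebraMap ℝ A e) 0 cs 4 * env K (algebraMap ℝ A e) 0 cs 6) :=
    IsUnit.of_mul_eq_one g hg'
  have hr : Ring.inverse (1 + algebraMap ℝ A e * cs) = g := rinv hg'
  refine ⟨fun i => ?_, fun i j => ?_, fun i => ?_⟩
  · rw [x_eqv a t i A q _ h1 h5 h4 h6]
    fin_cases i <;>
      simp [xZ, uZ, eval, env, hr, Amat, mulVec, dotProduct, Fin.sum_univ_four, Algebra.smul_def,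
        map_ofNat] <;> ring
  · rw [(x_eqv a t i).der (i := ix j) (by fin_cases j <;> decide) A q _ h1 h5 h4 h6]
    fin_cases i <;> fin_cases j <;>
      simp [xZ, uZ, ix, d, eval, env, hr, Amat, Algebra.smul_def, map_ofNat]
  · rw [(x_eqv a t i).der (i := 4) (by decide) A q _ h1 h5 h4 h6]
    fin_cases i <;>
      simp [xZ, uZ, d, eval, env, hr, Dhat, dotProduct, Fin.sum_univ_four,
        Algebra.smul_def, map_ofNat] <;> ring

end Pool.Agent.MP_1ba41f_an.K3
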