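import Mathlib
import Pool.Agent.MP_1ba41f_an.K3.Basic
import Pool.Agent.MP_1ba41f_an.K3.Zero

/-! PROJECT KAM3, module FIELD: the reduced three-body field satisfies the hypotheses of the
abstract theorem. -/

noncomputable section
open Finset Matrix

namespace Pool.Agent.MP_1ba41f_an.K3

namespace Fld
open Ex TrivSqZeroExt ZeroA

/-! ### Parity -/

theorem dualc {B V : Type} [CommRing B] [Algebra ℝ B] [DecidableEq V] (q : B → B) (x : V → B)
    (y : V → TrivSqZeroExt B B) (i : V) (w : B) (h1 : ∀ j, (y j).fst = x j)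
    (h2 : ∀ j, (y j).snd = if j = i then w else 0) (E : Ex V) :
    (E.eval (qD q) y).fst = E.eval q x ∧ (E.eval (qD q) y).snd = w * (E.d i).eval q x := by
  induction E with
  | c a => simp [eval, d, algebraMap_eq_inl']
  | v j => by_cases h : j = i <;> simp [eval, d, h1, h2, h]
  | add a b ha hb => simp [eval, d, ha.1, ha.2, hb.1, hb.2, mul_add]
  | mul a b ha hb =>
    refine ⟨by simp [eval, ha.1, hb.1], ?_⟩
    simp only [eval, d, snd_mul, ha.1, ha.2, hb.1, hb.2, smul_eq_mul,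
      MulOpposite.smul_eq_mul_unop, MulOpposite.unop_op]
    ring
  | inv a ha =>
    have h := inv_dual (a.eval (qD q) y)
    simp only [eval, d, h.1, h.2, ha.1, ha.2, map_neg, map_one, true_and]
    ring
  | isq a ha =>
    refine ⟨by simp [eval, qD, ha.1], ?_⟩
    simp only [eval, d, qD, ha.1, ha.2, snd_add, snd_inl, snd_inr, zero_add]
    ring

/-- signs of the variables under the reversor -/
def sg : Fin 7 → ℝ := ![1, -1, -1, 1, 1, 1, 1]

theorem sg_sq (i : Fin 7) : sg i * sg i = 1 := by fin_cases i <;> simp [sg]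

/-- the expression has sign `ε` under the reversor -/
def Par (ε : ℝ) (E : Ex (Fin 7)) : Prop :=
  ∀ (B : Type) [CommRing B] [Algebra ℝ B] (q : B → B) (x y : Fin 7 → B),
    (∀ j, y j = sg j • x j) → E.eval q y = ε • E.eval q x

theorem Par.der {ε : ℝ} {E : Ex (Fin 7)} (h : Par ε E) (i : Fin 7) : Par (ε * sg i) (E.d i) := by
  intro B _ _ q x y hy
  have h1 := (dual q x i E).2
  have h2 := (dualc q y (fun j => sg j • XD x i j) i (algebraMap ℝ B (sg i))
    (fun j => by rw [fst_smul, XD_fst, hy])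
    (fun j => by
      rw [snd_smul, XD, snd_add, snd_inl, snd_inr, zero_add]
      split_ifs with hj
      · rw [hj, Algebra.algebraMap_eq_smul_one]
      · rw [smul_zero]) E).2
  rw [h _ (qD q) (XD x i) _ fun _ => rfl, snd_smul, h1, ← Algebra.smul_def] at h2
  rw [mul_comm, mul_smul, h2, smul_smul, sg_sq, one_smul]

variable (a t : Fin 3 → ℝ)

section Even
variable {B : Type} [CommRing B] [Algebra ℝ B] {q : B → B} {x y : Fin 7 → B}

theorem even (hy : ∀ j, y j = sg j • x j) :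
    (etaE a t).eval q y = (etaE a t).eval q x ∧ (phiE a t).eval q y = (phiE a t).eval q x := by
  have h0 : y 0 = x 0 := by simpa [sg] using hy 0
  have h1 : y 1 = -x 1 := by simpa [sg] using hy 1
  have h2 : y 2 = -x 2 := by simpa [sg] using hy 2
  have h3 : y 3 = x 3 := by simpa [sg] using hy 3
  have h4 : y 4 = x 4 := by simpa [sg] using hy 4
  have h5 : y 5 = x 5 := by simpa [sg] using hy 5
  have h6 : y 6 = x 6 := by simpa [sg] using hy 6
  have hn : nE.eval q y = nE.eval q x := by simp [nE, sq, eval, h0, h1]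
  have hj : jE.eval q y = jE.eval q x := by simp [jE, sub, eval, h0, h1, h2, h3]
  have hk : kE.eval q y = kE.eval q x := by simp [kE, sq, eval, h2, h3]
  have he : e2E.eval q y = e2E.eval q x := by simp only [e2E, sq, eval, h5]
  have hN : NE.eval q y = NE.eval q x := by simp only [NE, eval, he, hn]
  have hm : mE.eval q y = mE.eval q x := by simp only [mE, sub, sq, eval, he, hn, hj, hk, hN]
  have hτ : ∀ k, (tauE t k).eval q y = (tauE t k).eval q x := fun k => by
    simp only [tauE, eval, h0, h5, hn, hN]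
  have hY : ∀ k, (YE t k).eval q y = (YE t k).eval q x := fun k => by
    simp only [YE, eval, h5, hτ]
  have hV : (VE a t).eval q y = (VE a t).eval q x := by
    simp only [VE, VkE, sq, eval, hn, hN, hτ, hY]
  have hD : (DhE a t).eval q y = (DhE a t).eval q x := by
    simp only [DhE, behE, gahE, alhE, sub, sq, eval, he, hm, hV, h4, h6]
  have hη : (etaE a t).eval q y = (etaE a t).eval q x := by
    simp only [etaE, y0E, behE, alE, alhE, sub, sq, eval, he, hm, hV, hD, h4, h6]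
  refine ⟨hη, ?_⟩
  simp only [phiE, uE, eeE, sq, eval, he, hη, h4, h6]

end Even

theorem par_g (i : Fin 7) : Par (sg i) (gE a t i) := by
  intro B _ _ q x y hy
  have h : Par 1 (etaE a t) := fun B _ _ q x y hy => by rw [(even a t hy).1, one_smul]
  have h2 := h.der i B q x y hy
  simp only [gE, eval, (even a t hy).2, h2, one_mul, mul_smul_comm]

theorem par_x (i : Fin 4) : Par (-R0 i) (xE a t i) := by
  intro B _ _ q x y hy
  have g0 := par_g a t 0 B q x y hy
  have g1 := par_g a t 1 B q x y hy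
  have g2 := par_g a t 2 B q x y hy
  have g3 := par_g a t 3 B q x y hy
  fin_cases i
  · simpa [xE, R0, sg] using g2
  · simpa [xE, R0, sg] using g3
  · simp [xE, R0, sg, sub, eval, g0, g3]
  · simp [xE, R0, sg, sub, eval, g1, g2, add_comm]

theorem sg_ix (j : Fin 4) : sg (ix j) = R0 j := by fin_cases j <;> rfl

/-! ### Symmetry of the derivative -/

theorem dsymm {B : Type} [CommRing B] [Algebra ℝ B] (q : B → B) (x : Fin 7 → B) (i j : Fin 4) :
    ((gE a t (ix i)).d (ix j)).eval q x = ((gE a t (ix j)).d (ix i)).eval q x := by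
  have h : ∀ k : Fin 4, ((phiE a t).d (ix k)).eval q x =
      -(x 5 * x 5 * (Ring.inverse ((uE a t).eval q x) ^ 2 - 2 * (eeE a t).eval q x *
        Ring.inverse ((uE a t).eval q x) ^ 3 * x 6)) * ((etaE a t).d (ix k)).eval q x := by
    intro k
    have h4 : (4 : Fin 7) ≠ ix k := by fin_cases k <;> decide
    have h5 : (5 : Fin 7) ≠ ix k := by fin_cases k <;> decide
    have h6 : (6 : Fin 7) ≠ ix k := by fin_cases k <;> decide
    have he : ((eeE a t).d (ix k)).eval q x = x 5 * x 5 * ((etaE a t).d (ix k)).eval q x := by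
      simp only [eeE, e2E, sq, d, eval, if_neg h4, if_neg h5, map_zero]; ring
    have hu : ((uE a t).d (ix k)).eval q x = ((eeE a t).d (ix k)).eval q x * x 6 := by
      simp only [uE, d, eval, if_neg h6, map_zero]; ring
    simp only [phiE, sq, d, eval, hu, he, map_zero, map_neg, map_one]; ring
  simp only [gE, d, eval, h, dd_comm q x (ix i) (ix j)]; ring

theorem om_row {B : Type} [CommRing B] [Algebra ℝ B] (q : B → B) (x : Fin 7 → B) (i : Fin 4)
    (j : Fin 7) : ∑ k, Om0 i k • ((xE a t k).d j).eval q x = ((gE a t (ix i)).d j).eval q x := by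
  have e0 : ix 0 = 0 := rfl
  have e1 : ix 1 = 1 := rfl
  have e2 : ix 2 = 2 := rfl
  have e3 : ix 3 = 3 := rfl
  have x0 : xE a t 0 = gE a t 2 := rfl
  have x1 : xE a t 1 = gE a t 3 := rfl
  have x2 : xE a t 2 = sub (mul (c 2) (gE a t 3)) (gE a t 0) := rfl
  have x3 : xE a t 3 = sub (mul (c (-2)) (gE a t 2)) (gE a t 1) := rfl
  rw [Fin.sum_univ_four, x0, x1, x2, x3]
  simp only [sub, d, eval, map_zero, map_neg, map_one, map_ofNat]
  fin_cases i <;> simp [Om0, e0, e1, e2, e3, two_smul] <;> ring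

theorem Om0_anti (i j : Fin 4) : Om0 j i = -Om0 i j := by
  fin_cases i <;> fin_cases j <;> simp [Om0]

/-! ### The base point -/

section Base
variable {A : Type} [CommRing A] [Algebra ℝ A] {J : Type} {S : Scale A J} {s : ℝ}
  {x : Fin 7 → A}

theorem ok_base (h5 : x 5 = 0) {ie g : A} (h4 : x 4 * ie = 1) (hie : S.An s ie)
    (h6 : (1 + x 4 * x 6) * g = 1) (hg : S.An s g) :
    (∀ i, Ok S s x (xE a t i)) ∧ Ok S s x (uE a t) ∧ Ok S s x (TE a t) := by
  have h1 : S.isq 1 = 1 := Scale.isq_one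
  have hn : Ok S s x nE := by simp [nE, sq, Ok]
  have hj : Ok S s x jE := by simp [jE, sub, Ok]
  have hk : Ok S s x kE := by simp [kE, sq, Ok]
  have he : Ok S s x e2E := by simp [e2E, sq, Ok]
  have hN : Ok S s x NE := ⟨trivial, he, hn⟩
  have hiN : Ok S s x (inv NE) := ⟨hN, 1, by rw [N_val h5, one_mul], .one s⟩
  have hm : Ok S s x mE := by simp only [mE, sub, sq, Ok, he, hn, hj, hk, hN, and_self]
  have hτ : ∀ k, Ok S s x (tauE t k) := fun k => ⟨by simp only [Ok, hn, and_self], hiN⟩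
  have hY : ∀ k, Ok S s x (YE t k) := fun k =>
    ⟨⟨trivial, trivial, hτ k⟩, by simp [eval, h5]⟩
  have h2 : ∀ E, Ok S s x E → E.eval S.isq x = 1 → Ok S s x (inv (add (c 1) E)) := fun E h h' =>
    ⟨⟨trivial, h⟩, algebraMap ℝ A (1 / 2), by
      simp only [eval, h', map_one]; rw [one_add_one_eq_two]; exact half, .alg s _⟩
  have hVk : ∀ k, Ok S s x (VkE a t k) := fun k =>
    ⟨trivial, ⟨⟨hτ k, hτ k⟩, hY k, hY k⟩, ⟨trivial, trivial, hY k⟩,
      h2 _ (hY k) (Y_val t h1 h5 k), h2 _ (hY k) (Y_val t h1 h5 k)⟩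
  have hV : Ok S s x (VE a t) := ⟨⟨trivial, hn, hiN⟩, ⟨hVk 0, hVk 1⟩, hVk 2⟩
  have hi4 : Ok S s x (inv (v 4)) := ⟨trivial, ie, h4, hie⟩
  have hal : Ok S s x alhE := ⟨hm, trivial, trivial⟩
  have hbe : Ok S s x (behE a t) := ⟨⟨hm, trivial, hV⟩, trivial⟩
  have hga : Ok S s x (gahE a t) := ⟨hm, trivial, trivial, hV⟩
  have hD : Ok S s x (DhE a t) :=
    ⟨⟨⟨⟨⟨he, hbe, hbe⟩, hal, trivial, trivial⟩, trivial, hga⟩, trivial, he, hal, hga⟩, hi4, hi4⟩
  have hy : Ok S s x (y0E a t) := ⟨⟨trivial, he, hD⟩, by simp [eval, e2_val h5]⟩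
  have hη : Ok S s x (etaE a t) :=
    ⟨⟨⟨⟨⟨trivial, hD⟩, hy, h2 _ hy (y0_val a t h1 h5)⟩, trivial, hbe⟩, trivial, hal, trivial⟩,
      ⟨trivial, he, hal⟩, 1, by simp [alE, eval, e2_val h5], .one s⟩
  have hee : Ok S s x (eeE a t) := ⟨trivial, he, hη⟩
  have hu : Ok S s x (uE a t) := ⟨trivial, hee, trivial⟩
  have hiu : Ok S s x (inv (uE a t)) := ⟨hu, g, by rw [u_val a t h5, h6], hg⟩
  have hφ : Ok S s x (phiE a t) := ⟨trivial, hee, hiu, hiu⟩
  have hG : ∀ i, Ok S s x (gE a t i) := fun i => ⟨hφ, hη.d i⟩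
  refine ⟨fun i => ?_, hu, ⟨⟨hy, hee⟩, hi4⟩, hiu, hiu⟩
  fin_cases i
  · exact hG 2
  · exact hG 3
  · exact ⟨⟨trivial, hG 3⟩, trivial, hG 0⟩
  · exact ⟨⟨trivial, hG 2⟩, trivial, hG 1⟩

theorem T_val {q : A → A} (h1 : q 1 = 1) (h5 : x 5 = 0) {ie g : A} (h4 : x 4 * ie = 1)
    (h6 : (1 + x 4 * x 6) * g = 1) : (TE a t).eval q x = g * g := by
  simp only [TE, psiE, sq, eval, y0_val a t h1 h5, ee_val a t h5, u_val a t h5, rinv h4, rinv h6,
    one_mul, h4]

/-- the conclusion of the expression module -/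
def Nr (S : Scale A J) (S0 : ℝ) (x0 : Fin 7 → A) (E : Ex (Fin 7)) (C r0 : ℝ) : Prop :=
  ∀ s η (x : Fin 7 → A), 0 < s → s ≤ S0 → (∀ v, S.Bd s (x v - x0 v) η) → 0 ≤ η → η ≤ r0 →
    Ex.Rel S x E ∧ S.Bd s (E.eval S.isq x - E.eval S.isq x0) (C * η) ∧
    ∀ (h : Fin 7 → A) (κ : ℝ), (∀ v, S.Bd s (h v) κ) → 0 ≤ κ → κ ≤ r0 →
      S.Bd s (E.eval S.isq (x + h) - E.eval S.isq x - ∑ v, (E.d v).eval S.isq x * h v) (C * κ ^ 2)

theorem Nr.mono {S0 C C' r r' : ℝ} {x0 : Fin 7 → A} {E : Ex (Fin 7)} (h : Nr S S0 x0 E C r)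
    (hC : C ≤ C') (hr : r' ≤ r) : Nr S S0 x0 E C' r' := by
  intro s η x h0 h1 h2 h3 h4
  obtain ⟨a1, a2, a3⟩ := h s η x h0 h1 h2 h3 (h4.trans hr)
  exact ⟨a1, Scale.le a2 (mul_le_mul_of_nonneg_right hC h3), fun h κ b1 b2 b3 =>
    Scale.le (a3 h κ b1 b2 (b3.trans hr)) (mul_le_mul_of_nonneg_right hC (sq_nonneg κ))⟩

theorem Nr.unif {ι : Type} [Fintype ι] [Nonempty ι] {S0 : ℝ} {x0 : Fin 7 → A}
    {E : ι → Ex (Fin 7)} (h : ∀ i, ∃ C r : ℝ, 0 < r ∧ Nr S S0 x0 (E i) C r) :
    ∃ C r : ℝ, 0 ≤ C ∧ 0 < r ∧ ∀ i, Nr S S0 x0 (E i) C r := by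
  choose C r h0 h using h
  obtain ⟨i0, hi0⟩ := Finite.exists_min r
  exact ⟨∑ i, |C i|, r i0, sum_nonneg fun _ _ => abs_nonneg _, h0 i0, fun i => (h i).mono
    ((le_abs_self _).trans (single_le_sum (f := fun i => |C i|) (fun _ _ => abs_nonneg _)
      (mem_univ i))) (hi0 i)⟩

end Base

theorem sum_env {A : Type} [CommRing A] (f : Fin 7 → A) (K : Fin 4 → A) (e p cs : A) :
    ∑ v, f v * env K e p cs v = ∑ j, f (ix j) * K j + f 4 * e + f 5 * p + f 6 * cs := by
  rw [Fin.sum_univ_seven, Fin.sum_univ_four]; rfl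

theorem env_add {A : Type} [CommRing A] (K ξ : Fin 4 → A) (e x p cs : A) :
    env K e p cs + env ξ x 0 0 = env (K + ξ) (e + x) p cs := by
  funext v; fin_cases v <;> simp [env]

theorem env_map {A B : Type} (f : A → B) (K : Fin 4 → A) (e p cs : A) :
    (fun v => f (env K e p cs v)) = env (fun i => f (K i)) (f e) (f p) (f cs) := by
  funext v; fin_cases v <;> rfl

/-- the expressions that are estimated -/
def fam : Fin 4 ⊕ (Fin 4 × Fin 7) ⊕ Bool → Ex (Fin 7)
  | .inl i => xE a t i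
  | .inr (.inl p) => (xE a t p.1).d p.2
  | .inr (.inr true) => uE a t
  | .inr (.inr false) => TE a t

end Fld

open Fld Ex in
theorem field (hE : ExprStmt) (hZ : ZeroStmt) : FieldStmt := by
  intro A _ _ S a t S0 e b cs g hS he he2 hK hb
  have hg' : (1 + algebraMap ℝ A e * cs) * g = 1 := by rw [← Algebra.smul_def]; exact hb.inv
  have hie : algebraMap ℝ A e * algebraMap ℝ A e⁻¹ = 1 := by
    rw [← map_mul, mul_inv_cancel₀ he.ne', map_one]
  set x0 := env b.K0 (algebraMap ℝ A e) 0 cs with hx0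
  have han : ∀ v, S.An S0 (x0 v) := fun v => by
    fin_cases v
    exacts [hK 0, hK 1, hK 2, hK 3, .alg _ _, .zero _, hb.anc]
  obtain ⟨o1, o2, o3⟩ := ok_base a t (S := S) (s := S0) (x := x0) rfl hie (.alg _ _) hg' hb.ang
  obtain ⟨C, r1, hC, hr1, hN⟩ := Nr.unif (S := S) (S0 := S0) (x0 := x0) (E := fam a t) fun i =>
    (hE A (Fin 2) S (Fin 7) S0 x0 _ hS han (by
      rcases i with i | p | _ | _
      exacts [o1 i, (o1 p.1).d _, o3, o2])).2
  obtain ⟨z1, z2, z3⟩ := hZ A S.isq a t b.K0 e cs g Scale.isq_one he.ne' hb.inv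
  obtain ⟨r0, hr0, hr01, hre, hrC⟩ : ∃ r0 : ℝ, 0 < r0 ∧ r0 ≤ r1 ∧ r0 < e ∧ C * r0 ≤ 1 / 4 := by
    refine ⟨min r1 (min (e / 2) (1 / (4 * (C + 1)))), by positivity, min_le_left _ _,
      ((min_le_right _ _).trans (min_le_left _ _)).trans_lt (half_lt_self he), ?_⟩
    refine (mul_le_mul_of_nonneg_left ((min_le_right _ _).trans (min_le_right _ _)) hC).trans ?_
    rw [mul_one_div, div_le_div_iff₀ (by positivity) (by norm_num)]; linarith
  have hN' := fun i => (hN i).mono le_rfl hr01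
  have near : ∀ {s η K e' p}, Near S b s η K e' p → ∀ v, S.Bd s (env K e' p cs v - x0 v) η := by
    intro s η K e' p h v
    fin_cases v
    exacts [h.K 0, h.K 1, h.K 2, h.K 3, by simpa [env, hx0, hb.e0] using h.e,
      by simpa [env, hx0] using h.p,
      by simpa [env, hx0] using S.zero' s (S.nonneg h.p)]
  have key := fun i {s η K e' p} (h0 : 0 < s) (h1 : s ≤ S0) (h : Near S b s η K e' p)
    (h2 : η ≤ r0) => hN' i s η _ h0 h1 (near h) (S.nonneg h.p) h2
  refine ⟨C, r0, ⟨hr0, ?_, ?_, ?_, ?_, ?_, ?_, ?_⟩, ?_⟩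
  · intro s K e' p ξ x κ h0 h1 h hξ hx hκ i
    have k0 := S.nonneg hx
    have := (key (.inl i) h0 h1 h le_rfl).2.2 (env ξ x 0 0) κ (fun v => by
      fin_cases v
      exacts [hξ 0, hξ 1, hξ 2, hξ 3, hx, S.zero' s k0, S.zero' s k0]) k0 hκ
    rw [sum_env, env_add] at this
    refine Scale.cong this ?_
    simp only [fam, fld, mulVec, dotProduct, of_apply]; ring
  · intro s η K e' p h0 h1 h h2 i j
    have := (key (.inr (.inl (i, ix j))) h0 h1 h h2).2.1
    rw [hb.D0, ← z2]; exact this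
  · intro s η K e' p h0 h1 h h2 i
    have := (key (.inr (.inl (i, 4))) h0 h1 h h2).2.1
    rw [hb.Z0, ← z3]; exact this
  · intro s η p h0 h1 h h2 i
    have k0 := S.nonneg h
    have := (key (.inl i) (K := b.K0) (e' := b.e0) h0 h1 ⟨fun _ => by simpa using S.zero' s k0,
      by simpa using S.zero' s k0, h⟩ h2).2.1
    rw [hb.D0, ← z1]; exact this
  · intro s K e' p h0 h1 h c1 c2 i
    have := Ex.chain (S.D 1) (key (.inl i) h0 h1 h le_rfl).1
    have e1 := congrFun (env_map (S.D 1) K e' p cs)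
    simp only [e1, sum_env, c1 1, c2 1, hb.Dc, mul_zero, add_zero] at this
    exact this
  · intro s K e' p _ _ _ i j
    obtain ⟨κ, hκ⟩ := hb.Om
    have e1 := om_row a t S.isq (env K e' p cs) i (ix j)
    have e2 := om_row a t S.isq (env K e' p cs) j (ix i)
    rw [dsymm, ← e1] at e2
    simp only [hκ, fld, of_apply, Matrix.smul_apply, smul_eq_mul, mul_smul, Om0_anti j,
      neg_smul, smul_neg, sum_add_distrib, sum_neg_distrib, ← smul_sum, e2, add_neg_cancel]
  · intro s K e' p h0 h1 h c1 c2 hr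
    have hy : ∀ v, S.r (env K e' p cs v) = sg v • env K e' p cs v := fun v => by
      have := hb.R ▸ hr
      fin_cases v
      exacts [this 0, this 1, this 2, this 3, by simpa [env, sg] using c1.r,
        by simpa [env, sg] using c2.r, by simpa [env, sg] using hb.rc]
    rw [hb.R]
    refine ⟨fun i => ?_, fun i j => ?_, fun i => ?_⟩
    · have := Ex.map_r (key (.inl i) h0 h1 h le_rfl).1
      rw [fam, par_x a t i A S.isq _ _ hy, neg_smul] at this
      exact this
    · have := Ex.map_r (key (.inr (.inl (i, ix j))) h0 h1 h le_rfl).1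
      rw [fam, (par_x a t i).der (ix j) A S.isq _ _ hy, sg_ix, neg_mul, neg_smul] at this
      exact this
    · have := Ex.map_r (key (.inr (.inl (i, 4))) h0 h1 h le_rfl).1
      rw [fam, (par_x a t i).der 4 A S.isq _ _ hy, show sg 4 = 1 from rfl, mul_one,
        neg_smul] at this
      exact this
  · intro s K e' p h0 h1 h ev hev hc
    have m := fun i => Ex.map_ev ev hev (key i h0 h1 h le_rfl).1
    have n := fun i => abs_le.1 (hev _ _ _ (key i h0 h1 h le_rfl).2.1)
    simp only [env_map ev] at m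
    have hc' := abs_le.1 hc
    have hu : 1 / 2 ≤ 1 + e * ev cs ∧ 1 + e * ev cs ≤ 3 / 2 := by constructor <;> nlinarith
    refine ⟨⟨(m (.inr (.inr false))).1, ?_, ?_, ?_⟩, fun i => (m (.inl i)).2⟩
    · have := abs_le.1 (hev _ _ _ h.e)
      rw [map_sub, hb.e0, AlgHom.commutes] at this
      have e1 : algebraMap ℝ ℝ e = e := rfl
      show 0 < ev e'
      linarith
    · have h2 := (n (.inr (.inr true))).1
      have h3 := (m (.inr (.inr true))).2
      have h4 : (uE a t).eval S.isq x0 = 1 + algebraMap ℝ A e * cs := ZeroA.u_val a t rfl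
      simp only [fam] at h2 h3
      rw [map_sub, h3, h4, map_add, map_one, map_mul, AlgHom.commutes] at h2
      have e1 : algebraMap ℝ ℝ e = e := rfl
      rw [e1] at h2
      linarith
    · have h2 := (n (.inr (.inr false))).1
      have h3 := (m (.inr (.inr false))).2
      have h4 : (TE a t).eval S.isq x0 = g * g := T_val a t Scale.isq_one rfl hie hg'
      simp only [fam] at h2 h3
      rw [map_sub, h3, h4, map_mul] at h2
      have h5 := congrArg ev hb.inv
      rw [map_mul, map_add, map_one, map_smul, smul_eq_mul] at h5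
      have h6 : 2 / 3 ≤ ev g := by
        by_contra h7
        push Not at h7
        nlinarith
      nlinarith

end Pool.Agent.MP_1ba41f_an.K3
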