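import Mathlib
import Pool.Agent.MP_1ba41f_an.K3.Spec

/-! PROJECT KAM3, module FINAL: from the invariant tori to the areas of shape curves. -/

noncomputable section
open Finset Matrix MeasureTheory Complex

namespace Pool.Agent.MP_1ba41f_an.K3

namespace Final

/-- the first two coordinates, scaled -/
def pj (c : ℝ) (v : Fin 4 → ℝ) : Fin 2 → ℝ := ![c * v 0, c * v 1]

theorem continuous_pj {X : Type} [TopologicalSpace X] {c : X → ℝ} {v : X → Fin 4 → ℝ}
    (hc : Continuous c) (hv : Continuous v) : Continuous fun x => pj (c x) (v x) := by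
  refine continuous_pi fun i => ?_
  fin_cases i
  · exact hc.mul ((continuous_apply 0).comp hv)
  · exact hc.mul ((continuous_apply 1).comp hv)

theorem hasFDerivAt_pj {K : (Fin 2 → ℝ) → Fin 4 → ℝ} {G : Fin 2 → Fin 4 → ℝ} {θ : Fin 2 → ℝ}
    (h : ∀ i, HasFDerivAt (fun θ => K θ i) (grad fun j => G j i) θ) (c : ℝ) :
    HasFDerivAt (fun θ => pj c (K θ)) (grad fun j => pj c (G j)) θ := by
  refine hasFDerivAt_pi'.2 fun i => ?_
  fin_cases i
  · refine ((h 0).const_mul c).congr_fderiv ?_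
    ext v
    simp [grad_apply, pj, Fin.sum_univ_two]
    ring
  · refine ((h 1).const_mul c).congr_fderiv ?_
    ext v
    simp [grad_apply, pj, Fin.sum_univ_two]
    ring

theorem det_grad (w : Fin 2 → Fin 2 → ℝ) : (grad w).det = w 0 0 * w 1 1 - w 0 1 * w 1 0 := by
  rw [ContinuousLinearMap.det, ← LinearMap.det_toMatrix', Matrix.det_fin_two]
  simp [LinearMap.toMatrix'_apply, grad_apply]
  ring

theorem hasDerivAt_line {f : (Fin 2 → ℝ) → ℝ} {g : Fin 2 → ℝ} {ρ t : ℝ}
    (h : HasFDerivAt f (grad g) ![t, ρ * t]) :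
    HasDerivAt (fun t : ℝ => f ![t, ρ * t]) (g 0 + ρ * g 1) t := by
  have h1 : HasDerivAt (fun t : ℝ => (![t, ρ * t] : Fin 2 → ℝ)) ![1, ρ] t := by
    refine hasDerivAt_pi.2 fun i => ?_
    fin_cases i
    · simpa using hasDerivAt_id' t
    · simpa using (hasDerivAt_id' t).const_mul ρ
  have h2 := h.comp_hasDerivAt t h1
  simpa [grad_apply, Fin.sum_univ_two, Function.comp_def] using h2

end Final

open Final in
theorem final : ToriStmt → HamStmt → NewtonStmt → EulerStmt → BodyStmt → Area1Stmt →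
    Area2Stmt → KronStmt → MainStmt := by
  intro tori ham newton euler body area1 area2 kron m hm
  obtain ⟨x, y, hE, ha1, ha0, hk⟩ := euler m hm
  obtain ⟨o, ho, hbody⟩ := body m x y hE
  obtain ⟨ρ, ε0, K, G, e, hρ, hε0, hK, hG, hd, hper, hgood, hode, θ1, hθ1⟩ := tori _ _ hk
  obtain ⟨hsh, ν, hfin, hν, hpos, harea⟩ := area2 o ho
  set F : I01 → (Fin 2 → ℝ) → Fin 2 → ℝ := fun η θ => pj (ε0 * η.1) (K η θ) with hF
  set F' : I01 → (Fin 2 → ℝ) → ((Fin 2 → ℝ) →L[ℝ] (Fin 2 → ℝ)) :=
    fun η θ => grad fun j => pj (ε0 * η.1) (G j η θ) with hF'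
  have hc : Continuous fun z : I01 × (Fin 2 → ℝ) => ε0 * z.1.1 :=
    continuous_const.mul (continuous_subtype_val.comp continuous_fst)
  have hFc : Continuous (Function.uncurry F) := continuous_pj hc hK
  have hF'c : Continuous (Function.uncurry F') := by
    refine continuous_clm_apply.2 fun h => ?_
    have : (fun z : I01 × (Fin 2 → ℝ) => Function.uncurry F' z h) =
        fun z => ∑ j, h j • pj (ε0 * z.1.1) (G j z.1 z.2) := by
      funext z; exact grad_apply _ h
    rw [this]
    exact continuous_finsetSum _ fun j _ => (continuous_pj hc (hG j)).const_smul (h j)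
  have hFp : ∀ η θ j, F η (θ + Pi.single j (2 * Real.pi)) = F η θ := fun η θ j => by
    simp only [hF, hper]
  obtain ⟨hcpt, hcont, hint⟩ := area1 ν hν F F' hFc hF'c
    (fun η θ => hasFDerivAt_pj (hd η θ) _) hFp
  set z0 : I01 := ⟨0, le_rfl, zero_le_one⟩ with hz0
  set z1 : I01 := ⟨1, zero_le_one, le_rfl⟩ with hz1
  have h0 : (ν (Set.range (F z0))).toReal = 0 := by
    have : Set.range (F z0) ⊆ {0} := by
      rintro _ ⟨θ, rfl⟩
      funext i
      fin_cases i <;> simp [hF, pj, hz0]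
    rw [measure_mono_null this (hν (measure_singleton _)), ENNReal.toReal_zero]
  have h1 : 0 < (ν (Set.range (F z1))).toReal := by
    have hdet : (F' z1 θ1).det ≠ 0 := by
      have e1 : (F' z1 θ1).det =
          ε0 ^ 2 * (G 0 z1 θ1 0 * G 1 z1 θ1 1 - G 0 z1 θ1 1 * G 1 z1 θ1 0) := by
        simp only [hF', det_grad, pj, hz1]
        simp
        ring
      rw [e1]
      exact mul_ne_zero (pow_ne_zero _ hε0.ne') (hθ1 z1)
    refine ENNReal.toReal_pos (fun h => ?_) (measure_ne_top _ _)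
    exact hpos _ isOpen_interior (hint z1 θ1 hdet) (measure_mono_null interior_subset h)
  refine ⟨_, h1, fun A0 hA0 hA1 => ?_⟩
  have : PreconnectedSpace I01 := Subtype.preconnectedSpace isPreconnected_Icc
  obtain ⟨η, hη⟩ := intermediate_value_univ z0 z1 hcont ⟨h0.trans_le hA0.le, hA1⟩
  have hη0 : ε0 * η.1 ≠ 0 := by
    refine mul_ne_zero hε0.ne' fun h => ?_
    have : η = z0 := Subtype.ext h
    rw [this] at hη
    exact hA0.ne' (hη.symm.trans h0)
  obtain ⟨u, p, ψ, π, hred⟩ := ham (ak m x) (tk x y) (e η) (ε0 * η.1)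
    (fun t => K η ![t, ρ * t]) ha1 ha0 hη0 (fun t => hgood η ![t, ρ * t]) fun t i => by
      have := hasDerivAt_line (hd η ![t, ρ * t] i)
      rw [hode] at this
      exact this
  obtain ⟨Z1, Z2, τ, hZ, hτ, hw⟩ := newton _ _ _ _ _ _ _ hred
  obtain ⟨q, hq, hs⟩ := hbody Z1 Z2 hZ
  refine ⟨q, hq, ?_⟩
  set g : (Fin 2 → ℝ) → EuclideanSpace ℝ (Fin 3) := fun v => sh o (v 0 + v 1 * I) with hg
  have hgc : Continuous g := hsh.comp (by fun_prop)
  have hrange : (Set.range fun t => shape m (q t)) =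
      Set.range fun t : ℝ => (g ∘ F η) ![t, ρ * t] := by
    have : (fun t => shape m (q t)) = (fun t : ℝ => (g ∘ F η) ![t, ρ * t]) ∘ τ := by
      funext s
      exact hs s _ (hw s)
    rw [this, hτ.range_comp]
  have hcl : closure (Set.range fun t => shape m (q t)) = g '' Set.range (F η) := by
    rw [hrange]
    refine Set.Subset.antisymm ?_ ?_
    · refine closure_minimal ?_ ((hcpt η).image hgc).isClosed
      rintro _ ⟨t, rfl⟩
      exact ⟨_, ⟨_, rfl⟩, rfl⟩
    · rw [← Set.range_comp]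
      exact kron ρ _ (g ∘ F η) hρ (hgc.comp (hFc.uncurry_left η)) fun θ j => by
        simp only [Function.comp, hFp]
  rw [hcl, harea _ (hcpt η)]
  exact hη

end Pool.Agent.MP_1ba41f_an.K3
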