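import Mathlib
import Pool.Agent.MP_1ba41f_an.K3.Basic

/-! PROJECT KAM3, module FLQ: Floquet data with a Diophantine rotation number. -/

noncomputable section
open Finset Matrix Filter Topology Complex

namespace Pool.Agent.MP_1ba41f_an.K3

namespace Flq

section Alg
variable {R : Type} [Ring R] {d : R → R}

theorem inv_der (hd : ∀ x y, d (x * y) = d x * y + x * d y) {X Y A D : R} (h1 : X * Y = 1)
    (h2 : Y * X = 1) (h : d X = A * X - X * D) : d Y = D * Y - Y * A := by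
  have h0 : d 1 = 0 := by simpa using hd 1 1
  have h3 := hd X Y
  rw [h1, h0, h] at h3
  calc d Y = Y * X * d Y := by rw [h2, one_mul]
    _ = Y * ((A * X - X * D) * Y + X * d Y) - Y * A * (X * Y) + Y * X * D * Y := by noncomm_ring
    _ = _ := by rw [← h3, h1, h2]; noncomm_ring

theorem core (hd : ∀ x y, d (x * y) = d x * y + x * d y) {A U Ui T V N D E P W : R}
    (h1 : U * Ui = 1) (h1' : Ui * U = 1) (h4 : V * N = 1) (h4' : N * V = 1)
    (h2 : A * U - d U = U * T) (h3 : T * V - d V = V * D)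
    (h5 : Ui * E * U = P - (T * W - W * T) + d W) :
    U * V * (N * Ui) = 1 ∧ d (U * V) = A * (U * V) - U * V * D ∧
      d (N * Ui) = D * (N * Ui) - N * Ui * A ∧
      N * Ui * E * (U * V) = N * P * V + d (N * W * V) - (D * (N * W * V) - N * W * V * D) := by
  have e2 : d U = A * U - U * T := by rw [← h2, sub_sub_cancel]
  have e3 : d V = T * V - V * D := by rw [← h3, sub_sub_cancel]
  have e4 := inv_der hd h4 h4' e3
  have e5 := inv_der hd h1 h1' e2
  refine ⟨?_, ?_, ?_, ?_⟩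
  · rw [mul_assoc, ← mul_assoc V, h4, one_mul, h1]
  · rw [hd, e2, e3]; noncomm_ring
  · rw [hd, e4, e5]; noncomm_ring
  · rw [show N * Ui * E * (U * V) = N * (Ui * E * U) * V by noncomm_ring, h5, hd (N * W), hd N,
      e3, e4]
    noncomm_ring

theorem map_mul {A n : Type} [CommRing A] [Algebra ℝ A] [Fintype n] (δ : Derivation ℝ A A)
    (X Y : Matrix n n A) : (X * Y).map δ = X.map δ * Y + X * Y.map δ := by
  ext i j
  simp only [map_apply, mul_apply, map_sum, Derivation.leibniz, smul_eq_mul, Matrix.add_apply,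
    ← sum_add_distrib]
  exact sum_congr rfl fun k _ => by ring

end Alg

section Model
variable {Y : Type} [TopologicalSpace Y] {S : Scale (AlgC Y (Fin 1)) (Fin 1)}
  {f : AlgC Y (Fin 1)} {s c : ℝ}

/-- evaluation -/
def ev (y : Y) (t : ℝ) : AlgC Y (Fin 1) →ₐ[ℝ] ℂ where
  toFun f := f.1 y fun _ => t
  map_one' := rfl
  map_mul' _ _ := rfl
  map_zero' := rfl
  map_add' _ _ := rfl
  commutes' _ := rfl

theorem ev_bd (hS : IsModC S) (h : S.Bd s f c) (y : Y) (t : ℝ) : ‖ev y t f‖ ≤ c := by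
  obtain ⟨I, k, a, b, h0, h1, h2, h3, h4⟩ := (hS.bd _ _ _).1 h
  refine ((h4 y _).norm_le_of_bounded h2.hasSum fun i => ?_).trans h3
  rw [norm_mul, norm_ph, mul_one]
  exact (h1 i y).trans (le_mul_of_one_le_right (h0 i) (one_le_wt _ _))

theorem ev_cont (f : AlgC Y (Fin 1)) (t : ℝ) : Continuous fun y => ev y t f := by
  obtain ⟨s, -, c, I, k, a, b, h0, h1, h2, -, h4⟩ := f.2
  rw [show (fun y => ev y t f) = fun y => ∑' i, a i y * ph (k i) fun _ => t from
    funext fun y => (h4 y _).tsum_eq.symm]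
  refine continuous_tsum (fun i => (a i).continuous.mul continuous_const) h2 fun i y => ?_
  rw [norm_mul, norm_ph, mul_one]
  exact (h1 i y).trans (le_mul_of_one_le_right (h0 i) (one_le_wt _ _))

theorem ev_der (hS : IsModC S) (f : AlgC Y (Fin 1)) (y : Y) (t : ℝ) :
    HasDerivAt (fun t => ev y t f) (ev y t (S.D 0 f)) t := by
  have h := (hS.der f y fun _ => t).comp_hasDerivAt t
    (hasDerivAt_pi.2 fun _ : Fin 1 => hasDerivAt_id t)
  rw [grad_apply, Fin.sum_univ_one, one_smul] at h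
  exact h

theorem an1 (hS : IsModC S) (h : S.An s f) (y : Y) : An1 s fun t => ev y t f := by
  obtain ⟨c, h⟩ := h
  obtain ⟨I, k, a, b, h0, h1, h2, h3, h4⟩ := (hS.bd _ _ _).1 h
  refine ⟨c, I, k, fun i => .const _ (a i y), b, h0, fun i _ => h1 i y, h2, h3, fun _ θ => ?_⟩
  have := h4 y θ
  rwa [show f.1 y θ = ev y (θ 0) f from
    congrArg (f.1 y) (funext fun i => congrArg θ (Subsingleton.elim _ _))] at this

theorem cst_of (hS : IsModC S) {a : Y → ℂ} (h : ∀ y θ, f.1 y θ = a y) : S.Cst f := fun j => by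
  refine Subtype.ext (funext fun y => funext fun θ => ?_)
  have h1 := hS.der f y θ
  rw [show f.1 y = fun _ => a y from funext (h y)] at h1
  have h2 := congrArg (fun L => L fun _ => 1) (h1.unique (hasFDerivAt_const _ _))
  simp only [grad_apply, Fin.sum_univ_one, one_smul] at h2
  rw [Subsingleton.elim j 0]
  exact h2

theorem cst_ev (hS : IsModC S) (h : S.Cst f) (y : Y) (t : ℝ) : ev y t f = ev y 0 f :=
  is_const_of_deriv_eq_zero (f := fun t => ev y t f) (fun t => (ev_der hS f y t).differentiableAt)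
    (fun t => by rw [(ev_der hS f y t).deriv, h 0, map_zero]) t 0

theorem bd_of (hS : IsModC S) {a : Y → ℂ} (h : ∀ y θ, f.1 y θ = a y) (hc : 0 ≤ c)
    (hb : ∀ y, ‖a y‖ ≤ c) (s : ℝ) : S.Bd s f c := by
  have h1 : Continuous a := (ev_cont f 0).congr fun y => h y _
  rw [hS.bd, show f.1 = fun y _ => a y from funext fun y => funext (h y)]
  exact BdF.cst s ⟨a, h1⟩ hc hb

theorem ev_Amat (y : Y) (t β : ℝ) (g : AlgC Y (Fin 1)) :
    (Amat β g).map (ev y t) = Amat β (ev y t g) := by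
  ext i j
  fin_cases i <;> fin_cases j <;> simp [Amat, map_ofNat]

theorem ev_Dhat (y : Y) (t β : ℝ) : (Dhat (AlgC Y (Fin 1)) β).map (ev y t) = Dhat ℂ β := by
  ext i j
  fin_cases i <;> fin_cases j <;> simp [Dhat]

end Model

theorem exists_dist (x : ℝ) : ∃ d, 0 < d ∧ ∀ m : ℤ, m = x ∨ d ≤ |m - x| := by
  have h1 := Int.floor_le x
  have h2 := Int.lt_floor_add_one x
  rcases h1.eq_or_lt with h | h
  · refine ⟨1, one_pos, fun m => or_iff_not_imp_left.2 fun e => ?_⟩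
    rw [← h] at e ⊢
    exact_mod_cast Int.one_le_abs (sub_ne_zero.2 fun a => e (by rw [a]))
  refine ⟨min (x - ⌊x⌋) (⌊x⌋ + 1 - x), lt_min (by linarith) (by linarith), fun m => Or.inr ?_⟩
  rcases le_or_gt m ⌊x⌋ with a | a
  · have : (m : ℝ) ≤ ⌊x⌋ := by exact_mod_cast a
    exact (min_le_left _ _).trans (le_abs.2 (Or.inr (by linarith)))
  · have : (⌊x⌋ : ℝ) + 1 ≤ m := by exact_mod_cast a
    exact (min_le_right _ _).trans (le_abs.2 (Or.inl (by linarith)))

/-- the divisors of the second order normal form -/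
theorem gap_le {ω lam c1 B d q g : ℝ} {n : Fin 4 → ℂ} (n0 : n 0 = I * c1) (n1 : n 1 = -(I * c1))
    (hB : ∀ j, ‖n j‖ ≤ B) (hd : ∀ m : ℤ, m = 2 * ω ∨ d ≤ |m - 2 * ω|) (q0 : 0 ≤ q)
    (g1 : g ≤ 2 * |c1| * q) (g2 : g + 2 * |c1| * q ≤ d) (g3 : g + 2 * B * q ≤ lam)
    (l0 : 0 < lam) {i j : Fin 4} (h : i ≠ j) (m : ℤ) :
    g ≤ ‖(m : ℂ) * I - (muE ω lam i + q * n i - (muE ω lam j + q * n j))‖ := by
  have h1 : ∀ m : ℤ, g ≤ |m - 2 * ω - 2 * c1 * q| := fun m => by
    have e : |2 * c1 * q| = 2 * |c1| * q := by rw [abs_mul, abs_mul, abs_two, abs_of_nonneg q0]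
    rcases hd m with a | a
    · rw [a, sub_self, zero_sub, abs_neg, e]; exact g1
    · have := abs_sub_abs_le_abs_sub (m - 2 * ω) (2 * c1 * q)
      linarith
  have h2 : lam ≤ |(muE ω lam i).re - (muE ω lam j).re| →
      g ≤ ‖(m : ℂ) * I - (muE ω lam i + q * n i - (muE ω lam j + q * n j))‖ := fun a => by
    refine le_trans ?_ (abs_re_le_norm _)
    have b := fun j => abs_le.1 ((abs_re_le_norm _).trans (hB j))
    have b1 := b i
    have b2 := b j
    simp only [sub_re, add_re, mul_re, ofReal_re, ofReal_im, I_re, I_im, intCast_re, intCast_im]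
    rcases le_abs.1 a with a | a
    · exact le_abs.2 (Or.inr (by nlinarith))
    · exact le_abs.2 (Or.inl (by nlinarith))
  fin_cases i <;> fin_cases j <;> first
    | exact absurd rfl h
    | (apply h2; simp [muE, le_abs, l0.le]; done)
    | skip
  · refine (h1 m).trans (le_trans (le_of_eq ?_) (abs_im_le_norm _))
    simp [muE, n0, n1]; congr 1; ring
  · refine (h1 (-m)).trans (le_trans (le_of_eq ?_) (abs_im_le_norm _))
    rw [← abs_neg]
    simp [muE, n0, n1]; congr 1; ring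

theorem small (K : ℝ) {c : ℝ} (hc : 0 < c) : ∀ᶠ e in 𝓝[>] (0 : ℝ), K * e ≤ c :=
  K3.ev_le (η := id) (tendsto_nhdsWithin_of_tendsto_nhds tendsto_id) K hc

/-- the first entry of a matrix conjugated by a matrix near the identity -/
theorem rest {A J : Type} [CommRing A] [Algebra ℝ A] {S : Scale A J} {s η p : ℝ}
    {N P W : Matrix (Fin 4) (Fin 4) A} (hN : ∀ i j, S.Bd s ((N - 1) i j) (2 * η))
    (hP : ∀ i j, S.Bd s (P i j) p) (hW : ∀ i j, S.Bd s (W i j) η) (h1 : η ≤ 1) :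
    S.Bd s ((N * P * (1 + W)) 0 0 - P 0 0) (44 * η * p) := by
  have h2 := Scale.matMul hN hP
  have := S.nonneg (hW 0 0)
  have := mul_nonneg this (S.nonneg (hP 0 0))
  refine Scale.le (Scale.cong (S.add (S.add (h2 0 0) (Scale.matMul h2 hW 0 0))
    (Scale.matMul hP hW 0 0)) ?_) ?_
  · rw [← Matrix.add_apply, ← Matrix.add_apply, ← Matrix.sub_apply]
    refine congrFun (congrFun ?_ 0) 0
    noncomm_ring
  · simp only [Fintype.card_fin, Nat.cast_ofNat]
    nlinarith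

theorem an_one {A J n : Type} [CommRing A] [Algebra ℝ A] [DecidableEq n] (S : Scale A J) (s : ℝ)
    (i j : n) : S.An s ((1 : Matrix n n A) i j) := by
  rw [Matrix.one_apply]
  split_ifs
  exacts [.one s, .zero s]

/-- a Diophantine value of a nonconstant continuous function -/
theorem exists_dio (h : DioStmt) {f : I01 → ℝ} (hf : Continuous f) {x y : I01} (hxy : f x ≠ f y) :
    ∃ z γ, Dioph (f z) γ ∧ Irrational (f z) := by
  have : PreconnectedSpace I01 := Subtype.preconnectedSpace isPreconnected_Icc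
  wlog a : f x < f y generalizing x y
  · exact this hxy.symm (hxy.symm.lt_of_le (not_lt.1 a))
  obtain ⟨ρ, γ, h1, h2, h3⟩ := h _ _ a
  obtain ⟨z, rfl⟩ := intermediate_value_univ x y hf ⟨h1.le, h2.le⟩
  exact ⟨z, γ, h3⟩

end Flq

open Flq in
theorem flq : ModCStmt → GapStmt → EigStmt → NfStmt → RedStmt → DioStmt → PreStmt := by
  intro modC gap eig nf red dio β hβ
  obtain ⟨ω, lam, c1, V, Vi, hE⟩ := eig β hβ
  obtain ⟨S, hS⟩ := modC I01 (Fin 1)
  obtain ⟨C, e1, he1, hN⟩ := nf β ω lam c1 V Vi hE S hS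
  obtain ⟨gap1, gap2⟩ := gap I01 S hS
  obtain ⟨-, l0, c0, -, -, n0, n1⟩ := hE
  generalize nfc (muE ω lam) (Vi * Dhat ℂ β * V) = n at hN n0 n1
  obtain ⟨B, B0, hB⟩ : ∃ B, 0 ≤ B ∧ ∀ j, ‖n j‖ ≤ B := ⟨∑ j, ‖n j‖,
    sum_nonneg fun _ _ => norm_nonneg _, fun j => single_le_sum (f := fun j => ‖n j‖)
      (fun _ _ => norm_nonneg _) (mem_univ j)⟩
  obtain ⟨d, d0, hd⟩ := exists_dist (2 * ω)
  have a0 := abs_pos.2 c0
  obtain ⟨e0, ⟨⟨s0, s1, s2⟩, s3, s4, s5⟩, s6, s7, s8⟩ := ((((eventually_mem_nhdsWithin.and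
    ((small 1 he1).and (small 2 one_pos))).and ((small (36 * C) a0).and
      ((small (3 * |c1|) d0).and (small (4 * B + |c1|) l0)))).and
        ((small (4 * B + |c1|) one_pos).and ((small (176 * C * (2 * B + C) / |c1|)
          (half_pos (half_pos a0))).and (small C (half_pos (half_pos a0))))))).exists
  replace s0 : 0 < e0 := s0
  obtain ⟨g, cs, Λ, M, U, Ui, Rm, W, Fm, hg, hc, hΛ, hM, ag, aU, aUi, aW, u1, u2, u3, bR, bF⟩ :=
    hN e0 s0 (by linarith)
  clear hN modC gap eig nf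
  have C0 : 0 ≤ C := nonneg_of_mul_nonneg_left (S.nonneg (bF 0 0)) (by positivity)
  have he : ∀ y, e0 / 2 ≤ ecc e0 y ∧ ecc e0 y ≤ e0 := fun y => by
    have := y.2.1
    have := y.2.2
    unfold ecc
    constructor <;> nlinarith
  have he2 : ∀ y, e0 ^ 2 / 4 ≤ ecc e0 y ^ 2 ∧ ecc e0 y ^ 2 ≤ e0 ^ 2 := fun y => by
    have := he y
    constructor <;> nlinarith
  have q0 : 0 < e0 ^ 2 := by positivity
  have q1 : e0 ^ 2 ≤ e0 / 2 := by nlinarith
  have g0 : 0 < |c1| * e0 ^ 2 / 2 := by positivity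
  have k0 : 0 ≤ C * e0 ^ 3 := by positivity
  have k1 : 18 * (C * e0 ^ 3) ≤ |c1| * e0 ^ 2 / 2 := by nlinarith
  have hgap : ∀ i j, i ≠ j → ∀ (y : I01) (m : ℤ),
      |c1| * e0 ^ 2 / 2 ≤ ‖(m : ℂ) * I - (ev y 0 (Λ i) - ev y 0 (Λ j))‖ := fun i j h y m => by
    have := gap_le (ω := ω) (q := ecc e0 y ^ 2) (g := |c1| * e0 ^ 2 / 2) n0 n1 hB hd (sq_nonneg _)
      (by nlinarith [he2 y]) (by nlinarith [he2 y]) (by nlinarith [he2 y]) l0 h m
    rwa [ofReal_pow, ← hΛ i y fun _ => 0, ← hΛ j y fun _ => 0] at this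
  have nq : ∀ y j, ‖(ecc e0 y : ℂ) ^ 2 * n j‖ ≤ e0 ^ 2 * B := fun y j => by
    rw [norm_mul, ← ofReal_pow, norm_real, Real.norm_of_nonneg (sq_nonneg _)]
    exact mul_le_mul (he2 y).2 (hB j) (norm_nonneg _) q0.le
  obtain ⟨Ws, Δ, bW, cΔ, bΔ, r1⟩ := red _ S 1 _ _ Λ Rm one_pos g0 k0 k1
    (fun j => ⟨_, bd_of hS (hΛ j) (by positivity)
      (fun y => (norm_add_le _ _).trans (add_le_add le_rfl (nq y j))) 1⟩) bR
    (fun i j h f c hf => gap1 _ f 1 c _ one_pos g0 ((cst_of hS (hΛ i)).sub (cst_of hS (hΛ j)))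
      (hgap i j h) hf)
    fun f c hf => (gap2 f 1 c one_pos hf).imp fun h => Exists.imp fun m a => ⟨a.1, a.2.1, a.2.2.1,
      Scale.le a.2.2.2 ((le_div_iff₀ g0).2 (mul_le_of_le_one_right (S.nonneg hf) (by nlinarith)))⟩
  obtain ⟨η, hη, η1, η2⟩ : ∃ η, 2 * (C * e0 ^ 3) / (|c1| * e0 ^ 2 / 2) = η ∧ η ≤ 1 / 9 ∧
      44 * η * (2 * B + C) ≤ |c1| / 2 / 2 :=
    ⟨_, rfl, (div_le_iff₀ g0).2 (by linarith), s7.trans_eq' (by field_simp; ring)⟩
  rw [hη] at bW
  obtain ⟨N, v1, bN⟩ := Scale.exists_matInv (M := 1 + Ws) one_pos (S.nonneg (bW 0 0))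
    (by simpa using bW) (by simp only [Fintype.card_fin, Nat.cast_ofNat]; linarith)
  have r2 : (1 + Ws).map (S.D 0) = Ws.map (S.D 0) := by
    ext i j
    rw [map_apply, Matrix.add_apply, map_add, map_apply, Matrix.one_apply]
    split_ifs <;> simp
  obtain ⟨w1, w2, w3, w4⟩ := core (d := fun X => X.map (S.D 0)) (Flq.map_mul _) u1
    (mul_eq_one_comm.1 u1) v1 (mul_eq_one_comm.1 v1) u2 (r2 ▸ r1) u3
  have aV : ∀ i j, S.An 1 ((1 + Ws) i j) := fun i j => (an_one S 1 i j).add ⟨_, bW i j⟩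
  have aN : ∀ i j, S.An 1 (N i j) := fun i j => by
    simpa using (an_one S 1 i j).add ⟨_, bN i j⟩
  have nΔ := fun y j => ev_bd hS (bΔ j) y 0
  have eΛ : ∀ y j, ev y 0 ((Λ + Δ) j) = muE ω lam j + (ecc e0 y : ℂ) ^ 2 * n j + ev y 0 (Δ j) :=
    fun y j => by rw [← hΛ j y fun _ => 0]; rfl
  obtain ⟨y, γ, h1, h2⟩ := exists_dio dio (f := fun y => (ev y 0 ((Λ + Δ) 0)).im)
    (continuous_im.comp (ev_cont _ _)) (x := 0) (y := 1) fun e => by
      have b0 := abs_le.1 ((abs_im_le_norm _).trans (nΔ 0 0))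
      have b1 := abs_le.1 ((abs_im_le_norm _).trans (nΔ 1 0))
      simp only [eΛ, n0, ← ofReal_pow, add_im, mul_im, ofReal_re, ofReal_im, I_re, I_im, mul_re,
        ecc, Set.Icc.coe_zero, Set.Icc.coe_one] at e
      rcases abs_cases c1 with b | b <;> nlinarith
  have cμ : ∀ j t, ev y t ((Λ + Δ) j) = ev y 0 ((Λ + Δ) j) := fun j =>
    cst_ev hS ((cst_of hS (hΛ j)).add (cΔ j)) y
  have eg : ∀ t, ev y t g = (((1 + ecc e0 y * Real.cos t)⁻¹ : ℝ) : ℂ) := fun t => hg y _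
  have eA : ∀ t, (Amat β g).map (ev y t) = Ac β (ecc e0 y) t := fun t => by rw [ev_Amat, eg, Ac]
  have mm : ∀ t (X Z : Matrix (Fin 4) (Fin 4) (AlgC I01 (Fin 1))) i j, ev y t ((X * Z) i j) =
      (X.map (ev y t) * Z.map (ev y t)) i j := fun t X Z i j =>
    congrFun (congrFun (Matrix.map_mul (L := X) (M := Z) (f := ev y t)) i) j
  have r3 := fun j => abs_le.1 ((abs_re_le_norm _).trans (nΔ y j))
  have r4 := fun j => abs_le.1 ((abs_im_le_norm _).trans (nΔ y j))
  have r5 := fun j => abs_le.1 ((abs_re_le_norm _).trans (nq y j))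
  have r6 := fun j => abs_le.1 ((abs_im_le_norm _).trans (nq y j))
  have r7 : 2 * (C * e0 ^ 3) + e0 ^ 2 * B < lam / 2 := by nlinarith
  have r8 : 2 * (C * e0 ^ 3) + e0 ^ 2 * B < 1 / 2 := by nlinarith
  refine ⟨ecc e0 y, 1, γ, fun j => ev y 0 ((Λ + Δ) j), fun t => (U * (1 + Ws)).map (ev y t),
    fun t => (N * Ui).map (ev y t), by linarith [he y], by linarith [he y], one_pos, h1,
    fun i j => an1 hS (Scale.An.matMul aU aV i j) y,
    fun i j => an1 hS (Scale.An.matMul aN aUi i j) y, by simpa only [eg] using an1 hS ag y,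
    fun t => by rw [← Matrix.map_mul, w1, Matrix.map_one _ (map_zero _) (map_one _)],
    fun t i j => ?_, fun t i j => ?_, h2, fun m e => ?_, ⟨lam / 2, ?_⟩, ?_, ?_⟩
  · have := ev_der hS ((U * (1 + Ws)) i j) y t
    rwa [show S.D 0 _ = _ from congrFun (congrFun w2 i) j, Matrix.sub_apply, map_sub, mm, eA,
      mul_diagonal, _root_.map_mul, cμ] at this
  · have := ev_der hS ((N * Ui) i j) y t
    rwa [show S.D 0 _ = _ from congrFun (congrFun w3 i) j, Matrix.sub_apply, map_sub, mm _ _ (Amat _ _),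
      eA, diagonal_mul, _root_.map_mul, cμ] at this
  · have b := hgap 1 0 (by decide) y m
    rw [← e, show ev y 0 ((Λ + Δ) 1) + (starRingEnd ℂ) (ev y 0 ((Λ + Δ) 0)) -
      (ev y 0 (Λ 1) - ev y 0 (Λ 0)) = ev y 0 (Δ 1) + (starRingEnd ℂ) (ev y 0 (Δ 0)) by
        rw [eΛ, eΛ, show ev y 0 (Λ 1) = _ from hΛ 1 y _, show ev y 0 (Λ 0) = _ from hΛ 0 y _, n0, n1]
        simp [muE]
        ring] at b
    have b1 := norm_add_le (ev y 0 (Δ 1)) ((starRingEnd ℂ) (ev y 0 (Δ 0)))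
    rw [RCLike.norm_conj] at b1
    linarith [nΔ y 0, nΔ y 1]
  · have := r3 0; have := r3 1; have := r3 2; have := r3 3
    have := r5 0; have := r5 1; have := r5 2; have := r5 3
    simp only [eΛ, add_re, abs_lt, show (muE ω lam 0).re = 0 by simp [muE],
      show (muE ω lam 1).re = 0 by simp [muE], show (muE ω lam 2).re = lam by simp [muE],
      show (muE ω lam 3).re = -lam by simp [muE]]
    refine ⟨⟨?_, ?_⟩, ⟨?_, ?_⟩, ?_, ?_⟩ <;> linarith
  · have := r4 2; have := r4 3; have := r6 2; have := r6 3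
    simp only [eΛ, add_im, abs_lt, show (muE ω lam 2).im = 0 by simp [muE],
      show (muE ω lam 3).im = 0 by simp [muE]]
    refine ⟨⟨?_, ?_⟩, ?_, ?_⟩ <;> linarith
  · have bP : ∀ i j, S.Bd 1 ((diagonal M + Fm) i j) (2 * e0 * B + C * e0 ^ 2) := fun i j => by
      refine S.add ?_ (bF i j)
      rw [diagonal_apply]
      split_ifs
      · refine bd_of hS (hM i) (by positivity) (fun y => ?_) 1
        rw [norm_mul, norm_mul, norm_real, Real.norm_of_nonneg (by linarith [he y]), norm_ofNat]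
        exact mul_le_mul (by linarith [he y]) (hB i) (norm_nonneg _) (by positivity)
      · exact S.zero' 1 (by positivity)
    obtain ⟨h, m, m1, m2, m3, m4⟩ := gap2 _ 1 _ one_pos
      (S.add (rest bN bP bW (by linarith)) (bF 0 0))
    have eM : ∀ t, ev y t (M 0) = 2 * (ecc e0 y : ℂ) * (I * c1) := fun t => n0 ▸ hM 0 y _
    refine ⟨fun t => ev y t ((N * W * (1 + Ws)) 0 0 + h), 2 * (ecc e0 y : ℂ) * (I * c1) + ev y 0 m,
      an1 hS ((Scale.An.matMul (Scale.An.matMul aN aW) aV 0 0).add ⟨_, m4⟩) y, fun e => ?_,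
      fun t => ?_⟩
    · have b := abs_le.1 ((abs_im_le_norm _).trans (ev_bd hS m2 y 0))
      have b1 : 44 * η * (2 * e0 * B + C * e0 ^ 2) + C * e0 ^ 2 ≤ |c1| / 2 * e0 := by
        have := mul_nonneg (S.nonneg (bW 0 0)) (mul_nonneg C0 s0.le)
        nlinarith
      have b2 := he y
      simp only [add_im, mul_im, mul_re, ofReal_re, ofReal_im, I_re, I_im, re_ofNat, im_ofNat] at e
      rcases abs_cases c1 with b | b <;> nlinarith
    · have e1 : Ae β (ecc e0 y) t = ((-(cs * g * g)) • Dhat (AlgC I01 (Fin 1)) β).map (ev y t) := by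
        rw [Ae, ← ev_Dhat y t]
        ext i j
        simp only [map_apply, Matrix.smul_apply, smul_eq_mul, _root_.map_mul, map_neg, eg,
          show ev y t cs = _ from hc y _]
        push_cast
        rfl
      have := ev_der hS ((N * W * (1 + Ws)) 0 0 + h) y t
      convert this using 1
      rw [e1, ← Matrix.map_mul, ← Matrix.map_mul, w4, ← eM t, ← cst_ev hS m1 y t, map_apply,
        ← map_add, ← map_sub, map_add (S.D 0), m3]
      congr 1
      simp only [Matrix.sub_apply, Matrix.add_apply, map_apply, diagonal_mul, mul_diagonal,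
        diagonal_apply_eq]
      ring

end Pool.Agent.MP_1ba41f_an.K3
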