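import Mathlib
import Pool.Agent.MP_1ba41f_an.K3.Basic

/-! PROJECT KAM3: the adapted frame along an approximate torus. -/

noncomputable section
open Finset Matrix Filter Topology

namespace Pool.Agent.MP_1ba41f_an.K3

namespace FrameAux
variable {A : Type} [CommRing A] [Algebra ℝ A] {S : Scale A (Fin 2)} {ρ S0 : ℝ} {b : Base A}

/-- admissible tuples -/
structure Tup (S : Scale A (Fin 2)) (ρ S0 : ℝ) (b : Base A) (F : Fd A) where
  s : ℝ
  δ : ℝ
  η : ℝ
  ε : ℝ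
  K : Fin 4 → A
  e : A
  p : A
  adm : Adm S ρ S0 b F s δ η ε K e p

/-- the corrected dual frame -/
def Qm (b : Base A) (T c : Fin 4 → A) : Matrix (Fin 4) (Fin 4) A :=
  Matrix.of fun a j => if a = 1 then ∑ i, b.Om i j • T i else b.Q0 a j - c a * b.Q0 0 j

/-- the defect of the frame equation -/
def Wm (S : Scale A (Fin 2)) (ρ : ℝ) (b : Base A) (B Q : Matrix (Fin 4) (Fin 4) A) :
    Matrix (Fin 4) (Fin 4) A :=
  Matrix.of fun a j => S.L ρ (Q a j) + (Q * B) a j - b.l a • Q a j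

/-- the small part of the defect -/
def Mm (b : Base A) (B : Matrix (Fin 4) (Fin 4) A) (c : Fin 4 → A) : Matrix (Fin 4) (Fin 4) A :=
  Matrix.of fun a j => (b.Q0 * (B - b.D0)) a j - c a * (b.Q0 * (B - b.D0)) 0 j +
    b.l a • (c a * b.Q0 0 j)

theorem Qm_one (T c : Fin 4 → A) (j : Fin 4) : Qm b T c 1 j = ∑ i, b.Om i j • T i := by
  simp [Qm]

theorem Qm_ne (T c : Fin 4 → A) {a : Fin 4} (ha : a ≠ 1) (j : Fin 4) :
    Qm b T c a j = b.Q0 a j - c a * b.Q0 0 j := by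
  simp [Qm, ha]

theorem eq_zero_of_neg {x : A} (h : x = -x) : x = 0 := by
  have h2 : algebraMap ℝ A (1 / 2) * 2 = 1 := by
    rw [show (2 : A) = algebraMap ℝ A 2 from (map_ofNat _ 2).symm, ← map_mul]; norm_num
  linear_combination algebraMap ℝ A (1 / 2) * h - x * h2

theorem skew (hb : IsBase S ρ S0 b) (T : Fin 4 → A) :
    ∑ j, (∑ i, b.Om i j • T i) * T j = 0 := by
  refine eq_zero_of_neg ?_
  simp only [sum_mul]
  conv_lhs => rw [sum_comm]
  rw [← sum_neg_distrib]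
  refine sum_congr rfl fun j _ => ?_
  rw [← sum_neg_distrib]
  refine sum_congr rfl fun i _ => ?_
  rw [hb.anti i j, neg_smul, neg_mul, smul_mul_assoc, smul_mul_assoc, mul_comm]

theorem Q0T0 (hb : IsBase S ρ S0 b) (a : Fin 4) :
    (b.Q0 *ᵥ fun i => S.D 1 (b.K0 i)) a = (Pi.single 0 1 : Fin 4 → A) a := by
  have := congrFun (congrFun hb.QP a) 0
  rw [Matrix.mul_apply] at this
  simp only [hb.col] at this
  rw [show (b.Q0 *ᵥ fun i => S.D 1 (b.K0 i)) a = ∑ j, b.Q0 a j * S.D 1 (b.K0 j) from rfl, this,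
    Matrix.one_apply, Pi.single_apply]

theorem QT (hb : IsBase S ρ S0 b) {T : Fin 4 → A} {v : A} (hv : (b.Q0 *ᵥ T) 0 * v = 1) :
    Qm b T (fun a => ((b.Q0 *ᵥ T) a - (Pi.single 0 1 : Fin 4 → A) a) * v) *ᵥ T =
      Pi.single 0 1 := by
  funext a
  by_cases ha : a = 1
  · subst ha
    rw [show (Pi.single 0 1 : Fin 4 → A) 1 = 0 from by simp]
    rw [← skew hb T]
    simp only [Matrix.mulVec, dotProduct, Qm_one]
  · have e1 : ∀ (M : Matrix (Fin 4) (Fin 4) A) k, (M *ᵥ T) k = ∑ j, M k j * T j := fun _ _ => rfl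
    rw [e1]
    simp only [Qm_ne _ _ ha, sub_mul, mul_assoc, sum_sub_distrib, ← mul_sum, ← e1]
    linear_combination (-((b.Q0 *ᵥ T) a - (Pi.single 0 1 : Fin 4 → A) a)) * hv

theorem WT (hb : IsBase S ρ S0 b) {B Q : Matrix (Fin 4) (Fin 4) A} {T E : Fin 4 → A}
    (hQ : Q *ᵥ T = Pi.single 0 1) (hL : ∀ i, S.L ρ (T i) = (B *ᵥ T) i + E i) (a : Fin 4) :
    (Wm S ρ b B Q *ᵥ T) a = -(Q *ᵥ E) a := by
  have h1 := congrFun hQ a
  have h2 := congrArg (S.L ρ) h1
  have h3 : S.L ρ ((Pi.single 0 1 : Fin 4 → A) a) = 0 := by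
    rw [Pi.single_apply]; split_ifs
    · exact Derivation.map_one_eq_zero _
    · exact map_zero _
  have h4 : algebraMap ℝ A (b.l a) * (Pi.single 0 1 : Fin 4 → A) a = 0 := by
    rw [Pi.single_apply]; split_ifs with h
    · rw [h, hb.l0, map_zero, zero_mul]
    · exact mul_zero _
  rw [h3] at h2
  simp only [Wm, Matrix.mulVec, dotProduct, Matrix.mul_apply, Matrix.of_apply, Fin.sum_univ_four,
    map_add, Derivation.leibniz, smul_eq_mul, hL, Algebra.smul_def] at h1 h2 ⊢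
  linear_combination h2 - algebraMap ℝ A (b.l a) * h1 - h4

theorem W_one (hb : IsBase S ρ S0 b) {B : Matrix (Fin 4) (Fin 4) A} {T E : Fin 4 → A}
    (c : Fin 4 → A) (hL : ∀ i, S.L ρ (T i) = (B *ᵥ T) i + E i)
    (hh : ∀ i j, ∑ k, (b.Om i k • B k j + b.Om k j • B k i) = 0) (j : Fin 4) :
    Wm S ρ b B (Qm b T c) 1 j = ∑ i, b.Om i j • E i := by
  have h0 := hh 0 j
  have h1 := hh 1 j
  have h2 := hh 2 j
  have h3 := hh 3 j
  simp only [Wm, Matrix.of_apply, Matrix.mul_apply, Qm_one, hb.l1, zero_smul, sub_zero, map_sum,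
    Derivation.map_smul, hL]
  simp only [Matrix.mulVec, dotProduct, Fin.sum_univ_four, Algebra.smul_def] at h0 h1 h2 h3 ⊢
  linear_combination T 0 * h0 + T 1 * h1 + T 2 * h2 + T 3 * h3

theorem W_ne (hb : IsBase S ρ S0 b) (B : Matrix (Fin 4) (Fin 4) A) (T c : Fin 4 → A)
    {a : Fin 4} (ha : a ≠ 1) (j : Fin 4) :
    Wm S ρ b B (Qm b T c) a j = Mm b B c a j - S.L ρ (c a) * b.Q0 0 j := by
  have h1 := hb.LQ a j
  have h2 := hb.LQ 0 j
  rw [hb.l0, zero_smul] at h2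
  simp only [Wm, Mm, Matrix.of_apply, Matrix.mul_apply, Qm_ne _ _ ha, map_sub, Derivation.leibniz,
    smul_eq_mul, Matrix.sub_apply, Fin.sum_univ_four, Algebra.smul_def] at h1 h2 ⊢
  linear_combination h1 - c a * h2

theorem L_c (hb : IsBase S ρ S0 b) {B : Matrix (Fin 4) (Fin 4) A} {T E c : Fin 4 → A} {v : A}
    (hv : (b.Q0 *ᵥ T) 0 * v = 1) (hQ : Qm b T c *ᵥ T = Pi.single 0 1)
    (hL : ∀ i, S.L ρ (T i) = (B *ᵥ T) i + E i) {a : Fin 4} (ha : a ≠ 1) :
    S.L ρ (c a) = ((Mm b B c *ᵥ T) a + (Qm b T c *ᵥ E) a) * v := by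
  have h := WT hb hQ hL a
  have e1 : ∀ (M : Matrix (Fin 4) (Fin 4) A) k, (M *ᵥ T) k = ∑ j, M k j * T j := fun _ _ => rfl
  rw [e1] at h
  simp only [W_ne hb B T c ha, sub_mul, mul_assoc, sum_sub_distrib, ← mul_sum, ← e1] at h
  linear_combination (-v) * h - S.L ρ (c a) * hv

end FrameAux

open FrameAux in
theorem frame : FrameStmt := by
  intro A _ _ S ρ S0 b F C0 r0 hb hF
  have hS0 := hb.pos
  let ι := Tup S ρ S0 b F
  let Fl : Filter ι := comap Tup.η (𝓝 0)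
  have hη : Tendsto Tup.η Fl (𝓝 0) := tendsto_comap
  have ev : ∀ c, 0 < c → ∀ᶠ i in Fl, i.η ≤ c := fun c hc => by simpa using ev_le hη 1 hc
  have al : ∀ {P : ι → Prop}, (∀ i, P i) → ∀ᶠ i in Fl, P i := fun h => .of_forall h
  have d0 : ∀ i : ι, 0 < i.δ := fun i => i.adm.num.d0
  have d1 : ∀ i : ι, i.δ ≤ 1 := fun i => i.adm.num.d1
  have e0 : ∀ i : ι, 0 < i.ε := fun i => i.adm.num.e0
  have h0 : ∀ i : ι, 0 < i.η := fun i => i.adm.num.h0
  have s1 : ∀ i : ι, S0 / 2 ≤ i.s - 3 * i.δ := fun i => i.adm.num.s1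
  have s2 : ∀ i : ι, i.s ≤ S0 := fun i => i.adm.num.s2
  have sp : ∀ i : ι, 0 < i.s := fun i => by linarith [s1 i, d0 i]
  have ds : ∀ i : ι, i.δ < i.s := fun i => by linarith [s1 i, d0 i]
  have p1 : ∀ i : ι, 0 ≤ i.ε / i.δ := fun i => (div_pos (e0 i) (d0 i)).le
  have q1 : ∀ i : ι, i.ε / i.δ ≤ i.η := fun i => by
    rw [div_le_iff₀ (d0 i)]
    refine i.adm.num.e1.trans (mul_le_mul_of_nonneg_left ?_ (h0 i).le)
    nlinarith [d0 i, d1 i]
  let l : ι → ℝ := fun i => i.s - i.δ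
  have hl : ∀ᶠ i in Fl, l i ≤ i.s := al fun i => by simp only [l]; linarith [d0 i]
  let T : ι → Fin 4 → A := fun i k => S.D 1 (i.K k)
  let T0 : Fin 4 → A := fun k => S.D 1 (b.K0 k)
  let B : ι → Matrix (Fin 4) (Fin 4) A := fun i => F.B i.K i.e i.p
  let E : ι → Fin 4 → A := fun i k => S.D 1 (S.L ρ (i.K k) - F.X i.K i.e i.p k)
  have near : ∀ᶠ i in Fl, Near S b i.s r0 i.K i.e i.p :=
    (ev r0 hF.pos).mono fun i h => ⟨fun k => Scale.le (i.adm.near.K k) h,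
      Scale.le i.adm.near.e h, Scale.le i.adm.near.p h⟩
  have hL : ∀ᶠ i in Fl, ∀ k, S.L ρ (T i k) = (B i *ᵥ T i) k + E i k := near.mono fun i h k => by
    simp only [T, E]
    rw [map_sub, Scale.DL, hF.chain (sp i) (s2 i) h i.adm.ce i.adm.cp k]; ring
  have hh := near.mono fun i h => hF.ham (sp i) (s2 i) h
  have oE : ∀ k, O S Fl l (fun i => E i k) fun i => i.ε / i.δ := fun k =>
    (O.of_bd (al fun i => i.adm.err k)).der 1 (d := Tup.δ) (al fun i => ⟨d0 i, ds i⟩)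
  have oQ0 : ∀ j k, O S Fl Tup.s (fun _ => b.Q0 j k) fun _ => 1 := fun j k =>
    O.of_an (hb.anQ j k) (al s2)
  have oP0 : ∀ j k, O S Fl Tup.s (fun _ => b.P0 j k) fun _ => 1 := fun j k =>
    O.of_an (hb.anP j k) (al s2)
  have oT' : ∀ k, O S Fl Tup.s (fun i => T i k - T0 k) Tup.η := fun k =>
    O.of_bd (al fun i => i.adm.nT k)
  have oT : ∀ k, O S Fl Tup.s (fun i => T i k) fun _ => 1 := fun k =>
    (oT' k).near hη ((oP0 k 0).congr' fun _ => hb.col k)
  have oB : ∀ j k, O S Fl Tup.s (fun i => (B i - b.D0) j k) Tup.η := fun j k =>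
    O.of_bdC ((ev r0 hF.pos).mono fun i h => hF.lipB (sp i) (s2 i) i.adm.near h j k)
      (al fun i => (h0 i).le)
  have ou : ∀ a, O S Fl Tup.s (fun i => (b.Q0 *ᵥ T i) a - (Pi.single 0 1 : Fin 4 → A) a) Tup.η :=
    fun a => ((O.mulVec (M := fun _ => b.Q0) (v := fun i => T i - T0) oQ0 oT' a).wt'
      fun _ => one_mul _).congr' fun i => by rw [mulVec_sub, Pi.sub_apply, Q0T0 hb]
  obtain ⟨hinv, oinv⟩ := O.inv (f := fun i => (b.Q0 *ᵥ T i) 0) (f0 := fun _ => 1)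
    (g0 := fun _ => 1) ((ou 0).congr' fun i => by rw [Pi.single_eq_same]) hη (al sp)
    (al fun _ => one_mul _) O.one
  let v : ι → A := fun i => Ring.inverse ((b.Q0 *ᵥ T i) 0)
  have ov : O S Fl Tup.s v fun _ => 1 := oinv.near hη O.one
  let c : ι → Fin 4 → A := fun i a => ((b.Q0 *ᵥ T i) a - (Pi.single 0 1 : Fin 4 → A) a) * v i
  have oc : ∀ a, O S Fl Tup.s (fun i => c i a) Tup.η := fun a => (ou a).mul1 ov
  let Q : ι → Matrix (Fin 4) (Fin 4) A := fun i => Qm b (T i) (c i)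
  have hQ : ∀ᶠ i in Fl, Q i *ᵥ T i = Pi.single 0 1 := hinv.mono fun i h => QT hb h
  have oQ' : ∀ a j, O S Fl Tup.s (fun i => (Q i - b.Q0) a j) Tup.η := fun a j => by
    by_cases ha : a = 1
    · subst ha
      refine (O.sum fun k => (oT' k).smul (b.Om k j)).congr' fun i => ?_
      simp only [Q, T0, Matrix.sub_apply, Qm_one, hb.row, hb.col, smul_sub, sum_sub_distrib]
    · refine ((oc a).mul1 (oQ0 0 j)).neg.congr' fun i => ?_
      simp only [Q, Matrix.sub_apply, Qm_ne _ _ ha]; ring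
  have oQ : ∀ a j, O S Fl Tup.s (fun i => Q i a j) fun _ => 1 := fun a j =>
    (oQ' a j).near hη (oQ0 a j)
  have hPQ0 : b.P0 * b.Q0 = 1 := mul_eq_one_comm.1 hb.QP
  obtain ⟨N, hN, oN⟩ := O.matInv (M := fun i => b.P0 * Q i) (w := Tup.η) (l := Tup.s)
    (fun a j => ((O.matMul (M := fun _ => b.P0) oP0 oQ' a j).wt' fun _ => one_mul _).congr'
      fun i => by rw [Matrix.mul_sub, hPQ0]) hη (al fun i => (h0 i).le) (al sp)
  have oN1 : ∀ a j, O S Fl Tup.s (fun i => N i a j) fun _ => 1 := fun a j => by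
    refine O.near (g := fun _ => (1 : Matrix (Fin 4) (Fin 4) A) a j) (oN a j) hη ?_
    rw [Matrix.one_apply]; split_ifs
    · exact O.one
    · exact O.zero (al fun _ => zero_le_one)
  let P : ι → Matrix (Fin 4) (Fin 4) A := fun i => N i * b.P0
  have oP : ∀ a j, O S Fl Tup.s (fun i => P i a j) fun _ => 1 := fun a j =>
    (O.matMul (N := fun _ => b.P0) oN1 oP0 a j).wt' fun _ => one_mul _
  have hPQ : ∀ᶠ i in Fl, P i * Q i = 1 := hN.mono fun i h => by
    simp only [P]; rw [Matrix.mul_assoc]; exact mul_eq_one_comm.1 h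
  let W : ι → Matrix (Fin 4) (Fin 4) A := fun i => Wm S ρ b (B i) (Q i)
  have oQE : ∀ a, O S Fl l (fun i => (Q i *ᵥ E i) a) fun i => i.ε / i.δ := fun a =>
    (O.mulVec (fun j k => (oQ j k).lev hl) oE a).wt' fun _ => one_mul _
  have oW1 : ∀ j, O S Fl l (fun i => W i 1 j) fun i => i.ε / i.δ := fun j => by
    refine (O.sum fun k => (oE k).smul (b.Om k j)).congr ?_
    filter_upwards [hL, hh] with i a1 a2
    exact (W_one hb _ a1 a2 j).symm
  have oQB : ∀ a j, O S Fl Tup.s (fun i => (b.Q0 * (B i - b.D0)) a j) Tup.η := fun a j =>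
    (O.matMul (M := fun _ => b.Q0) oQ0 oB a j).wt' fun _ => one_mul _
  have oM : ∀ a j, O S Fl Tup.s (fun i => Mm b (B i) (c i) a j) Tup.η := fun a j =>
    ((oQB a j).sub (((oc a).toOne hη).mul1' (oQB 0 j))).add (((oc a).mul1 (oQ0 0 j)).smul (b.l a))
  have oW : ∀ a j, O S Fl l (fun i => W i a j) Tup.η := fun a j => by
    by_cases ha : a = 1
    · subst ha; exact (oW1 j).wt (al q1)
    · have oL : O S Fl l (fun i => S.L ρ (c i a)) Tup.η := by
        refine (((((O.mulVec oM oT a).wt' fun _ => mul_one _).lev hl).add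
          ((oQE a).wt (al q1))).mul1 (ov.lev hl)).congr ?_
        filter_upwards [hL, hinv, hQ] with i a1 a2 a3
        exact (L_c hb a2 a3 a1 ha).symm
      exact (((oM a j).lev hl).sub (oL.mul1 ((oQ0 0 j).lev hl))).congr' fun i =>
        (W_ne hb _ _ _ ha j).symm
  let G : ι → Matrix (Fin 4) (Fin 4) A := fun i => W i * P i
  have oG : ∀ a j, O S Fl l (fun i => G i a j) Tup.η := fun a j =>
    (O.matMul oW (fun j k => (oP j k).lev hl) a j).wt' fun _ => mul_one _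
  have oG1 : ∀ j, O S Fl l (fun i => G i 1 j) fun i => i.ε / i.δ := fun j =>
    O.sum fun k => (oW1 k).mul1 ((oP k j).lev hl)
  have oG0 : ∀ a, O S Fl l (fun i => G i a 0) fun i => i.ε / i.δ := fun a => by
    refine (oQE a).neg.congr ?_
    filter_upwards [hL, hQ, hPQ] with i a1 a2 a3
    have hP : ∀ k, P i k 0 = T i k := fun k => by
      have := congrArg (fun x => (P i *ᵥ x) k) a2
      simp only [mulVec_mulVec, a3, one_mulVec, mulVec_single_one] at this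
      exact this.symm
    rw [← WT hb a2 a1 a]
    change ∑ k, W i a k * T i k = ∑ k, W i a k * P i k 0
    simp only [hP]
  have n1 : ∀ᶠ i in Fl, (0 : ℝ) ≤ (fun _ : ι => (1 : ℝ)) i := al fun _ => zero_le_one
  have n2 : ∀ᶠ i in Fl, 0 ≤ i.η := al fun i => (h0 i).le
  obtain ⟨a1, a10, h1⟩ := O.uniform (κ := Fin 4 × Fin 4) (fun k => oP k.1 k.2) fun _ => n1
  obtain ⟨a2, a20, h2⟩ := O.uniform (κ := Fin 4 × Fin 4) (fun k => oQ k.1 k.2) fun _ => n1
  obtain ⟨a3, a30, h3⟩ := O.uniform (κ := Fin 4 × Fin 4) (fun k => oQ' k.1 k.2) fun _ => n2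
  obtain ⟨a4, a40, h4⟩ := O.uniform (κ := Fin 4 × Fin 4) (fun k => oG k.1 k.2) fun _ => n2
  obtain ⟨a5, a50, h5⟩ := O.uniform oG0 fun _ => al p1
  obtain ⟨a6, a60, h6⟩ := O.uniform oG1 fun _ => al p1
  obtain ⟨η0, hη0, H⟩ :=
    ev_comap (h1.and (h2.and (h3.and (h4.and (h5.and (h6.and (hQ.and hPQ)))))))
  refine ⟨a1 + a2 + a3 + a4 + a5 + a6, η0, hη0, fun s δ η ε K e p adm hle => ?_⟩
  let i : ι := ⟨s, δ, η, ε, K, e, p, adm⟩
  obtain ⟨g1, g2, g3, g4, g5, g6, g7, g8⟩ := H i (by rw [abs_of_pos (h0 i)]; exact hle)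
  refine ⟨P i, Q i, G i, g8, g7, Qm_one _ _, fun a j => ?_,
    fun a j => Scale.le (g1 (a, j)) (by linarith),
    fun a j => Scale.le (g2 (a, j)) (by linarith),
    fun a j => Scale.le (g3 (a, j)) (mul_le_mul_of_nonneg_right (by linarith) (h0 i).le),
    fun a j => Scale.le (g4 (a, j)) (mul_le_mul_of_nonneg_right (by linarith) (h0 i).le),
    fun a => Scale.le (g5 a) (mul_le_mul_of_nonneg_right (by linarith) (p1 i)),
    fun j => Scale.le (g6 j) (mul_le_mul_of_nonneg_right (by linarith) (p1 i))⟩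
  have : G i * Q i = W i := by simp only [G]; rw [Matrix.mul_assoc, g8, Matrix.mul_one]
  rw [this]
  simp only [W, Wm, Matrix.of_apply, B]
  ring

end Pool.Agent.MP_1ba41f_an.K3
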