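import Mathlib
import Pool.Agent.MP_1ba41f_an.K3.Spec

/-! PROJECT KAM3, module HAM: the reduced field gives the Hamilton equations. -/

noncomputable section
open Finset Complex

namespace Pool.Agent.MP_1ba41f_an.K3
namespace Ham
open Ex

section General
variable {V : Type}

/-- real value of an expression -/
def ev (x : V → ℝ) (E : Ex V) : ℝ := E.eval rsq x

theorem ev_c (x : V → ℝ) (a : ℝ) : ev x (c a) = a := rfl
theorem ev_v (x : V → ℝ) (i : V) : ev x (v i) = x i := rfl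
theorem ev_add (x : V → ℝ) (a b : Ex V) : ev x (add a b) = ev x a + ev x b := rfl
theorem ev_mul (x : V → ℝ) (a b : Ex V) : ev x (mul a b) = ev x a * ev x b := rfl
theorem ev_inv (x : V → ℝ) (a : Ex V) : ev x (inv a) = (ev x a)⁻¹ := by
  show Ring.inverse (ev x a) = _
  rw [Ring.inverse_eq_inv']
theorem ev_isq (x : V → ℝ) (a : Ex V) : ev x (isq a) = (√(ev x a))⁻¹ := rfl

variable [DecidableEq V]

/-- real value of a formal derivative -/
def dv (x : V → ℝ) (i : V) (E : Ex V) : ℝ := ev x (E.d i)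

theorem dv_c (x : V → ℝ) (i : V) (a : ℝ) : dv x i (c a) = 0 := rfl
theorem dv_v (x : V → ℝ) (i j : V) : dv x i (v j) = if j = i then 1 else 0 := by
  unfold dv d; split_ifs <;> rfl
theorem dv_add (x : V → ℝ) (i : V) (a b : Ex V) : dv x i (add a b) = dv x i a + dv x i b := rfl
theorem dv_mul (x : V → ℝ) (i : V) (a b : Ex V) :
    dv x i (mul a b) = dv x i a * ev x b + ev x a * dv x i b := rfl
theorem dv_inv (x : V → ℝ) (i : V) (a : Ex V) :
    dv x i (inv a) = -((ev x a)⁻¹ * (ev x a)⁻¹ * dv x i a) := by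
  show ev x (mul (c (-1)) (mul (mul (inv a) (inv a)) (d i a))) = _
  simp only [ev_mul, ev_c, ev_inv, dv]; ring
theorem dv_isq (x : V → ℝ) (i : V) (a : Ex V) :
    dv x i (isq a) = -(1 / 2) * ev x (isq a) ^ 3 * dv x i a := by
  show ev x (mul (c (-1 / 2)) (mul (mul (isq a) (mul (isq a) (isq a))) (d i a))) = _
  simp only [ev_mul, ev_c, dv]; ring

omit [DecidableEq V] in
theorem hd_of {E : Type} [NormedAddCommGroup E] [NormedSpace ℝ E] {f g : ℝ → E} {a b : E}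
    {θ : ℝ} (h : HasDerivAt f a θ) (hf : ∀ s, g s = f s) (hab : b = a) : HasDerivAt g b θ := by
  rw [show g = f from funext hf, hab]; exact h

theorem chain [Fintype V] {x : ℝ → V → ℝ} {x' : V → ℝ} {θ : ℝ}
    (hx : ∀ i, HasDerivAt (fun s => x s i) (x' i) θ) (E : Ex V) (hE : Good (x θ) E) :
    HasDerivAt (fun s => ev (x s) E) (∑ i, dv (x θ) i E * x' i) θ := by
  induction E with
  | c a => simpa [ev_c, dv_c] using hasDerivAt_const θ a
  | v j =>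
    have : ∑ i, dv (x θ) i (v j) * x' i = x' j := by
      simp [dv_v]
    rw [this]; exact hx j
  | add a b iha ihb =>
    refine hd_of ((iha hE.1).add (ihb hE.2)) (fun s => rfl) ?_
    simp only [dv_add, add_mul, sum_add_distrib]
  | mul a b iha ihb =>
    refine hd_of ((iha hE.1).mul (ihb hE.2)) (fun s => rfl) ?_
    simp only [dv_mul, sum_mul, mul_sum, ← sum_add_distrib]
    exact sum_congr rfl fun i _ => by ring
  | inv a iha =>
    have h0 : ev (x θ) a ≠ 0 := hE.2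
    refine hd_of ((iha hE.1).inv h0) (fun s => by simp [ev_inv]) ?_
    simp only [dv_inv, ← sum_neg_distrib, sum_div]
    exact sum_congr rfl fun i _ => by field_simp
  | isq a iha =>
    have h0 : 0 < ev (x θ) a := hE.2
    have h1 : √(ev (x θ) a) ≠ 0 := (Real.sqrt_pos.2 h0).ne'
    refine hd_of (((iha hE.1).sqrt h0.ne').inv h1) (fun s => by simp [ev_isq]) ?_
    simp only [dv_isq, ev_isq, ← sum_neg_distrib, sum_div]
    exact sum_congr rfl fun i _ => by field_simp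

omit [DecidableEq V] in
theorem isq_pos {x : V → ℝ} {a : Ex V} (h : Good x (isq a)) : 0 < ev x (isq a) :=
  inv_pos.2 (Real.sqrt_pos.2 h.2)

omit [DecidableEq V] in
theorem isq_sq {x : V → ℝ} {a : Ex V} (h : Good x (isq a)) :
    ev x (isq a) ^ 2 * ev x a = 1 := by
  have h0 : 0 < ev x a := h.2
  rw [ev_isq, inv_pow, Real.sq_sqrt h0.le]; exact inv_mul_cancel₀ h0.ne'

end General

section Point
variable (a t : Fin 3 → ℝ) (x : Fin 7 → ℝ)

theorem ev_sq (E : Ex (Fin 7)) : ev x (sq E) = ev x E ^ 2 := by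
  show ev x E * ev x E = _; ring
theorem ev_sub (E F : Ex (Fin 7)) : ev x (sub E F) = ev x E - ev x F := by
  show ev x E + (-1) * ev x F = _; ring
theorem dv_sq (i : Fin 7) (E : Ex (Fin 7)) : dv x i (sq E) = 2 * ev x E * dv x i E := by
  show dv x i (mul E E) = _; rw [dv_mul]; ring
theorem dv_sub (i : Fin 7) (E F : Ex (Fin 7)) : dv x i (sub E F) = dv x i E - dv x i F := by
  show dv x i (add E (mul (c (-1)) F)) = _; rw [dv_add, dv_mul, dv_c, ev_c]; ring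

theorem ev_e2 : ev x e2E = x 5 ^ 2 := by rw [e2E, ev_sq, ev_v]
theorem dv_e2 {i : Fin 7} (h5 : (5 : Fin 7) ≠ i) : dv x i e2E = 0 := by
  rw [e2E, dv_sq, dv_v, if_neg h5, mul_zero]

/-- the facts extracted from `GoodPt` -/
structure Pt : Prop where
  e : 0 < x 4
  u : 0 < ev x (uE a t)
  low : 1 / 8 ≤ ev x (TE a t)
  gpsi : Good x (psiE a t)
  gee : Good x (eeE a t)
  gu : Good x (uE a t)
  gy : Good x (y0E a t)
  al : ev x alE ≠ 0
  gY : ∀ k, Good x (YE t k)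

theorem pt_of (h : GoodPt a t x) : Pt a t x := by
  obtain ⟨h1, h2, h3, h4⟩ := h
  have hpsi : Good x (psiE a t) := h1.1
  have hu : Good x (uE a t) := h1.2.1.1
  have hee : Good x (eeE a t) := hpsi.1.2
  have hy : Good x (y0E a t) := hpsi.1.1
  have heta : Good x (etaE a t) := hee.2.2
  have hbe : Good x (behE a t) := heta.1.1.2.2
  have hV : Good x (VE a t) := hbe.1.2.2
  refine ⟨h2, h3, h4, hpsi, hee, hu, hy, heta.2.2, fun k => ?_⟩
  have hk : Good x (VkE a t k) := by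
    fin_cases k
    exacts [hV.2.1.1, hV.2.1.2, hV.2.2]
  exact hk.2.1.2.1

variable {a t x}

theorem ev_D : ev x (DhE a t) = (x 5 ^ 2 * ev x (behE a t) ^ 2 + ev x alhE * x 4 ^ 2 -
    ev x (gahE a t) - x 5 ^ 2 * (ev x alhE * ev x (gahE a t))) * (x 4)⁻¹ ^ 2 := by
  simp only [DhE, ev_mul, ev_sub, ev_add, ev_sq, ev_inv, ev_v, ev_e2]

theorem dv_D {i : Fin 7} (h4 : (4 : Fin 7) ≠ i) (h5 : (5 : Fin 7) ≠ i) :
    dv x i (DhE a t) = (x 5 ^ 2 * (2 * ev x (behE a t) * dv x i (behE a t)) +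
      dv x i alhE * x 4 ^ 2 - dv x i (gahE a t) -
      x 5 ^ 2 * (dv x i alhE * ev x (gahE a t) + ev x alhE * dv x i (gahE a t))) *
      (x 4)⁻¹ ^ 2 := by
  simp only [DhE, ev_mul, ev_sub, ev_add, ev_sq, ev_inv, ev_v, ev_e2, dv_mul, dv_sub, dv_add,
    dv_sq, dv_inv, dv_v, dv_e2 x h5, if_neg h4]
  ring

theorem ev_al : ev x alE = 1 + x 5 ^ 2 * ev x alhE := by
  simp only [alE, ev_add, ev_mul, ev_c, ev_e2]

theorem ev_eta : ev x (etaE a t) = (x 4 * ev x (DhE a t) *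
    (ev x (y0E a t) * (1 + ev x (y0E a t))⁻¹) - ev x (behE a t) - ev x alhE * x 4) *
    (ev x alE)⁻¹ := by
  simp only [etaE, ev_mul, ev_sub, ev_add, ev_inv, ev_v, ev_c]

theorem ev_ee : ev x (eeE a t) = x 4 + x 5 ^ 2 * ev x (etaE a t) := by
  simp only [eeE, ev_add, ev_mul, ev_v, ev_e2]

theorem y_sq (h : Pt a t x) : ev x (y0E a t) ^ 2 * (1 + x 5 ^ 2 * ev x (DhE a t)) = 1 := by
  have := isq_sq h.gy
  rw [y0E]
  simpa only [ev_add, ev_mul, ev_c, ev_e2] using this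

theorem y_pos (h : Pt a t x) : 0 < ev x (y0E a t) := isq_pos h.gy

/-- the linear relation for the root -/
theorem rel1 (h : Pt a t x) : ev x (y0E a t) *
    (ev x alE * ev x (eeE a t) + x 5 ^ 2 * ev x (behE a t)) = x 4 := by
  have hy := y_sq h
  have hp := y_pos h
  have hal := h.al
  have h1 : (1 + ev x (y0E a t)) ≠ 0 := by positivity
  rw [ev_ee, ev_eta]
  have hA := ev_al (x := x)
  generalize ev x (y0E a t) = y at *
  generalize ev x (DhE a t) = D at *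
  generalize ev x (behE a t) = B at *
  generalize ev x alhE = A at *
  generalize ev x alE = al at *
  have e1 : y * (al * (x 4 + x 5 ^ 2 * ((x 4 * D * (y * (1 + y)⁻¹) - B - A * x 4) * al⁻¹)) +
      x 5 ^ 2 * B) = y * (al * x 4 + x 5 ^ 2 * (x 4 * D * (y * (1 + y)⁻¹) - A * x 4)) := by
    field_simp; ring
  rw [e1, hA]
  field_simp
  linear_combination (x 4) * hy

/-- the quadratic relation for the root -/
theorem rel2 (h : Pt a t x) : ev x alE * ev x (eeE a t) ^ 2 +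
    2 * (x 5 ^ 2 * ev x (behE a t)) * ev x (eeE a t) +
    (-x 4 ^ 2 + x 5 ^ 2 * ev x (gahE a t)) = 0 := by
  have hy := y_sq h
  have hp := y_pos h
  have hal := h.al
  have h1 := rel1 h
  have hD := ev_D (a := a) (t := t) (x := x)
  have hA := ev_al (x := x)
  have he := h.e
  generalize ev x (y0E a t) = y at *
  generalize ev x (DhE a t) = D at *
  generalize ev x (behE a t) = B at *
  generalize ev x (gahE a t) = G at *
  generalize ev x alhE = A at *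
  generalize ev x alE = al at *
  generalize ev x (eeE a t) = f at *
  have hD' : D * x 4 ^ 2 = x 5 ^ 2 * B ^ 2 + A * x 4 ^ 2 - G - x 5 ^ 2 * (A * G) := by
    rw [hD]; field_simp
  have h2 : (al * f + x 5 ^ 2 * B) ^ 2 = x 4 ^ 2 * (1 + x 5 ^ 2 * D) := by
    have : y ^ 2 * ((al * f + x 5 ^ 2 * B) ^ 2 - x 4 ^ 2 * (1 + x 5 ^ 2 * D)) = 0 := by
      linear_combination (y * (al * f + x 5 ^ 2 * B) + x 4) * h1 - x 4 ^ 2 * hy
    have := (mul_eq_zero.1 this).resolve_left (by positivity)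
    linarith
  have h3 : al * (al * f ^ 2 + 2 * (x 5 ^ 2 * B) * f + (-x 4 ^ 2 + x 5 ^ 2 * G)) = 0 := by
    linear_combination h2 + x 5 ^ 2 * hD' + (-x 4 ^ 2 + x 5 ^ 2 * G) * hA
  exact (mul_eq_zero.1 h3).resolve_left hal

theorem dv_eta (h : Pt a t x) {i : Fin 7} (h4 : (4 : Fin 7) ≠ i) (h5 : (5 : Fin 7) ≠ i) :
    dv x i (etaE a t) = -(ev x (y0E a t) / x 4) * (dv x i alhE * ev x (eeE a t) ^ 2 / 2 +
      dv x i (behE a t) * ev x (eeE a t) + dv x i (gahE a t) / 2) := by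
  have hy := y_sq h
  have hp := y_pos h
  have hal := h.al
  have h1 := rel1 h
  have h2 := rel2 h
  have hdD := dv_D (a := a) (t := t) (x := x) h4 h5
  have hA := ev_al (x := x)
  have he := h.e
  have hee := ev_ee (a := a) (t := t) (x := x)
  have heta := ev_eta (a := a) (t := t) (x := x)
  have hdy : dv x i (y0E a t) = -(1 / 2) * ev x (y0E a t) ^ 3 * (x 5 ^ 2 * dv x i (DhE a t)) := by
    rw [y0E, dv_isq]
    simp only [dv_add, dv_mul, dv_c, dv_e2 x h5, ev_e2]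
    ring
  have hdal : dv x i alE = x 5 ^ 2 * dv x i alhE := by
    simp only [alE, dv_add, dv_mul, dv_c, dv_e2 x h5, ev_e2]; ring
  have hd : dv x i (etaE a t) = (x 4 * (dv x i (DhE a t) *
      (ev x (y0E a t) * (1 + ev x (y0E a t))⁻¹) + ev x (DhE a t) *
      (dv x i (y0E a t) * (1 + ev x (y0E a t))⁻¹ ^ 2 *
        ((1 + ev x (y0E a t)) - ev x (y0E a t)))) -
      dv x i (behE a t) - dv x i alhE * x 4 - ev x (etaE a t) * dv x i alE) * (ev x alE)⁻¹ := by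
    have h1y : (1 + ev x (y0E a t)) ≠ 0 := by positivity
    rw [heta]
    simp only [etaE, ev_mul, ev_sub, ev_add, ev_inv, ev_v, ev_c, dv_mul, dv_sub, dv_add, dv_inv,
      dv_v, dv_c, if_neg h4]
    field_simp
    ring
  rw [hd, hdy, hdal]
  generalize ev x (y0E a t) = y at *
  generalize ev x (DhE a t) = D at *
  generalize ev x (behE a t) = B at *
  generalize ev x (gahE a t) = G at *
  generalize ev x alhE = A at *
  generalize ev x alE = al at *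
  generalize ev x (eeE a t) = f at *
  generalize ev x (etaE a t) = η at *
  generalize dv x i (DhE a t) = dD at *
  generalize dv x i (behE a t) = dB at *
  generalize dv x i (gahE a t) = dG at *
  generalize dv x i alhE = dA at *
  have h1y : (1 + y) ≠ 0 := by positivity
  have e1 : dD * (y * (1 + y)⁻¹) + D * (-(1 / 2) * y ^ 3 * (x 5 ^ 2 * dD) * (1 + y)⁻¹ ^ 2 *
      ((1 + y) - y)) = dD * y / 2 := by
    field_simp
    linear_combination (-dD) * hy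
  rw [e1]
  have hdD' : dD * x 4 ^ 2 = x 5 ^ 2 * (2 * B * dB) + dA * x 4 ^ 2 - dG -
      x 5 ^ 2 * (dA * G + A * dG) := by
    rw [hdD]; field_simp
  field_simp
  linear_combination y * hdD' + (2 * dB + 2 * dA * f) * h1 - y * dA * h2 + y * dG * hA
    + 2 * x 4 * dA * hee

theorem ev_n : ev x nE = x 0 ^ 2 + x 1 ^ 2 := by simp only [nE, ev_add, ev_sq, ev_v]
theorem ev_N : ev x NE = 1 + x 5 ^ 2 * ev x nE := by
  simp only [NE, ev_add, ev_mul, ev_c, ev_e2]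
theorem N_pos : 0 < ev x NE := by rw [ev_N, ev_n]; positivity
theorem dv_N {i : Fin 7} (h5 : (5 : Fin 7) ≠ i) : dv x i NE = x 5 ^ 2 * dv x i nE := by
  simp only [NE, dv_add, dv_mul, dv_c, dv_e2 x h5, ev_e2]; ring

theorem ev_tau (k : Fin 3) : ev x (tauE t k) =
    (2 * t k * x 0 + x 5 * ((t k ^ 2 - 1) * ev x nE)) * (ev x NE)⁻¹ := by
  simp only [tauE, ev_add, ev_mul, ev_c, ev_v, ev_inv]

theorem dv_tau (k : Fin 3) {i : Fin 7} (h5 : (5 : Fin 7) ≠ i) : dv x i (tauE t k) =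
    (2 * t k * dv x i (v 0) + x 5 * ((t k ^ 2 - 1) * dv x i nE)) * (ev x NE)⁻¹ +
    (2 * t k * x 0 + x 5 * ((t k ^ 2 - 1) * ev x nE)) * dv x i (inv NE) := by
  have h : dv x i (v 5) = 0 := by rw [dv_v, if_neg h5]
  simp only [tauE, ev_add, ev_mul, ev_c, ev_v, ev_inv, dv_add, dv_mul, dv_c, h]
  ring

theorem Y_sq (h : Pt a t x) (k : Fin 3) :
    ev x (YE t k) ^ 2 * (1 + x 5 * ev x (tauE t k)) = 1 := by
  have := isq_sq (h.gY k)
  rw [YE]
  simpa only [ev_add, ev_mul, ev_c, ev_v] using this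

theorem Y_pos (h : Pt a t x) (k : Fin 3) : 0 < ev x (YE t k) := isq_pos (h.gY k)

theorem dv_Y (k : Fin 3) {i : Fin 7} (h5 : (5 : Fin 7) ≠ i) :
    dv x i (YE t k) = -(1 / 2) * ev x (YE t k) ^ 3 * (x 5 * dv x i (tauE t k)) := by
  have h : dv x i (v 5) = 0 := by rw [dv_v, if_neg h5]
  rw [YE, dv_isq]
  simp only [dv_add, dv_mul, dv_c, h, ev_v]
  ring

theorem ev_Vk (h : Pt a t x) (k : Fin 3) : x 5 ^ 2 * ev x (VkE a t k) =
    a k * (ev x (YE t k) - 1 + x 5 * ev x (tauE t k) / 2) := by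
  have hy := Y_sq h k
  have hp := Y_pos h k
  simp only [VkE, ev_add, ev_mul, ev_c, ev_sq, ev_inv]
  generalize ev x (YE t k) = Y at *
  generalize ev x (tauE t k) = τ at *
  have h1 : 1 + Y ≠ 0 := by positivity
  have hτ : x 5 * τ = (1 - Y ^ 2) / Y ^ 2 := by field_simp; linear_combination hy
  have e1 : x 5 ^ 2 * (a k / 2 * (τ ^ 2 * Y ^ 2 * ((1 + 2 * Y) * (1 + Y)⁻¹ ^ 2))) =
      a k / 2 * ((x 5 * τ) ^ 2 * Y ^ 2 * ((1 + 2 * Y) * (1 + Y)⁻¹ ^ 2)) := by ring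
  rw [e1, hτ]
  field_simp
  ring

theorem dv_Vk (h : Pt a t x) (k : Fin 3) {i : Fin 7} (h5 : (5 : Fin 7) ≠ i) :
    x 5 ^ 2 * dv x i (VkE a t k) = a k * (dv x i (YE t k) + x 5 * dv x i (tauE t k) / 2) := by
  have hy := Y_sq h k
  have hp := Y_pos h k
  simp only [VkE, ev_add, ev_mul, ev_c, ev_sq, ev_inv, dv_add, dv_mul, dv_c, dv_sq, dv_inv]
  rw [dv_Y k h5]
  generalize ev x (YE t k) = Y at *
  generalize ev x (tauE t k) = τ at *
  generalize dv x i (tauE t k) = dτ at *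
  have h1 : 1 + Y ≠ 0 := by positivity
  have hτ : x 5 * τ = (1 - Y ^ 2) / Y ^ 2 := by field_simp; linear_combination hy
  have e1 : x 5 ^ 2 * (0 * (τ ^ 2 * Y ^ 2 * ((1 + 2 * Y) * (1 + Y)⁻¹ ^ 2)) + a k / 2 *
      ((2 * τ * dτ * Y ^ 2 + τ ^ 2 * (2 * Y * (-(1 / 2) * Y ^ 3 * (x 5 * dτ)))) *
        ((1 + 2 * Y) * (1 + Y)⁻¹ ^ 2) + τ ^ 2 * Y ^ 2 *
        ((0 + (0 * Y + 2 * (-(1 / 2) * Y ^ 3 * (x 5 * dτ)))) * (1 + Y)⁻¹ ^ 2 + (1 + 2 * Y) *
          (2 * (1 + Y)⁻¹ * -((1 + Y)⁻¹ * (1 + Y)⁻¹ * (0 + -(1 / 2) * Y ^ 3 * (x 5 * dτ))))))) =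
      a k / 2 * (x 5 * dτ) * ((2 * (x 5 * τ) * Y ^ 2 - (x 5 * τ) ^ 2 * Y ^ 4) *
        ((1 + 2 * Y) * (1 + Y)⁻¹ ^ 2) + (x 5 * τ) ^ 2 * Y ^ 5 *
        (-(1 + Y)⁻¹ ^ 2 + (1 + 2 * Y) * (1 + Y)⁻¹ ^ 3)) := by ring
  rw [e1, hτ]
  field_simp
  ring

theorem ev_V (h : Pt a t x) (ha : ∑ k, a k = 1) (hat : ∑ k, a k * t k = 0) :
    1 + x 5 ^ 2 * ev x (VE a t) = ∑ k, a k * ev x (YE t k) := by
  have h0 := ev_Vk h 0
  have h1 := ev_Vk h 1
  have h2 := ev_Vk h 2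
  rw [ev_tau] at h0 h1 h2
  simp only [Fin.sum_univ_three] at ha hat ⊢
  simp only [VE, ev_add, ev_mul, ev_c, ev_inv, kap, Fin.sum_univ_three]
  linear_combination h0 + h1 + h2 - (1 + x 5 ^ 2 * ev x nE * (ev x NE)⁻¹ / 2) * ha +
    x 5 * x 0 * (ev x NE)⁻¹ * hat

theorem dv_V (h : Pt a t x) (ha : ∑ k, a k = 1) (hat : ∑ k, a k * t k = 0) {i : Fin 7}
    (h5 : (5 : Fin 7) ≠ i) : x 5 ^ 2 * dv x i (VE a t) = ∑ k, a k * dv x i (YE t k) := by
  have h0 := dv_Vk h 0 h5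
  have h1 := dv_Vk h 1 h5
  have h2 := dv_Vk h 2 h5
  rw [dv_tau _ h5] at h0 h1 h2
  simp only [Fin.sum_univ_three] at ha hat ⊢
  simp only [VE, ev_mul, ev_c, ev_inv, kap, Fin.sum_univ_three, dv_add, dv_mul, dv_c]
  linear_combination h0 + h1 + h2 -
    (x 5 ^ 2 * (dv x i nE * (ev x NE)⁻¹ + ev x nE * dv x i (inv NE)) / 2) * ha +
    x 5 * (dv x i (v 0) * (ev x NE)⁻¹ + x 0 * dv x i (inv NE)) * hat

theorem dv_V0 {i : Fin 7} (h0 : (0 : Fin 7) ≠ i) (h1 : (1 : Fin 7) ≠ i) (h5 : (5 : Fin 7) ≠ i) :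
    dv x i (VE a t) = 0 := by
  have hn : dv x i nE = 0 := by
    simp only [nE, dv_add, dv_sq, dv_v, if_neg h0, if_neg h1]; ring
  have hN : dv x i (inv NE) = 0 := by rw [dv_inv, dv_N h5, hn]; ring
  have hτ : ∀ k, dv x i (tauE t k) = 0 := fun k => by
    rw [dv_tau k h5, hN, hn, dv_v, if_neg h0]; ring
  have hY : ∀ k, dv x i (YE t k) = 0 := fun k => by rw [dv_Y k h5, hτ]; ring
  have hV : ∀ k, dv x i (VkE a t k) = 0 := fun k => by
    simp only [VkE, dv_add, dv_mul, dv_c, dv_sq, dv_inv, hτ, hY]; ring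
  simp only [VE, dv_add, dv_mul, dv_c, hV, hn, hN]; ring

/-- the shape variable -/
def wC (x : Fin 7 → ℝ) : ℂ := ((x 5 * x 0 : ℝ) : ℂ) + ((x 5 * x 1 : ℝ) : ℂ) * I
/-- the momentum variable -/
def pC (x : Fin 7 → ℝ) : ℂ := ((x 5 * (x 2 - x 1) : ℝ) : ℂ) + ((x 5 * (x 3 + x 0) : ℝ) : ℂ) * I

theorem nsq (r s : ℝ) : ‖(r : ℂ) + (s : ℂ) * I‖ ^ 2 = r ^ 2 + s ^ 2 := by
  rw [Complex.sq_norm, Complex.normSq_add_mul_I]

theorem w_sq : 1 + ‖wC x‖ ^ 2 = ev x NE := by rw [wC, nsq, ev_N, ev_n]; ring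
theorem p_sq : ‖pC x‖ ^ 2 = x 5 ^ 2 * ((x 2 - x 1) ^ 2 + (x 3 + x 0) ^ 2) := by
  rw [pC, nsq]; ring
theorem pw_im : (pC x * (starRingEnd ℂ) (wC x)).im =
    x 5 ^ 2 * ((x 3 + x 0) * x 0 - (x 2 - x 1) * x 1) := by
  simp [pC, wC]; ring
theorem tw_eq (k : Fin 3) : 1 + (t k : ℂ) * wC x =
    ((1 + t k * (x 5 * x 0) : ℝ) : ℂ) + ((t k * (x 5 * x 1) : ℝ) : ℂ) * I := by
  rw [wC]; push_cast; ring
theorem tw_sq (k : Fin 3) : ‖1 + (t k : ℂ) * wC x‖ ^ 2 =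
    ev x NE * (1 + x 5 * ev x (tauE t k)) := by
  have hN := N_pos (x := x)
  rw [tw_eq, nsq, ev_tau]
  field_simp
  rw [ev_N, ev_n]; ring

theorem tw_pos (h : Pt a t x) (k : Fin 3) : 0 < ‖1 + (t k : ℂ) * wC x‖ := by
  have h1 : 0 < 1 + x 5 * ev x (tauE t k) := by
    have := (h.gY k).2
    exact this
  have h2 : 0 < ‖1 + (t k : ℂ) * wC x‖ ^ 2 := by rw [tw_sq]; exact mul_pos N_pos h1
  exact lt_of_le_of_ne (norm_nonneg _) fun h0 => by rw [← h0] at h2; simp at h2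

theorem Y_eq (h : Pt a t x) (k : Fin 3) :
    ev x (YE t k) = √(ev x NE) / ‖1 + (t k : ℂ) * wC x‖ := by
  have hr := tw_pos h k
  have hN := N_pos (x := x)
  have h1 := tw_sq (t := t) (x := x) k
  have h2 := Y_sq h k
  have h3 := Y_pos h k
  rw [eq_div_iff hr.ne']
  symm
  rw [Real.sqrt_eq_iff_mul_self_eq hN.le (by positivity)]
  linear_combination -(ev x (YE t k) ^ 2 * h1) - ev x NE * h2

theorem ev_m : 1 + x 5 ^ 2 * ev x mE = (1 + ‖wC x‖ ^ 2) *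
    (1 - 2 * (pC x * (starRingEnd ℂ) (wC x)).im + (1 + ‖wC x‖ ^ 2) * ‖pC x‖ ^ 2) := by
  rw [w_sq, p_sq, pw_im]
  simp only [mE, kE, jE, ev_add, ev_mul, ev_sub, ev_sq, ev_c, ev_v, ev_e2, ev_N, ev_n]
  ring

theorem dv_n0 : dv x 0 nE = 2 * x 0 := by simp [nE, dv_add, dv_sq, dv_v, ev_v]
theorem dv_n1 : dv x 1 nE = 2 * x 1 := by simp [nE, dv_add, dv_sq, dv_v, ev_v]
theorem dv_n2 : dv x 2 nE = 0 := by simp [nE, dv_add, dv_sq, dv_v, ev_v]
theorem dv_n3 : dv x 3 nE = 0 := by simp [nE, dv_add, dv_sq, dv_v, ev_v]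
theorem dv_n6 : dv x 6 nE = 0 := by simp [nE, dv_add, dv_sq, dv_v, ev_v]

theorem dv_m {i : Fin 7} (h5 : (5 : Fin 7) ≠ i) : dv x i mE =
    x 5 ^ 2 * dv x i nE * ev x kE + ev x NE * dv x i kE + x 5 ^ 2 *
      ((x 5 ^ 2 * dv x i nE * ev x nE + ev x NE * dv x i nE) * (ev x kE + 2 * ev x jE + ev x nE) +
        ev x NE * ev x nE * (dv x i kE + 2 * dv x i jE + dv x i nE) - 2 * ev x nE * dv x i nE) := by
  simp only [mE, ev_add, ev_mul, ev_sub, ev_sq, ev_c, ev_e2, dv_add, dv_mul, dv_sub, dv_sq, dv_c,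
    dv_e2 x h5, dv_N h5]
  ring

theorem ev_k : ev x kE = x 2 ^ 2 + x 3 ^ 2 := by simp only [kE, ev_add, ev_sq, ev_v]
theorem ev_j : ev x jE = x 3 * x 0 - x 2 * x 1 := by simp only [jE, ev_sub, ev_mul, ev_v]

theorem dv_m6 : dv x 6 mE = 0 := by
  rw [dv_m (by decide), dv_n6]
  simp [kE, jE, dv_add, dv_sub, dv_sq, dv_mul, dv_v]

theorem dv_m2 : dv x 2 mE = 2 * ev x NE * (ev x NE * (x 2 - x 1) + x 1) := by
  rw [dv_m (by decide), dv_n2]
  simp [kE, jE, dv_add, dv_sub, dv_sq, dv_mul, dv_v, ev_v, ev_N]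
  ring

theorem dv_m3 : dv x 3 mE = 2 * ev x NE * (ev x NE * (x 3 + x 0) - x 0) := by
  rw [dv_m (by decide), dv_n3]
  simp [kE, jE, dv_add, dv_sub, dv_sq, dv_mul, dv_v, ev_v, ev_N]
  ring

theorem dv_m0 : dv x 3 mE - dv x 0 mE = 2 * (-(x 0 * (1 - 2 * (pC x * (starRingEnd ℂ) (wC x)).im +
    2 * ev x NE * ‖pC x‖ ^ 2)) + ev x NE * (x 3 + x 0)) := by
  rw [dv_m3, dv_m (by decide), dv_n0, p_sq, pw_im, ev_k, ev_j]
  simp [kE, jE, dv_add, dv_sub, dv_sq, dv_mul, dv_v, ev_v, ev_N, ev_n]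
  ring

theorem dv_m1 : -dv x 2 mE - dv x 1 mE = 2 * (-(x 1 * (1 - 2 * (pC x * (starRingEnd ℂ) (wC x)).im +
    2 * ev x NE * ‖pC x‖ ^ 2)) - ev x NE * (x 2 - x 1)) := by
  rw [dv_m2, dv_m (by decide), dv_n1, p_sq, pw_im, ev_k, ev_j]
  simp [kE, jE, dv_add, dv_sub, dv_sq, dv_mul, dv_v, ev_v, ev_N, ev_n]
  ring

theorem dv_Y0 (h : Pt a t x) (k : Fin 3) : dv x 0 (YE t k) = x 5 *
    (x 5 * x 0 / (√(ev x NE) * ‖1 + (t k : ℂ) * wC x‖) -
      √(ev x NE) * t k * (1 + t k * (x 5 * x 0)) / ‖1 + (t k : ℂ) * wC x‖ ^ 3) := by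
  have hr := tw_pos h k
  have hN := N_pos (x := x)
  have h1 := tw_sq (t := t) (x := x) k
  have hs : √(ev x NE) ^ 2 = ev x NE := Real.sq_sqrt hN.le
  have hs0 : 0 < √(ev x NE) := Real.sqrt_pos.2 hN
  have hn := ev_N (x := x)
  rw [dv_Y k (by decide), dv_tau k (by decide), dv_inv, dv_N (by decide), dv_n0, Y_eq h k, dv_v,
    if_pos rfl]
  rw [ev_tau] at h1
  generalize ‖1 + (t k : ℂ) * wC x‖ = r at *
  generalize √(ev x NE) = s at *
  generalize ev x nE = n at *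
  generalize ev x NE = N at *
  have h2 : x 5 * (2 * t k * x 0 + x 5 * ((t k ^ 2 - 1) * n)) = r ^ 2 - N := by
    rw [h1]; field_simp; ring
  have e1 : x 5 * ((2 * t k * 1 + x 5 * ((t k ^ 2 - 1) * (2 * x 0))) * N⁻¹ +
      (2 * t k * x 0 + x 5 * ((t k ^ 2 - 1) * n)) * -(N⁻¹ * N⁻¹ * (x 5 ^ 2 * (2 * x 0)))) =
      x 5 * (2 * t k + x 5 * ((t k ^ 2 - 1) * (2 * x 0))) * N⁻¹ -
      (x 5 * (2 * t k * x 0 + x 5 * ((t k ^ 2 - 1) * n))) * (N⁻¹ * N⁻¹ * (x 5 ^ 2 * (2 * x 0))) := by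
    ring
  rw [e1, h2, ← hs]
  field_simp
  ring

theorem dv_Y1 (h : Pt a t x) (k : Fin 3) : dv x 1 (YE t k) = x 5 *
    (x 5 * x 1 / (√(ev x NE) * ‖1 + (t k : ℂ) * wC x‖) -
      √(ev x NE) * t k * (t k * (x 5 * x 1)) / ‖1 + (t k : ℂ) * wC x‖ ^ 3) := by
  have hr := tw_pos h k
  have hN := N_pos (x := x)
  have h1 := tw_sq (t := t) (x := x) k
  have hs : √(ev x NE) ^ 2 = ev x NE := Real.sq_sqrt hN.le
  have hs0 : 0 < √(ev x NE) := Real.sqrt_pos.2 hN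
  have hn := ev_N (x := x)
  rw [dv_Y k (by decide), dv_tau k (by decide), dv_inv, dv_N (by decide), dv_n1, Y_eq h k, dv_v,
    if_neg (by decide)]
  rw [ev_tau] at h1
  generalize ‖1 + (t k : ℂ) * wC x‖ = r at *
  generalize √(ev x NE) = s at *
  generalize ev x nE = n at *
  generalize ev x NE = N at *
  have h2 : x 5 * (2 * t k * x 0 + x 5 * ((t k ^ 2 - 1) * n)) = r ^ 2 - N := by
    rw [h1]; field_simp; ring
  have e1 : x 5 * ((2 * t k * 0 + x 5 * ((t k ^ 2 - 1) * (2 * x 1))) * N⁻¹ +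
      (2 * t k * x 0 + x 5 * ((t k ^ 2 - 1) * n)) * -(N⁻¹ * N⁻¹ * (x 5 ^ 2 * (2 * x 1)))) =
      x 5 * (x 5 * ((t k ^ 2 - 1) * (2 * x 1))) * N⁻¹ -
      (x 5 * (2 * t k * x 0 + x 5 * ((t k ^ 2 - 1) * n))) * (N⁻¹ * N⁻¹ * (x 5 ^ 2 * (2 * x 1))) := by
    ring
  rw [e1, h2, ← hs]
  field_simp
  ring

/-- the force term -/
def frc (a t : Fin 3 → ℝ) (w : ℂ) : ℂ :=
  ∑ k, (a k : ℂ) * (w / ((√(1 + ‖w‖ ^ 2) * ‖1 + (t k : ℂ) * w‖ : ℝ) : ℂ) -
    ((√(1 + ‖w‖ ^ 2) * t k : ℝ) : ℂ) * (1 + (t k : ℂ) * w) / ((‖1 + (t k : ℂ) * w‖ : ℝ) : ℂ) ^ 3)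

theorem frc_eq (h : Pt a t x) (ha : ∑ k, a k = 1) (hat : ∑ k, a k * t k = 0) (h5 : x 5 ≠ 0) :
    frc a t (wC x) = ((x 5 * dv x 0 (VE a t) : ℝ) : ℂ) + ((x 5 * dv x 1 (VE a t) : ℝ) : ℂ) * I := by
  have h0 := dv_V h ha hat (i := 0) (by decide)
  have h1 := dv_V h ha hat (i := 1) (by decide)
  simp only [dv_Y0 h, dv_Y1 h] at h0 h1
  have h0' : x 5 * dv x 0 (VE a t) = ∑ k, a k *
      (x 5 * x 0 / (√(ev x NE) * ‖1 + (t k : ℂ) * wC x‖) -
      √(ev x NE) * t k * (1 + t k * (x 5 * x 0)) / ‖1 + (t k : ℂ) * wC x‖ ^ 3) := by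
    apply mul_left_cancel₀ h5
    rw [mul_sum, ← mul_assoc, ← pow_two, h0]
    exact sum_congr rfl fun k _ => by ring
  have h1' : x 5 * dv x 1 (VE a t) = ∑ k, a k *
      (x 5 * x 1 / (√(ev x NE) * ‖1 + (t k : ℂ) * wC x‖) -
      √(ev x NE) * t k * (t k * (x 5 * x 1)) / ‖1 + (t k : ℂ) * wC x‖ ^ 3) := by
    apply mul_left_cancel₀ h5
    rw [mul_sum, ← mul_assoc, ← pow_two, h1]
    exact sum_congr rfl fun k _ => by ring
  rw [h0', h1', frc, w_sq, Complex.ofReal_sum, Complex.ofReal_sum, sum_mul, ← sum_add_distrib]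
  refine sum_congr rfl fun k _ => ?_
  generalize ‖1 + (t k : ℂ) * wC x‖ = r
  rw [wC]; push_cast; ring

theorem ev_u : ev x (uE a t) = 1 + ev x (eeE a t) * x 6 := by
  simp only [uE, ev_add, ev_mul, ev_c, ev_v]
theorem ev_psi : ev x (psiE a t) = ev x (y0E a t) * ev x (eeE a t) * (x 4)⁻¹ := by
  simp only [psiE, ev_mul, ev_inv, ev_v]
theorem ev_T : ev x (TE a t) = ev x (psiE a t) / ev x (uE a t) ^ 2 := by
  simp only [TE, ev_mul, ev_sq, ev_inv]; rw [inv_pow, div_eq_mul_inv]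

theorem ev_g (h : Pt a t x) {i : Fin 7} (h4 : (4 : Fin 7) ≠ i) (h5 : (5 : Fin 7) ≠ i)
    (h6 : (6 : Fin 7) ≠ i) : ev x (gE a t i) =
      ev x (psiE a t) * (dv x i mE / 2 - dv x i (VE a t) / ev x (uE a t)) := by
  have hu := h.u
  have he := h.e
  have hv : dv x i (v 6) = 0 := by rw [dv_v, if_neg h6]
  have e0 : ev x (gE a t i) = -(ev x (eeE a t) * (ev x (uE a t))⁻¹ ^ 2) * dv x i (etaE a t) := by
    simp only [gE, phiE, ev_mul, ev_c, ev_sq, ev_inv, dv]; ring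
  rw [e0, dv_eta h h4 h5, ev_psi]
  simp only [alhE, behE, gahE, dv_mul, dv_sub, dv_sq, dv_c, hv, ev_v, ev_sq, ev_c]
  have hu' := ev_u (a := a) (t := t) (x := x)
  generalize ev x (uE a t) = u at *
  field_simp
  rw [hu']; ring

theorem dv_eta6 (h : Pt a t x) : dv x 6 (etaE a t) =
    -(ev x (psiE a t) * (ev x mE * ev x (uE a t) - ev x (VE a t))) := by
  have he := h.e
  rw [dv_eta h (by decide) (by decide), ev_psi, ev_u]
  simp only [alhE, behE, gahE, dv_mul, dv_sub, dv_sq, dv_c, dv_v, ev_v, ev_sq, ev_c, ev_sub, dv_m6,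
    dv_V0 (a := a) (t := t) (x := x) (i := 6) (by decide) (by decide) (by decide), if_pos]
  field_simp
  ring

theorem rel3 (h : Pt a t x) : ev x (eeE a t) = ev x (psiE a t) *
    (ev x (eeE a t) + x 5 ^ 2 * (ev x mE * ev x (uE a t) - ev x (VE a t)) * x 6) := by
  have he := h.e
  have h1 := rel1 h
  rw [ev_al] at h1
  simp only [alhE, behE, ev_mul, ev_sq, ev_sub, ev_v] at h1
  rw [ev_psi, ev_u]
  field_simp
  linear_combination -ev x (eeE a t) * h1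

theorem dv_ee {i : Fin 7} (h4 : (4 : Fin 7) ≠ i) (h5 : (5 : Fin 7) ≠ i) :
    dv x i (eeE a t) = x 5 ^ 2 * dv x i (etaE a t) := by
  simp only [eeE, dv_add, dv_mul, dv_v, if_neg h4, dv_e2 x h5, ev_e2]; ring

theorem ev_x0 : ev x (xE a t 0) = ev x (gE a t 2) := rfl
theorem ev_x1 : ev x (xE a t 1) = ev x (gE a t 3) := rfl
theorem ev_x2 : ev x (xE a t 2) = 2 * ev x (gE a t 3) - ev x (gE a t 0) := by
  show ev x (sub (mul (c 2) (gE a t 3)) (gE a t 0)) = _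
  rw [ev_sub, ev_mul, ev_c]
theorem ev_x3 : ev x (xE a t 3) = -2 * ev x (gE a t 2) - ev x (gE a t 1) := by
  show ev x (sub (mul (c (-2)) (gE a t 2)) (gE a t 1)) = _
  rw [ev_sub, ev_mul, ev_c]

theorem ev_g' (i : Fin 7) : ev x (gE a t i) = ev x (phiE a t) * dv x i (etaE a t) := rfl

/-- derivative of the eccentricity root along the field -/
theorem sum_ee (h : Pt a t x) (s : ℝ) :
    ∑ i, dv x i (eeE a t) * env (fun j => ev x (xE a t j)) 0 0 (-s) i =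
      x 5 ^ 2 * (ev x (psiE a t) * (ev x mE * ev x (uE a t) - ev x (VE a t))) * s := by
  simp only [Fin.sum_univ_seven, env, Matrix.cons_val_zero, Matrix.cons_val_one,
    Matrix.cons_val]
  rw [dv_ee (i := 0) (by decide) (by decide), dv_ee (i := 1) (by decide) (by decide),
    dv_ee (i := 2) (by decide) (by decide), dv_ee (i := 3) (by decide) (by decide),
    dv_ee (i := 6) (by decide) (by decide), dv_eta6 h, ev_x0, ev_x1, ev_x2, ev_x3]
  simp only [ev_g']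
  ring

theorem w_eq (h : Pt a t x) :
    ((x 5 * ev x (xE a t 0) : ℝ) : ℂ) + ((x 5 * ev x (xE a t 1) : ℝ) : ℂ) * I =
      (ev x (psiE a t) : ℂ) * ((1 + ‖wC x‖ ^ 2 : ℝ) : ℂ) *
        (((1 + ‖wC x‖ ^ 2 : ℝ) : ℂ) * pC x - I * wC x) := by
  rw [w_sq, ev_x0, ev_x1, ev_g h (by decide) (by decide) (by decide),
    ev_g h (by decide) (by decide) (by decide), dv_m2, dv_m3,
    dv_V0 (i := 2) (by decide) (by decide) (by decide),
    dv_V0 (i := 3) (by decide) (by decide) (by decide), pC, wC]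
  push_cast
  linear_combination ((ev x (psiE a t) : ℂ) * (ev x NE : ℂ) * x 5 * x 1) * I_sq

theorem p_eq (h : Pt a t x) (ha : ∑ k, a k = 1) (hat : ∑ k, a k * t k = 0) (h5 : x 5 ≠ 0) :
    ((x 5 * (ev x (xE a t 2) - ev x (xE a t 1)) : ℝ) : ℂ) +
      ((x 5 * (ev x (xE a t 3) + ev x (xE a t 0)) : ℝ) : ℂ) * I =
    (ev x (psiE a t) : ℂ) * (-(wC x * ((1 - 2 * (pC x * (starRingEnd ℂ) (wC x)).im +
      2 * (1 + ‖wC x‖ ^ 2) * ‖pC x‖ ^ 2 : ℝ) : ℂ)) - ((1 + ‖wC x‖ ^ 2 : ℝ) : ℂ) * I * pC x +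
      frc a t (wC x) / (ev x (uE a t) : ℂ)) := by
  have e0 := dv_m0 (x := x)
  have e1 := dv_m1 (x := x)
  have r0 : x 5 * (ev x (xE a t 2) - ev x (xE a t 1)) = ev x (psiE a t) *
      (x 5 * ((dv x 3 mE - dv x 0 mE) / 2) + x 5 * dv x 0 (VE a t) / ev x (uE a t)) := by
    rw [ev_x2, ev_x1, ev_g h (i := 3) (by decide) (by decide) (by decide),
      ev_g h (i := 0) (by decide) (by decide) (by decide),
      dv_V0 (i := 3) (by decide) (by decide) (by decide)]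
    ring
  have r1 : x 5 * (ev x (xE a t 3) + ev x (xE a t 0)) = ev x (psiE a t) *
      (x 5 * ((-dv x 2 mE - dv x 1 mE) / 2) + x 5 * dv x 1 (VE a t) / ev x (uE a t)) := by
    rw [ev_x3, ev_x0, ev_g h (i := 2) (by decide) (by decide) (by decide),
      ev_g h (i := 1) (by decide) (by decide) (by decide),
      dv_V0 (i := 2) (by decide) (by decide) (by decide)]
    ring
  rw [r0, r1, e0, e1, frc_eq h ha hat h5, w_sq]
  generalize 1 - 2 * (pC x * (starRingEnd ℂ) (wC x)).im + 2 * ev x NE * ‖pC x‖ ^ 2 = Q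
  rw [pC, wC]
  push_cast
  linear_combination ((ev x (psiE a t) : ℂ) * (ev x NE : ℂ) * x 5 * (x 3 + x 0)) * I_sq

end Point

end Ham

open Ham Ex in
theorem ham : HamStmt := by
  intro a t e ε z ha hat hε hG hz
  set X : ℝ → Fin 7 → ℝ := fun θ => env (z θ) e ε (Real.cos θ) with hX
  have hP : ∀ θ, Pt a t (X θ) := fun θ => pt_of a t _ (hG θ)
  have hd : ∀ θ i, HasDerivAt (fun s => X s i)
      (env (fun j => ev (X θ) (xE a t j)) 0 0 (-Real.sin θ) i) θ := by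
    intro θ i
    fin_cases i
    · exact hz θ 0
    · exact hz θ 1
    · exact hz θ 2
    · exact hz θ 3
    · exact hasDerivAt_const θ e
    · exact hasDerivAt_const θ ε
    · exact Real.hasDerivAt_cos θ
  have h5 : ∀ θ, X θ 5 = ε := fun _ => rfl
  have h6 : ∀ θ, X θ 6 = Real.cos θ := fun _ => rfl
  have hee : ∀ θ, HasDerivAt (fun s => ev (X s) (eeE a t)) (ε ^ 2 * (ev (X θ) (psiE a t) *
      (ev (X θ) mE * ev (X θ) (uE a t) - ev (X θ) (VE a t))) * Real.sin θ) θ := fun θ =>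
    hd_of (chain (hd θ) _ (hP θ).gee) (fun _ => rfl) (sum_ee (hP θ) _).symm
  refine ⟨fun θ => ev (X θ) (uE a t), fun θ => ev (X θ) (eeE a t) * Real.sin θ,
    fun θ => ev (X θ) (psiE a t), fun θ => pC (X θ), ?_, fun θ => (hP θ).u, ?_, ?_, ?_, ?_, ?_, ?_⟩
  · exact continuous_iff_continuousAt.2 fun θ => (chain (hd θ) _ (hP θ).gpsi).continuousAt
  · exact ⟨1 / 8, by norm_num, fun θ => by rw [← ev_T]; exact (hP θ).low⟩
  · intro θ k
    exact norm_pos_iff.1 (tw_pos (hP θ) k)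
  · intro θ
    refine hd_of (((hee θ).mul (Real.hasDerivAt_cos θ)).const_add 1) (fun s => ev_u) ?_
    have := rel3 (hP θ)
    rw [h5, h6] at this
    linear_combination Real.sin θ * this
  · intro θ
    refine hd_of ((hee θ).mul (Real.hasDerivAt_sin θ)) (fun s => rfl) ?_
    have h1 := rel3 (hP θ)
    have h2 := ev_m (x := X θ)
    have h3 := ev_V (hP θ) ha hat
    have h4 := ev_u (a := a) (t := t) (x := X θ)
    have h7 : ∑ k, a k * ev (X θ) (YE t k) =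
        ∑ k, a k * √(1 + ‖wC (X θ)‖ ^ 2) / ‖1 + (t k : ℂ) * wC (X θ)‖ :=
      sum_congr rfl fun k _ => by rw [Y_eq (hP θ), w_sq, mul_div_assoc]
    rw [h5] at h1 h2 h3
    rw [h6] at h1 h4
    show ev (X θ) (psiE a t) * ((1 + ‖wC (X θ)‖ ^ 2) * (1 - 2 * (pC (X θ) *
      (starRingEnd ℂ) (wC (X θ))).im + (1 + ‖wC (X θ)‖ ^ 2) * ‖pC (X θ)‖ ^ 2) *
      ev (X θ) (uE a t) - ∑ k, a k * √(1 + ‖wC (X θ)‖ ^ 2) / ‖1 + (t k : ℂ) * wC (X θ)‖) = _
    rw [← h2, ← h7, ← h3]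
    have h8 := Real.sin_sq_add_cos_sq θ
    linear_combination -Real.cos θ * h1 + ev (X θ) (psiE a t) * h4 - ε ^ 2 * (ev (X θ) (psiE a t) *
      (ev (X θ) mE * ev (X θ) (uE a t) - ev (X θ) (VE a t))) * h8
  · intro θ
    exact hd_of ((((hz θ 0).const_mul ε).ofReal_comp).add
      ((((hz θ 1).const_mul ε).ofReal_comp).mul_const I)) (fun s => rfl) (w_eq (hP θ)).symm
  · intro θ
    exact hd_of (((((hz θ 2).sub (hz θ 1)).const_mul ε).ofReal_comp).add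
      (((((hz θ 3).add (hz θ 0)).const_mul ε).ofReal_comp).mul_const I)) (fun s => rfl)
      (p_eq (hP θ) ha hat hε).symm

end Pool.Agent.MP_1ba41f_an.K3
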