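import Mathlib
import Pool.Agent.MP_1ba41f_an.K3.Basic

/-! PROJECT KAM3, module ITER: convergence of the Newton scheme. -/

noncomputable section
open Finset Matrix

namespace Pool.Agent.MP_1ba41f_an.K3

namespace Iter

variable {A : Type} [CommRing A] [Algebra ℝ A] {S : Scale A (Fin 2)}

/-- the level at stage `n` -/
def lv (S0 d : ℝ) (n : ℕ) : ℝ := S0 - 6 * d + 6 * (d / 2 ^ n)

/-- the invariant at stage `n` -/
structure Inv (S : Scale A (Fin 2)) (ρ S0 : ℝ) (b : Base A) (F : Fd A) (d c e0 : ℝ) (p : A)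
    (n : ℕ) (z : (Fin 4 → A) × A) : Prop where
  K : ∀ i, S.Bd (lv S0 d n) (z.1 i - b.K0 i) (2 * c - 2 * (c / 2 ^ n))
  T : ∀ i, S.Bd (lv S0 d n) (S.D 1 (z.1 i) - S.D 1 (b.K0 i)) (2 * c - 2 * (c / 2 ^ n))
  e : S.Bd (lv S0 d n) (z.2 - b.e0) (2 * c - 2 * (c / 2 ^ n))
  ce : S.Cst z.2
  sym : ∀ i, S.r (z.1 i) = b.R i • z.1 i
  err : ∀ i, S.Bd (lv S0 d n) (S.L ρ (z.1 i) - F.X z.1 z.2 p i) (e0 / 16 ^ n)

theorem half_pow (c : ℝ) (n : ℕ) : c / 2 ^ (n + 1) = c / 2 ^ n / 2 := by rw [pow_succ, div_div]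

theorem pow_le {c : ℝ} (hc : 0 ≤ c) (n : ℕ) : c / 2 ^ n ≤ c :=
  div_le_self hc (one_le_pow₀ one_le_two)

theorem lv_succ (S0 d : ℝ) (n : ℕ) : lv S0 d n - 3 * (d / 2 ^ n) = lv S0 d (n + 1) := by
  rw [lv, lv, half_pow]; ring

theorem lv_le {S0 d : ℝ} (hd : 0 ≤ d) (n : ℕ) : lv S0 d n ≤ S0 := by
  have := pow_le hd n
  rw [lv]; linarith

theorem le_lv {S0 d : ℝ} (hd : 0 ≤ d) (h : d ≤ S0 / 12) (n : ℕ) : S0 / 2 ≤ lv S0 d n := by
  have : 0 ≤ d / 2 ^ n := by positivity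
  rw [lv]; linarith

/-- The limit of a sequence with geometric increments. -/
theorem lim {s c : ℝ} (hs : 0 < s) (u : ℕ → A) (h : ∀ n, S.Bd s (u (n + 1) - u n) (c / 2 ^ n)) :
    ∃ g, ∀ n, S.Bd s (g - u n) (2 * c / 2 ^ n) := by
  obtain ⟨g, hg⟩ := S.complete hs h
  refine ⟨u 0 + g, fun n => Scale.cong (hg n) ?_⟩
  rw [sum_range_sub]; ring

/-- The three numerical inequalities of a step. -/
theorem nums {C d η e0 : ℝ} (hd : 0 < d) (hη : 0 < η) (he : 0 < e0)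
    (h1 : e0 ≤ η * d ^ 2) (h2 : 16 * C * e0 ≤ d ^ 4) (n : ℕ) :
    e0 / 16 ^ n ≤ η * (d / 2 ^ n) ^ 2 ∧
      C * (e0 / 16 ^ n / (d / 2 ^ n) ^ 3) = C * e0 / d ^ 3 / 2 ^ n ∧
      C * ((e0 / 16 ^ n) ^ 2 / (d / 2 ^ n) ^ 4) ≤ e0 / 16 ^ (n + 1) := by
  obtain ⟨t, ht⟩ : ∃ t : ℝ, t = 2 ^ n := ⟨_, rfl⟩
  have t1 : 1 ≤ t := ht ▸ one_le_pow₀ one_le_two
  have t0 : 0 < t := by linarith
  have e16 : (16 : ℝ) ^ n = t ^ 4 := by rw [ht, ← pow_mul, mul_comm, pow_mul]; norm_num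
  rw [pow_succ (16 : ℝ) n, e16, ← ht]
  refine ⟨?_, by field_simp, ?_⟩
  · rw [div_pow, ← mul_div_assoc]
    exact div_le_div₀ (by positivity) h1 (by positivity) (pow_le_pow_right₀ t1 (by norm_num))
  · have e : C * ((e0 / t ^ 4) ^ 2 / (d / t) ^ 4) = e0 / (t ^ 4 * 16) * (16 * C * e0 / d ^ 4) := by
      field_simp
    rw [e]
    exact mul_le_of_le_one_right (by positivity) ((div_le_one (by positivity)).2 h2)

variable {ρ S0 C0 r0 : ℝ} {b : Base A} {F : Fd A}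

/-- A limit of approximate solutions is a solution. -/
theorem solves (hb : IsBase S ρ S0 b) (hF : IsFld S S0 b F C0 r0) {c e0 : ℝ} (hc : 0 ≤ c)
    (hr : 2 * c ≤ r0) {p : A} {K : Fin 4 → A} {e : A} (z : ℕ → (Fin 4 → A) × A)
    (hn : ∀ n, Near S b (S0 / 2) r0 (z n).1 (z n).2 p)
    (he : ∀ n i, S.Bd (S0 / 2) (S.L ρ ((z n).1 i) - F.X (z n).1 (z n).2 p i) (e0 / 2 ^ n))
    (hK : ∀ i n, S.Bd (S0 / 2) (K i - (z n).1 i) (2 * c / 2 ^ n))
    (hx : ∀ n, S.Bd (S0 / 2) (e - (z n).2) (2 * c / 2 ^ n)) (i : Fin 4) :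
    S.L ρ (K i) = F.X K e p i := by
  have h0 := hb.pos
  have h2 : 0 < S0 / 2 := by positivity
  have h3 : S0 / 2 ≤ S0 := by linarith
  obtain ⟨cD, -, hD⟩ := Scale.An.uniform (f := fun q : Fin 4 × Fin 4 => b.D0 q.1 q.2)
    fun q => hb.anD q.1 q.2
  obtain ⟨cZ, -, hZ⟩ := Scale.An.uniform hb.anZ
  refine sub_eq_zero.1 (S.sep (s := S0 / 2 - S0 / 4)
    (c := (1 + |ρ|) * (2 * c / (S0 / 4)) + e0 + |C0| * r0 * (2 * c) +
      4 * ((C0 * r0 + cD) * (2 * c)) + (C0 * r0 + cZ) * (2 * c)) fun n => ?_)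
  have k0 : 0 ≤ 2 * c / 2 ^ n := by positivity
  have k1 : 2 * c / 2 ^ n ≤ r0 := (pow_le (by positivity) n).trans hr
  have hl : S0 / 2 - S0 / 4 ≤ S0 / 2 := by linarith
  have b1 := Scale.bdL (ρ := ρ) (d := S0 / 4) (by positivity) (by linarith) (hK i n)
  have b3 := hF.tay (ξ := K - (z n).1) h2 h3 (hn n) (fun i => hK i n) (hx n) k1 i
  have b4 := Scale.mulVec (v := K - (z n).1) (M := F.B (z n).1 (z n).2 p) (fun i j => Scale.cong
    (S.add (hF.lipB h2 h3 (hn n) le_rfl i j) (Scale.lev (hD (i, j)) h3)) (sub_add_cancel _ _))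
    (fun i => hK i n) i
  have b5 := S.mul (Scale.cong (S.add (hF.lipZ h2 h3 (hn n) le_rfl i) (Scale.lev (hZ i) h3))
    (sub_add_cancel _ _)) (hx n)
  rw [add_sub_cancel, add_sub_cancel] at b3
  have b6 : C0 * (2 * c / 2 ^ n) ^ 2 ≤ |C0| * r0 * (2 * c / 2 ^ n) := by
    rw [_root_.sq, ← mul_assoc]
    exact mul_le_mul_of_nonneg_right (mul_le_mul (le_abs_self _) k1 k0 (abs_nonneg _)) k0
  refine Scale.le (Scale.cong (Scale.sub (Scale.sub (Scale.sub (S.add b1 (Scale.lev (he n i) hl))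
    (Scale.lev (Scale.le b3 b6) hl)) (Scale.lev b4 hl)) (Scale.lev b5 hl)) ?_) (le_of_eq ?_)
  · rw [map_sub]; ring
  · rw [Fintype.card_fin]; push_cast; ring

end Iter

open Iter

theorem iter (h : StepStmt) : KamStmt := by
  intro A _ _ S ρ γ S0 b F C0 r0 hS hb hF η hη
  obtain ⟨C', η0, hη0, hst⟩ := h A S ρ γ S0 b F C0 r0 hS hb hF
  have h0 := hb.pos
  have hr0 := hF.pos
  obtain ⟨C, hC, hC'⟩ : ∃ C : ℝ, 0 < C ∧ C' ≤ C :=
    ⟨|C'| + 1, by positivity, by linarith [le_abs_self C']⟩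
  obtain ⟨η1, p1, l1, l2, l3⟩ : ∃ η1 : ℝ, 0 < η1 ∧ η1 ≤ η ∧ η1 ≤ η0 ∧ η1 ≤ r0 :=
    ⟨min η (min η0 r0), by positivity, min_le_left _ _, (min_le_right _ _).trans (min_le_left _ _),
      (min_le_right _ _).trans (min_le_right _ _)⟩
  obtain ⟨d, hd, d1, d2⟩ : ∃ d : ℝ, 0 < d ∧ d ≤ S0 / 12 ∧ d ≤ 1 :=
    ⟨min (S0 / 12) 1, by positivity, min_le_left _ _, min_le_right _ _⟩
  obtain ⟨e0, he, e1, e2, e3⟩ : ∃ e0 : ℝ, 0 < e0 ∧ e0 ≤ η1 * d ^ 2 ∧ e0 ≤ d ^ 4 / (16 * C) ∧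
      e0 ≤ η1 * d ^ 3 / (2 * C) :=
    ⟨min (η1 * d ^ 2) (min (d ^ 4 / (16 * C)) (η1 * d ^ 3 / (2 * C))), by positivity,
      min_le_left _ _, (min_le_right _ _).trans (min_le_left _ _),
      (min_le_right _ _).trans (min_le_right _ _)⟩
  rw [le_div_iff₀ (by positivity)] at e2 e3
  obtain ⟨c, hc⟩ : ∃ c : ℝ, c = C * e0 / d ^ 3 := ⟨_, rfl⟩
  have c0 : 0 ≤ c := by rw [hc]; positivity
  have c1 : 2 * c ≤ η1 := by
    rw [hc, ← mul_div_assoc, div_le_iff₀ (by positivity)]; linarith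
  refine ⟨min η1 (e0 / (|C0| + 1)), by positivity, fun p cp hp => ?_⟩
  have hp1 : S.Bd S0 p η1 := Scale.le hp (min_le_left _ _)
  have near : ∀ n z, Inv S ρ S0 b F d c e0 p n z → Near S b (lv S0 d n) η1 z.1 z.2 p :=
    fun n z hz => by
      have : 2 * c - 2 * (c / 2 ^ n) ≤ η1 := by
        have : 0 ≤ c / 2 ^ n := by positivity
        linarith
      exact ⟨fun i => Scale.le (hz.K i) this, Scale.le hz.e this, Scale.lev hp1 (lv_le hd.le n)⟩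
  have step : ∀ n z, Inv S ρ S0 b F d c e0 p n z → ∃ z', Inv S ρ S0 b F d c e0 p (n + 1) z' ∧
      (∀ i, S.Bd (S0 / 2) (z'.1 i - z.1 i) (c / 2 ^ n)) ∧
      S.Bd (S0 / 2) (z'.2 - z.2) (c / 2 ^ n) := fun n z hz => by
    obtain ⟨n1, n2, n3⟩ := nums (C := C) hd p1 he e1 (by linarith) n
    have q0 : 0 ≤ c / 2 ^ n := by positivity
    have hA : Adm S ρ S0 b F (lv S0 d n) (d / 2 ^ n) η1 (e0 / 16 ^ n) z.1 z.2 p :=
      ⟨⟨lv_succ S0 d n ▸ le_lv hd.le d1 _, lv_le hd.le n, by positivity,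
        (pow_le hd.le n).trans d2, p1, by positivity, n1⟩, near n z hz,
        fun i => Scale.le (hz.T i) (by linarith), hz.ce, cp, hz.sym, hz.err⟩
    obtain ⟨ξ, x, a1, a2, a3, a4, a5, a6⟩ := hst _ _ _ _ _ _ _ hA l2
    rw [lv_succ] at a3 a4 a5 a6
    have m1 : C' * (e0 / 16 ^ n / (d / 2 ^ n) ^ 3) ≤ c / 2 ^ n := by
      rw [hc, ← n2]; exact mul_le_mul_of_nonneg_right hC' (by positivity)
    have m2 : C' * ((e0 / 16 ^ n) ^ 2 / (d / 2 ^ n) ^ 4) ≤ e0 / 16 ^ (n + 1) :=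
      (mul_le_mul_of_nonneg_right hC' (by positivity)).trans n3
    have m3 : lv S0 d (n + 1) ≤ lv S0 d n := by
      have : 0 ≤ d / 2 ^ n := by positivity
      rw [← lv_succ]; linarith
    have m4 : 2 * c - 2 * (c / 2 ^ n) + c / 2 ^ n ≤ 2 * c - 2 * (c / 2 ^ (n + 1)) := by
      rw [half_pow]; linarith
    have m5 := le_lv hd.le d1 (n + 1)
    have key : ∀ {u v w : A}, S.Bd (lv S0 d n) (u - v) (2 * c - 2 * (c / 2 ^ n)) →
        S.Bd (lv S0 d (n + 1)) w (C' * (e0 / 16 ^ n / (d / 2 ^ n) ^ 3)) →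
        S.Bd (lv S0 d (n + 1)) (u + w - v) (2 * c - 2 * (c / 2 ^ (n + 1))) := fun h1 h2 =>
      Scale.le (Scale.cong (S.add (Scale.lev h1 m3) (Scale.le h2 m1)) (by ring)) m4
    refine ⟨(z.1 + ξ, z.2 + x), ⟨fun i => key (hz.K i) (a3 i), fun i => ?_, key hz.e a5,
      hz.ce.add a1, fun i => ?_, fun i => Scale.le (a6 i) m2⟩, fun i => ?_, ?_⟩
    · exact Scale.cong (key (hz.T i) (a4 i)) (by simp only [Pi.add_apply, map_add])
    · simp only [Pi.add_apply, map_add, hz.sym i, a2 i, smul_add]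
    · exact Scale.cong (S.mono (a3 i) m5 m1) (by simp)
    · exact Scale.cong (S.mono a5 m5 m1) (by simp)
  have init : Inv S ρ S0 b F d c e0 p 0 (b.K0, b.e0) := by
    have z0 : ∀ u : A, S.Bd (lv S0 d 0) (u - u) (2 * c - 2 * (c / 2 ^ 0)) := fun u => by
      rw [sub_self]; exact S.zero' _ (by simp)
    refine ⟨fun i => z0 _, fun i => z0 _, z0 _, hb.cste, hb.symK, fun i => ?_⟩
    have t1 := Scale.neg (hF.lip0 h0 le_rfl hp ((min_le_left _ _).trans l3) i)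
    refine S.mono (Scale.cong t1 (by rw [hb.LK, neg_sub])) (lv_le hd.le 0) ?_
    have t2 := min_le_right η1 (e0 / (|C0| + 1))
    have t3 : 0 ≤ min η1 (e0 / (|C0| + 1)) := by positivity
    rw [le_div_iff₀ (by positivity)] at t2
    rw [pow_zero, div_one]
    nlinarith [mul_le_mul_of_nonneg_right (le_abs_self C0) t3]
  choose! f hf using step
  obtain ⟨z, z0, zs⟩ : ∃ z : ℕ → (Fin 4 → A) × A, z 0 = (b.K0, b.e0) ∧ ∀ n, z (n + 1) = f n (z n) :=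
    ⟨fun n => Nat.rec (b.K0, b.e0) f n, rfl, fun _ => rfl⟩
  have hz : ∀ n, Inv S ρ S0 b F d c e0 p n (z n) := fun n => by
    induction n with
    | zero => exact z0 ▸ init
    | succ n ih => exact zs n ▸ (hf n _ ih).1
  have h2 : 0 < S0 / 2 := by positivity
  choose K hK using fun i => lim (S := S) h2 (fun n => (z n).1 i)
    fun n => zs n ▸ (hf n _ (hz n)).2.1 i
  obtain ⟨e, hx⟩ := lim (S := S) h2 (fun n => (z n).2) fun n => zs n ▸ (hf n _ (hz n)).2.2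
  have t0 : 2 * c / 2 ^ 0 ≤ η := by rw [pow_zero, div_one]; linarith
  refine ⟨K, e, fun j => ?_, ⟨fun i => ?_, ?_, S.mono hp1 (by linarith) l1⟩,
    solves hb hF c0 (c1.trans l3) (e0 := e0) z (fun n => ?_) (fun n i => ?_) hK hx⟩
  · refine S.sep (s := S0 / 2 - S0 / 4) (c := 2 * c / (S0 / 4)) fun n => ?_
    have := S.der j (d := S0 / 4) (by positivity) (by linarith) (hx n)
    rw [map_sub, (hz n).ce j, sub_zero] at this
    exact Scale.le this (le_of_eq (by ring))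
  · have := hK i 0
    rw [z0] at this
    exact Scale.le this t0
  · have := hx 0
    rw [z0] at this
    exact Scale.le this t0
  · have := near n _ (hz n)
    have m := le_lv hd.le d1 n
    exact ⟨fun i => S.mono (this.K i) m l3, S.mono this.e m l3, S.mono this.p m l3⟩
  · exact S.mono ((hz n).err i) (le_lv hd.le d1 n) (div_le_div_of_nonneg_left he.le
      (by positivity) (pow_le_pow_left₀ (by norm_num) (by norm_num) n))

end Pool.Agent.MP_1ba41f_an.K3
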