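import Mathlib
import Pool.Agent.MP_1ba41f_an.K3.Basic

/-! PROJECT KAM3, module LIN: approximate solution of the linearised equation. -/

noncomputable section
open Finset Matrix

namespace Pool.Agent.MP_1ba41f_an.K3

namespace Lin
variable {A : Type} [CommRing A] [Algebra ℝ A] {S : Scale A (Fin 2)} {ρ γ : ℝ}

/-- a priori bound for the hyperbolic equation -/
theorem hyp_bd (hS : S.Solv ρ γ) {s c l : ℝ} {g f : A} (hs : 0 < s) (hl : l ≠ 0)
    (e : S.L ρ g - l • g = f) (hf : S.Bd s f c) : S.Bd s g (c / |l|) := by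
  obtain ⟨g', e', h⟩ := hS.hsolve l hs hl hf
  have : g - g' = 0 := hS.huniq l hl (by rw [map_sub, smul_sub]; linear_combination e - e')
  rwa [sub_eq_zero.1 this]

variable {l : Fin 2 → ℝ} {H : Matrix (Fin 2) (Fin 2) A} {s g M : ℝ}

theorem div_le (hM : ∀ k, 1 / |l k| ≤ M) {c : ℝ} (hc : 0 ≤ c) (k) : c / |l k| ≤ M * c := by
  rw [div_eq_mul_one_div, mul_comm]; exact mul_le_mul_of_nonneg_right (hM k) hc

/-- the hyperbolic block -/
theorem csolve (hS : S.Solv ρ γ) (hs : 0 < s) (hl : ∀ k, l k ≠ 0) (hM : ∀ k, 1 / |l k| ≤ M)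
    (hH : ∀ i j, S.Bd s (H i j) g) (hg : 4 * g * M ≤ 1) {u : Fin 2 → A} {r : ℝ}
    (hu : ∀ k, S.Bd s (u k) r) :
    ∃ c : Fin 2 → A, (∀ k, S.L ρ (c k) - l k • c k = (H *ᵥ c) k + u k) ∧
      ∀ k, S.Bd s (c k) (2 * M * r) := by
  have M0 : 0 ≤ M := le_trans (by positivity) (hM 0)
  have r0 := S.nonneg (hu 0)
  have g0 := S.nonneg (hH 0 0)
  obtain ⟨v, y, h1, h2⟩ := (Nm.pi (Fin 2) (S.nm s hs)).iterate
    (fun v κ => ∀ k, S.Bd s (S.L ρ (v k) - l k • v k - ((H *ᵥ v) k + u k)) κ) M0 r0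
    (fun k => by simpa using Scale.neg (hu k)) fun v κ k0 _ _ hP => by
      choose h e hh using fun k => hS.hsolve (l k) hs (hl k) (Scale.neg (hP k))
      have hb : ∀ k, S.Bd s (h k) (M * κ) := fun k => Scale.le (hh k) (div_le hM k0 k)
      refine ⟨h, hb, fun k => Scale.le (Scale.cong (Scale.neg (Scale.mulVec hH hb k)) ?_) ?_⟩
      · rw [Matrix.mulVec_add]
        simp only [Pi.add_apply, map_add, smul_add]
        linear_combination -e k
      · have := mul_le_mul_of_nonneg_right hg k0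
        simp only [Fintype.card_fin, Nat.cast_ofNat]
        nlinarith
  refine ⟨v, fun k => sub_eq_zero.1 (S.sep (s := s - s / 2)
    (c := r + ((1 + |ρ|) * (2 * M * r / (s / 2)) + |l k| * (2 * M * r) + 2 * (g * (2 * M * r))))
    fun n => ?_), h1⟩
  have hs' : s - s / 2 ≤ s := by linarith
  have a1 := Scale.lev ((h2 n).2.2 k) hs'
  have a2 := Scale.bdL (ρ := ρ) (half_pos hs) (half_lt_self hs) ((h2 n).1 k)
  have a3 := Scale.lev (S.smul (l k) ((h2 n).1 k)) hs'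
  have a4 := Scale.lev (Scale.mulVec hH (h2 n).1 k) hs'
  refine Scale.le (Scale.cong (S.add a1 (Scale.sub (Scale.sub a2 a3) a4)) ?_) (le_of_eq ?_)
  · rw [Matrix.mulVec_sub]
    simp only [Pi.sub_apply, map_sub, smul_sub]
    ring
  · simp only [Fintype.card_fin, Nat.cast_ofNat]
    ring

/-- improved bound for a solution of the hyperbolic block -/
theorem cboot (hS : S.Solv ρ γ) (hs : 0 < s) (hl : ∀ k, l k ≠ 0) (hM : ∀ k, 1 / |l k| ≤ M)
    (hH : ∀ i j, S.Bd s (H i j) g) (hg : 4 * g * M ≤ 1) {u c : Fin 2 → A} {r K : ℝ}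
    (hu : ∀ k, S.Bd s (u k) r) (e : ∀ k, S.L ρ (c k) - l k • c k = (H *ᵥ c) k + u k)
    (hc : ∀ k, S.Bd s (c k) K) (n : ℕ) : ∀ k, S.Bd s (c k) (2 * M * r + K / 2 ^ n) := by
  have M0 : 0 ≤ M := le_trans (by positivity) (hM 0)
  have r0 := S.nonneg (hu 0)
  induction n with
  | zero => exact fun k => Scale.le (hc k) (by simp; positivity)
  | succ n ih =>
    intro k
    have a := S.add (Scale.mulVec hH ih k) (hu k)
    refine Scale.le (hyp_bd hS hs (hl k) (e k) a) ((div_le hM (S.nonneg a) k).trans ?_)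
    have := mul_le_mul_of_nonneg_right hg (S.nonneg (ih 0))
    simp only [Fintype.card_fin, Nat.cast_ofNat]
    rw [pow_succ, ← div_div]
    nlinarith

/-- the equation in the frame -/
theorem frame_eq {n : Type} [Fintype n] [DecidableEq n] (L : Derivation ℝ A A) {lam : n → ℝ}
    {B P Q G : Matrix n n A} (hPQ : P * Q = 1)
    (eq : ∀ i j, L (Q i j) + (Q * B) i j = lam i • Q i j + (G * Q) i j) (v : n → A) (i : n) :
    L ((P *ᵥ v) i) - (B *ᵥ (P *ᵥ v)) i =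
      (P *ᵥ fun j => L (v j) - lam j • v j - (G *ᵥ v) j) i := by
  have hQP : Q * P = 1 := mul_eq_one_comm.1 hPQ
  have hv : Q *ᵥ (P *ᵥ v) = v := by rw [mulVec_mulVec, hQP, one_mulVec]
  generalize P *ᵥ v = ξ at hv
  subst hv
  have : (fun j => L ((Q *ᵥ ξ) j) - lam j • (Q *ᵥ ξ) j - (G *ᵥ (Q *ᵥ ξ)) j) =
      Q *ᵥ fun i => L (ξ i) - (B *ᵥ ξ) i := by
    funext j
    have e1 : (Q *ᵥ fun i => L (ξ i) - (B *ᵥ ξ) i) j =
        ∑ k, Q j k * L (ξ k) - ((Q * B) *ᵥ ξ) j := by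
      rw [← mulVec_mulVec]
      simp only [mulVec, dotProduct, mul_sub, sum_sub_distrib]
    rw [e1, mulVec_mulVec]
    simp only [mulVec, dotProduct, map_sum, Derivation.leibniz, smul_eq_mul, smul_sum,
      ← sum_sub_distrib]
    refine sum_congr rfl fun k _ => ?_
    have := eq j k
    rw [Algebra.smul_def] at this ⊢
    linear_combination ξ k * this
  rw [this, mulVec_mulVec, hPQ, one_mulVec]

end Lin

open Lin in
theorem lin : LinStmt := by
  intro A _ _ S ρ γ S0 b C hS hb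
  have hγ := hS.pos
  have hS0 := hb.pos
  let l : Fin 2 → ℝ := ![b.l 2, b.l 3]
  have hl : ∀ k, l k ≠ 0 := Fin.forall_fin_two.2 ⟨hb.l2, hb.l3⟩
  obtain ⟨M, M0, hM⟩ : ∃ M, 0 ≤ M ∧ ∀ k, 1 / |l k| ≤ M :=
    ⟨1 / |l 0| + 1 / |l 1|, by positivity, Fin.forall_fin_two.2
      ⟨le_add_of_nonneg_right (by positivity), le_add_of_nonneg_left (by positivity)⟩⟩
  by_cases C0 : 0 ≤ C
  swap
  · exact ⟨0, 1, one_pos, fun s δ η ε T B P Q G _ _ h => (C0 (S.nonneg (h.bP 0 0))).elim⟩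
  obtain ⟨K1, k1, hK1⟩ : ∃ K1, 0 ≤ K1 ∧ K1 = 4 * C / γ + 2 * M * (C * (4 * C / γ) + 4 * C) :=
    ⟨_, by positivity, rfl⟩
  obtain ⟨K3, k3, hK3⟩ : ∃ K3, 0 ≤ K3 ∧ K3 = K1 + (4 * C + 3 * (C * K1)) / γ :=
    ⟨_, by positivity, rfl⟩
  obtain ⟨K4, k4, hK4⟩ : ∃ K4, 0 ≤ K4 ∧ K4 = 16 * C / (γ * S0) := ⟨_, by positivity, rfl⟩
  obtain ⟨K5, k5, hK5⟩ : ∃ K5, 0 ≤ K5 ∧ K5 = K4 + 2 * M * (C * K4 + 4 * C) + K1 :=
    ⟨_, by positivity, rfl⟩
  refine ⟨4 * (C * K3) + 4 * (C * (4 * (C * K3))) + 3 * (C * K5), min 1 (1 / (4 * C * M + 1)),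
    by positivity, fun s δ η ε T B P Q G hn hη h f w hf ho => ?_⟩
  obtain ⟨s1, s2, d0, d1, h0, e0, -⟩ := hn
  have w0 := S.nonneg (hf 0)
  have η1 : η ≤ 1 := hη.trans (min_le_left _ _)
  have η2 : 4 * (C * η) * M ≤ 1 := by
    have := (le_div_iff₀ (by positivity)).1 (hη.trans (min_le_right _ _))
    nlinarith
  have hu : ∀ i, S.Bd s ((Q *ᵥ f) i) (4 * C * w) := fun i =>
    Scale.le (Scale.mulVec h.bQ hf i) (le_of_eq (by simp; ring))
  have hG : ∀ i j, S.Bd (s - δ) (G i j) C := fun i j =>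
    Scale.le (h.bG i j) (mul_le_of_le_one_right C0 η1)
  have hw : w ≤ w / δ := le_div_self w0 d0 d1
  have hw0 : 0 ≤ w / δ := by positivity
  have hw2 : w / δ ≤ w / δ ^ 2 := by
    rw [pow_two, ← div_div]; exact le_div_self hw0 d0 d1
  obtain ⟨β, eβ, hβ⟩ := Scale.odd_solve hS (by linarith) (hu 1) ho
  have b1 : S.Bd (s - δ) β (4 * C / γ * (w / δ)) :=
    Scale.le (hβ δ d0 (by linarith)) (le_of_eq (by field_simp))
  have b2 : S.Bd (S0 / 4) β (K4 * w) := by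
    have := hβ (S0 / 4) (by positivity) (by linarith)
    exact S.mono this (by linarith) (le_of_eq (by rw [hK4]; field_simp; ring))
  let H : Matrix (Fin 2) (Fin 2) A := !![G 2 2, G 2 3; G 3 2, G 3 3]
  let u : Fin 2 → A := ![G 2 1 * β + (Q *ᵥ f) 2, G 3 1 * β + (Q *ᵥ f) 3]
  have hH : ∀ i j, S.Bd (s - δ) (H i j) (C * η) := Fin.forall_fin_two.2
    ⟨Fin.forall_fin_two.2 ⟨h.bG 2 2, h.bG 2 3⟩, Fin.forall_fin_two.2 ⟨h.bG 3 2, h.bG 3 3⟩⟩
  have l1 : S0 / 4 ≤ s - δ := by linarith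
  have u1 : ∀ k : Fin 4, S.Bd (s - δ) (G k 1 * β + (Q *ᵥ f) k)
      ((C * (4 * C / γ) + 4 * C) * (w / δ)) := fun k =>
    Scale.le (S.add (S.mul (hG k 1) b1) (Scale.lev (hu k) (by linarith))) (by
      have := mul_le_mul_of_nonneg_left hw C0
      nlinarith)
  have u2 : ∀ k : Fin 4, S.Bd (S0 / 4) (G k 1 * β + (Q *ᵥ f) k) ((C * K4 + 4 * C) * w) := fun k =>
    Scale.le (S.add (S.mul (Scale.lev (hG k 1) l1) b2) (Scale.lev (hu k) (by linarith)))
      (le_of_eq (by ring))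
  obtain ⟨c, ec, hc⟩ := csolve (u := u) hS (by linarith) hl hM hH η2
    (Fin.forall_fin_two.2 ⟨u1 2, u1 3⟩)
  have t1 : 0 ≤ 4 * C / γ * (w / δ) := by positivity
  have t2 : 0 ≤ 2 * M * ((C * (4 * C / γ) + 4 * C) * (w / δ)) := by positivity
  have b3 : S.Bd (s - δ) β (K1 * (w / δ)) := Scale.le b1 (by rw [hK1]; linarith)
  have c1 : ∀ k, S.Bd (s - δ) (c k) (K1 * (w / δ)) := fun k =>
    Scale.le (hc k) (by rw [hK1]; linarith)
  have c2 : ∀ k, S.Bd (S0 / 4) (c k) (K5 * w) := fun k => by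
    obtain ⟨n, hn⟩ := exists_pow_lt_of_lt_one d0 (by norm_num : (1 / 2 : ℝ) < 1)
    refine Scale.le (cboot (u := u) hS (by positivity) hl hM (fun i j => Scale.lev (hH i j) l1) η2
      (Fin.forall_fin_two.2 ⟨u2 2, u2 3⟩) ec (fun k => Scale.lev (c1 k) l1) n k) ?_
    have h1 : K1 * (w / δ) / 2 ^ n ≤ K1 * w := by
      rw [div_eq_mul_one_div _ (2 ^ n : ℝ), ← _root_.one_div_pow]
      exact (mul_le_mul_of_nonneg_left hn.le (by positivity)).trans (le_of_eq (by field_simp))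
    have h2 : 0 ≤ K4 * w := by positivity
    rw [hK5]; linarith
  have b4 : S.Bd (S0 / 4) β (K5 * w) := Scale.le b2 (by
    have h1 : 0 ≤ (2 * M * (C * K4 + 4 * C) + K1) * w := by positivity
    rw [hK5]; linarith)
  have p1 : S.Bd (s - δ) ((Q *ᵥ f) 0 + (G 0 1 * β + G 0 2 * c 0 + G 0 3 * c 1))
      ((4 * C + 3 * (C * K1)) * (w / δ)) :=
    Scale.le (S.add (Scale.lev (hu 0) (by linarith)) (S.add (S.add (S.mul (hG 0 1) b3)
      (S.mul (hG 0 2) (c1 0))) (S.mul (hG 0 3) (c1 1)))) (by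
      have := mul_le_mul_of_nonneg_left hw C0
      nlinarith)
  obtain ⟨a, m, cm, -, ea, ha⟩ := hS.solve (by linarith) p1
  have l2 : s - 2 * δ ≤ s - δ := by linarith
  have t3 : 0 ≤ (4 * C + 3 * (C * K1)) / γ * (w / δ ^ 2) := by positivity
  have t4 : K1 * (w / δ) ≤ K3 * (w / δ ^ 2) := by
    have := mul_le_mul_of_nonneg_left hw2 k1
    rw [hK3]; linarith
  have a1 : S.Bd (s - 2 * δ) a (K3 * (w / δ ^ 2)) := by
    refine S.mono (ha δ d0 (by linarith)) (by linarith) ?_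
    have h1 : 0 ≤ K1 * (w / δ ^ 2) := by positivity
    rw [show (4 * C + 3 * (C * K1)) * (w / δ) / (γ * δ) =
      (4 * C + 3 * (C * K1)) / γ * (w / δ ^ 2) by field_simp, hK3]
    linarith
  let v : Fin 4 → A := ![a, β, c 0, c 1]
  have hv : ∀ i, S.Bd (s - 2 * δ) (v i) (K3 * (w / δ ^ 2)) := fun i => by
    fin_cases i
    exacts [a1, S.mono b3 l2 t4, S.mono (c1 0) l2 t4, S.mono (c1 1) l2 t4]
  have hP : ∀ i j, S.Bd (s - 2 * δ) (P i j) C := fun i j => Scale.lev (h.bP i j) (by linarith)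
  let E : Fin 4 → A := ![-(G 0 0 * a), -(G *ᵥ v) 1, -(G 2 0 * a), -(G 3 0 * a)]
  have t5 : 0 ≤ C * K3 * (ε * w / δ ^ 3) := by positivity
  have t6 : C * (ε / δ) * (K3 * (w / δ ^ 2)) = C * K3 * (ε * w / δ ^ 3) := by field_simp
  have g0 : ∀ i, S.Bd (s - 2 * δ) (-(G i 0 * a)) (4 * (C * K3) * (ε * w / δ ^ 3)) := fun i =>
    Scale.le (Scale.neg (S.mul (Scale.lev (h.col0 i) l2) a1)) (by rw [t6]; linarith)
  have hE : ∀ i, S.Bd (s - 2 * δ) (E i) (4 * (C * K3) * (ε * w / δ ^ 3)) := fun i => by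
    fin_cases i
    exacts [g0 0, Scale.le (Scale.neg (Scale.sum_card fun j =>
      S.mul (Scale.lev (h.row1 j) l2) (hv j))) (le_of_eq (by rw [t6]; simp; ring)), g0 2, g0 3]
  have t7 : 0 ≤ C * K3 * (w / δ ^ 2) := by positivity
  have t8 : 0 ≤ C * (C * K3) * (w / δ ^ 2) := by positivity
  have t9 : 0 ≤ C * K5 * (w / δ ^ 2) := by positivity
  have t10 : 0 ≤ C * K5 * (ε * w / δ ^ 3) := by positivity
  have t11 : 0 ≤ C * K3 * (η * w) := by positivity
  have t12 : 0 ≤ C * (C * K3) * (η * w) := by positivity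
  refine ⟨P *ᵥ v, m, a, G 0 1 * β + G 0 2 * c 0 + G 0 3 * c 1, cm, fun i => ?_, fun i => ?_, ea, ?_⟩
  · refine Scale.le (Scale.mulVec hP hv i) ?_
    simp only [Fintype.card_fin, Nat.cast_ofNat]
    linarith
  · have e1 : f = P *ᵥ (Q *ᵥ f) := by rw [mulVec_mulVec, h.PQ, one_mulVec]
    have e2 : T = P *ᵥ Pi.single 0 1 := by rw [← h.QT, mulVec_mulVec, h.PQ, one_mulVec]
    have e3 : E = (fun j => S.L ρ (v j) - b.l j • v j - (G *ᵥ v) j) - Q *ᵥ f +
        m • Pi.single 0 1 := by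
      have f0 := ec 0
      have f1 := ec 1
      simp only [H, u, l, mulVec, dotProduct, Fin.sum_univ_two, of_apply, cons_val', cons_val_zero,
        cons_val_one, cons_val_fin_one] at f0 f1
      funext j
      fin_cases j <;>
        simp [E, v, hb.l0, hb.l1, mulVec, dotProduct, Fin.sum_univ_four] at ea eβ f0 f1 ⊢
      · linear_combination -ea
      · linear_combination -eβ
      · linear_combination -f0
      · linear_combination -f1
    refine Scale.le (Scale.cong (Scale.mulVec hP hE i) ?_) ?_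
    · rw [frame_eq (S.L ρ) h.PQ h.eq v i, e3, mulVec_add, mulVec_sub, mulVec_smul, ← e1, ← e2]
      rfl
    · simp only [Fintype.card_fin, Nat.cast_ofNat]
      linarith
  · refine Scale.le (S.add (S.add (S.mul (Scale.lev (h.bG 0 1) l1) b4)
      (S.mul (Scale.lev (h.bG 0 2) l1) (c2 0))) (S.mul (Scale.lev (h.bG 0 3) l1) (c2 1))) ?_
    linarith

end Pool.Agent.MP_1ba41f_an.K3
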