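import Mathlib
import Pool.Agent.MP_1ba41f_an.K3.Spec

/-! PROJECT KAM3, modules MODC and MODR: the Fourier model is a scale. -/

noncomputable section
open Finset Complex

namespace Pool.Agent.MP_1ba41f_an.K3

namespace ModA

variable {Y : Type} [TopologicalSpace Y] {J : Type} [Fintype J] {s c : ℝ} {F : Y → (J → ℝ) → ℂ}

theorem nonneg (h : BdF s F c) : 0 ≤ c := by
  obtain ⟨I', k, a, b, h0, -, -, h3, -⟩ := h
  exact (tsum_nonneg fun i => mul_nonneg (h0 i) (Real.exp_pos _).le).trans h3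

theorem term_le {k : J → ℤ} {a : ℂ} {b : ℝ} (s : ℝ) (h : ‖a‖ ≤ b) (θ : J → ℝ) :
    ‖a * ph k θ‖ ≤ b * Real.exp (max s 0 * sz k) := by
  rw [norm_mul, norm_ph, mul_one]
  exact h.trans (le_mul_of_one_le_right ((norm_nonneg _).trans h) (one_le_wt _ _))

theorem norm_le (h : BdF s F c) (y : Y) (θ : J → ℝ) : ‖F y θ‖ ≤ c := by
  obtain ⟨I', k, a, b, -, h1, h2, h3, h4⟩ := h
  rw [← (h4 y θ).tsum_eq]
  exact (tsum_of_norm_bounded h2.hasSum fun i => term_le s (h1 i y) θ).trans h3

theorem cont (h : BdF s F c) (θ : J → ℝ) : Continuous fun y => F y θ := by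
  obtain ⟨I', k, a, b, -, h1, h2, -, h4⟩ := h
  have : (fun y => F y θ) = fun y => ∑' i, a i y * ph (k i) θ :=
    funext fun y => (h4 y θ).tsum_eq.symm
  rw [this]
  exact continuous_tsum (fun i => (a i).continuous.mul continuous_const) h2
    fun i y => term_le s (h1 i y) θ

theorem ph_neg (k : J → ℤ) (θ : J → ℝ) : ph (-k) θ = ph k (-θ) := by simp [ph]

theorem conj_ph (k : J → ℤ) (θ : J → ℝ) : (starRingEnd ℂ) (ph k θ) = ph (-k) θ := by
  simp [ph, ← Complex.exp_conj]

theorem refl (h : BdF s F c) : BdF s (fun y θ => F y (-θ)) c := by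
  obtain ⟨I', k, a, b, h0, h1, h2, h3, h4⟩ := h
  exact ⟨I', fun i => -k i, a, b, h0, h1, by simpa only [sz_neg] using h2,
    by simpa only [sz_neg] using h3, fun y θ => by simpa only [ph_neg] using h4 y (-θ)⟩

theorem conj (h : BdF s F c) : BdF s (fun y θ => (starRingEnd ℂ) (F y θ)) c := by
  obtain ⟨I', k, a, b, h0, h1, h2, h3, h4⟩ := h
  refine ⟨I', fun i => -k i, fun i => star (a i), b, h0, fun i y => by simpa using h1 i y,
    by simpa only [sz_neg] using h2, by simpa only [sz_neg] using h3, fun y θ => ?_⟩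
  have := (h4 y θ).star
  simpa only [star_mul', star_def, conj_ph, ContinuousMap.star_apply] using this

theorem cmul (z : ℂ) (h : BdF s F c) : BdF s (fun y θ => z * F y θ) (‖z‖ * c) :=
  (BdF.const s z).mul h

theorem re (h : BdF s F c) : BdF s (fun y θ => ((F y θ).re : ℂ)) c := by
  have h1 := (cmul (1 / 2) (h.add (conj h))).mono le_rfl (c' := c) (by simp; linarith)
  have e : (fun y θ => ((F y θ).re : ℂ)) =
      fun y θ => 1 / 2 * (F y θ + (starRingEnd ℂ) (F y θ)) := by
    funext y θ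
    rw [Complex.add_conj]
    push_cast
    ring
  rw [e]
  exact h1

theorem tsum {F : ℕ → Y → (J → ℝ) → ℂ} {c : ℕ → ℝ} (h : ∀ n, BdF s (F n) (c n))
    (hc : Summable c) : BdF s (fun y θ => ∑' n, F n y θ) (∑' n, c n) := by
  choose I' k a b h0 h1 h2 h3 h4 using h
  have n0 : ∀ x : Σ n, I' n, 0 ≤ b x.1 x.2 * Real.exp (max s 0 * sz (k x.1 x.2)) := fun x =>
    mul_nonneg (h0 _ _) (Real.exp_pos _).le
  have s1 : Summable fun n => ∑' i, b n i * Real.exp (max s 0 * sz (k n i)) :=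
    .of_nonneg_of_le (fun n => tsum_nonneg fun i => n0 ⟨n, i⟩) h3 hc
  have s2 : Summable fun x : Σ n, I' n => b x.1 x.2 * Real.exp (max s 0 * sz (k x.1 x.2)) :=
    (summable_sigma_of_nonneg n0).2 ⟨h2, s1⟩
  refine ⟨Σ n, I' n, fun x => k x.1 x.2, fun x => a x.1 x.2, fun x => b x.1 x.2,
    fun x => h0 _ _, fun x => h1 _ _, s2, ?_, fun y θ => ?_⟩
  · rw [s2.tsum_sigma' h2]
    exact s1.tsum_le_tsum h3 hc
  · have s3 : Summable fun x : Σ n, I' n => a x.1 x.2 y * ph (k x.1 x.2) θ :=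
      .of_norm_bounded s2 fun x => term_le s (h1 _ _ y) θ
    beta_reduce
    rw [(s3.hasSum.sigma fun n => h4 n y θ).tsum_eq]
    exact s3.hasSum

/-! ### Derivatives -/

theorem abs_le_sz (k : J → ℤ) (j : J) : |(k j : ℝ)| ≤ sz k :=
  single_le_sum (f := fun j => |(k j : ℝ)|) (fun _ _ => abs_nonneg _) (mem_univ j)

theorem wt_le {d x : ℝ} (h0 : 0 < d) (s : ℝ) : x * Real.exp ((s - d) * x) ≤ Real.exp (s * x) / d := by
  rw [le_div_iff₀ h0, show s * x = (s - d) * x + d * x by ring, Real.exp_add]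
  have := Real.add_one_le_exp (d * x)
  nlinarith [Real.exp_pos ((s - d) * x)]

theorem norm_grad (w : J → ℂ) : ‖grad w‖ ≤ ∑ j, ‖w j‖ := by
  refine ContinuousLinearMap.opNorm_le_bound _ (sum_nonneg fun _ _ => norm_nonneg _) fun h => ?_
  rw [grad_apply, sum_mul]
  refine (norm_sum_le _ _).trans (sum_le_sum fun j _ => ?_)
  rw [norm_smul, mul_comm]
  exact mul_le_mul_of_nonneg_left (norm_le_pi_norm h j) (norm_nonneg _)

theorem der_ph (k : J → ℤ) (a : ℂ) (θ : J → ℝ) :
    HasFDerivAt (fun θ => a * ph k θ) (grad fun j => I * k j * a * ph k θ) θ := by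
  have h1 : HasFDerivAt (grad fun j => (I * k j : ℂ)) (grad fun j => (I * k j : ℂ)) θ :=
    ContinuousLinearMap.hasFDerivAt _
  have e : ∀ θ : J → ℝ, ph k θ = exp (grad (fun j => (I * k j : ℂ)) θ) := fun θ => by
    rw [ph, grad_apply]
    congr 1
    push_cast
    rw [mul_sum]
    exact sum_congr rfl fun j _ => by rw [real_smul]; ring
  simp only [e]
  refine (h1.cexp.const_mul a).congr_fderiv (ContinuousLinearMap.ext fun h => ?_)
  simp only [smul_apply, grad_apply, smul_eq_mul, real_smul, mul_sum]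
  exact sum_congr rfl fun j _ => by ring

theorem norm_coef {k : J → ℤ} {a : ℂ} {b : ℝ} (h : ‖a‖ ≤ b) (j : J) :
    ‖I * k j * a‖ ≤ |(k j : ℝ)| * b := by
  rw [norm_mul, norm_mul, norm_I, one_mul, norm_intCast]
  exact mul_le_mul_of_nonneg_left h (abs_nonneg _)

theorem der_core {I' : Type} {k : I' → J → ℤ} {a : I' → ℂ} {b : I' → ℝ} (hs : 0 < s)
    (h1 : ∀ i, ‖a i‖ ≤ b i) (h2 : Summable fun i => b i * Real.exp (max s 0 * sz (k i)))
    (θ : J → ℝ) : HasFDerivAt (fun θ => ∑' i, a i * ph (k i) θ)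
      (grad fun j => ∑' i, I * k i j * a i * ph (k i) θ) θ := by
  have b0 : ∀ i, 0 ≤ b i := fun i => (norm_nonneg _).trans (h1 i)
  have s1 : Summable fun i => sz (k i) * b i := by
    refine .of_nonneg_of_le (fun i => mul_nonneg (sz_nonneg _) (b0 i)) (fun i => ?_)
      (h2.div_const s)
    have := wt_le (x := sz (k i)) hs s
    rw [sub_self, zero_mul, Real.exp_zero, mul_one] at this
    rw [max_eq_left hs.le, mul_div_assoc, mul_comm]
    exact mul_le_mul_of_nonneg_left this (b0 i)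
  have t1 : ∀ i j θ, ‖I * k i j * a i * ph (k i) θ‖ ≤ |(k i j : ℝ)| * b i := fun i j θ => by
    rw [norm_mul, norm_ph, mul_one]
    exact norm_coef (h1 i) j
  have t2 : ∀ i θ, ‖grad fun j => I * k i j * a i * ph (k i) θ‖ ≤ sz (k i) * b i := fun i θ =>
    (norm_grad _).trans ((sum_le_sum fun j _ => t1 i j θ).trans_eq (sum_mul _ _ _).symm)
  have s2 : ∀ j, Summable fun i => I * k i j * a i * ph (k i) θ := fun j =>
    .of_norm_bounded s1 fun i =>
      (t1 i j θ).trans (mul_le_mul_of_nonneg_right (abs_le_sz _ _) (b0 i))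
  have h3 := hasFDerivAt_tsum s1 (fun i θ => der_ph (k i) (a i) θ) t2
    (.of_norm_bounded h2 fun i => term_le s (h1 i) θ) θ
  refine h3.congr_fderiv (ContinuousLinearMap.ext fun h => ?_)
  have h4 := ((Summable.of_norm_bounded s1 fun i => t2 i θ).hasSum.mapL
    (ContinuousLinearMap.apply ℝ ℂ h)).tsum_eq
  simp only [ContinuousLinearMap.apply_apply, grad_apply] at h4
  rw [← h4, grad_apply, Summable.tsum_finsetSum fun j _ => (s2 j).const_smul _]
  exact sum_congr rfl fun j _ => (s2 j).tsum_const_smul _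

open Classical in
/-- coordinate derivative -/
def pd (j : J) (F : Y → (J → ℝ) → ℂ) : Y → (J → ℝ) → ℂ :=
  fun y θ => fderiv ℝ (F y) θ (Pi.single j 1)

theorem grad_single {E : Type} [NormedAddCommGroup E] [NormedSpace ℝ E] [DecidableEq J]
    (w : J → E) (j : J) : grad w (Pi.single j 1) = w j := by
  simp [grad_apply, Pi.single_apply]

theorem pd_eq {y : Y} {θ : J → ℝ} {w : J → ℂ} (h : HasFDerivAt (F y) (grad w) θ) (j : J) :
    pd j F y θ = w j := by
  classical
  rw [pd, h.fderiv]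
  convert grad_single w j

theorem der_pd {y : Y} {θ : J → ℝ} (h : DifferentiableAt ℝ (F y) θ) :
    HasFDerivAt (F y) (grad fun j => pd j F y θ) θ := by
  classical
  refine h.hasFDerivAt.congr_fderiv (ContinuousLinearMap.ext fun v => ?_)
  rw [grad_apply]
  conv_lhs => rw [pi_eq_sum_univ' v, map_sum]
  refine sum_congr rfl fun j _ => ?_
  rw [map_smul, pd]

/-- a representation with summable weights at level `s` -/
structure Rep (s : ℝ) (F : Y → (J → ℝ) → ℂ) {I' : Type} (k : I' → J → ℤ) (a : I' → C(Y, ℂ))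
    (b : I' → ℝ) : Prop where
  h0 : ∀ i, 0 ≤ b i
  h1 : ∀ i y, ‖a i y‖ ≤ b i
  h2 : Summable fun i => b i * Real.exp (max s 0 * sz (k i))
  h4 : ∀ y θ, HasSum (fun i => a i y * ph (k i) θ) (F y θ)

variable {I' : Type} {k : I' → J → ℤ} {a : I' → C(Y, ℂ)} {b : I' → ℝ}

theorem Rep.der (h : Rep s F k a b) (hs : 0 < s) (y : Y) (θ : J → ℝ) :
    HasFDerivAt (F y) (grad fun j => ∑' i, I * k i j * a i y * ph (k i) θ) θ := by
  have : F y = fun θ => ∑' i, a i y * ph (k i) θ := funext fun θ => (h.h4 y θ).tsum_eq.symm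
  rw [this]
  exact der_core hs (fun i => h.h1 i y) h.h2 θ

theorem Rep.wt (h : Rep s F k a b) {d : ℝ} (h0 : 0 < d) (h1 : d < s) (j : J) (i : I') :
    |(k i j : ℝ)| * b i * Real.exp (max (s - d) 0 * sz (k i)) ≤
      b i * Real.exp (max s 0 * sz (k i)) / d := by
  rw [max_eq_left (sub_pos.2 h1).le, max_eq_left (h0.trans h1).le, mul_comm _ (b i), mul_assoc,
    mul_div_assoc]
  exact mul_le_mul_of_nonneg_left ((mul_le_mul_of_nonneg_right (abs_le_sz _ _)
    (Real.exp_pos _).le).trans (wt_le h0 s)) (h.h0 i)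

theorem Rep.pd (h : Rep s F k a b) {d : ℝ} (h0 : 0 < d) (h1 : d < s) (j : J) :
    Rep (s - d) (pd j F) k (fun i => (I * k i j : ℂ) • a i) fun i => |(k i j : ℝ)| * b i := by
  have s1 : Summable fun i => |(k i j : ℝ)| * b i * Real.exp (max (s - d) 0 * sz (k i)) :=
    .of_nonneg_of_le (fun i => mul_nonneg (mul_nonneg (abs_nonneg _) (h.h0 i)) (Real.exp_pos _).le)
      (h.wt h0 h1 j) (h.h2.div_const d)
  refine ⟨fun i => mul_nonneg (abs_nonneg _) (h.h0 i), fun i y => norm_coef (h.h1 i y) j, s1,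
    fun y θ => ?_⟩
  rw [pd_eq (h.der (h0.trans h1) y θ)]
  exact (Summable.of_norm_bounded s1 fun i => term_le _ (norm_coef (h.h1 i y) j) θ).hasSum

theorem bd_pd (h : BdF s F c) {d : ℝ} (h0 : 0 < d) (h1 : d < s) (j : J) :
    BdF (s - d) (pd j F) (c / d) := by
  obtain ⟨I', k, a, b, a0, a1, a2, a3, a4⟩ := h
  have h : Rep s F k a b := ⟨a0, a1, a2, a4⟩
  have h' := h.pd h0 h1 j
  refine ⟨I', k, _, _, h'.h0, h'.h1, h'.h2, ?_, h'.h4⟩
  refine (h'.h2.tsum_le_tsum (h.wt h0 h1 j) (a2.div_const d)).trans ?_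
  rw [tsum_div_const]
  exact div_le_div_of_nonneg_right a3 h0.le

theorem dif (f : AlgC Y J) (y : Y) : Differentiable ℝ (f.1 y) := fun θ => by
  obtain ⟨s, hs, c, I', k, a, b, a0, a1, a2, -, a4⟩ := f.2
  exact (Rep.der ⟨a0, a1, a2, a4⟩ hs y θ).differentiableAt

theorem pd_comm (f : AlgC Y J) (i j : J) : pd i (pd j f.1) = pd j (pd i f.1) := by
  obtain ⟨s, hs, c, I', k, a, b, a0, a1, a2, -, a4⟩ := f.2
  have h : Rep s f.1 k a b := ⟨a0, a1, a2, a4⟩
  have key : ∀ i j, Rep _ (pd i (pd j f.1)) _ _ _ := fun i j =>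
    (h.pd (d := s / 3) (by linarith) (by linarith) j).pd (d := s / 3) (by linarith) (by linarith) i
  funext y θ
  refine ((key i j).h4 y θ).unique ?_
  simpa only [smul_comm (I * k _ i : ℂ)] using (key j i).h4 y θ

/-- the coordinate derivative as a derivation -/
def DC (j : J) : Derivation ℝ (AlgC Y J) (AlgC Y J) := Derivation.mk'
  { toFun := fun f => ⟨pd j f.1, by
      obtain ⟨s, hs, c, h⟩ := f.2
      exact ⟨_, sub_pos.2 (half_lt_self hs), _, bd_pd h (half_pos hs) (half_lt_self hs) j⟩⟩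
    map_add' := fun f g => Subtype.ext (funext fun y => funext fun θ => by
      change fderiv ℝ (f.1 y + g.1 y) θ _ = pd j f.1 y θ + pd j g.1 y θ
      rw [fderiv_add (dif f y θ) (dif g y θ)]
      rfl)
    map_smul' := fun r f => Subtype.ext (funext fun y => funext fun θ => by
      change fderiv ℝ (r • f.1 y) θ _ = r • pd j f.1 y θ
      rw [fderiv_const_smul (dif f y θ)]
      rfl) }
  fun f g => Subtype.ext (funext fun y => funext fun θ => by
    change fderiv ℝ (f.1 y * g.1 y) θ _ = f.1 y θ * pd j g.1 y θ + g.1 y θ * pd j f.1 y θ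
    rw [fderiv_mul (dif f y θ) (dif g y θ)]
    rfl)

/-- the reflection -/
def rC : AlgC Y J →ₐ[ℝ] AlgC Y J where
  toFun f := ⟨fun y θ => f.1 y (-θ), by
    obtain ⟨s, hs, c, h⟩ := f.2
    exact ⟨s, hs, c, refl h⟩⟩
  map_one' := rfl
  map_mul' _ _ := rfl
  map_zero' := rfl
  map_add' _ _ := rfl
  commutes' _ := rfl

theorem cst_of {f : AlgC Y J} (h : ∀ j, DC j f = 0) (y : Y) (θ : J → ℝ) : f.1 y θ = f.1 y 0 := by
  refine is_const_of_fderiv_eq_zero (dif f y) (fun θ => ?_) θ 0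
  rw [(der_pd (dif f y θ)).fderiv]
  have : (fun j => pd j f.1 y θ) = fun _ => 0 := funext fun j =>
    congrFun (congrFun (congrArg Subtype.val (h j)) y) θ
  rw [this]
  simp [grad]

/-- the complex Fourier scale -/
def SC : Scale (AlgC Y J) J where
  Bd s f c := BdF s f.1 c
  D := DC
  r := rC
  nonneg := nonneg
  mono := BdF.mono
  one s := (BdF.const s 1).mono le_rfl norm_one.le
  add := BdF.add
  mul := BdF.mul
  smul r h := (cmul r h).mono le_rfl (by simp)
  der j h0 h1 h := bd_pd h h0 h1 j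
  refl := refl
  rr f := Subtype.ext (funext fun y => funext fun θ => congrArg (f.1 y) (neg_neg θ))
  rD j f := Subtype.ext (funext fun y => funext fun θ => by
    have h1 := (der_pd (dif f y (-θ))).comp θ (hasFDerivAt_id θ).neg
    have h2 : HasFDerivAt ((rC f).1 y) (grad fun j => -pd j f.1 y (-θ)) θ :=
      h1.congr_fderiv (ContinuousLinearMap.ext fun v => by simp [grad_apply])
    change pd j f.1 y (-θ) = -pd j (rC f).1 y θ
    rw [pd_eq h2, neg_neg])
  comm i j f := Subtype.ext (pd_comm f i j)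
  complete {s c f} hs h := by
    have s0 : ∀ N, HasSum (fun n : ℕ => c / 2 ^ (n + N)) (2 * c / 2 ^ N) := fun N => by
      have e : (fun n : ℕ => c / 2 ^ (n + N)) = fun n => c / 2 ^ N * (1 / 2) ^ n := by
        funext n
        rw [pow_add, one_div, inv_pow]
        field_simp
      rw [e, show 2 * c / 2 ^ N = c / 2 ^ N * 2 by ring]
      exact hasSum_geometric_two.mul_left _
    have key : ∀ N, BdF s (fun y θ => ∑' n, (f (n + N)).1 y θ) (2 * c / 2 ^ N) := fun N =>
      (s0 N).tsum_eq ▸ tsum (fun n => h (n + N)) (s0 N).summable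
    refine ⟨⟨fun y θ => ∑' n, (f n).1 y θ, s, hs, _, key 0⟩, fun N => ?_⟩
    convert key N using 1
    funext y θ
    have s1 : Summable fun n => (f n).1 y θ :=
      .of_norm_bounded (s0 0).summable fun n => norm_le (h n) y θ
    simp [← s1.sum_add_tsum_nat_add N, Finset.sum_apply]
  sep {s c f} h := Subtype.ext (funext fun y => funext fun θ => norm_le_zero_iff.1 (by
    have h1 : Filter.Tendsto (fun n : ℕ => c / 2 ^ n) Filter.atTop (nhds 0) :=
      Filter.Tendsto.const_div_atTop (tendsto_pow_atTop_atTop_of_one_lt one_lt_two) c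
    exact ge_of_tendsto' h1 fun n => norm_le (h n) y θ))
  cst_bd {s f c} s' h hb := by
    have e : f.1 = fun y _ => f.1 y 0 := funext fun y => funext fun θ => cst_of h y θ
    rw [e]
    exact BdF.cst s' ⟨fun y => f.1 y 0, cont hb 0⟩ (nonneg hb) fun y => norm_le hb y 0
  cst_r {f} h := Subtype.ext (funext fun y => funext fun θ =>
    (cst_of h y (-θ)).trans (cst_of h y θ).symm)

/-! ### The real scale -/

/-- real functions as complex functions -/
def ofR : AlgR Y J →ₐ[ℝ] AlgC Y J where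
  toFun f := ⟨fun y θ => (f.1 y θ : ℂ), f.2⟩
  map_one' := rfl
  map_mul' f g := Subtype.ext (funext fun y => funext fun θ => ofReal_mul _ _)
  map_zero' := rfl
  map_add' f g := Subtype.ext (funext fun y => funext fun θ => ofReal_add _ _)
  commutes' _ := rfl

theorem ofR_inj : Function.Injective (ofR : AlgR Y J → AlgC Y J) := fun _ _ h =>
  Subtype.ext (funext fun y => funext fun θ =>
    ofReal_injective (congrFun (congrFun (congrArg Subtype.val h) y) θ))

/-- real part -/
def reR : AlgC Y J →ₗ[ℝ] AlgR Y J where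
  toFun f := ⟨fun y θ => (f.1 y θ).re, by
    obtain ⟨s, hs, c, h⟩ := f.2
    exact ⟨s, hs, c, re h⟩⟩
  map_add' f g := rfl
  map_smul' r f := Subtype.ext (funext fun y => funext fun θ => smul_re r _)

theorem reR_ofR (f : AlgR Y J) : reR (ofR f) = f := rfl

/-- the real reflection -/
def rR : AlgR Y J →ₐ[ℝ] AlgR Y J where
  toFun f := ⟨fun y θ => f.1 y (-θ), by
    obtain ⟨s, hs, c, h⟩ := f.2
    exact ⟨s, hs, c, refl h⟩⟩
  map_one' := rfl
  map_mul' _ _ := rfl
  map_zero' := rfl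
  map_add' _ _ := rfl
  commutes' _ := rfl

variable {S : Scale (AlgC Y J) J}

theorem ofR_D (h : IsModC S) (j : J) (f : AlgR Y J) :
    ofR (reR (S.D j (ofR f))) = S.D j (ofR f) := by
  classical
  refine Subtype.ext (funext fun y => funext fun θ => conj_eq_iff_re.1 (conj_eq_iff_im.2 ?_))
  have h1 := imCLM.hasFDerivAt.comp θ (h.der (ofR f) y θ)
  have h2 : (imCLM ∘ (ofR f).1 y) = fun _ => 0 := funext fun θ => ofReal_im (f.1 y θ)
  rw [h2] at h1
  have h3 := DFunLike.congr_fun (h1.unique (hasFDerivAt_const _ _)) (Pi.single j 1)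
  simpa [grad_single] using h3

theorem ofR_r (h : IsModC S) (f : AlgR Y J) : ofR (rR f) = S.r (ofR f) :=
  Subtype.ext (funext fun y => funext fun θ => (h.refl (ofR f) y θ).symm)

/-- the real coordinate derivative -/
def DR (h : IsModC S) (j : J) : Derivation ℝ (AlgR Y J) (AlgR Y J) := Derivation.mk'
  (reR ∘ₗ (S.D j).toLinearMap ∘ₗ ofR.toLinearMap) fun f g => ofR_inj (by
    change ofR (reR (S.D j (ofR (f * g)))) =
      ofR (f * reR (S.D j (ofR g)) + g * reR (S.D j (ofR f)))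
    rw [ofR_D h, map_add, map_mul ofR, map_mul ofR, map_mul ofR, ofR_D h, ofR_D h,
      Derivation.leibniz]
    rfl)

theorem ofR_DR (h : IsModC S) (j : J) (f : AlgR Y J) : ofR (DR h j f) = S.D j (ofR f) :=
  ofR_D h j f

/-- the real Fourier scale -/
def SR (h : IsModC S) : Scale (AlgR Y J) J where
  Bd s f c := S.Bd s (ofR f) c
  D := DR h
  r := rR
  nonneg := S.nonneg
  mono := S.mono
  one s := by rw [map_one]; exact S.one s
  add h1 h2 := by rw [map_add]; exact S.add h1 h2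
  mul h1 h2 := by rw [map_mul]; exact S.mul h1 h2
  smul r h1 := by rw [map_smul]; exact S.smul r h1
  der j h0 h1 h2 := by rw [ofR_DR]; exact S.der j h0 h1 h2
  refl h1 := by rw [ofR_r h]; exact S.refl h1
  rr f := ofR_inj (by rw [ofR_r h, ofR_r h, S.rr])
  rD j f := ofR_inj (by rw [ofR_r h, ofR_DR, S.rD, map_neg, ofR_DR, ofR_r h])
  comm i j f := ofR_inj (by rw [ofR_DR, ofR_DR, ofR_DR, ofR_DR, S.comm])
  complete {s c f} hs h1 := by
    obtain ⟨g, hg⟩ := S.complete hs h1
    refine ⟨reR g, fun N => ?_⟩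
    have e : reR g - ∑ n ∈ range N, f n = reR (g - ∑ n ∈ range N, ofR (f n)) := by
      rw [map_sub, ← map_sum, reR_ofR]
    rw [e]
    exact (h.bd _ _ _).2 (re ((h.bd _ _ _).1 (hg N)))
  sep h1 := ofR_inj ((S.sep h1).trans (map_zero _).symm)
  cst_bd s' h1 h2 := S.cst_bd s' (fun j => by rw [← ofR_DR h, h1, map_zero]) h2
  cst_r h1 := ofR_inj (by rw [ofR_r h, S.cst_r fun j => by rw [← ofR_DR h, h1, map_zero]])

end ModA

theorem modR : ModRStmt := fun _ _ _ _ _ _ h =>
  ⟨ModA.SR h, fun _ _ _ => h.bd _ _ _, fun f y θ =>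
    (reCLM.hasFDerivAt.comp θ (h.der (ModA.ofR f) y θ)).congr_fderiv
      (ContinuousLinearMap.ext fun v => by
        simp only [ContinuousLinearMap.comp_apply, grad_apply, map_sum, map_smul]
        rfl), fun _ _ _ => rfl⟩

theorem modC : ModCStmt := fun _ _ _ _ _ =>
  ⟨ModA.SC, fun _ _ _ => Iff.rfl, fun f y θ => ModA.der_pd (ModA.dif f y θ), fun _ _ _ => rfl⟩

end Pool.Agent.MP_1ba41f_an.K3
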