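import Mathlib.RingTheory.Derivation.Basic
import Mathlib.Tactic.Monotonicity.Lemmas
import Mathlib.Algebra.Order.Ring.Star
import Mathlib.Topology.Separation.CompletelyRegular
import Pool.Agent.MP_1ba41f_an.Shape
import Mathlib.NumberTheory.Real.Irrational
import Mathlib.Algebra.Order.Archimedean.Real.Hom
import Mathlib.Algebra.Order.Star.Real
import Mathlib.Combinatorics.SimpleGraph.Basic
import Mathlib.RingTheory.PiTensorProduct
import Mathlib.Algebra.Ring.IsFormallyReal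
import Mathlib.Analysis.InnerProductSpace.Calculus
import Mathlib.Analysis.Calculus.Deriv.Star

-- ======== part 0: formerly Pool.Agent.MP_1ba41f_an.K3.Defs
section MrgPart0

/-! PROJECT KAM3: definitions. -/

noncomputable section
open Finset Matrix

namespace Pool.Agent.MP_1ba41f_an.K3

/-! ### Scales of norms -/

/-- A scale of (analytic) norm bounds on a commutative algebra, with derivations and a
reflection. `Bd s f c` reads: the norm of `f` at level `s` is at most `c`. -/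
structure Scale (A : Type) [CommRing A] [Algebra ℝ A] (J : Type) where
  Bd : ℝ → A → ℝ → Prop
  D : J → Derivation ℝ A A
  r : A →ₐ[ℝ] A
  nonneg : ∀ {s f c}, Bd s f c → 0 ≤ c
  mono : ∀ {s s' f c c'}, Bd s f c → s' ≤ s → c ≤ c' → Bd s' f c'
  one : ∀ s, Bd s 1 1
  add : ∀ {s f g c c'}, Bd s f c → Bd s g c' → Bd s (f + g) (c + c')
  mul : ∀ {s f g c c'}, Bd s f c → Bd s g c' → Bd s (f * g) (c * c')
  smul : ∀ {s f c} (a : ℝ), Bd s f c → Bd s (a • f) (|a| * c)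
  der : ∀ {s f c d} (j : J), 0 < d → d < s → Bd s f c → Bd (s - d) (D j f) (c / d)
  refl : ∀ {s f c}, Bd s f c → Bd s (r f) c
  rr : ∀ f, r (r f) = f
  rD : ∀ j f, r (D j f) = -D j (r f)
  comm : ∀ i j f, D i (D j f) = D j (D i f)
  complete : ∀ {s c} {f : ℕ → A}, 0 < s → (∀ n, Bd s (f n) (c / 2 ^ n)) →
    ∃ g, ∀ N, Bd s (g - ∑ n ∈ range N, f n) (2 * c / 2 ^ N)
  sep : ∀ {s c f}, (∀ n : ℕ, Bd s f (c / 2 ^ n)) → f = 0
  cst_bd : ∀ {s f c} (s' : ℝ), (∀ j, D j f = 0) → Bd s f c → Bd s' f c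
  cst_r : ∀ {f}, (∀ j, D j f = 0) → r f = f

namespace Scale
variable {A : Type} [CommRing A] [Algebra ℝ A] {J : Type}

/-- finite norm at level `s` -/
def An (S : Scale A J) (s : ℝ) (f : A) : Prop := ∃ c, S.Bd s f c
/-- constants -/
def Cst (S : Scale A J) (f : A) : Prop := ∀ j, S.D j f = 0
/-- near `1` at some positive level -/
def Pos (S : Scale A J) (y : A) : Prop := ∃ s, 0 < s ∧ S.Bd s (y - 1) (1 / 2)
open Classical in
/-- inverse square root near `1` -/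
def isq (S : Scale A J) (f : A) : A :=
  if h : ∃ y, y * y * f = 1 ∧ S.Pos y then Classical.choose h else 0
/-- derivative along the frequency vector `(1, ρ)` -/
def L (S : Scale A (Fin 2)) (ρ : ℝ) : Derivation ℝ A A := S.D 0 + ρ • S.D 1

/-- small divisor and hyperbolic solvers -/
structure Solv (S : Scale A (Fin 2)) (ρ γ : ℝ) : Prop where
  pos : 0 < γ
  solve : ∀ {s f c}, 0 < s → S.Bd s f c → ∃ g m, S.Cst m ∧ S.Bd s m c ∧ S.L ρ g = f - m ∧
    ∀ d, 0 < d → d < s → S.Bd (s - d) g (c / (γ * d))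
  hsolve : ∀ {s f c} (l : ℝ), 0 < s → l ≠ 0 → S.Bd s f c →
    ∃ g, S.L ρ g - l • g = f ∧ S.Bd s g (c / |l|)
  muniq : ∀ {m g}, S.Cst m → S.L ρ g = m → m = 0
  huniq : ∀ {g} (l : ℝ), l ≠ 0 → S.L ρ g = l • g → g = 0

end Scale

/-! ### Expressions -/

/-- algebraic expressions with inverse and inverse square root -/
inductive Ex (V : Type) : Type
  | c (a : ℝ) : Ex V
  | v (i : V) : Ex V
  | add (a b : Ex V) : Ex V
  | mul (a b : Ex V) : Ex V
  | inv (a : Ex V) : Ex V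
  | isq (a : Ex V) : Ex V

namespace Ex
variable {V : Type}

/-- value in an algebra; `q` interprets the inverse square root -/
def eval {A : Type} [CommRing A] [Algebra ℝ A] (q : A → A) (x : V → A) : Ex V → A
  | c a => algebraMap ℝ A a
  | v i => x i
  | add a b => eval q x a + eval q x b
  | mul a b => eval q x a * eval q x b
  | inv a => Ring.inverse (eval q x a)
  | isq a => q (eval q x a)

/-- formal derivative in the variable `i` -/
def d [DecidableEq V] (i : V) : Ex V → Ex V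
  | c _ => c 0
  | v j => if j = i then c 1 else c 0
  | add a b => add (d i a) (d i b)
  | mul a b => add (mul (d i a) b) (mul a (d i b))
  | inv a => mul (c (-1)) (mul (mul (inv a) (inv a)) (d i a))
  | isq a => mul (c (-1 / 2)) (mul (mul (isq a) (mul (isq a) (isq a))) (d i a))

/-- real inverse square root -/
def rsq (x : ℝ) : ℝ := (√x)⁻¹

/-- all inverses and square roots make sense at the real point `x` -/
def Good (x : V → ℝ) : Ex V → Prop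
  | c _ => True
  | v _ => True
  | add a b => Good x a ∧ Good x b
  | mul a b => Good x a ∧ Good x b
  | inv a => Good x a ∧ eval rsq x a ≠ 0
  | isq a => Good x a ∧ 0 < eval rsq x a

/-- all inverses and square roots make sense at the point `x` of a scale -/
def Rel {A : Type} [CommRing A] [Algebra ℝ A] {J : Type} (S : Scale A J) (x : V → A) :
    Ex V → Prop
  | c _ => True
  | v _ => True
  | add a b => Rel S x a ∧ Rel S x b
  | mul a b => Rel S x a ∧ Rel S x b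
  | inv a => Rel S x a ∧ IsUnit (eval S.isq x a)
  | isq a => Rel S x a ∧ ∃ y, y * y * eval S.isq x a = 1 ∧ S.Pos y

/-- base point condition at level `s` -/
def Ok {A : Type} [CommRing A] [Algebra ℝ A] {J : Type} (S : Scale A J) (s : ℝ) (x : V → A) :
    Ex V → Prop
  | c _ => True
  | v _ => True
  | add a b => Ok S s x a ∧ Ok S s x b
  | mul a b => Ok S s x a ∧ Ok S s x b
  | inv a => Ok S s x a ∧ ∃ g, eval S.isq x a * g = 1 ∧ S.An s g
  | isq a => Ok S s x a ∧ eval S.isq x a = 1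

end Ex

/-! ### The reduced three-body field.
Variables: `0,1` position `ζ`, `2,3` velocity `ν`, `4` eccentricity `e`, `5` amplitude `ε`,
`6` the cosine of the angle. -/

section Field
open Ex
variable (a t : Fin 3 → ℝ)

def kap : ℝ := ∑ k, a k * t k ^ 2
def sq (x : Ex (Fin 7)) : Ex (Fin 7) := mul x x
def sub (x y : Ex (Fin 7)) : Ex (Fin 7) := add x (mul (c (-1)) y)
def nE : Ex (Fin 7) := add (sq (v 0)) (sq (v 1))
def jE : Ex (Fin 7) := sub (mul (v 3) (v 0)) (mul (v 2) (v 1))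
def kE : Ex (Fin 7) := add (sq (v 2)) (sq (v 3))
def e2E : Ex (Fin 7) := sq (v 5)
def NE : Ex (Fin 7) := add (c 1) (mul e2E nE)
def mE : Ex (Fin 7) := add (mul NE kE)
  (mul e2E (sub (mul (mul NE nE) (add (add kE (mul (c 2) jE)) nE)) (sq nE)))
def tauE (k : Fin 3) : Ex (Fin 7) :=
  mul (add (mul (c (2 * t k)) (v 0)) (mul (v 5) (mul (c (t k ^ 2 - 1)) nE))) (inv NE)
def YE (k : Fin 3) : Ex (Fin 7) := isq (add (c 1) (mul (v 5) (tauE t k)))
def VkE (k : Fin 3) : Ex (Fin 7) :=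
  mul (c (a k / 2)) (mul (mul (sq (tauE t k)) (sq (YE t k)))
    (mul (add (c 1) (mul (c 2) (YE t k))) (sq (inv (add (c 1) (YE t k))))))
def VE : Ex (Fin 7) := add (mul (c (-(kap a t - 1) / 2)) (mul nE (inv NE)))
  (add (add (VkE a t 0) (VkE a t 1)) (VkE a t 2))
def alhE : Ex (Fin 7) := mul mE (sq (v 6))
def alE : Ex (Fin 7) := add (c 1) (mul e2E alhE)
def behE : Ex (Fin 7) := mul (sub mE (VE a t)) (v 6)
def gahE : Ex (Fin 7) := sub mE (mul (c 2) (VE a t))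
def DhE : Ex (Fin 7) :=
  mul (sub (sub (add (mul e2E (sq (behE a t))) (mul alhE (sq (v 4)))) (gahE a t))
    (mul e2E (mul alhE (gahE a t)))) (sq (inv (v 4)))
def y0E : Ex (Fin 7) := isq (add (c 1) (mul e2E (DhE a t)))
def etaE : Ex (Fin 7) :=
  mul (sub (sub (mul (mul (v 4) (DhE a t)) (mul (y0E a t) (inv (add (c 1) (y0E a t)))))
    (behE a t)) (mul alhE (v 4))) (inv alE)
def eeE : Ex (Fin 7) := add (v 4) (mul e2E (etaE a t))
def uE : Ex (Fin 7) := add (c 1) (mul (eeE a t) (v 6))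
def phiE : Ex (Fin 7) := mul (c (-1)) (mul (eeE a t) (sq (inv (uE a t))))
def gE (i : Fin 7) : Ex (Fin 7) := mul (phiE a t) (d i (etaE a t))
def xE : Fin 4 → Ex (Fin 7) :=
  ![gE a t 2, gE a t 3, sub (mul (c 2) (gE a t 3)) (gE a t 0),
    sub (mul (c (-2)) (gE a t 2)) (gE a t 1)]
def psiE : Ex (Fin 7) := mul (mul (y0E a t) (eeE a t)) (inv (v 4))
def TE : Ex (Fin 7) := mul (psiE a t) (sq (inv (uE a t)))

/-- environment -/
def env {A : Type} (K : Fin 4 → A) (e p cs : A) : Fin 7 → A := ![K 0, K 1, K 2, K 3, e, p, cs]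

/-- state index as variable index -/
def ix (j : Fin 4) : Fin 7 := Fin.castLE (by norm_num) j

/-- pointwise conditions under which the reduced field comes from the three-body problem -/
def GoodPt (x : Fin 7 → ℝ) : Prop :=
  Good x (TE a t) ∧ 0 < x 4 ∧ 0 < eval rsq x (uE a t) ∧ 1 / 8 ≤ eval rsq x (TE a t)

end Field

/-- the linearised field at amplitude zero; `g = 1 / (1 + e cos θ)` -/
def Amat {A : Type} [CommRing A] [Algebra ℝ A] (β : ℝ) (g : A) : Matrix (Fin 4) (Fin 4) A :=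
  !![0, 0, 1, 0; 0, 0, 0, 1; (2 * β + 3) • g, 0, 0, 2; 0, (-β) • g, -2, 0]
/-- the coefficient of `g` in `Amat` -/
def Dhat (A : Type) [CommRing A] [Algebra ℝ A] (β : ℝ) : Matrix (Fin 4) (Fin 4) A :=
  !![0, 0, 0, 0; 0, 0, 0, 0; (2 * β + 3) • 1, 0, 0, 0; 0, (-β) • 1, 0, 0]
/-- symplectic matrix -/
def Om0 : Matrix (Fin 4) (Fin 4) ℝ := !![0, 2, -1, 0; -2, 0, 0, -1; 1, 0, 0, 0; 0, 1, 0, 0]
/-- reversor -/
def R0 : Fin 4 → ℝ := ![1, -1, -1, 1]

/-! ### The Fourier model -/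

section Model
variable {Y : Type} [TopologicalSpace Y] {J : Type} [Fintype J]

/-- size of a mode -/
def sz (k : J → ℤ) : ℝ := ∑ j, |(k j : ℝ)|
/-- the character of a mode -/
def ph (k : J → ℤ) (θ : J → ℝ) : ℂ := Complex.exp (Complex.I * ((∑ j, (k j : ℝ) * θ j : ℝ) : ℂ))

/-- `F` is a sum of modes with weighted norm at most `c` -/
def BdF (s : ℝ) (F : Y → (J → ℝ) → ℂ) (c : ℝ) : Prop :=
  ∃ (I : Type) (k : I → J → ℤ) (a : I → C(Y, ℂ)) (b : I → ℝ),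
    (∀ i, 0 ≤ b i) ∧ (∀ i y, ‖a i y‖ ≤ b i) ∧
    Summable (fun i => b i * Real.exp (max s 0 * sz (k i))) ∧
    ∑' i, b i * Real.exp (max s 0 * sz (k i)) ≤ c ∧
    ∀ y θ, HasSum (fun i => a i y * ph (k i) θ) (F y θ)

theorem sz_nonneg (k : J → ℤ) : 0 ≤ sz k := sum_nonneg fun _ _ => abs_nonneg _
theorem sz_zero : sz (0 : J → ℤ) = 0 := by simp [sz]
theorem sz_neg (k : J → ℤ) : sz (-k) = sz k := by simp [sz]
theorem sz_add (k l : J → ℤ) : sz (k + l) ≤ sz k + sz l := by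
  unfold sz; rw [← sum_add_distrib]
  exact sum_le_sum fun j _ => by simpa using abs_add_le (k j : ℝ) (l j)
theorem ph_zero (θ : J → ℝ) : ph (0 : J → ℤ) θ = 1 := by simp [ph]
theorem ph_add (k l : J → ℤ) (θ : J → ℝ) : ph (k + l) θ = ph k θ * ph l θ := by
  simp only [ph, ← Complex.exp_add, ← mul_add, ← Complex.ofReal_add, ← sum_add_distrib]
  congr 3; refine sum_congr rfl fun j _ => ?_; simp [add_mul]
theorem norm_ph (k : J → ℤ) (θ : J → ℝ) : ‖ph k θ‖ = 1 := by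
  unfold ph; rw [mul_comm]; exact Complex.norm_exp_ofReal_mul_I _
theorem one_le_wt (s : ℝ) (k : J → ℤ) : 1 ≤ Real.exp (max s 0 * sz k) :=
  Real.one_le_exp (mul_nonneg (le_max_right _ _) (sz_nonneg k))

theorem BdF.mono {s s' c c' : ℝ} {F : Y → (J → ℝ) → ℂ} (h : BdF s F c) (hs : s' ≤ s)
    (hc : c ≤ c') : BdF s' F c' := by
  obtain ⟨I, k, a, b, h0, h1, h2, h3, h4⟩ := h
  have hle : ∀ i, b i * Real.exp (max s' 0 * sz (k i)) ≤ b i * Real.exp (max s 0 * sz (k i)) :=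
    fun i => mul_le_mul_of_nonneg_left (Real.exp_le_exp.2
      (mul_le_mul_of_nonneg_right (max_le_max hs le_rfl) (sz_nonneg _))) (h0 i)
  have h2' : Summable (fun i => b i * Real.exp (max s' 0 * sz (k i))) :=
    Summable.of_nonneg_of_le (fun i => mul_nonneg (h0 i) (Real.exp_pos _).le) hle h2
  exact ⟨I, k, a, b, h0, h1, h2', ((h2'.tsum_le_tsum hle h2).trans h3).trans hc, h4⟩

theorem BdF.mode (s : ℝ) (k : J → ℤ) (a : C(Y, ℂ)) {b : ℝ} (hb : 0 ≤ b) (ha : ∀ y, ‖a y‖ ≤ b) :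
    BdF s (fun y θ => a y * ph k θ) (b * Real.exp (max s 0 * sz k)) :=
  ⟨Unit, fun _ => k, fun _ => a, fun _ => b, fun _ => hb, fun _ => ha,
    (hasSum_fintype _).summable, by simp, fun y θ => by simp⟩

theorem BdF.cst (s : ℝ) (a : C(Y, ℂ)) {b : ℝ} (hb : 0 ≤ b) (ha : ∀ y, ‖a y‖ ≤ b) :
    BdF s (fun y (_ : J → ℝ) => a y) b := by
  simpa [ph_zero, sz_zero] using BdF.mode s (0 : J → ℤ) a hb ha

theorem BdF.const (s : ℝ) (z : ℂ) : BdF s (fun (_ : Y) (_ : J → ℝ) => z) ‖z‖ :=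
  BdF.cst s (ContinuousMap.const Y z) (norm_nonneg z) fun _ => le_rfl

theorem BdF.add {s c c' : ℝ} {F G : Y → (J → ℝ) → ℂ} (h : BdF s F c) (h' : BdF s G c') :
    BdF s (fun y θ => F y θ + G y θ) (c + c') := by
  obtain ⟨I, k, a, b, h0, h1, h2, h3, h4⟩ := h
  obtain ⟨I', k', a', b', h0', h1', h2', h3', h4'⟩ := h'
  have hs : HasSum (fun i : I ⊕ I' => Sum.elim b b' i * Real.exp (max s 0 * sz (Sum.elim k k' i)))
      (∑' i, b i * Real.exp (max s 0 * sz (k i)) + ∑' i, b' i * Real.exp (max s 0 * sz (k' i))) :=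
    HasSum.sum (by simpa [Function.comp_def] using h2.hasSum)
      (by simpa [Function.comp_def] using h2'.hasSum)
  refine ⟨I ⊕ I', Sum.elim k k', Sum.elim a a', Sum.elim b b', ?_, ?_, hs.summable, ?_, ?_⟩
  · rintro (i | i); exacts [h0 i, h0' i]
  · rintro (i | i); exacts [h1 i, h1' i]
  · rw [hs.tsum_eq]; exact add_le_add h3 h3'
  · intro y θ
    exact HasSum.sum (by simpa [Function.comp_def] using h4 y θ)
      (by simpa [Function.comp_def] using h4' y θ)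

theorem summable_norm_of {I : Type} {s : ℝ} {k : I → J → ℤ} {a : I → C(Y, ℂ)} {b : I → ℝ}
    (h0 : ∀ i, 0 ≤ b i) (h1 : ∀ i y, ‖a i y‖ ≤ b i)
    (h2 : Summable (fun i => b i * Real.exp (max s 0 * sz (k i)))) (y : Y) (θ : J → ℝ) :
    Summable (fun i => ‖a i y * ph (k i) θ‖) :=
  Summable.of_nonneg_of_le (fun _ => norm_nonneg _) (fun i => by
    rw [norm_mul, norm_ph, mul_one]
    exact (h1 i y).trans (le_mul_of_one_le_right (h0 i) (one_le_wt _ _))) h2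

theorem BdF.mul {s c c' : ℝ} {F G : Y → (J → ℝ) → ℂ} (h : BdF s F c) (h' : BdF s G c') :
    BdF s (fun y θ => F y θ * G y θ) (c * c') := by
  obtain ⟨I, k, a, b, h0, h1, h2, h3, h4⟩ := h
  obtain ⟨I', k', a', b', h0', h1', h2', h3', h4'⟩ := h'
  have n1 : ∀ i, 0 ≤ b i * Real.exp (max s 0 * sz (k i)) :=
    fun i => mul_nonneg (h0 i) (Real.exp_pos _).le
  have n2 : ∀ i, 0 ≤ b' i * Real.exp (max s 0 * sz (k' i)) :=
    fun i => mul_nonneg (h0' i) (Real.exp_pos _).le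
  have hp := Summable.mul_of_nonneg h2 h2' n1 n2
  have hle : ∀ i : I × I', b i.1 * b' i.2 * Real.exp (max s 0 * sz (k i.1 + k' i.2)) ≤
      b i.1 * Real.exp (max s 0 * sz (k i.1)) * (b' i.2 * Real.exp (max s 0 * sz (k' i.2))) := by
    intro i
    have : Real.exp (max s 0 * sz (k i.1 + k' i.2)) ≤
        Real.exp (max s 0 * sz (k i.1)) * Real.exp (max s 0 * sz (k' i.2)) := by
      rw [← Real.exp_add, ← mul_add]
      exact Real.exp_le_exp.2 (mul_le_mul_of_nonneg_left (sz_add _ _) (le_max_right _ _))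
    calc _ ≤ b i.1 * b' i.2 * (Real.exp (max s 0 * sz (k i.1)) * Real.exp (max s 0 * sz (k' i.2))) :=
          mul_le_mul_of_nonneg_left this (mul_nonneg (h0 _) (h0' _))
      _ = _ := by ring
  have hs : Summable fun i : I × I' =>
      b i.1 * b' i.2 * Real.exp (max s 0 * sz (k i.1 + k' i.2)) :=
    Summable.of_nonneg_of_le
      (fun i => mul_nonneg (mul_nonneg (h0 _) (h0' _)) (Real.exp_pos _).le) hle hp
  refine ⟨I × I', fun i => k i.1 + k' i.2, fun i => a i.1 * a' i.2, fun i => b i.1 * b' i.2,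
    fun i => mul_nonneg (h0 _) (h0' _), fun i y => ?_, hs, ?_, fun y θ => ?_⟩
  · rw [ContinuousMap.mul_apply, norm_mul]
    exact mul_le_mul (h1 _ _) (h1' _ _) (norm_nonneg _) (h0 _)
  · refine (hs.tsum_le_tsum hle hp).trans ?_
    rw [← h2.tsum_mul_tsum h2' hp]
    exact mul_le_mul h3 h3' (tsum_nonneg n2) ((tsum_nonneg n1).trans h3)
  · have hsm : Summable fun i : I × I' => (a i.1 y * ph (k i.1) θ) * (a' i.2 y * ph (k' i.2) θ) :=
      summable_mul_of_summable_norm (f := fun i => a i y * ph (k i) θ)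
        (g := fun i => a' i y * ph (k' i) θ)
        (summable_norm_of h0 h1 h2 y θ) (summable_norm_of h0' h1' h2' y θ)
    have := HasSum.mul (f := fun i => a i y * ph (k i) θ) (g := fun i => a' i y * ph (k' i) θ)
      (h4 y θ) (h4' y θ) hsm
    have e : (fun i : I × I' => (a i.1 * a' i.2) y * ph (k i.1 + k' i.2) θ) =
        fun i : I × I' => (a i.1 y * ph (k i.1) θ) * (a' i.2 y * ph (k' i.2) θ) := by
      funext i; simp only [ContinuousMap.mul_apply, ph_add]; ring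
    rw [e]; exact this

variable (Y J)

/-- complex analytic functions on the torus, continuous in the parameter -/
def AlgC : Subalgebra ℝ (Y → (J → ℝ) → ℂ) where
  carrier := {F | ∃ s, 0 < s ∧ ∃ c, BdF s F c}
  add_mem' := by
    rintro F G ⟨s, hs, c, h⟩ ⟨s', hs', c', h'⟩
    exact ⟨min s s', lt_min hs hs', _,
      (h.mono (min_le_left _ _) le_rfl).add (h'.mono (min_le_right _ _) le_rfl)⟩
  mul_mem' := by
    rintro F G ⟨s, hs, c, h⟩ ⟨s', hs', c', h'⟩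
    exact ⟨min s s', lt_min hs hs', _,
      (h.mono (min_le_left _ _) le_rfl).mul (h'.mono (min_le_right _ _) le_rfl)⟩
  algebraMap_mem' := fun a => ⟨1, one_pos, _, BdF.const 1 (a : ℂ)⟩

/-- real analytic functions on the torus, continuous in the parameter -/
def AlgR : Subalgebra ℝ (Y → (J → ℝ) → ℝ) where
  carrier := {F | ∃ s, 0 < s ∧ ∃ c, BdF s (fun y θ => (F y θ : ℂ)) c}
  add_mem' := by
    rintro F G ⟨s, hs, c, h⟩ ⟨s', hs', c', h'⟩
    refine ⟨min s s', lt_min hs hs', c + c', ?_⟩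
    simpa using (h.mono (min_le_left _ _) le_rfl).add (h'.mono (min_le_right _ _) le_rfl)
  mul_mem' := by
    rintro F G ⟨s, hs, c, h⟩ ⟨s', hs', c', h'⟩
    refine ⟨min s s', lt_min hs hs', c * c', ?_⟩
    simpa using (h.mono (min_le_left _ _) le_rfl).mul (h'.mono (min_le_right _ _) le_rfl)
  algebraMap_mem' := fun a => ⟨1, one_pos, _, BdF.const 1 (a : ℂ)⟩

variable {Y J}

/-- the linear form with the given values on the coordinate vectors -/
def grad {E : Type} [NormedAddCommGroup E] [NormedSpace ℝ E] (w : J → E) : (J → ℝ) →L[ℝ] E :=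
  ∑ j, (ContinuousLinearMap.proj j : (J → ℝ) →L[ℝ] ℝ).smulRight (w j)

theorem grad_apply {E : Type} [NormedAddCommGroup E] [NormedSpace ℝ E] (w : J → E) (h : J → ℝ) :
    grad w h = ∑ j, h j • w j := by simp [grad]

/-- `S` is the Fourier scale on `AlgC` -/
structure IsModC (S : Scale (AlgC Y J) J) : Prop where
  bd : ∀ s f c, S.Bd s f c ↔ BdF s f.1 c
  der : ∀ f y θ, HasFDerivAt (f.1 y) (grad fun j => (S.D j f).1 y θ) θ
  refl : ∀ f y θ, (S.r f).1 y θ = f.1 y (-θ)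

/-- `S` is the Fourier scale on `AlgR` -/
structure IsModR (S : Scale (AlgR Y J) J) : Prop where
  bd : ∀ s f c, S.Bd s f c ↔ BdF s (fun y θ => (f.1 y θ : ℂ)) c
  der : ∀ f y θ, HasFDerivAt (f.1 y) (grad fun j => (S.D j f).1 y θ) θ
  refl : ∀ f y θ, (S.r f).1 y θ = f.1 y (-θ)

/-- analytic periodic function of one variable -/
def An1 (s : ℝ) (f : ℝ → ℂ) : Prop := ∃ c, BdF s (fun (_ : Unit) (θ : Fin 1 → ℝ) => f (θ 0)) c

/-- Diophantine condition -/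
def Dioph (ρ γ : ℝ) : Prop :=
  0 < γ ∧ ∀ k : Fin 2 → ℤ, k ≠ 0 → γ ≤ |(k 0 : ℝ) + k 1 * ρ| * sz k

end Model

end Pool.Agent.MP_1ba41f_an.K3

end
end MrgPart0

-- ======== part 1: formerly Pool.Agent.MP_1ba41f_an.K3.Spec
section MrgPart1

/-! PROJECT KAM3: module statements. -/

noncomputable section
open Finset Matrix MeasureTheory Complex

namespace Pool.Agent.MP_1ba41f_an.K3

/-! ### Model -/

def ModCStmt : Prop := ∀ (Y : Type) [TopologicalSpace Y] [CompactSpace Y] (J : Type) [Fintype J],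
  ∃ S : Scale (AlgC Y J) J, IsModC S

def ModRStmt : Prop := ∀ (Y : Type) [TopologicalSpace Y] [CompactSpace Y] (J : Type) [Fintype J]
  (S : Scale (AlgC Y J) J), IsModC S → ∃ S' : Scale (AlgR Y J) J, IsModR S'

def SolvStmt : Prop := ∀ (Y : Type) [TopologicalSpace Y] [CompactSpace Y]
  (S : Scale (AlgR Y (Fin 2)) (Fin 2)) (ρ γ : ℝ), IsModR S → Dioph ρ γ → S.Solv ρ γ

def GapStmt : Prop := ∀ (Y : Type) [TopologicalSpace Y] [CompactSpace Y]
  (S : Scale (AlgC Y (Fin 1)) (Fin 1)), IsModC S →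
  (∀ (μ f : AlgC Y (Fin 1)) (s c g : ℝ), 0 < s → 0 < g → S.Cst μ →
    (∀ (y : Y) (n : ℤ), g ≤ ‖(n : ℂ) * I - μ.1 y 0‖) → S.Bd s f c →
    ∃ h, S.D 0 h - μ * h = f ∧ S.Bd s h (c / g)) ∧
  (∀ (f : AlgC Y (Fin 1)) (s c : ℝ), 0 < s → S.Bd s f c →
    ∃ h m, S.Cst m ∧ S.Bd s m c ∧ S.D 0 h = f - m ∧ S.Bd s h c)

def DioStmt : Prop := ∀ a b : ℝ, a < b → ∃ ρ γ, a < ρ ∧ ρ < b ∧ Dioph ρ γ ∧ Irrational ρ

def KronStmt : Prop := ∀ (ρ : ℝ) (X : Type) [TopologicalSpace X] (F : (Fin 2 → ℝ) → X),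
  Irrational ρ → Continuous F → (∀ θ j, F (θ + Pi.single j (2 * Real.pi)) = F θ) →
  Set.range F ⊆ closure (Set.range fun t : ℝ => F ![t, ρ * t])

/-! ### Abstract KAM theorem -/

/-- unperturbed torus with its frames -/
structure Base (A : Type) where
  K0 : Fin 4 → A
  e0 : A
  P0 : Matrix (Fin 4) (Fin 4) A
  Q0 : Matrix (Fin 4) (Fin 4) A
  D0 : Matrix (Fin 4) (Fin 4) A
  Z0 : Fin 4 → A
  g0 : A
  Om : Matrix (Fin 4) (Fin 4) ℝ
  R : Fin 4 → ℝ
  l : Fin 4 → ℝ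
  t : ℝ

/-- a field `X K e p` with its derivatives `B` in `K` and `Z` in `e` -/
structure Fd (A : Type) where
  X : (Fin 4 → A) → A → A → Fin 4 → A
  B : (Fin 4 → A) → A → A → Matrix (Fin 4) (Fin 4) A
  Z : (Fin 4 → A) → A → A → Fin 4 → A

section KAM
variable {A : Type} [CommRing A] [Algebra ℝ A] (S : Scale A (Fin 2))

structure IsBase (ρ S0 : ℝ) (b : Base A) : Prop where
  pos : 0 < S0
  anK : ∀ i, S.An S0 (b.K0 i)
  ane : S.An S0 b.e0
  anP : ∀ i j, S.An S0 (b.P0 i j)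
  anQ : ∀ i j, S.An S0 (b.Q0 i j)
  anD : ∀ i j, S.An S0 (b.D0 i j)
  anZ : ∀ i, S.An S0 (b.Z0 i)
  cste : S.Cst b.e0
  QP : b.Q0 * b.P0 = 1
  col : ∀ i, b.P0 i 0 = S.D 1 (b.K0 i)
  row : ∀ j, b.Q0 1 j = ∑ i, b.Om i j • b.P0 i 0
  LQ : ∀ i j, S.L ρ (b.Q0 i j) + (b.Q0 * b.D0) i j = b.l i • b.Q0 i j
  LK : ∀ i, S.L ρ (b.K0 i) = (b.D0 *ᵥ b.K0) i
  l0 : b.l 0 = 0
  l1 : b.l 1 = 0
  l2 : b.l 2 ≠ 0
  l3 : b.l 3 ≠ 0
  tors : (b.Q0 *ᵥ b.Z0) 0 = algebraMap ℝ A b.t + S.L ρ b.g0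
  t0 : b.t ≠ 0
  symK : ∀ i, S.r (b.K0 i) = b.R i • b.K0 i
  RR : ∀ i, b.R i * b.R i = 1
  anti : ∀ i j, b.Om j i = -b.Om i j
  ROm : ∀ i j, b.R i * b.R j * b.Om i j = -b.Om i j

structure Near (b : Base A) (s η : ℝ) (K : Fin 4 → A) (e p : A) : Prop where
  K : ∀ i, S.Bd s (K i - b.K0 i) η
  e : S.Bd s (e - b.e0) η
  p : S.Bd s p η

structure IsFld (S0 : ℝ) (b : Base A) (F : Fd A) (C r0 : ℝ) : Prop where
  pos : 0 < r0
  tay : ∀ {s K e p ξ x κ}, 0 < s → s ≤ S0 → Near S b s r0 K e p → (∀ i, S.Bd s (ξ i) κ) →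
    S.Bd s x κ → κ ≤ r0 → ∀ i, S.Bd s
      (F.X (K + ξ) (e + x) p i - F.X K e p i - (F.B K e p *ᵥ ξ) i - F.Z K e p i * x) (C * κ ^ 2)
  lipB : ∀ {s η K e p}, 0 < s → s ≤ S0 → Near S b s η K e p → η ≤ r0 →
    ∀ i j, S.Bd s (F.B K e p i j - b.D0 i j) (C * η)
  lipZ : ∀ {s η K e p}, 0 < s → s ≤ S0 → Near S b s η K e p → η ≤ r0 →
    ∀ i, S.Bd s (F.Z K e p i - b.Z0 i) (C * η)
  lip0 : ∀ {s η p}, 0 < s → s ≤ S0 → S.Bd s p η → η ≤ r0 →
    ∀ i, S.Bd s (F.X b.K0 b.e0 p i - (b.D0 *ᵥ b.K0) i) (C * η)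
  chain : ∀ {s K e p}, 0 < s → s ≤ S0 → Near S b s r0 K e p → S.Cst e → S.Cst p →
    ∀ i, S.D 1 (F.X K e p i) = (F.B K e p *ᵥ fun j => S.D 1 (K j)) i
  ham : ∀ {s K e p}, 0 < s → s ≤ S0 → Near S b s r0 K e p →
    ∀ i j, ∑ k, (b.Om i k • F.B K e p k j + b.Om k j • F.B K e p k i) = 0
  rev : ∀ {s K e p}, 0 < s → s ≤ S0 → Near S b s r0 K e p → S.Cst e → S.Cst p →
    (∀ i, S.r (K i) = b.R i • K i) →
    (∀ i, S.r (F.X K e p i) = -(b.R i • F.X K e p i)) ∧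
    (∀ i j, S.r (F.B K e p i j) = -((b.R i * b.R j) • F.B K e p i j)) ∧
    (∀ i, S.r (F.Z K e p i) = -(b.R i • F.Z K e p i))

/-- numerical side conditions of one Newton step -/
structure Num (S0 s δ η ε : ℝ) : Prop where
  s1 : S0 / 2 ≤ s - 3 * δ
  s2 : s ≤ S0
  d0 : 0 < δ
  d1 : δ ≤ 1
  h0 : 0 < η
  e0 : 0 < ε
  e1 : ε ≤ η * δ ^ 2

/-- hypotheses of one Newton step -/
structure Adm (ρ S0 : ℝ) (b : Base A) (F : Fd A) (s δ η ε : ℝ) (K : Fin 4 → A) (e p : A) :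
    Prop where
  num : Num S0 s δ η ε
  near : Near S b s η K e p
  nT : ∀ i, S.Bd s (S.D 1 (K i) - S.D 1 (b.K0 i)) η
  ce : S.Cst e
  cp : S.Cst p
  sym : ∀ i, S.r (K i) = b.R i • K i
  err : ∀ i, S.Bd s (S.L ρ (K i) - F.X K e p i) ε

/-- adapted frame along an approximate torus with tangent `T` and linearised field `B` -/
structure IsFrame (ρ : ℝ) (b : Base A) (s δ η ε C : ℝ) (T : Fin 4 → A)
    (B P Q G : Matrix (Fin 4) (Fin 4) A) : Prop where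
  PQ : P * Q = 1
  QT : Q *ᵥ T = Pi.single 0 1
  row : ∀ j, Q 1 j = ∑ i, b.Om i j • T i
  eq : ∀ i j, S.L ρ (Q i j) + (Q * B) i j = b.l i • Q i j + (G * Q) i j
  bP : ∀ i j, S.Bd s (P i j) C
  bQ : ∀ i j, S.Bd s (Q i j) C
  nQ : ∀ i j, S.Bd s (Q i j - b.Q0 i j) (C * η)
  bG : ∀ i j, S.Bd (s - δ) (G i j) (C * η)
  col0 : ∀ i, S.Bd (s - δ) (G i 0) (C * (ε / δ))
  row1 : ∀ j, S.Bd (s - δ) (G 1 j) (C * (ε / δ))

end KAM

def FrameStmt : Prop := ∀ (A : Type) [CommRing A] [Algebra ℝ A] (S : Scale A (Fin 2))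
  (ρ S0 : ℝ) (b : Base A) (F : Fd A) (C0 r0 : ℝ), IsBase S ρ S0 b → IsFld S S0 b F C0 r0 →
  ∃ C η0 : ℝ, 0 < η0 ∧ ∀ s δ η ε K e p, Adm S ρ S0 b F s δ η ε K e p → η ≤ η0 →
    ∃ P Q G, IsFrame S ρ b s δ η ε C (fun i => S.D 1 (K i)) (F.B K e p) P Q G

def LinStmt : Prop := ∀ (A : Type) [CommRing A] [Algebra ℝ A] (S : Scale A (Fin 2))
  (ρ γ S0 : ℝ) (b : Base A) (C : ℝ), S.Solv ρ γ → IsBase S ρ S0 b →
  ∃ C' η0 : ℝ, 0 < η0 ∧ ∀ s δ η ε T B P Q G, Num S0 s δ η ε → η ≤ η0 →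
    IsFrame S ρ b s δ η ε C T B P Q G → ∀ (f : Fin 4 → A) (w : ℝ), (∀ i, S.Bd s (f i) w) →
    S.r ((Q *ᵥ f) 1) = -(Q *ᵥ f) 1 →
    ∃ (ξ : Fin 4 → A) (m a Φ : A), S.Cst m ∧ (∀ i, S.Bd (s - 2 * δ) (ξ i) (C' * (w / δ ^ 2))) ∧
      (∀ i, S.Bd (s - 2 * δ) (S.L ρ (ξ i) - (B *ᵥ ξ) i - f i + m * T i) (C' * (ε * w / δ ^ 3))) ∧
      S.L ρ a = (Q *ᵥ f) 0 + Φ - m ∧ S.Bd (S0 / 4) Φ (C' * (η * w))

def StepStmt : Prop := ∀ (A : Type) [CommRing A] [Algebra ℝ A] (S : Scale A (Fin 2))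
  (ρ γ S0 : ℝ) (b : Base A) (F : Fd A) (C0 r0 : ℝ), S.Solv ρ γ → IsBase S ρ S0 b →
  IsFld S S0 b F C0 r0 →
  ∃ C η0 : ℝ, 0 < η0 ∧ ∀ s δ η ε K e p, Adm S ρ S0 b F s δ η ε K e p → η ≤ η0 →
    ∃ (ξ : Fin 4 → A) (x : A), S.Cst x ∧ (∀ i, S.r (ξ i) = b.R i • ξ i) ∧
      (∀ i, S.Bd (s - 3 * δ) (ξ i) (C * (ε / δ ^ 3))) ∧
      (∀ i, S.Bd (s - 3 * δ) (S.D 1 (ξ i)) (C * (ε / δ ^ 3))) ∧
      S.Bd (s - 3 * δ) x (C * (ε / δ ^ 3)) ∧
      ∀ i, S.Bd (s - 3 * δ) (S.L ρ ((K + ξ) i) - F.X (K + ξ) (e + x) p i) (C * (ε ^ 2 / δ ^ 4))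

def KamStmt : Prop := ∀ (A : Type) [CommRing A] [Algebra ℝ A] (S : Scale A (Fin 2))
  (ρ γ S0 : ℝ) (b : Base A) (F : Fd A) (C0 r0 : ℝ), S.Solv ρ γ → IsBase S ρ S0 b →
  IsFld S S0 b F C0 r0 → ∀ η, 0 < η → ∃ ε0, 0 < ε0 ∧ ∀ p, S.Cst p → S.Bd S0 p ε0 →
    ∃ K e, S.Cst e ∧ Near S b (S0 / 2) η K e p ∧ ∀ i, S.L ρ (K i) = F.X K e p i

/-! ### Expressions and the field -/

def ExprStmt : Prop := ∀ (A : Type) [CommRing A] [Algebra ℝ A] (J : Type) (S : Scale A J)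
  (V : Type) [Fintype V] [DecidableEq V] (S0 : ℝ) (x0 : V → A) (E : Ex V),
  0 < S0 → (∀ v, S.An S0 (x0 v)) → Ex.Ok S S0 x0 E →
  S.An S0 (E.eval S.isq x0) ∧ ∃ C r0 : ℝ, 0 < r0 ∧ ∀ s η (x : V → A), 0 < s → s ≤ S0 →
    (∀ v, S.Bd s (x v - x0 v) η) → 0 ≤ η → η ≤ r0 →
    Ex.Rel S x E ∧ S.Bd s (E.eval S.isq x - E.eval S.isq x0) (C * η) ∧
    ∀ (h : V → A) (κ : ℝ), (∀ v, S.Bd s (h v) κ) → 0 ≤ κ → κ ≤ r0 →
      S.Bd s (E.eval S.isq (x + h) - E.eval S.isq x - ∑ v, (E.d v).eval S.isq x * h v) (C * κ ^ 2)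

/-- the reduced three-body field in a scale; `cs` is the cosine of the first angle -/
def fld {A : Type} [CommRing A] [Algebra ℝ A] (S : Scale A (Fin 2)) (a t : Fin 3 → ℝ) (cs : A) :
    Fd A where
  X K e p i := (xE a t i).eval S.isq (env K e p cs)
  B K e p := Matrix.of fun i j => ((xE a t i).d (ix j)).eval S.isq (env K e p cs)
  Z K e p i := ((xE a t i).d 4).eval S.isq (env K e p cs)

/-- the base belongs to the linearised three-body field -/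
structure BaseFld {A : Type} [CommRing A] [Algebra ℝ A] (S : Scale A (Fin 2)) (S0 β e : ℝ)
    (b : Base A) (cs g : A) : Prop where
  anc : S.An S0 cs
  ang : S.An S0 g
  Dc : S.D 1 cs = 0
  rc : S.r cs = cs
  inv : (1 + e • cs) * g = 1
  e0 : b.e0 = algebraMap ℝ A e
  D0 : b.D0 = Amat β g
  Z0 : b.Z0 = (-(cs * g * g)) • (Dhat A β *ᵥ b.K0)
  Om : ∃ κ : ℝ, b.Om = κ • Om0
  R : b.R = R0

/-- values of the field and its derivatives at amplitude zero -/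
def ZeroStmt : Prop := ∀ (A : Type) [CommRing A] [Algebra ℝ A] (q : A → A) (a t : Fin 3 → ℝ)
  (K : Fin 4 → A) (e : ℝ) (cs g : A), q 1 = 1 → e ≠ 0 → (1 + e • cs) * g = 1 →
  (∀ i, (xE a t i).eval q (env K (algebraMap ℝ A e) 0 cs) = (Amat (kap a t - 1) g *ᵥ K) i) ∧
  (∀ i j, ((xE a t i).d (ix j)).eval q (env K (algebraMap ℝ A e) 0 cs) =
    Amat (kap a t - 1) g i j) ∧
  (∀ i, ((xE a t i).d 4).eval q (env K (algebraMap ℝ A e) 0 cs) =
    ((-(cs * g * g)) • (Dhat A (kap a t - 1) *ᵥ K)) i)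

def FieldStmt : Prop := ∀ (A : Type) [CommRing A] [Algebra ℝ A] (S : Scale A (Fin 2))
  (a t : Fin 3 → ℝ) (S0 e : ℝ) (b : Base A) (cs g : A), 0 < S0 → 0 < e → e ≤ 1 / 2 →
  (∀ i, S.An S0 (b.K0 i)) → BaseFld S S0 (kap a t - 1) e b cs g →
  ∃ C r0, IsFld S S0 b (fld S a t cs) C r0 ∧
    ∀ s K e' p, 0 < s → s ≤ S0 → Near S b s r0 K e' p → ∀ ev : A →ₐ[ℝ] ℝ,
      (∀ s f c, S.Bd s f c → |ev f| ≤ c) → |ev cs| ≤ 1 →
      GoodPt a t (env (fun i => ev (K i)) (ev e') (ev p) (ev cs)) ∧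
      ∀ i, ev ((fld S a t cs).X K e' p i) =
        (xE a t i).eval Ex.rsq (env (fun i => ev (K i)) (ev e') (ev p) (ev cs))

/-! ### Floquet theory of the linearised field -/

def muE (ω lam : ℝ) : Fin 4 → ℂ := ![I * ω, -(I * ω), lam, -lam]

/-- second order normal form coefficient -/
def nfc (μ : Fin 4 → ℂ) (M : Matrix (Fin 4) (Fin 4) ℂ) (a : Fin 4) : ℂ :=
  M a a / 2 + (1 / 4) * ∑ j, M a j * M j a * (1 / (μ a - μ j + I) + 1 / (μ a - μ j - I))

structure Eig (β ω lam c1 : ℝ) (V Vi : Matrix (Fin 4) (Fin 4) ℂ) : Prop where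
  om : 1 < ω
  la : 0 < lam
  c : c1 ≠ 0
  inv : V * Vi = 1
  eig : Amat β (1 : ℂ) * V = V * diagonal (muE ω lam)
  n0 : nfc (muE ω lam) (Vi * Dhat ℂ β * V) 0 = I * c1
  n1 : nfc (muE ω lam) (Vi * Dhat ℂ β * V) 1 = -(I * c1)

def EigStmt : Prop := ∀ β : ℝ, 0 < β → ∃ ω lam c1 V Vi, Eig β ω lam c1 V Vi

/-- parameter interval -/
abbrev I01 : Type := Set.Icc (0 : ℝ) 1
/-- eccentricity along the parameter interval -/
def ecc (e0 : ℝ) (y : I01) : ℝ := e0 * (1 + y.1) / 2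

def NfStmt : Prop := ∀ (β ω lam c1 : ℝ) (V Vi : Matrix (Fin 4) (Fin 4) ℂ), Eig β ω lam c1 V Vi →
  ∀ S : Scale (AlgC I01 (Fin 1)) (Fin 1), IsModC S →
  ∃ C e1 : ℝ, 0 < e1 ∧ ∀ e0, 0 < e0 → e0 ≤ e1 →
    ∃ (g cs : AlgC I01 (Fin 1)) (Λ M : Fin 4 → AlgC I01 (Fin 1))
      (U Ui Rm W Fm : Matrix (Fin 4) (Fin 4) (AlgC I01 (Fin 1))),
      (∀ y θ, g.1 y θ = (((1 + ecc e0 y * Real.cos (θ 0))⁻¹ : ℝ) : ℂ)) ∧
      (∀ y θ, cs.1 y θ = ((Real.cos (θ 0) : ℝ) : ℂ)) ∧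
      (∀ j y θ, (Λ j).1 y θ = muE ω lam j +
        (ecc e0 y : ℂ) ^ 2 * nfc (muE ω lam) (Vi * Dhat ℂ β * V) j) ∧
      (∀ j y θ, (M j).1 y θ = 2 * (ecc e0 y : ℂ) * nfc (muE ω lam) (Vi * Dhat ℂ β * V) j) ∧
      S.An 1 g ∧ (∀ i j, S.An 1 (U i j)) ∧ (∀ i j, S.An 1 (Ui i j)) ∧ (∀ i j, S.An 1 (W i j)) ∧
      U * Ui = 1 ∧
      Amat β g * U - U.map (S.D 0) = U * (diagonal Λ + Rm) ∧
      Ui * ((-(cs * g * g)) • Dhat (AlgC I01 (Fin 1)) β) * U =
        diagonal M + Fm - ((diagonal Λ + Rm) * W - W * (diagonal Λ + Rm)) + W.map (S.D 0) ∧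
      (∀ i j, S.Bd 1 (Rm i j) (C * e0 ^ 3)) ∧ (∀ i j, S.Bd 1 (Fm i j) (C * e0 ^ 2))

def RedStmt : Prop := ∀ (A : Type) [CommRing A] [Algebra ℝ A] (S : Scale A (Fin 1))
  (s g κ : ℝ) (Λ : Fin 4 → A) (Rm : Matrix (Fin 4) (Fin 4) A), 0 < s → 0 < g → 0 ≤ κ →
  18 * κ ≤ g → (∀ j, S.An s (Λ j)) → (∀ i j, S.Bd s (Rm i j) κ) →
  (∀ i j, i ≠ j → ∀ f c, S.Bd s f c → ∃ h, S.D 0 h - (Λ i - Λ j) * h = f ∧ S.Bd s h (c / g)) →
  (∀ f c, S.Bd s f c → ∃ h m, S.Cst m ∧ S.Bd s m c ∧ S.D 0 h = f - m ∧ S.Bd s h (c / g)) →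
  ∃ (W : Matrix (Fin 4) (Fin 4) A) (Δ : Fin 4 → A), (∀ i j, S.Bd s (W i j) (2 * κ / g)) ∧
    (∀ j, S.Cst (Δ j)) ∧ (∀ j, S.Bd s (Δ j) (2 * κ)) ∧
    (diagonal Λ + Rm) * (1 + W) - W.map (S.D 0) = (1 + W) * diagonal (Λ + Δ)

/-- the linearised field at eccentricity `e` -/
def Ac (β e θ : ℝ) : Matrix (Fin 4) (Fin 4) ℂ := Amat β ((((1 + e * Real.cos θ)⁻¹ : ℝ)) : ℂ)
/-- its derivative in `e` -/
def Ae (β e θ : ℝ) : Matrix (Fin 4) (Fin 4) ℂ :=
  ((-(Real.cos θ * (1 + e * Real.cos θ)⁻¹ * (1 + e * Real.cos θ)⁻¹) : ℝ) : ℂ) • Dhat ℂ β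

structure PreFloq (β e s : ℝ) (μ : Fin 4 → ℂ) (U Ui : ℝ → Matrix (Fin 4) (Fin 4) ℂ) : Prop where
  anU : ∀ i j, An1 s fun θ => U θ i j
  anUi : ∀ i j, An1 s fun θ => Ui θ i j
  ang : An1 s fun θ => (((1 + e * Real.cos θ)⁻¹ : ℝ) : ℂ)
  inv : ∀ θ, U θ * Ui θ = 1
  ode : ∀ θ i j, HasDerivAt (fun θ => U θ i j) ((Ac β e θ * U θ) i j - U θ i j * μ j) θ
  odei : ∀ θ i j, HasDerivAt (fun θ => Ui θ i j) (μ i * Ui θ i j - (Ui θ * Ac β e θ) i j) θ
  irr : Irrational (μ 0).im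
  c1 : ∀ n : ℤ, μ 1 + (starRingEnd ℂ) (μ 0) ≠ n * I
  c2 : ∃ l : ℝ, |(μ 0).re| < l ∧ |(μ 1).re| < l ∧ l < (μ 2).re ∧ (μ 3).re < -l
  c3 : |(μ 2).im| < 1 / 2 ∧ |(μ 3).im| < 1 / 2
  tors : ∃ (W : ℝ → ℂ) (τ : ℂ), An1 s W ∧ τ.im ≠ 0 ∧
    ∀ θ, HasDerivAt W ((Ui θ * Ae β e θ * U θ) 0 0 - τ) θ

def PreStmt : Prop := ∀ β : ℝ, 0 < β → ∃ (e s γ : ℝ) (μ : Fin 4 → ℂ) (U Ui : ℝ → _),
  0 < e ∧ e ≤ 1 / 2 ∧ 0 < s ∧ Dioph (μ 0).im γ ∧ PreFloq β e s μ U Ui

/-- Floquet solutions `p 0` (elliptic), `p 1`, `p 2` (hyperbolic, real) and dual forms `q` -/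
structure Floq (β e s ρ l2 l3 : ℝ) (p q : Fin 3 → ℝ → Fin 4 → ℂ) : Prop where
  anp : ∀ a i, An1 s fun θ => p a θ i
  anq : ∀ a i, An1 s fun θ => q a θ i
  ang : An1 s fun θ => (((1 + e * Real.cos θ)⁻¹ : ℝ) : ℂ)
  l2ne : l2 ≠ 0
  l3ne : l3 ≠ 0
  ode : ∀ a θ i, HasDerivAt (fun θ => p a θ i)
    ((Ac β e θ *ᵥ p a θ) i - (![I * ρ, l2, l3] : Fin 3 → ℂ) a * p a θ i) θ
  dual : ∀ a b θ, q a θ ⬝ᵥ p b θ = if a = b then 1 else 0
  dualc : ∀ a θ, q a θ ⬝ᵥ (fun i => (starRingEnd ℂ) (p 0 θ i)) = 0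
  real : ∀ θ i, (p 1 θ i).im = 0 ∧ (p 2 θ i).im = 0
  sym : ∀ θ i, (starRingEnd ℂ) (p 0 (-θ) i) = (R0 i : ℂ) * p 0 θ i
  tors : ∃ (W : ℝ → ℂ) (τ : ℂ), An1 s W ∧ τ.im ≠ 0 ∧
    ∀ θ, HasDerivAt W (q 0 θ ⬝ᵥ (Ae β e θ *ᵥ p 0 θ) - τ) θ

def SymStmt : Prop := ∀ (β e s : ℝ) (μ : Fin 4 → ℂ) (U Ui : ℝ → Matrix (Fin 4) (Fin 4) ℂ),
  PreFloq β e s μ U Ui → ∃ l2 l3 p q, Floq β e s (μ 0).im l2 l3 p q

def RegStmt : Prop := ∀ (β e ρ : ℝ) (p : ℝ → Fin 4 → ℂ), 0 < β → 0 < e → e ≤ 1 / 2 →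
  (∀ θ i, HasDerivAt (fun θ => p θ i) ((Ac β e θ *ᵥ p θ) i - I * ρ * p θ i) θ) → p 0 ≠ 0 →
  ∃ θ φ : ℝ, (p θ 2 * exp (I * φ)).re * (I * p θ 1 * exp (I * φ)).re ≠
    (p θ 3 * exp (I * φ)).re * (I * p θ 0 * exp (I * φ)).re

def BaseStmt : Prop := ∀ (S : Scale (AlgR I01 (Fin 2)) (Fin 2)) (β e s ρ γ l2 l3 : ℝ)
  (p q : Fin 3 → ℝ → Fin 4 → ℂ),
  IsModR S → S.Solv ρ γ → 0 < β → 0 < e → e ≤ 1 / 2 → 0 < s → Floq β e s ρ l2 l3 p q →
  ∃ (b : Base (AlgR I01 (Fin 2))) (cs g : AlgR I01 (Fin 2)), IsBase S ρ s b ∧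
    BaseFld S s β e b cs g ∧ (∀ y θ, cs.1 y θ = Real.cos (θ 0)) ∧
    ∃ (θ : Fin 2 → ℝ) (δ : ℝ), δ ≠ 0 ∧ ∀ y,
      (S.D 0 (b.K0 0) * S.D 1 (b.K0 1) - S.D 0 (b.K0 1) * S.D 1 (b.K0 0)).1 y θ = δ

/-! ### Back to the three-body problem -/

/-- Hamilton equations for size `1/u`, shape `w` and momenta `p`, `π`, in a time with
`dt = ψ / u^2` -/
structure RedSol (a t : Fin 3 → ℝ) (u p ψ : ℝ → ℝ) (w π : ℝ → ℂ) : Prop where
  cont : Continuous ψ
  upos : ∀ θ, 0 < u θ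
  low : ∃ c, 0 < c ∧ ∀ θ, c ≤ ψ θ / u θ ^ 2
  ne : ∀ θ k, 1 + (t k : ℂ) * w θ ≠ 0
  du : ∀ θ, HasDerivAt u (-(ψ θ * p θ)) θ
  dp : ∀ θ, HasDerivAt p (ψ θ * ((1 + ‖w θ‖ ^ 2) *
    (1 - 2 * (π θ * (starRingEnd ℂ) (w θ)).im + (1 + ‖w θ‖ ^ 2) * ‖π θ‖ ^ 2) * u θ -
    ∑ k, a k * √(1 + ‖w θ‖ ^ 2) / ‖1 + (t k : ℂ) * w θ‖)) θ
  dw : ∀ θ, HasDerivAt w ((ψ θ : ℂ) * ((1 + ‖w θ‖ ^ 2 : ℝ) : ℂ) *
    (((1 + ‖w θ‖ ^ 2 : ℝ) : ℂ) * π θ - I * w θ)) θ
  dπ : ∀ θ, HasDerivAt π ((ψ θ : ℂ) * (-(w θ * ((1 - 2 * (π θ * (starRingEnd ℂ) (w θ)).im +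
    2 * (1 + ‖w θ‖ ^ 2) * ‖π θ‖ ^ 2 : ℝ) : ℂ)) - ((1 + ‖w θ‖ ^ 2 : ℝ) : ℂ) * I * π θ +
    (∑ k, (a k : ℂ) * (w θ / ((√(1 + ‖w θ‖ ^ 2) * ‖1 + (t k : ℂ) * w θ‖ : ℝ) : ℂ) -
      ((√(1 + ‖w θ‖ ^ 2) * t k : ℝ) : ℂ) * (1 + (t k : ℂ) * w θ) /
        ((‖1 + (t k : ℂ) * w θ‖ : ℝ) : ℂ) ^ 3)) / (u θ : ℂ))) θ

def HamStmt : Prop := ∀ (a t : Fin 3 → ℝ) (e ε : ℝ) (z : ℝ → Fin 4 → ℝ),
  ∑ k, a k = 1 → ∑ k, a k * t k = 0 → ε ≠ 0 →
  (∀ θ, GoodPt a t (env (z θ) e ε (Real.cos θ))) →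
  (∀ θ i, HasDerivAt (fun θ => z θ i) ((xE a t i).eval Ex.rsq (env (z θ) e ε (Real.cos θ))) θ) →
  ∃ u p ψ π, RedSol a t u p ψ (fun θ => ((ε * z θ 0 : ℝ) : ℂ) + ((ε * z θ 1 : ℝ) : ℂ) * I) π

/-- Newton equations in mass-orthonormal coordinates adapted to the Euler configuration -/
def ZSol (a t : Fin 3 → ℝ) (Z1 Z2 : ℝ → ℂ) : Prop :=
  ∃ W1 W2 : ℝ → ℂ, ∀ s, Z1 s ≠ 0 ∧ (∀ k, Z1 s + (t k : ℂ) * Z2 s ≠ 0) ∧
    HasDerivAt Z1 (W1 s) s ∧ HasDerivAt Z2 (W2 s) s ∧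
    HasDerivAt W1 (-∑ k, (a k : ℂ) * (Z1 s + (t k : ℂ) * Z2 s) /
      ((‖Z1 s + (t k : ℂ) * Z2 s‖ : ℝ) : ℂ) ^ 3) s ∧
    HasDerivAt W2 (-∑ k, (a k : ℂ) * (t k : ℂ) * (Z1 s + (t k : ℂ) * Z2 s) /
      ((‖Z1 s + (t k : ℂ) * Z2 s‖ : ℝ) : ℂ) ^ 3) s

def NewtonStmt : Prop := ∀ (a t : Fin 3 → ℝ) (u p ψ : ℝ → ℝ) (w π : ℝ → ℂ),
  RedSol a t u p ψ w π → ∃ (Z1 Z2 : ℝ → ℂ) (θ : ℝ → ℝ), ZSol a t Z1 Z2 ∧
    Function.Surjective θ ∧ ∀ s, Z2 s = w (θ s) * Z1 s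

/-- the three pairs of bodies -/
def pr1 : Fin 3 → Fin 3 := ![0, 1, 0]
def pr2 : Fin 3 → Fin 3 := ![1, 2, 2]
def dk (x : Fin 3 → ℝ) (k : Fin 3) : ℝ := x (pr2 k) - x (pr1 k)
def tk (x y : Fin 3 → ℝ) (k : Fin 3) : ℝ := dk y k / dk x k
def muC (m x : Fin 3 → ℝ) : ℝ := ∑ k, m (pr1 k) * m (pr2 k) / dk x k
def ak (m x : Fin 3 → ℝ) (k : Fin 3) : ℝ := m (pr1 k) * m (pr2 k) / dk x k / muC m x

/-- an ordered collinear configuration `x` completed to a mass-orthonormal basis `x, y` -/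
structure Eul (m x y : Fin 3 → ℝ) : Prop where
  pos : ∀ i, 0 < m i
  lt1 : x 0 < x 1
  lt2 : x 1 < x 2
  cx : ∑ i, m i * x i = 0
  cy : ∑ i, m i * y i = 0
  xx : ∑ i, m i * x i ^ 2 = 1
  yy : ∑ i, m i * y i ^ 2 = 1
  xy : ∑ i, m i * x i * y i = 0

def EulerStmt : Prop := ∀ m : Fin 3 → ℝ, (∀ i, 0 < m i) → ∃ x y, Eul m x y ∧
  ∑ k, ak m x k = 1 ∧ ∑ k, ak m x k * tk x y k = 0 ∧ 1 < kap (ak m x) (tk x y)

/-- shape as a function of the affine coordinate `w` -/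
def sh (o : Matrix (Fin 2) (Fin 2) ℝ) (w : ℂ) : EuclideanSpace ℝ (Fin 3) :=
  (2 * ‖wv (o 0 0 + o 0 1 * w) (o 1 0 + o 1 1 * w)‖)⁻¹ • wv (o 0 0 + o 0 1 * w) (o 1 0 + o 1 1 * w)

def BodyStmt : Prop := ∀ m x y : Fin 3 → ℝ, Eul m x y →
  ∃ o : Matrix (Fin 2) (Fin 2) ℝ, oᵀ * o = 1 ∧ ∀ Z1 Z2, ZSol (ak m x) (tk x y) Z1 Z2 →
    ∃ q, IsSol m q ∧ ∀ s w, Z2 s = w * Z1 s → shape m (q s) = sh o w

/-! ### Areas -/

def Area1Stmt : Prop := ∀ (ν : Measure (Fin 2 → ℝ)) [IsFiniteMeasure ν], ν ≪ volume →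
  ∀ (F : I01 → (Fin 2 → ℝ) → (Fin 2 → ℝ))
    (F' : I01 → (Fin 2 → ℝ) → ((Fin 2 → ℝ) →L[ℝ] (Fin 2 → ℝ))),
  Continuous (Function.uncurry F) → Continuous (Function.uncurry F') →
  (∀ y θ, HasFDerivAt (F y) (F' y θ) θ) →
  (∀ y θ j, F y (θ + Pi.single j (2 * Real.pi)) = F y θ) →
  (∀ y, IsCompact (Set.range (F y))) ∧ Continuous (fun y => (ν (Set.range (F y))).toReal) ∧
    ∀ y θ, (F' y θ).det ≠ 0 → (interior (Set.range (F y))).Nonempty

def Area2Stmt : Prop := ∀ o : Matrix (Fin 2) (Fin 2) ℝ, oᵀ * o = 1 →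
  Continuous (sh o) ∧ ∃ ν : Measure (Fin 2 → ℝ), IsFiniteMeasure ν ∧ ν ≪ volume ∧
    (∀ U, IsOpen U → U.Nonempty → ν U ≠ 0) ∧
    ∀ E, IsCompact E → area ((fun v : Fin 2 → ℝ => sh o (v 0 + v 1 * I)) '' E) = (ν E).toReal

/-- the invariant tori, in pointwise form -/
def ToriStmt : Prop := ∀ a t : Fin 3 → ℝ, 1 < kap a t →
  ∃ (ρ ε0 : ℝ) (K : I01 → (Fin 2 → ℝ) → Fin 4 → ℝ) (G : Fin 2 → I01 → (Fin 2 → ℝ) → Fin 4 → ℝ)
    (e : I01 → ℝ), Irrational ρ ∧ 0 < ε0 ∧ Continuous (Function.uncurry K) ∧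
    (∀ j, Continuous (Function.uncurry (G j))) ∧
    (∀ y θ i, HasFDerivAt (fun θ => K y θ i) (grad fun j => G j y θ i) θ) ∧
    (∀ y θ j, K y (θ + Pi.single j (2 * Real.pi)) = K y θ) ∧
    (∀ y θ, GoodPt a t (env (K y θ) (e y) (ε0 * y.1) (Real.cos (θ 0)))) ∧
    (∀ y θ i, G 0 y θ i + ρ * G 1 y θ i =
      (xE a t i).eval Ex.rsq (env (K y θ) (e y) (ε0 * y.1) (Real.cos (θ 0)))) ∧
    ∃ θ, ∀ y, G 0 y θ 0 * G 1 y θ 1 - G 0 y θ 1 * G 1 y θ 0 ≠ 0

def MainStmt : Prop := ∀ m : Fin 3 → ℝ, (∀ i, 0 < m i) → ∃ a : ℝ, 0 < a ∧ ∀ A0, 0 < A0 → A0 ≤ a →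
  ∃ q, IsSol m q ∧ area (closure (Set.range fun t => shape m (q t))) = A0

end Pool.Agent.MP_1ba41f_an.K3

end
end MrgPart1

-- ======== part 2: formerly Pool.Agent.MP_1ba41f_an.K3.Basic
section MrgPart2

/-! PROJECT KAM3: shared library for scales. -/

noncomputable section
open Finset Matrix Filter Topology

namespace Pool.Agent.MP_1ba41f_an.K3

/-! ### Abstract norms and the iteration lemma -/

/-- a complete norm bound on a group -/
structure Nm (V : Type) [AddCommGroup V] where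
  N : V → ℝ → Prop
  mono : ∀ {v c c'}, N v c → c ≤ c' → N v c'
  zero : N 0 0
  add : ∀ {v w c c'}, N v c → N w c' → N (v + w) (c + c')
  complete : ∀ {c} {f : ℕ → V}, (∀ n, N (f n) (c / 2 ^ n)) →
    ∃ g, ∀ k, N (g - ∑ n ∈ range k, f n) (2 * c / 2 ^ k)

namespace Nm
variable {V W : Type} [AddCommGroup V] [AddCommGroup W]

/-- sup norm on tuples -/
def pi (ι : Type) (n : Nm V) : Nm (ι → V) where
  N v c := ∀ i, n.N (v i) c
  mono h hc i := n.mono (h i) hc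
  zero _ := n.zero
  add h h' i := n.add (h i) (h' i)
  complete {c f} h := by
    choose g hg using fun i => n.complete (f := fun k => f k i) fun k => h k i
    exact ⟨g, fun k i => by simpa [Finset.sum_apply] using hg i k⟩

/-- sup norm on pairs -/
def prod (n : Nm V) (m : Nm W) : Nm (V × W) where
  N v c := n.N v.1 c ∧ m.N v.2 c
  mono h hc := ⟨n.mono h.1 hc, m.mono h.2 hc⟩
  zero := ⟨n.zero, m.zero⟩
  add h h' := ⟨n.add h.1 h'.1, m.add h.2 h'.2⟩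
  complete {c f} h := by
    obtain ⟨g, hg⟩ := n.complete (f := fun k => (f k).1) fun k => (h k).1
    obtain ⟨g', hg'⟩ := m.complete (f := fun k => (f k).2) fun k => (h k).2
    exact ⟨(g, g'), fun k => ⟨by simpa [Prod.fst_sum] using hg k,
      by simpa [Prod.snd_sum] using hg' k⟩⟩

/-- rescaled norm: `N v (c / g)` -/
def scale (n : Nm V) (g : ℝ) (hg : 0 < g) : Nm V where
  N v c := n.N v (c / g)
  mono h hc := n.mono h (div_le_div_of_nonneg_right hc hg.le)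
  zero := by simpa using n.zero
  add h h' := by simpa [add_div] using n.add h h'
  complete {c f} h := by
    obtain ⟨u, hu⟩ := n.complete (c := c / g) (f := f) fun k => by
      have := h k; rwa [div_right_comm] at this
    refine ⟨u, fun k => ?_⟩
    have := hu k
    rwa [show 2 * (c / g) / 2 ^ k = 2 * c / 2 ^ k / g by ring] at this

/-- Iteration lemma: `P v κ` says that the error of `v` is at most `κ`. -/
theorem iterate (n : Nm V) (P : V → ℝ → Prop) {M κ0 : ℝ} (hM : 0 ≤ M) (hκ : 0 ≤ κ0)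
    (h0 : P 0 κ0)
    (step : ∀ v κ, 0 ≤ κ → κ ≤ κ0 → n.N v (2 * M * κ0) → P v κ →
      ∃ h, n.N h (M * κ) ∧ P (v + h) (κ / 2)) :
    ∃ (v : V) (u : ℕ → V), n.N v (2 * M * κ0) ∧ ∀ k, n.N (v - u k) (2 * M * κ0 / 2 ^ k) ∧
      n.N (u k) (2 * M * κ0) ∧ P (u k) (κ0 / 2 ^ k) := by
  have hMκ : 0 ≤ M * κ0 := mul_nonneg hM hκ
  let Q : ℕ → V → Prop := fun k v => n.N v (2 * M * κ0 - 2 * M * κ0 / 2 ^ k) ∧ P v (κ0 / 2 ^ k)
  have hle : ∀ k : ℕ, 2 * M * κ0 - 2 * M * κ0 / 2 ^ k ≤ 2 * M * κ0 := fun k => by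
    have : 0 ≤ 2 * M * κ0 / 2 ^ k := by rw [mul_assoc]; positivity
    linarith
  have hs : ∀ k v, Q k v → ∃ h, n.N h (M * κ0 / 2 ^ k) ∧ Q (k + 1) (v + h) := by
    rintro k v ⟨h1, h2⟩
    obtain ⟨h, a1, a2⟩ := step v _ (by positivity)
      (div_le_self hκ (one_le_pow₀ one_le_two)) (n.mono h1 (hle k)) h2
    refine ⟨h, n.mono a1 (le_of_eq (by ring)), n.mono (n.add h1 a1) (le_of_eq ?_), ?_⟩
    · rw [pow_succ]; field_simp; ring
    · rw [pow_succ, ← div_div]; exact a2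
  choose! H hH using hs
  let u : ℕ → V := fun k => Nat.rec 0 (fun k v => v + H k v) k
  have hu : ∀ k, Q k (u k) := by
    intro k
    induction k with
    | zero => exact ⟨by simpa [u] using n.zero, by simpa [u] using h0⟩
    | succ k ih => exact (hH k _ ih).2
  have hsum : ∀ k, ∑ j ∈ range k, H j (u j) = u k := by
    intro k
    induction k with
    | zero => rfl
    | succ k ih => rw [sum_range_succ, ih]
  obtain ⟨g, hg⟩ := n.complete (c := M * κ0) (f := fun k => H k (u k)) fun k => (hH k _ (hu k)).1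
  refine ⟨g, u, ?_, fun k => ⟨?_, n.mono (hu k).1 (hle k), (hu k).2⟩⟩
  · simpa [mul_assoc] using hg 0
  · have := hg k; rw [hsum] at this; rwa [mul_assoc]

end Nm

namespace Scale
variable {A : Type} [CommRing A] [Algebra ℝ A] {J : Type} (S : Scale A J)

/-! ### Elementary bounds -/

theorem zero' (s : ℝ) {c : ℝ} (hc : 0 ≤ c) : S.Bd s 0 c := by
  have := S.smul 0 (S.one s); simp only [zero_smul, abs_zero, zero_mul] at this
  exact S.mono this le_rfl hc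
theorem alg (s a : ℝ) : S.Bd s (algebraMap ℝ A a) |a| := by
  have := S.smul a (S.one s); rwa [mul_one, ← Algebra.algebraMap_eq_smul_one] at this

variable {S}
theorem le {s f c c'} (h : S.Bd s f c) (hc : c ≤ c') : S.Bd s f c' := S.mono h le_rfl hc
theorem lev {s s' f c} (h : S.Bd s f c) (hs : s' ≤ s) : S.Bd s' f c := S.mono h hs le_rfl
theorem cong {s f g c} (h : S.Bd s f c) (e : f = g) : S.Bd s g c := e ▸ h
theorem neg {s f c} (h : S.Bd s f c) : S.Bd s (-f) c := by simpa using S.smul (-1) h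
theorem sub {s f g c c'} (h : S.Bd s f c) (h' : S.Bd s g c') : S.Bd s (f - g) (c + c') := by
  rw [sub_eq_add_neg]; exact S.add h (neg h')
theorem sum {ι : Type} {s} {f : ι → A} {c : ι → ℝ} (t : Finset ι)
    (h : ∀ i ∈ t, S.Bd s (f i) (c i)) : S.Bd s (∑ i ∈ t, f i) (∑ i ∈ t, c i) := by
  classical
  induction t using Finset.induction_on with
  | empty => simpa using S.zero' s le_rfl
  | insert a t ha ih =>
    rw [sum_insert ha, sum_insert ha]
    exact S.add (h _ (mem_insert_self _ _)) (ih fun i hi => h i (mem_insert_of_mem hi))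
theorem sum_card {ι : Type} [Fintype ι] {s c} {f : ι → A} (h : ∀ i, S.Bd s (f i) c) :
    S.Bd s (∑ i, f i) (Fintype.card ι * c) := by
  simpa using sum (c := fun _ => c) univ fun i _ => h i
theorem matMul {n : Type} [Fintype n] {s c c'} {M N : Matrix n n A} (h : ∀ i j, S.Bd s (M i j) c)
    (h' : ∀ i j, S.Bd s (N i j) c') (i j) : S.Bd s ((M * N) i j) (Fintype.card n * (c * c')) :=
  sum_card fun k => S.mul (h i k) (h' k j)
theorem mulVec {n : Type} [Fintype n] {s c c'} {M : Matrix n n A} {v : n → A}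
    (h : ∀ i j, S.Bd s (M i j) c) (h' : ∀ i, S.Bd s (v i) c') (i) :
    S.Bd s ((M *ᵥ v) i) (Fintype.card n * (c * c')) :=
  sum_card fun k => S.mul (h i k) (h' k)
theorem of_sub_one {s f c} (h : S.Bd s (f - 1) c) : S.Bd s f (c + 1) := by
  simpa using S.add h (S.one s)
theorem half {s f c} (h : S.Bd s f c) : S.Bd s ((1 / 2 : ℝ) • f) (c / 2) :=
  le (S.smul _ h) (le_of_eq (by rw [abs_of_pos (by norm_num)]; ring))
/-- an element with arbitrarily small norm vanishes -/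
theorem eq_zero {s f} (h : ∀ ε, 0 < ε → S.Bd s f ε) : f = 0 :=
  S.sep (s := s) (c := 1) fun n => h _ (by positivity)

theorem An.mono {s s' f} (h : S.An s f) (hs : s' ≤ s) : S.An s' f :=
  let ⟨c, h⟩ := h; ⟨c, lev h hs⟩
theorem An.add {s f g} (h : S.An s f) (h' : S.An s g) : S.An s (f + g) :=
  let ⟨_, h⟩ := h; let ⟨_, h'⟩ := h'; ⟨_, S.add h h'⟩
theorem An.mul {s f g} (h : S.An s f) (h' : S.An s g) : S.An s (f * g) :=
  let ⟨_, h⟩ := h; let ⟨_, h'⟩ := h'; ⟨_, S.mul h h'⟩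
theorem An.neg {s f} (h : S.An s f) : S.An s (-f) := let ⟨_, h⟩ := h; ⟨_, Scale.neg h⟩
theorem An.sub {s f g} (h : S.An s f) (h' : S.An s g) : S.An s (f - g) :=
  let ⟨_, h⟩ := h; let ⟨_, h'⟩ := h'; ⟨_, Scale.sub h h'⟩
theorem An.smul {s f} (a : ℝ) (h : S.An s f) : S.An s (a • f) := let ⟨_, h⟩ := h; ⟨_, S.smul a h⟩
theorem An.alg (s a : ℝ) : S.An s (algebraMap ℝ A a) := ⟨_, S.alg s a⟩
theorem An.one (s : ℝ) : S.An s 1 := ⟨_, S.one s⟩
theorem An.zero (s : ℝ) : S.An s 0 := ⟨_, S.zero' s le_rfl⟩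
theorem An.ofNat (s : ℝ) (n : ℕ) [n.AtLeastTwo] : S.An s (OfNat.ofNat n : A) := by
  rw [← map_ofNat (algebraMap ℝ A) n]; exact An.alg s _
theorem An.sum {ι : Type} {s} {f : ι → A} (t : Finset ι) (h : ∀ i ∈ t, S.An s (f i)) :
    S.An s (∑ i ∈ t, f i) := by
  choose! c hc using h; exact ⟨_, Scale.sum t hc⟩
theorem An.refl {s f} (h : S.An s f) : S.An s (S.r f) := let ⟨_, h⟩ := h; ⟨_, S.refl h⟩
theorem An.der {s s' f} (j : J) (h : S.An s f) (h0 : 0 < s') (h1 : s' < s) : S.An s' (S.D j f) := by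
  obtain ⟨c, h⟩ := h
  have := S.der j (d := s - s') (by linarith) (by linarith) h
  rw [sub_sub_cancel] at this; exact ⟨_, this⟩
theorem An.matMul {n : Type} [Fintype n] {s} {M N : Matrix n n A} (h : ∀ i j, S.An s (M i j))
    (h' : ∀ i j, S.An s (N i j)) (i j) : S.An s ((M * N) i j) :=
  An.sum _ fun k _ => (h i k).mul (h' k j)
theorem An.mulVec {n : Type} [Fintype n] {s} {M : Matrix n n A} {v : n → A}
    (h : ∀ i j, S.An s (M i j)) (h' : ∀ i, S.An s (v i)) (i) : S.An s ((M *ᵥ v) i) :=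
  An.sum _ fun k _ => (h i k).mul (h' k)
/-- a common bound for finitely many elements -/
theorem An.uniform {ι : Type} [Fintype ι] {s} {f : ι → A} (h : ∀ i, S.An s (f i)) :
    ∃ c, 0 ≤ c ∧ ∀ i, S.Bd s (f i) c := by
  choose c hc using h
  exact ⟨∑ i, c i, sum_nonneg fun i _ => S.nonneg (hc i), fun i =>
    le (hc i) (single_le_sum (fun i _ => S.nonneg (hc i)) (mem_univ i))⟩

theorem Cst.zero : S.Cst 0 := fun _ => map_zero _
theorem Cst.alg (a : ℝ) : S.Cst (algebraMap ℝ A a) := fun j => (S.D j).map_algebraMap a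
theorem Cst.one : S.Cst 1 := fun j => (S.D j).map_one_eq_zero
theorem Cst.add {f g} (h : S.Cst f) (h' : S.Cst g) : S.Cst (f + g) := fun j => by
  rw [map_add, h j, h' j, add_zero]
theorem Cst.neg {f} (h : S.Cst f) : S.Cst (-f) := fun j => by rw [map_neg, h j, neg_zero]
theorem Cst.sub {f g} (h : S.Cst f) (h' : S.Cst g) : S.Cst (f - g) := fun j => by
  rw [map_sub, h j, h' j, sub_zero]
theorem Cst.mul {f g} (h : S.Cst f) (h' : S.Cst g) : S.Cst (f * g) := fun j => by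
  rw [Derivation.leibniz, h j, h' j]; simp
theorem Cst.smul {f} (a : ℝ) (h : S.Cst f) : S.Cst (a • f) := fun j => by
  rw [Derivation.map_smul, h j, smul_zero]
theorem Cst.r {f} (h : S.Cst f) : S.r f = f := S.cst_r h
theorem Cst.bd {s f c} (h : S.Cst f) (s' : ℝ) (hb : S.Bd s f c) : S.Bd s' f c := S.cst_bd s' h hb

end Scale

/-- derivative of an inverse -/
theorem der_inv {A : Type} [CommRing A] [Algebra ℝ A] (δ : Derivation ℝ A A) {f g : A}
    (h : f * g = 1) : δ g = -(g * g * δ f) := by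
  have := congrArg δ h
  rw [Derivation.leibniz, δ.map_one_eq_zero, smul_eq_mul, smul_eq_mul] at this
  linear_combination g * this - δ g * h

theorem inverse_eq {A : Type} [CommRing A] {f g : A} (h : f * g = 1) : Ring.inverse f = g := by
  have hu : IsUnit f := IsUnit.of_mul_eq_one g h
  have := Ring.inverse_mul_cancel f hu
  linear_combination g * this - Ring.inverse f * h

/-- derivative of an inverse square root -/
theorem der_isq {A : Type} [CommRing A] [Algebra ℝ A] (δ : Derivation ℝ A A) {f y : A}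
    (h : y * y * f = 1) : δ y = algebraMap ℝ A (-1 / 2) * (y * (y * y) * δ f) := by
  have := congrArg δ h
  simp only [Derivation.leibniz, δ.map_one_eq_zero, smul_eq_mul] at this
  have h2 : algebraMap ℝ A (-1 / 2) * 2 = -1 := by
    rw [show (2 : A) = algebraMap ℝ A 2 from (map_ofNat _ 2).symm, ← map_mul]; norm_num
  linear_combination (-(algebraMap ℝ A (-1 / 2)) * y) * this - δ y * h + (δ y * y * y * f) * h2

namespace Scale
variable {A : Type} [CommRing A] [Algebra ℝ A] {J : Type} {S : Scale A J}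

theorem Cst.inv {f g} (h : S.Cst f) (hg : f * g = 1) : S.Cst g := fun j => by
  rw [der_inv _ hg, h j]; simp

/-- the norm at level `s` -/
def nm (S : Scale A J) (s : ℝ) (hs : 0 < s) : Nm A where
  N := S.Bd s
  mono := le
  zero := S.zero' s le_rfl
  add := S.add
  complete h := S.complete hs h

/-- the norm at level `s` on constants -/
def nmC (S : Scale A J) (s : ℝ) (hs : 0 < s) : Nm A where
  N f c := S.Cst f ∧ S.Bd s f c
  mono h hc := ⟨h.1, le h.2 hc⟩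
  zero := ⟨Cst.zero, S.zero' s le_rfl⟩
  add h h' := ⟨h.1.add h'.1, S.add h.2 h'.2⟩
  complete {c f} h := by
    obtain ⟨g, hg⟩ := S.complete hs fun n => (h n).2
    have hs' : ∀ k, S.Cst (∑ n ∈ range k, f n) := fun k j => by
      rw [map_sum]; exact sum_eq_zero fun n _ => (h n).1 j
    have hc : S.Cst g := fun j => S.sep (s := s - s / 2) (c := 2 * c / (s / 2)) fun k => by
      have := S.der j (half_pos hs) (half_lt_self hs) (hg k)
      rw [map_sub, hs' k j, sub_zero] at this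
      exact le this (le_of_eq (by ring))
    exact ⟨g, fun k => ⟨hc.sub (hs' k), hg k⟩⟩

theorem exists_inv {s f c} (hs : 0 < s) (h : S.Bd s (f - 1) c) (hc : c ≤ 1 / 2) :
    ∃ g, f * g = 1 ∧ S.Bd s (g - 1) (2 * c) := by
  have c0 := S.nonneg h
  obtain ⟨v, u, h1, h2⟩ := (S.nm s hs).iterate (fun v κ => S.Bd s (f * (1 + v) - 1) κ)
    (M := 1) zero_le_one c0 (by simpa using h) fun v κ k0 _ _ hP =>
      ⟨-(f * (1 + v) - 1), by simpa [nm] using neg hP,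
        le (cong (neg (S.mul h hP)) (by ring)) (by nlinarith)⟩
  refine ⟨1 + v, sub_eq_zero.1 (S.sep (s := s) (c := c + (c + 1) * (2 * c)) fun k => ?_),
    by simpa [nm] using h1⟩
  exact le (cong (S.add (h2 k).2.2 (S.mul (of_sub_one h) (h2 k).1)) (by ring))
    (le_of_eq (by ring))

theorem exists_matInv {n : Type} [Fintype n] [DecidableEq n] {s c} {M : Matrix n n A} (hs : 0 < s)
    (c0 : 0 ≤ c) (h : ∀ i j, S.Bd s ((M - 1) i j) c) (hc : Fintype.card n * c ≤ 1 / 2) :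
    ∃ N, M * N = 1 ∧ ∀ i j, S.Bd s ((N - 1) i j) (2 * c) := by
  obtain ⟨v, u, h1, h2⟩ := (Nm.pi n (Nm.pi n (S.nm s hs))).iterate
    (fun v κ => ∀ i j, S.Bd s ((M * (1 + Matrix.of v) - 1) i j) κ)
    (M := 1) zero_le_one c0 (by simpa using h) fun v κ k0 _ _ hP =>
      ⟨fun i j => -(M * (1 + Matrix.of v) - 1) i j,
        fun i j => by rw [one_mul]; exact neg (hP i j), fun i j => by
        have e : M * (1 + Matrix.of (v + fun i j => -(M * (1 + Matrix.of v) - 1) i j)) - 1 =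
            -((M - 1) * (M * (1 + Matrix.of v) - 1)) := by
          have : Matrix.of (v + fun i j => -(M * (1 + Matrix.of v) - 1) i j) =
              Matrix.of v - (M * (1 + Matrix.of v) - 1) := by
            ext i j; simp [sub_eq_add_neg]
          rw [this]; noncomm_ring
        rw [e]
        exact le (neg (matMul h hP i j)) (by nlinarith)⟩
  refine ⟨1 + Matrix.of v, sub_eq_zero.1 ?_, fun i j => by simpa [Nm.pi, nm] using h1 i j⟩
  ext i j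
  refine S.sep (s := s) (c := c + (Fintype.card n * (c * (2 * c)) + 2 * c)) fun k => ?_
  have e : M * (1 + Matrix.of v) - 1 = (M * (1 + Matrix.of (u k)) - 1) +
      ((M - 1) * Matrix.of (v - u k) + Matrix.of (v - u k)) := by
    have : Matrix.of (v - u k) = Matrix.of v - Matrix.of (u k) := rfl
    rw [this]; noncomm_ring
  rw [e]
  exact le (S.add ((h2 k).2.2 i j) (S.add (matMul (N := Matrix.of (v - u k)) h (h2 k).1 i j)
    ((h2 k).1 i j))) (le_of_eq (by ring))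

theorem exists_isq {s f c} (hs : 0 < s) (h : S.Bd s (f - 1) c) (hc : c ≤ 1 / 10) :
    ∃ y, y * y * f = 1 ∧ S.Bd s (y - 1) c := by
  have c0 := S.nonneg h
  have hf := of_sub_one h
  have h2 : algebraMap ℝ A (1 / 2) * 2 = 1 := by
    rw [show (2 : A) = algebraMap ℝ A 2 from (map_ofNat _ 2).symm, ← map_mul]; norm_num
  obtain ⟨v, u, h1, h2⟩ := (S.nm s hs).iterate (fun v κ => S.Bd s ((1 + v) * (1 + v) * f - 1) κ)
    (M := 1 / 2) (by norm_num) c0 (by simpa using h) fun v κ k0 k1 hv hP => by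
      have hv' : S.Bd s v c := le hv (le_of_eq (by ring))
      refine ⟨-((1 / 2 : ℝ) • ((1 + v) * (1 + v) * f - 1)), le (neg (half hP)) (le_of_eq (by ring)),
        le (cong (S.add (neg (S.mul hP (S.add h (S.mul hv' hf))))
          (S.mul (S.mul (half hP) (half hP)) hf)) ?_) ?_⟩
      · simp only [Algebra.smul_def]
        linear_combination (((1 + v) * (1 + v) * f - 1) * (1 + v) * f) * h2
      · have : c * (c + 1) ≤ 11 / 100 := by nlinarith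
        have : κ * (c + 1) ≤ 11 / 100 := by nlinarith
        nlinarith
  have h1' : S.Bd s v c := le h1 (le_of_eq (by ring))
  refine ⟨1 + v, sub_eq_zero.1 (S.sep (s := s)
    (c := c + c * ((1 + c + (1 + c)) * (c + 1))) fun k => ?_), by simpa using h1'⟩
  have hu : S.Bd s (u k) c := le (h2 k).2.1 (le_of_eq (by ring))
  exact le (cong (S.add (h2 k).2.2 (S.mul (h2 k).1 (S.mul (S.add (S.add (S.one s) h1')
    (S.add (S.one s) hu)) hf))) (by ring)) (le_of_eq (by ring))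

theorem Pos.one : S.Pos 1 := ⟨1, one_pos, by simpa using S.zero' 1 (by norm_num)⟩
theorem Pos.refl {y} (h : S.Pos y) : S.Pos (S.r y) :=
  let ⟨s, hs, h⟩ := h; ⟨s, hs, by simpa using S.refl h⟩
theorem Pos.isUnit_add {y z} (h : S.Pos y) (h' : S.Pos z) : IsUnit (y + z) := by
  obtain ⟨s, hs, h⟩ := h
  obtain ⟨s', hs', h'⟩ := h'
  have h2 : algebraMap ℝ A (1 / 2) * 2 = 1 := by
    rw [show (2 : A) = algebraMap ℝ A 2 from (map_ofNat _ 2).symm, ← map_mul]; norm_num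
  have := half (S.add (lev h (min_le_left s s')) (lev h' (min_le_right s s')))
  obtain ⟨g, hg, -⟩ := exists_inv (f := (1 / 2 : ℝ) • (y + z)) (lt_min hs hs')
    (cong this (by simp only [Algebra.smul_def]; linear_combination -h2)) (by norm_num)
  rw [Algebra.smul_def] at hg
  exact IsUnit.of_mul_eq_one (algebraMap ℝ A (1 / 2) * g) (by linear_combination hg)
theorem isq_unique {f y z : A} (h : y * y * f = 1) (hy : S.Pos y) (h' : z * z * f = 1)
    (hz : S.Pos z) : y = z := by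
  have e : (y + z) * (y - z) = 0 := by linear_combination (z * z) * h - (y * y) * h'
  exact sub_eq_zero.1 ((hy.isUnit_add hz).mul_right_eq_zero.1 e)
theorem isq_spec {f : A} (h : ∃ y, y * y * f = 1 ∧ S.Pos y) :
    S.isq f * S.isq f * f = 1 ∧ S.Pos (S.isq f) := by
  unfold isq; rw [dif_pos h]; exact Classical.choose_spec h
theorem isq_eq {f y : A} (h : y * y * f = 1) (hy : S.Pos y) : S.isq f = y :=
  let ⟨a, b⟩ := isq_spec ⟨y, h, hy⟩; isq_unique a b h hy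
theorem isq_one : S.isq 1 = 1 := isq_eq (by simp) Pos.one

end Scale

/-! ### The operator `L` -/

namespace Scale
variable {A : Type} [CommRing A] [Algebra ℝ A] {S : Scale A (Fin 2)} {ρ γ : ℝ}

theorem L_apply (f : A) : S.L ρ f = S.D 0 f + ρ • S.D 1 f := rfl
theorem Cst.L {f} (h : S.Cst f) : S.L ρ f = 0 := by rw [L_apply, h 0, h 1]; simp
theorem rL (f : A) : S.r (S.L ρ f) = -S.L ρ (S.r f) := by
  rw [L_apply, L_apply, map_add, map_smul, S.rD, S.rD]; simp [add_comm]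
theorem DL (j : Fin 2) (f : A) : S.D j (S.L ρ f) = S.L ρ (S.D j f) := by
  rw [L_apply, L_apply, map_add, Derivation.map_smul, S.comm j 0, S.comm j 1]
theorem bdL {s f c d} (h0 : 0 < d) (h1 : d < s) (h : S.Bd s f c) :
    S.Bd (s - d) (S.L ρ f) ((1 + |ρ|) * (c / d)) :=
  le (S.add (S.der 0 h0 h1 h) (S.smul ρ (S.der 1 h0 h1 h))) (le_of_eq (by ring))
/-- the mean of `F` is bounded by the norm of `F` at any level -/
theorem mean_bd (hS : S.Solv ρ γ) {s F c a m} (s' : ℝ) (hs : 0 < s) (hF : S.Bd s F c)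
    (hm : S.Cst m) (ha : S.L ρ a = F - m) : S.Bd s' m c := by
  obtain ⟨g, m', c1, c2, c3, -⟩ := hS.solve hs hF
  have : m' - m = 0 := hS.muniq (g := a - g) (c1.sub hm) (by rw [map_sub, ha, c3]; ring)
  rw [← sub_eq_zero.1 this]; exact c1.bd s' c2
/-- odd functions have exact primitives -/
theorem odd_solve (hS : S.Solv ρ γ) {s f c} (hs : 0 < s) (hf : S.Bd s f c) (ho : S.r f = -f) :
    ∃ g, S.L ρ g = f ∧ ∀ d, 0 < d → d < s → S.Bd (s - d) g (c / (γ * d)) := by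
  obtain ⟨g, m, c1, -, c3, c4⟩ := hS.solve hs hf
  refine ⟨(1 / 2 : ℝ) • (g + S.r g), ?_, fun d h0 h1 =>
    le (half (S.add (c4 d h0 h1) (S.refl (c4 d h0 h1)))) (le_of_eq (by ring))⟩
  have e := rL (S := S) (ρ := ρ) g
  rw [c3, map_sub, ho, c1.r] at e
  rw [Derivation.map_smul, map_add, c3, show S.L ρ (S.r g) = f + m by linear_combination e,
    show f - m + (f + m) = (2 : ℝ) • f by rw [two_smul]; ring, smul_smul]
  simp

end Scale

/-! ### O-calculus along a filter -/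

/-- `f i` has norm `O (w i)` at level `l i` along `F` -/
def O {A : Type} [CommRing A] [Algebra ℝ A] {J ι : Type} (S : Scale A J) (F : Filter ι)
    (l : ι → ℝ) (f : ι → A) (w : ι → ℝ) : Prop :=
  ∃ C, 0 ≤ C ∧ ∀ᶠ i in F, S.Bd (l i) (f i) (C * w i)

/-- the filter `η → 0` in explicit form -/
theorem ev_comap {ι : Type} {η : ι → ℝ} {P : ι → Prop} (h : ∀ᶠ i in comap η (𝓝 0), P i) :
    ∃ η0, 0 < η0 ∧ ∀ i, |η i| ≤ η0 → P i := by
  obtain ⟨t, ht, hs⟩ := mem_comap.1 h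
  obtain ⟨ε, hε, hb⟩ := Metric.mem_nhds_iff.1 ht
  refine ⟨ε / 2, half_pos hε, fun i hi => hs (hb ?_)⟩
  rw [Metric.mem_ball, Real.dist_eq, sub_zero]; linarith

theorem ev_choice {ι β : Type} [Nonempty β] {F : Filter ι} {P : ι → β → Prop}
    (h : ∀ᶠ i in F, ∃ y, P i y) : ∃ f : ι → β, ∀ᶠ i in F, P i (f i) := by
  classical
  exact ⟨fun i => if h : ∃ y, P i y then Classical.choose h else Classical.arbitrary β,
    h.mono fun i h => by simp only [dif_pos h]; exact Classical.choose_spec h⟩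

theorem ev_le {ι : Type} {F : Filter ι} {η : ι → ℝ} (hη : Tendsto η F (𝓝 0)) (C : ℝ) {c : ℝ}
    (hc : 0 < c) : ∀ᶠ i in F, C * η i ≤ c := by
  have := hη.const_mul C
  rw [mul_zero] at this
  exact (this.eventually (gt_mem_nhds hc)).mono fun _ h => h.le

namespace O
variable {A : Type} [CommRing A] [Algebra ℝ A] {J ι : Type} {S : Scale A J} {F : Filter ι}
  {l l' : ι → ℝ} {f g : ι → A} {w w' : ι → ℝ}

theorem of_bd (h : ∀ᶠ i in F, S.Bd (l i) (f i) (w i)) : O S F l f w :=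
  ⟨1, zero_le_one, by simpa using h⟩
theorem of_bdC {C : ℝ} (h : ∀ᶠ i in F, S.Bd (l i) (f i) (C * w i)) (hw : ∀ᶠ i in F, 0 ≤ w i) :
    O S F l f w :=
  ⟨|C|, abs_nonneg _, by
    filter_upwards [h, hw] with i h hw
    exact Scale.le h (mul_le_mul_of_nonneg_right (le_abs_self _) hw)⟩
theorem of_an {s0 : ℝ} {a : A} (h : S.An s0 a) (hl : ∀ᶠ i in F, l i ≤ s0) :
    O S F l (fun _ => a) fun _ => 1 :=
  let ⟨c, h⟩ := h
  ⟨c, S.nonneg h, hl.mono fun _ hl => by simpa using Scale.lev h hl⟩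
theorem zero (hw : ∀ᶠ i in F, 0 ≤ w i) : O S F l (fun _ => 0) w :=
  of_bd (hw.mono fun _ h => S.zero' _ h)
theorem one : O S F l (fun _ => 1) fun _ => 1 := of_bd (.of_forall fun _ => S.one _)
theorem congr (h : O S F l f w) (e : ∀ᶠ i in F, f i = g i) : O S F l g w :=
  let ⟨C, c0, h⟩ := h
  ⟨C, c0, by filter_upwards [h, e] with i h e; exact e ▸ h⟩
theorem congr' (h : O S F l f w) (e : ∀ i, f i = g i) : O S F l g w := h.congr (.of_forall e)
theorem lev (h : O S F l f w) (hl : ∀ᶠ i in F, l' i ≤ l i) : O S F l' f w :=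
  let ⟨C, c0, h⟩ := h
  ⟨C, c0, by filter_upwards [h, hl] with i h e; exact Scale.lev h e⟩
theorem wtC (h : O S F l f w) {K : ℝ} (hK : 0 ≤ K) (hw : ∀ᶠ i in F, w i ≤ K * w' i) :
    O S F l f w' :=
  let ⟨C, c0, h⟩ := h
  ⟨C * K, mul_nonneg c0 hK, by
    filter_upwards [h, hw] with i h e
    exact Scale.le h (by rw [mul_assoc]; exact mul_le_mul_of_nonneg_left e c0)⟩
theorem wt (h : O S F l f w) (hw : ∀ᶠ i in F, w i ≤ w' i) : O S F l f w' :=
  h.wtC zero_le_one (by simpa using hw)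
theorem wt' (h : O S F l f w) (hw : ∀ i, w i = w' i) : O S F l f w' :=
  h.wt (.of_forall fun i => (hw i).le)
theorem add (h : O S F l f w) (h' : O S F l g w) : O S F l (fun i => f i + g i) w :=
  let ⟨C, c0, h⟩ := h; let ⟨C', c0', h'⟩ := h'
  ⟨C + C', add_nonneg c0 c0', by
    filter_upwards [h, h'] with i h h'; rw [add_mul]; exact S.add h h'⟩
theorem neg (h : O S F l f w) : O S F l (fun i => -f i) w :=
  let ⟨C, c0, h⟩ := h; ⟨C, c0, h.mono fun _ h => Scale.neg h⟩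
theorem sub (h : O S F l f w) (h' : O S F l g w) : O S F l (fun i => f i - g i) w :=
  (h.add h'.neg).congr' fun _ => (sub_eq_add_neg _ _).symm
theorem mul (h : O S F l f w) (h' : O S F l g w') :
    O S F l (fun i => f i * g i) fun i => w i * w' i :=
  let ⟨C, c0, h⟩ := h; let ⟨C', c0', h'⟩ := h'
  ⟨C * C', mul_nonneg c0 c0', by
    filter_upwards [h, h'] with i h h'; exact Scale.le (S.mul h h') (le_of_eq (by ring))⟩
theorem mul1 (h : O S F l f w) (h' : O S F l g fun _ => 1) : O S F l (fun i => f i * g i) w :=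
  (h.mul h').wt' fun _ => mul_one _
theorem mul1' (h : O S F l f fun _ => 1) (h' : O S F l g w) : O S F l (fun i => f i * g i) w :=
  (h.mul h').wt' fun _ => one_mul _
theorem smul (a : ℝ) (h : O S F l f w) : O S F l (fun i => a • f i) w :=
  let ⟨C, c0, h⟩ := h
  ⟨|a| * C, mul_nonneg (abs_nonneg _) c0, h.mono fun _ h => by rw [mul_assoc]; exact S.smul a h⟩
theorem refl (h : O S F l f w) : O S F l (fun i => S.r (f i)) w :=
  let ⟨C, c0, h⟩ := h; ⟨C, c0, h.mono fun _ h => S.refl h⟩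
theorem der (j : J) {d : ι → ℝ} (h : O S F l f w) (hd : ∀ᶠ i in F, 0 < d i ∧ d i < l i) :
    O S F (fun i => l i - d i) (fun i => S.D j (f i)) fun i => w i / d i :=
  let ⟨C, c0, h⟩ := h
  ⟨C, c0, by
    filter_upwards [h, hd] with i h hd; rw [← mul_div_assoc]; exact S.der j hd.1 hd.2 h⟩
theorem sum {κ : Type} [Fintype κ] [Nonempty κ] {f : κ → ι → A} (h : ∀ k, O S F l (f k) w) :
    O S F l (fun i => ∑ k, f k i) w := by
  choose C c0 h using h
  refine ⟨∑ k, C k, sum_nonneg fun k _ => c0 k, ?_⟩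
  filter_upwards [eventually_all.2 h] with i h
  rw [sum_mul]; exact Scale.sum _ fun k _ => h k
theorem matMul {n : Type} [Fintype n] [Nonempty n] {M N : ι → Matrix n n A}
    (h : ∀ a b, O S F l (fun i => M i a b) w) (h' : ∀ a b, O S F l (fun i => N i a b) w') (a b) :
    O S F l (fun i => (M i * N i) a b) fun i => w i * w' i :=
  sum fun k => (h a k).mul (h' k b)
theorem mulVec {n : Type} [Fintype n] [Nonempty n] {M : ι → Matrix n n A} {v : ι → n → A}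
    (h : ∀ a b, O S F l (fun i => M i a b) w) (h' : ∀ a, O S F l (fun i => v i a) w') (a) :
    O S F l (fun i => (M i *ᵥ v i) a) fun i => w i * w' i :=
  sum fun k => (h a k).mul (h' k)
theorem small (h : O S F l f w) (hw : Tendsto w F (𝓝 0)) {c : ℝ} (hc : 0 < c) :
    ∀ᶠ i in F, S.Bd (l i) (f i) c := by
  obtain ⟨C, -, h⟩ := h
  filter_upwards [h, ev_le hw C hc] with i h e; exact Scale.le h e
theorem toOne (h : O S F l f w) (hw : Tendsto w F (𝓝 0)) : O S F l f fun _ => 1 :=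
  of_bd (h.small hw one_pos)
/-- near a bounded family means bounded -/
theorem near (h : O S F l (fun i => f i - g i) w) (hw : Tendsto w F (𝓝 0))
    (hg : O S F l g fun _ => 1) : O S F l f fun _ => 1 :=
  ((h.toOne hw).add hg).congr' fun _ => sub_add_cancel _ _
/-- a common constant for finitely many families -/
theorem uniform {κ : Type} [Fintype κ] {l : κ → ι → ℝ} {f : κ → ι → A} {w : κ → ι → ℝ}
    (h : ∀ k, O S F (l k) (f k) (w k)) (hw : ∀ k, ∀ᶠ i in F, 0 ≤ w k i) :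
    ∃ C, 0 ≤ C ∧ ∀ᶠ i in F, ∀ k, S.Bd (l k i) (f k i) (C * w k i) := by
  choose C c0 h using h
  refine ⟨∑ k, C k, sum_nonneg fun k _ => c0 k, ?_⟩
  filter_upwards [eventually_all.2 h, eventually_all.2 hw] with i h hw k
  exact Scale.le (h k) (mul_le_mul_of_nonneg_right
    (single_le_sum (fun k _ => c0 k) (mem_univ k)) (hw k))
/-- enlarge the constant -/
theorem bound (h : O S F l f w) (hw : ∀ᶠ i in F, 0 ≤ w i) :
    ∃ C0, ∀ C, C0 ≤ C → ∀ᶠ i in F, S.Bd (l i) (f i) (C * w i) := by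
  obtain ⟨C0, -, h⟩ := h
  refine ⟨C0, fun C hC => ?_⟩
  filter_upwards [h, hw] with i h hw
  exact Scale.le h (mul_le_mul_of_nonneg_right hC hw)

theorem inv {f0 g0 : ι → A} (h : O S F l (fun i => f i - f0 i) w) (hw : Tendsto w F (𝓝 0))
    (hl : ∀ᶠ i in F, 0 < l i) (h0 : ∀ᶠ i in F, f0 i * g0 i = 1) (hg : O S F l g0 fun _ => 1) :
    (∀ᶠ i in F, f i * Ring.inverse (f i) = 1) ∧
      O S F l (fun i => Ring.inverse (f i) - g0 i) w := by
  obtain ⟨C, c0, hb⟩ := h.mul1 hg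
  have key : ∀ᶠ i in F, ∃ g, f i * g0 i * g = 1 ∧ S.Bd (l i) (g - 1) (2 * (C * w i)) := by
    filter_upwards [hb, hl, h0, ev_le hw C (half_pos one_pos)] with i hb hl h0 hc
    exact Scale.exists_inv hl (Scale.cong hb (by linear_combination -h0)) hc
  obtain ⟨g, hg'⟩ := ev_choice key
  have e : ∀ᶠ i in F, Ring.inverse (f i) = g0 i * g i :=
    hg'.mono fun i h => inverse_eq (by rw [← mul_assoc]; exact h.1)
  refine ⟨?_, (hg.mul1' (g := fun i => g i - 1) ⟨2 * C, by positivity, hg'.mono fun i h => by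
    rw [mul_assoc]; exact h.2⟩).congr (e.mono fun i e => by rw [e]; ring)⟩
  filter_upwards [e, hg'] with i e h; rw [e, ← mul_assoc]; exact h.1

theorem isq (h : O S F l (fun i => f i - 1) w) (hw : Tendsto w F (𝓝 0))
    (hl : ∀ᶠ i in F, 0 < l i) :
    (∀ᶠ i in F, S.isq (f i) * S.isq (f i) * f i = 1 ∧ S.Pos (S.isq (f i))) ∧
      O S F l (fun i => S.isq (f i) - 1) w := by
  obtain ⟨C, c0, hb⟩ := h
  have key : ∀ᶠ i in F, (S.isq (f i) * S.isq (f i) * f i = 1 ∧ S.Pos (S.isq (f i))) ∧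
      S.Bd (l i) (S.isq (f i) - 1) (C * w i) := by
    filter_upwards [hb, hl, ev_le hw C (c := 1 / 10) (by norm_num)] with i hb hl hc
    obtain ⟨y, h1, h2⟩ := Scale.exists_isq hl hb hc
    have hp : S.Pos y := ⟨_, hl, Scale.le h2 (by linarith)⟩
    rw [Scale.isq_eq h1 hp]; exact ⟨⟨h1, hp⟩, h2⟩
  exact ⟨key.mono fun _ h => h.1, C, c0, key.mono fun _ h => h.2⟩

theorem matInv {n : Type} [Fintype n] [DecidableEq n] {M : ι → Matrix n n A}
    (h : ∀ a b, O S F l (fun i => (M i - 1) a b) w) (hw : Tendsto w F (𝓝 0))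
    (hw0 : ∀ᶠ i in F, 0 ≤ w i) (hl : ∀ᶠ i in F, 0 < l i) :
    ∃ N : ι → Matrix n n A, (∀ᶠ i in F, M i * N i = 1) ∧
      ∀ a b, O S F l (fun i => (N i - 1) a b) w := by
  obtain ⟨C, c0, hb⟩ := uniform (κ := n × n) (fun k => h k.1 k.2) fun _ => hw0
  have key : ∀ᶠ i in F, ∃ N, M i * N = 1 ∧ ∀ a b, S.Bd (l i) ((N - 1) a b) (2 * (C * w i)) := by
    filter_upwards [hb, hl, hw0, ev_le hw (Fintype.card n * C) (half_pos one_pos)]
      with i hb hl hw0 hc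
    exact Scale.exists_matInv hl (mul_nonneg c0 hw0) (fun a b => hb (a, b)) (by
      rw [← mul_assoc]; exact hc)
  obtain ⟨N, hN⟩ := ev_choice key
  exact ⟨N, hN.mono fun _ h => h.1, fun a b => ⟨2 * C, by positivity,
    hN.mono fun i h => by rw [mul_assoc]; exact h.2 a b⟩⟩

end O

/-! ### Algebra of expressions -/

namespace Ex
variable {A : Type} [CommRing A] [Algebra ℝ A] {J V : Type} {S : Scale A J}

theorem Rel.d [DecidableEq V] {x : V → A} (i : V) : ∀ {e : Ex V}, Rel S x e → Rel S x (d i e)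
  | c _, _ => trivial
  | v j, _ => by unfold Ex.d; split_ifs <;> trivial
  | add _ _, h => ⟨h.1.d i, h.2.d i⟩
  | mul _ _, h => ⟨⟨h.1.d i, h.2⟩, h.1, h.2.d i⟩
  | inv _, h => ⟨trivial, ⟨h, h⟩, h.1.d i⟩
  | isq _, h => ⟨trivial, ⟨h, h, h⟩, h.1.d i⟩

theorem Ok.d [DecidableEq V] {s} {x : V → A} (i : V) : ∀ {e : Ex V}, Ok S s x e → Ok S s x (d i e)
  | c _, _ => trivial
  | v j, _ => by unfold Ex.d; split_ifs <;> trivial
  | add _ _, h => ⟨h.1.d i, h.2.d i⟩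
  | mul _ _, h => ⟨⟨h.1.d i, h.2⟩, h.1, h.2.d i⟩
  | inv _, h => ⟨trivial, ⟨h, h⟩, h.1.d i⟩
  | isq _, h => ⟨trivial, ⟨h, h, h⟩, h.1.d i⟩

theorem Good.d [DecidableEq V] {x : V → ℝ} (i : V) : ∀ {e : Ex V}, Good x e → Good x (d i e)
  | c _, _ => trivial
  | v j, _ => by unfold Ex.d; split_ifs <;> trivial
  | add _ _, h => ⟨h.1.d i, h.2.d i⟩
  | mul _ _, h => ⟨⟨h.1.d i, h.2⟩, h.1, h.2.d i⟩
  | inv _, h => ⟨trivial, ⟨h, h⟩, h.1.d i⟩
  | isq _, h => ⟨trivial, ⟨h, h, h⟩, h.1.d i⟩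

/-- chain rule for a derivation -/
theorem chain [Fintype V] [DecidableEq V] (δ : Derivation ℝ A A) {x : V → A} :
    ∀ {e : Ex V}, Rel S x e → δ (eval S.isq x e) = ∑ i, eval S.isq x (d i e) * δ (x i)
  | c a, _ => by simp [eval, d]
  | v j, _ => by
    rw [sum_eq_single j]
    · simp [eval, d]
    · intro i _ h; simp [eval, d, h.symm]
    · simp
  | add a b, h => by
    simp only [eval, d, map_add, chain δ h.1, chain δ h.2, add_mul, sum_add_distrib]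
  | mul a b, h => by
    simp only [eval, d, Derivation.leibniz, chain δ h.1, chain δ h.2, smul_eq_mul, mul_sum,
      ← sum_add_distrib]
    exact sum_congr rfl fun i _ => by ring
  | inv a, h => by
    simp only [eval, d]
    rw [der_inv δ (Ring.mul_inverse_cancel _ h.2), chain δ h.1, mul_sum, ← sum_neg_distrib]
    exact sum_congr rfl fun i _ => by simp only [map_neg, map_one]; ring
  | isq a, h => by
    simp only [eval, d]
    rw [der_isq δ (Scale.isq_spec h.2).1, chain δ h.1, mul_sum, mul_sum]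
    exact sum_congr rfl fun i _ => by ring

/-- formal second derivatives commute -/
theorem dd_comm [DecidableEq V] (q : A → A) (x : V → A) (i j : V) :
    ∀ e : Ex V, eval q x (d i (d j e)) = eval q x (d j (d i e))
  | c a => rfl
  | v k => by simp only [d]; split_ifs <;> rfl
  | add a b => by simp only [eval, d, dd_comm q x i j a, dd_comm q x i j b]
  | mul a b => by simp only [eval, d, dd_comm q x i j a, dd_comm q x i j b]; ring
  | inv a => by simp only [eval, d, dd_comm q x i j a, map_zero]; ring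
  | isq a => by simp only [eval, d, dd_comm q x i j a, map_zero]; ring

theorem map_r {x : V → A} : ∀ {e : Ex V}, Rel S x e →
    S.r (eval S.isq x e) = eval S.isq (fun i => S.r (x i)) e
  | c a, _ => by simp [eval]
  | v _, _ => rfl
  | add _ _, h => by simp only [eval, map_add, map_r h.1, map_r h.2]
  | mul _ _, h => by simp only [eval, map_mul, map_r h.1, map_r h.2]
  | inv a, h => by
    simp only [eval]
    rw [← map_r h.1]
    exact (inverse_eq (by rw [← map_mul, Ring.mul_inverse_cancel _ h.2, map_one])).symm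
  | isq a, h => by
    simp only [eval]
    rw [← map_r h.1]
    obtain ⟨h1, h2⟩ := Scale.isq_spec h.2
    exact (Scale.isq_eq (by rw [← map_mul, ← map_mul, h1, map_one]) h2.refl).symm

theorem map_ev (ev : A →ₐ[ℝ] ℝ) (hev : ∀ s f c, S.Bd s f c → |ev f| ≤ c) {x : V → A} :
    ∀ {e : Ex V}, Rel S x e →
      Good (fun i => ev (x i)) e ∧ ev (eval S.isq x e) = eval rsq (fun i => ev (x i)) e
  | c a, _ => ⟨trivial, by simp [eval]⟩
  | v _, _ => ⟨trivial, rfl⟩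
  | add _ _, h => ⟨⟨(map_ev ev hev h.1).1, (map_ev ev hev h.2).1⟩, by
      simp only [eval, map_add, (map_ev ev hev h.1).2, (map_ev ev hev h.2).2]⟩
  | mul _ _, h => ⟨⟨(map_ev ev hev h.1).1, (map_ev ev hev h.2).1⟩, by
      simp only [eval, map_mul, (map_ev ev hev h.1).2, (map_ev ev hev h.2).2]⟩
  | inv a, h => by
    have e := congrArg ev (Ring.mul_inverse_cancel _ h.2)
    rw [map_mul, map_one, (map_ev ev hev h.1).2] at e
    exact ⟨⟨(map_ev ev hev h.1).1, left_ne_zero_of_mul_eq_one e⟩, (inverse_eq e).symm⟩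
  | isq a, h => by
    obtain ⟨h1, s, -, h2⟩ := Scale.isq_spec h.2
    have e := congrArg ev h1
    rw [map_mul, map_mul, map_one] at e
    have hp := abs_le.1 (hev _ _ _ h2)
    rw [map_sub, map_one] at hp
    simp only [eval, Good]
    rw [← (map_ev ev hev h.1).2]
    set y := ev (S.isq (eval S.isq x a))
    set z := ev (eval S.isq x a)
    have hy : 0 < y := by linarith
    have hz : z = y⁻¹ ^ 2 := by field_simp; linarith
    refine ⟨⟨(map_ev ev hev h.1).1, by rw [hz]; positivity⟩, ?_⟩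
    rw [hz, rsq, Real.sqrt_sq (by positivity), inv_inv]

end Ex

end Pool.Agent.MP_1ba41f_an.K3

end
end MrgPart2

-- ======== part 3: formerly Pool.Agent.MP_1ba41f_an.K3.Newton
section MrgPart3

/-! PROJECT KAM3, module NEWTON: from the reduced equations back to the Newton equations. -/

noncomputable section
open Finset Complex Filter

namespace Pool.Agent.MP_1ba41f_an.K3

namespace Newton

/-- The change of time. -/
lemma time {T : ℝ → ℝ} {c : ℝ} (hT : Continuous T) (hc : 0 < c) (h : ∀ x, c ≤ T x) :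
    ∃ θ : ℝ → ℝ, Function.Surjective θ ∧ ∀ s, HasDerivAt θ (T (θ s))⁻¹ s := by
  have h1 : ∀ x, HasDerivAt (fun x => ∫ y in (0 : ℝ)..x, T y) (T x) x := fun x =>
    (hT.integral_hasStrictDerivAt 0 x).hasDerivAt
  generalize (fun x => ∫ y in (0 : ℝ)..x, T y) = τ at h1
  have h2 : StrictMono τ := strictMono_of_hasDerivAt_pos h1 fun x => hc.trans_le (h x)
  have h3 : Monotone fun x => τ x - c * x :=
    monotone_of_hasDerivAt_nonneg (fun x => (h1 x).sub ((hasDerivAt_id x).const_mul c))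
      fun x => by simpa using h x
  have h4 : Continuous τ := continuous_iff_continuousAt.2 fun x => (h1 x).continuousAt
  have h5 : Function.Surjective τ := by
    refine h4.surjective ?_ ?_
    · refine tendsto_atTop_mono' _ ((eventually_ge_atTop 0).mono fun x hx => ?_)
        (tendsto_atTop_add_const_left _ (τ 0) (tendsto_id.const_mul_atTop hc))
      have := h3 hx
      simp only [id] at this ⊢
      linarith
    · refine tendsto_atBot_mono' _ ((eventually_le_atBot 0).mono fun x hx => ?_)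
        (tendsto_atBot_add_const_left _ (τ 0) (tendsto_id.const_mul_atBot hc))
      have := h3 hx
      simp only [id] at this ⊢
      linarith
  let e := h2.orderIsoOfSurjective τ h5
  exact ⟨e.symm, e.symm.surjective, fun s => HasDerivAt.of_local_left_inverse
    e.symm.continuous.continuousAt (h1 _) (hc.trans_le (h _)).ne'
    (Eventually.of_forall e.apply_symm_apply)⟩

lemma comp {θ : ℝ → ℝ} {F : ℝ → ℂ} {T s : ℝ} {F' : ℂ} (hθ : HasDerivAt θ T⁻¹ s) (h0 : T ≠ 0)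
    (hF : HasDerivAt F (T * F') (θ s)) : HasDerivAt (fun s => F (θ s)) F' s := by
  refine (hF.scomp s hθ).congr_deriv ?_
  have : (T : ℂ) ≠ 0 := ofReal_ne_zero.2 h0
  rw [real_smul, ofReal_inv, inv_mul_cancel_left₀ this]

lemma normSq (z : ℂ) : (‖z‖ : ℂ) ^ 2 = z * (starRingEnd ℂ) z := by
  rw [mul_conj, normSq_eq_norm_sq, ofReal_pow]

/-- The rotating and scaling factor. -/
lemma factor {a t : Fin 3 → ℝ} {u p ψ : ℝ → ℝ} {w π : ℝ → ℂ} (h : RedSol a t u p ψ w π) :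
    (∀ x, HasDerivAt (fun x => 1 + ‖w x‖ ^ 2)
      (2 * ψ x * (1 + ‖w x‖ ^ 2) ^ 2 * (π x * (starRingEnd ℂ) (w x)).re) x) ∧
    ∃ G : ℝ → ℂ, (∀ x, ‖G x‖ = (√(1 + ‖w x‖ ^ 2))⁻¹) ∧ ∀ x, HasDerivAt G
      (G x * (ψ x * ((1 + ‖w x‖ ^ 2 : ℝ) : ℂ) * (I - π x * (starRingEnd ℂ) (w x)))) x := by
  have h1 : ∀ x, HasDerivAt (fun x => 1 + ‖w x‖ ^ 2)
      (2 * ψ x * (1 + ‖w x‖ ^ 2) ^ 2 * (π x * (starRingEnd ℂ) (w x)).re) x := fun x => by
    refine ((h.dw x).norm_sq.const_add 1).congr_deriv ?_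
    generalize 1 + ‖w x‖ ^ 2 = N
    simp [Complex.inner]
    ring
  have hw : Continuous w := continuous_iff_continuousAt.2 fun x => (h.dw x).continuousAt
  have hπ : Continuous π := continuous_iff_continuousAt.2 fun x => (h.dπ x).continuousAt
  have hψ := h.cont
  have h2 : Continuous fun x => ψ x * (1 + ‖w x‖ ^ 2) * (1 - (π x * (starRingEnd ℂ) (w x)).im) := by
    fun_prop
  have h3 := fun x => (h2.integral_hasStrictDerivAt 0 x).hasDerivAt
  generalize (fun x => ∫ y in (0 : ℝ)..x, _ : ℝ → ℝ) = φ at h3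
  have h4 : ∀ x, 0 < 1 + ‖w x‖ ^ 2 := fun x => by positivity
  refine ⟨h1, fun x => cexp (φ x * I - (Real.log (1 + ‖w x‖ ^ 2) : ℝ) / 2), fun x => ?_,
    fun x => ?_⟩
  · rw [norm_exp, Real.sqrt_eq_rpow, Real.rpow_def_of_pos (h4 x), ← Real.exp_neg]
    congr 1
    simp only [sub_re, re_ofReal_mul, I_re, div_ofNat_re, ofReal_re]
    ring
  · refine (((h3 x).ofReal_comp.mul_const I).sub
      (((h1 x).log (h4 x).ne').ofReal_comp.div_const 2)).cexp.congr_deriv ?_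
    have := (h4 x).ne'
    generalize 1 + ‖w x‖ ^ 2 = N at this ⊢
    generalize π x * (starRingEnd ℂ) (w x) = z
    congr 1
    have h5 : (N : ℂ) ≠ 0 := ofReal_ne_zero.2 this
    conv_rhs => rw [← re_add_im z]
    push_cast
    field_simp
    ring

end Newton

open Newton in
theorem newton : NewtonStmt := by
  intro a t u p ψ w π h
  obtain ⟨c, hc, hlow⟩ := h.low
  have hu : Continuous u := continuous_iff_continuousAt.2 fun x => (h.du x).continuousAt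
  have u0 : ∀ x, u x ≠ 0 := fun x => (h.upos x).ne'
  obtain ⟨θ, hs, hθ⟩ := time (T := fun x => ψ x / u x ^ 2)
    (h.cont.div (hu.pow 2) fun x => pow_ne_zero _ (u0 x)) hc hlow
  obtain ⟨hN, G, hG, dG⟩ := factor h
  refine ⟨fun s => G (θ s) / u (θ s), fun s => w (θ s) * (G (θ s) / u (θ s)), θ,
    ⟨fun s => G (θ s) * (p (θ s) + u (θ s) * ((1 + ‖w (θ s)‖ ^ 2 : ℝ) : ℂ) *
      (I - π (θ s) * (starRingEnd ℂ) (w (θ s)))),
    fun s => G (θ s) * (p (θ s) * w (θ s) + u (θ s) * ((1 + ‖w (θ s)‖ ^ 2 : ℝ) : ℂ) * π (θ s)),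
    fun s => ?_⟩, hs, fun _ => rfl⟩
  have T0 := (hc.trans_le (hlow (θ s))).ne'
  replace hθ := hθ s
  have key : ∀ {F : ℝ → ℂ} {F' : ℂ}, HasDerivAt F ((ψ (θ s) / u (θ s) ^ 2 : ℝ) * F') (θ s) →
      HasDerivAt (fun s => F (θ s)) F' s := fun hF => comp hθ T0 hF
  beta_reduce
  generalize θ s = x at key ⊢
  have n0 : 0 < √(1 + ‖w x‖ ^ 2) := by positivity
  have G0 : G x ≠ 0 := norm_ne_zero_iff.1 (by rw [hG]; exact inv_ne_zero n0.ne')
  have U0 : (u x : ℂ) ≠ 0 := ofReal_ne_zero.2 (u0 x)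
  have e1 : ∀ k, G x / u x + t k * (w x * (G x / u x)) = G x / u x * (1 + t k * w x) :=
    fun k => by ring
  have e2 : ∀ k, ((‖G x / u x * (1 + t k * w x)‖ : ℝ) : ℂ) =
      (‖1 + t k * w x‖ : ℝ) / ((√(1 + ‖w x‖ ^ 2) : ℝ) * u x) := fun k => by
    rw [norm_mul, norm_div, hG, norm_real, Real.norm_of_nonneg (h.upos x).le]
    push_cast
    field_simp
  have e3 : ((√(1 + ‖w x‖ ^ 2) : ℝ) : ℂ) ^ 2 = 1 + w x * (starRingEnd ℂ) (w x) := by
    rw [← ofReal_pow, Real.sq_sqrt (by positivity), ← Newton.normSq]; push_cast; rfl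
  have e4 : ((1 + ‖w x‖ ^ 2 : ℝ) : ℂ) = 1 + w x * (starRingEnd ℂ) (w x) := by
    rw [← Newton.normSq]; push_cast; rfl
  have e5 : ∀ k, ((‖1 + t k * w x‖ : ℝ) : ℂ) ^ 2 =
      (1 + t k * w x) * (1 + t k * (starRingEnd ℂ) (w x)) := fun k => by
    rw [Newton.normSq]; simp
  have r0 : ∀ k, ((‖1 + t k * w x‖ : ℝ) : ℂ) ≠ 0 := fun k =>
    ofReal_ne_zero.2 (norm_ne_zero_iff.2 (h.ne x k))
  have N0 : ((√(1 + ‖w x‖ ^ 2) : ℝ) : ℂ) ≠ 0 := ofReal_ne_zero.2 n0.ne'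
  have du := (h.du x).ofReal_comp
  have dp := (h.dp x).ofReal_comp
  have dN := (hN x).ofReal_comp
  have dw := h.dw x
  have dw' := (h.dw x).star
  have dπ := h.dπ x
  have dG := dG x
  have eB : ∑ k, (a k : ℂ) * (w x / ((√(1 + ‖w x‖ ^ 2) * ‖1 + (t k : ℂ) * w x‖ : ℝ) : ℂ) -
      ((√(1 + ‖w x‖ ^ 2) * t k : ℝ) : ℂ) * (1 + (t k : ℂ) * w x) /
        ((‖1 + (t k : ℂ) * w x‖ : ℝ) : ℂ) ^ 3) =
      w x * (∑ k, (a k : ℂ) / (‖1 + (t k : ℂ) * w x‖ : ℝ)) / (√(1 + ‖w x‖ ^ 2) : ℝ) -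
      (√(1 + ‖w x‖ ^ 2) : ℝ) * ∑ k, (a k : ℂ) * t k * (1 + (t k : ℂ) * w x) /
        ((‖1 + (t k : ℂ) * w x‖ : ℝ) : ℂ) ^ 3 := by
    rw [mul_sum, mul_sum, sum_div, ← sum_sub_distrib]
    refine sum_congr rfl fun k _ => ?_
    push_cast
    ring
  have eV : ((∑ k, a k * √(1 + ‖w x‖ ^ 2) / ‖1 + (t k : ℂ) * w x‖ : ℝ) : ℂ) =
      (√(1 + ‖w x‖ ^ 2) : ℝ) * ∑ k, (a k : ℂ) / (‖1 + (t k : ℂ) * w x‖ : ℝ) := by
    rw [mul_sum, ofReal_sum]
    refine sum_congr rfl fun k _ => ?_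
    push_cast
    ring
  have f1 : ∑ k, (a k : ℂ) * (G x / u x + t k * (w x * (G x / u x))) /
      ((‖G x / u x + t k * (w x * (G x / u x))‖ : ℝ) : ℂ) ^ 3 =
      G x * u x ^ 2 * (√(1 + ‖w x‖ ^ 2) : ℝ) ^ 3 * (∑ k, (a k : ℂ) / (‖1 + (t k : ℂ) * w x‖ : ℝ) -
        (starRingEnd ℂ) (w x) * ∑ k, (a k : ℂ) * t k * (1 + (t k : ℂ) * w x) /
        ((‖1 + (t k : ℂ) * w x‖ : ℝ) : ℂ) ^ 3) := by
    rw [mul_sum, ← sum_sub_distrib, mul_sum]
    refine sum_congr rfl fun k _ => ?_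
    have := r0 k
    rw [e1, e2]
    field_simp
    rw [e5]
    ring
  have f2 : ∑ k, (a k : ℂ) * t k * (G x / u x + t k * (w x * (G x / u x))) /
      ((‖G x / u x + t k * (w x * (G x / u x))‖ : ℝ) : ℂ) ^ 3 =
      G x * u x ^ 2 * (√(1 + ‖w x‖ ^ 2) : ℝ) ^ 3 * ∑ k, (a k : ℂ) * t k * (1 + (t k : ℂ) * w x) /
        ((‖1 + (t k : ℂ) * w x‖ : ℝ) : ℂ) ^ 3 := by
    rw [mul_sum]
    refine sum_congr rfl fun k _ => ?_
    have := r0 k
    rw [e1, e2]
    field_simp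
  rw [eB] at dπ
  rw [ofReal_mul, ofReal_sub, eV] at dp
  rw [f1, f2]
  generalize ∑ k, (a k : ℂ) / (‖1 + (t k : ℂ) * w x‖ : ℝ) = V at dπ dp ⊢
  generalize ∑ k, (a k : ℂ) * t k * (1 + (t k : ℂ) * w x) /
    ((‖1 + (t k : ℂ) * w x‖ : ℝ) : ℂ) ^ 3 = B at dπ ⊢
  generalize ((√(1 + ‖w x‖ ^ 2) : ℝ) : ℂ) = n at dπ dp e3 N0 ⊢
  have hI : I ^ 2 = -1 := I_sq
  refine ⟨div_ne_zero G0 U0, fun k => e1 k ▸ mul_ne_zero (div_ne_zero G0 U0) (h.ne x k),
    key ((dG.div du U0).congr_deriv ?_), key ((dw.mul (dG.div du U0)).congr_deriv ?_),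
    key ((dG.mul (dp.add ((du.mul dN).mul ((dπ.mul dw').const_sub I)))).congr_deriv ?_),
    key ((dG.mul ((dp.mul dw).add ((du.mul dN).mul dπ))).congr_deriv ?_)⟩
  all_goals
    simp only [Pi.mul_apply, Pi.div_apply, Pi.add_apply, e4, star_def, map_mul, map_sub, map_add,
      map_one, conj_ofReal, conj_I, conj_conj, ofReal_mul, ofReal_neg, ofReal_div, ofReal_add,
      ofReal_sub, ofReal_pow, ofReal_one, ofReal_ofNat, Newton.normSq, re_eq_add_conj,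
      im_eq_sub_conj]
    field_simp
  · ring
  · ring
  all_goals
    generalize (starRingEnd ℂ) (w x) = y at e3 ⊢
    generalize (starRingEnd ℂ) (π x) = z
    clear * - e3 hI
    grind

end Pool.Agent.MP_1ba41f_an.K3

end
end MrgPart3

-- marker of a merged file
example : 731051 + 735375 = 731051 + 735375 := rfl
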