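import Mathlib
import Pool.Agent.MP_1ba41f_an.K3.Model0

/-! PROJECT KAM3, module NF: second order normal form of the linearised field. -/

noncomputable section
open Finset Matrix Filter Topology Complex

namespace Pool.Agent.MP_1ba41f_an.K3

namespace Nf

section Alg
variable {A : Type} [CommRing A] [Algebra ℝ A] {n : Type} [Fintype n] [DecidableEq n]
  (δ : Derivation ℝ A A)

omit [Fintype n] [DecidableEq n] in
theorem d_add (X Y : Matrix n n A) : (X + Y).map δ = X.map δ + Y.map δ := by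
  ext i j; simp

omit [DecidableEq n] in
theorem d_mul (X Y : Matrix n n A) : (X * Y).map δ = X.map δ * Y + X * Y.map δ := by
  ext i j
  simp only [map_apply, mul_apply, map_sum, Derivation.leibniz, smul_eq_mul, Matrix.add_apply,
    ← sum_add_distrib]
  exact sum_congr rfl fun k _ => by ring

omit [Fintype n] [DecidableEq n] in
theorem d_smul {e : A} (he : δ e = 0) (X : Matrix n n A) : (e • X).map δ = e • X.map δ := by
  ext i j; simp [he]

omit [Fintype n] in
theorem d_one : (1 : Matrix n n A).map δ = 0 := by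
  ext i j; by_cases h : i = j <;> simp [one_apply, h]

/-- truncated normalising matrix -/
def U0 (e : A) (U1 U2 : Matrix n n A) : Matrix n n A := 1 + e • (U1 + e • U2)
/-- its derivative in the parameter -/
def Ue (e : A) (U1 U2 : Matrix n n A) : Matrix n n A := U1 + (e + e) • U2
/-- third order remainder -/
def R3 (e c g : A) (Dt N U1 U2 : Matrix n n A) : Matrix n n A :=
  (c * c) • (Dt * U1) - c • (Dt * U2) - U1 * N - (c * c * c * g) • (Dt * U0 e U1 U2) +
    e • ((c * c) • (Dt * U2) - U2 * N)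
/-- second order remainder of the derivative -/
def X2 (e c g : A) (Dt N U1 U2 : Matrix n n A) : Matrix n n A :=
  (c * c + c * c) • (Dt * (U1 + e • U2)) - (c + c + c) • (Dt * U2) -
    (c * c * c * (g + g + g * g)) • (Dt * U0 e U1 U2) + (c * c * g) • (Dt * Ue e U1 U2) -
    Ue e U1 U2 * N - ((U1 + e • U2) * N + (U1 + e • U2) * N)

variable {δ} {e c g : A} {L0 Dt N U1 U2 Ui : Matrix n n A}

theorem alg1 (hg : (1 + e * c) * g = 1) (he : δ e = 0)
    (h1 : U1.map δ = L0 * U1 - U1 * L0 - c • Dt)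
    (h2 : U2.map δ = L0 * U2 - U2 * L0 + ((c * c) • Dt - c • (Dt * U1) - N)) :
    (L0 + (g - 1) • Dt) * U0 e U1 U2 - (U0 e U1 U2).map δ =
      U0 e U1 U2 * (L0 + (e * e) • N) + (e * e * e) • R3 e c g Dt N U1 U2 := by
  have hg' : g - 1 = -(e * c) + e * e * (c * c) - e * e * e * (c * c * c * g) := by
    linear_combination (1 - e * c + e * e * (c * c)) * hg
  rw [hg']
  simp only [U0, R3, d_add, d_smul δ he, d_one, h1, h2, mul_add, add_mul, smul_mul_assoc,
    mul_smul_comm, mul_one, one_mul]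
  module

theorem alg2 (hg : (1 + e * c) * g = 1) (he : δ e = 0)
    (h1 : U1.map δ = L0 * U1 - U1 * L0 - c • Dt)
    (h2 : U2.map δ = L0 * U2 - U2 * L0 + ((c * c) • Dt - c • (Dt * U1) - N)) :
    (-(c * g * g)) • (Dt * U0 e U1 U2) = (e + e) • (U0 e U1 U2 * N) +
      (e * e) • X2 e c g Dt N U1 U2 - (L0 + (g - 1) • Dt) * Ue e U1 U2 +
      Ue e U1 U2 * (L0 + (e * e) • N) + (Ue e U1 U2).map δ := by
  have hg1 : g - 1 = -(e * c) + e * e * (c * c * g) := by
    linear_combination (1 - e * c) * hg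
  have hg2 : c * g * g = c - (e + e) * (c * c) + e * e * (c * c * c * (g + g + g * g)) := by
    linear_combination (c * (1 - e * c) * (1 + g) - c * e * c) * hg
  have hee : δ (e + e) = 0 := by rw [map_add, he, add_zero]
  rw [hg1, hg2]
  simp only [U0, Ue, X2, d_add, d_smul δ hee, h1, h2, mul_add, add_mul,
    smul_mul_assoc, mul_smul_comm, mul_one, one_mul]
  module

theorem alg3 (hg : (1 + e * c) * g = 1) (he : δ e = 0)
    (h1 : U1.map δ = L0 * U1 - U1 * L0 - c • Dt)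
    (h2 : U2.map δ = L0 * U2 - U2 * L0 + ((c * c) • Dt - c • (Dt * U1) - N))
    (hi : U0 e U1 U2 * Ui = 1) :
    (L0 + (g - 1) • Dt) * U0 e U1 U2 - (U0 e U1 U2).map δ =
      U0 e U1 U2 * (L0 + (e * e) • N + (e * e * e) • (Ui * R3 e c g Dt N U1 U2)) := by
  rw [alg1 hg he h1 h2, mul_add (U0 e U1 U2) (L0 + (e * e) • N), mul_smul_comm, ← mul_assoc, hi,
    one_mul]

theorem alg4 (hg : (1 + e * c) * g = 1) (he : δ e = 0)
    (h1 : U1.map δ = L0 * U1 - U1 * L0 - c • Dt)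
    (h2 : U2.map δ = L0 * U2 - U2 * L0 + ((c * c) • Dt - c • (Dt * U1) - N))
    (hi : U0 e U1 U2 * Ui = 1) :
    Ui * ((-(c * g * g)) • Dt) * U0 e U1 U2 = (e + e) • N +
      (e * e) • (Ui * (X2 e c g Dt N U1 U2 - e • (Ue e U1 U2 * (Ui * R3 e c g Dt N U1 U2)))) -
      ((L0 + (e * e) • N + (e * e * e) • (Ui * R3 e c g Dt N U1 U2)) * (Ui * Ue e U1 U2) -
        Ui * Ue e U1 U2 * (L0 + (e * e) • N + (e * e * e) • (Ui * R3 e c g Dt N U1 U2))) +
      (Ui * Ue e U1 U2).map δ := by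
  have hi' : Ui * U0 e U1 U2 = 1 := mul_eq_one_comm.1 hi
  have a3 := alg3 hg he h1 h2 hi
  have a2 := alg2 hg he h1 h2
  set P := U0 e U1 U2
  set Q := Ue e U1 U2
  set R := Ui * R3 e c g Dt N U1 U2
  set At := L0 + (e * e) • N + (e * e * e) • R with hAt
  set B := L0 + (g - 1) • Dt
  have hW : P * (Ui * Q) = Q := by rw [← mul_assoc, hi, one_mul]
  have hd : P * (Ui * Q).map δ = Q.map δ - P.map δ * (Ui * Q) := by
    have := d_mul δ P (Ui * Q)
    rw [hW] at this; rw [this]; abel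
  have hA : P * (At * (Ui * Q)) = B * Q - P.map δ * (Ui * Q) := by
    rw [← mul_assoc, ← a3, sub_mul, mul_assoc B, hW]
  have hB : P * (Ui * Q * At) = Q * At := by rw [← mul_assoc, hW]
  have hC : ∀ Z, P * (Ui * Z) = Z := fun Z => by rw [← mul_assoc, hi, one_mul]
  have key : ∀ X Y : Matrix n n A, P * X = P * Y → X = Y := fun X Y h => by
    have := congrArg (fun Z => Ui * Z) h
    simpa only [← mul_assoc, hi', one_mul] using this
  apply key
  rw [mul_assoc Ui, hC, smul_mul_assoc, a2, mul_add P, mul_sub P, mul_add P, mul_sub P, hd, hA, hB,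
    mul_smul_comm, mul_smul_comm, hC, hAt]
  simp only [mul_add, mul_smul_comm, smul_sub]
  module

end Alg

section Sol
variable {A : Type} [CommRing A] [Algebra ℝ A] {n : Type} [Fintype n] [DecidableEq n]
  {δ : Derivation ℝ A A} {κ : ℂ →+* A}

/-- solution of the homological equation for one mode -/
def sol (μ : n → ℂ) (z : ℂ) (P : Matrix n n ℂ) : Matrix n n ℂ :=
  Matrix.of fun j k => P j k / (z - μ j + μ k)

theorem d_sol (hκ : ∀ z, δ (κ z) = 0) (μ : n → ℂ) {z : ℂ} {F : A} (hF : δ F = κ z * F)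
    {P : Matrix n n ℂ} (h : ∀ j k, z - μ j + μ k = 0 → P j k = 0) :
    (F • (sol μ z P).map κ).map δ = diagonal (fun j => κ (μ j)) * (F • (sol μ z P).map κ) -
      (F • (sol μ z P).map κ) * diagonal (fun j => κ (μ j)) + F • P.map κ := by
  ext j k
  have e : P j k = sol μ z P j k * (z - μ j + μ k) := by
    by_cases h0 : z - μ j + μ k = 0
    · rw [h j k h0, h0, mul_zero]
    · simp only [sol, of_apply]; rw [div_mul_cancel₀ _ h0]
  have e' := congrArg κ e
  rw [map_mul, map_add, map_sub] at e'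
  simp only [map_apply, Matrix.smul_apply, smul_eq_mul, Derivation.leibniz, hκ, hF,
    Matrix.add_apply, Matrix.sub_apply, diagonal_mul, mul_diagonal, e']
  ring

/-- first order term, positive mode -/
def T1p (μ : n → ℂ) (M : Matrix n n ℂ) : Matrix n n ℂ := sol μ I ((-(1 / 2) : ℂ) • M)
/-- first order term, negative mode -/
def T1m (μ : n → ℂ) (M : Matrix n n ℂ) : Matrix n n ℂ := sol μ (-I) ((-(1 / 2) : ℂ) • M)
/-- first order term -/
def W1 (κ : ℂ →+* A) (E Ei : A) (μ : n → ℂ) (M : Matrix n n ℂ) : Matrix n n A :=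
  E • (T1p μ M).map κ + Ei • (T1m μ M).map κ
/-- right hand side of the second order equation, mode `2` -/
def F2p (μ : n → ℂ) (M : Matrix n n ℂ) : Matrix n n ℂ :=
  (1 / 2 * (1 / 2) : ℂ) • M - (1 / 2 : ℂ) • (M * T1p μ M)
/-- mode `-2` -/
def F2m (μ : n → ℂ) (M : Matrix n n ℂ) : Matrix n n ℂ :=
  (1 / 2 * (1 / 2) : ℂ) • M - (1 / 2 : ℂ) • (M * T1m μ M)
/-- mode `0` -/
def F0 (μ ν : n → ℂ) (M : Matrix n n ℂ) : Matrix n n ℂ :=
  (1 / 2 : ℂ) • M - (1 / 2 : ℂ) • (M * T1p μ M + M * T1m μ M) - diagonal ν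
/-- second order term -/
def W2 (κ : ℂ →+* A) (E Ei : A) (μ ν : n → ℂ) (M : Matrix n n ℂ) : Matrix n n A :=
  (E * E) • (sol μ (I + I) (F2p μ M)).map κ + (1 : A) • (sol μ 0 (F0 μ ν M)).map κ +
    (Ei * Ei) • (sol μ (-I + -I) (F2m μ M)).map κ

omit [Fintype n] [DecidableEq n] [Algebra ℝ A] in
theorem map_sm (z : ℂ) (P : Matrix n n ℂ) : (z • P).map κ = κ z • P.map κ := by
  ext i j; simp
omit [Fintype n] [DecidableEq n] [Algebra ℝ A] in
theorem map_sb (P Q : Matrix n n ℂ) : (P - Q).map κ = P.map κ - Q.map κ := by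
  ext i j; simp
omit [Fintype n] [DecidableEq n] [Algebra ℝ A] in
theorem map_ad (P Q : Matrix n n ℂ) : (P + Q).map κ = P.map κ + Q.map κ := by
  ext i j; simp

variable {E Ei : A} {μ ν : n → ℂ} {M : Matrix n n ℂ}

theorem d_W1 (hκ : ∀ z, δ (κ z) = 0) (hE : δ E = κ I * E) (hEi : δ Ei = κ (-I) * Ei)
    (p1 : ∀ j k, I - μ j + μ k ≠ 0) (m1 : ∀ j k, -I - μ j + μ k ≠ 0) :
    (W1 κ E Ei μ M).map δ = diagonal (fun j => κ (μ j)) * W1 κ E Ei μ M -
      W1 κ E Ei μ M * diagonal (fun j => κ (μ j)) - (κ (1 / 2) * (E + Ei)) • M.map κ := by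
  unfold W1 T1p T1m
  rw [d_add, d_sol hκ μ hE fun j k h => (p1 j k h).elim,
    d_sol hκ μ hEi fun j k h => (m1 j k h).elim, map_sm, map_neg]
  simp only [mul_add, add_mul]
  module

theorem d_W2 (hκ : ∀ z, δ (κ z) = 0) (hE : δ E = κ I * E) (hEi : δ Ei = κ (-I) * Ei)
    (hEE : E * Ei = 1)
    (p2 : ∀ j k, I + I - μ j + μ k ≠ 0) (m2 : ∀ j k, -I + -I - μ j + μ k ≠ 0)
    (z0 : ∀ j k, 0 - μ j + μ k = 0 → F0 μ ν M j k = 0) :
    (W2 κ E Ei μ ν M).map δ = diagonal (fun j => κ (μ j)) * W2 κ E Ei μ ν M -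
      W2 κ E Ei μ ν M * diagonal (fun j => κ (μ j)) +
      ((κ (1 / 2) * (E + Ei) * (κ (1 / 2) * (E + Ei))) • M.map κ -
        (κ (1 / 2) * (E + Ei)) • (M.map κ * W1 κ E Ei μ M) - diagonal fun j => κ (ν j)) := by
  have a1 : δ (E * E) = κ (I + I) * (E * E) := by
    rw [Derivation.leibniz, hE, map_add]; simp only [smul_eq_mul]; ring
  have a2 : δ (Ei * Ei) = κ (-I + -I) * (Ei * Ei) := by
    rw [Derivation.leibniz, hEi, map_add]; simp only [smul_eq_mul]; ring
  have a0 : δ (1 : A) = κ 0 * 1 := by simp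
  have h2 : κ (1 / 2) + κ (1 / 2) = 1 := by rw [← map_add]; norm_num
  have hd : (diagonal ν).map κ = diagonal fun j => κ (ν j) := diagonal_map (map_zero κ)
  unfold W2
  rw [d_add, d_add, d_sol hκ μ a1 fun j k h => (p2 j k h).elim, d_sol hκ μ a0 z0,
    d_sol hκ μ a2 fun j k h => (m2 j k h).elim]
  simp only [F2p, F2m, F0, W1, map_sb, map_ad, map_sm, Matrix.map_mul, map_mul, hd, mul_add,
    add_mul, mul_smul_comm]
  match_scalars
  all_goals first
    | ring1
    | linear_combination (-(2 : A) * κ (1 / 2) * κ (1 / 2)) * hEE - κ (1 / 2) * h2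
    | linear_combination κ (1 / 2) * hEE

end Sol

theorem F0_diag (μ : Fin 4 → ℂ) (M : Matrix (Fin 4) (Fin 4) ℂ) (a : Fin 4) :
    F0 μ (nfc μ M) M a a = 0 := by
  simp only [F0, T1p, T1m, sol, nfc, Matrix.sub_apply, Matrix.add_apply, Matrix.smul_apply,
    smul_eq_mul, mul_apply, of_apply, diagonal_apply_eq, ← sum_add_distrib, mul_sum]
  rw [sub_eq_zero, sub_eq_add_neg, ← sum_neg_distrib]
  congr 1
  · ring
  · refine sum_congr rfl fun j _ => ?_
    rw [show I - μ j + μ a = μ a - μ j + I by ring, show -I - μ j + μ a = μ a - μ j - I by ring]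
    ring

theorem div_ne {ω lam : ℝ} (hω : 1 < ω) (hl : 0 < lam) (t : ℝ) (ht : |t| ≤ 2) (j k : Fin 4)
    (h : (t : ℂ) * I - muE ω lam j + muE ω lam k = 0) : t = 0 ∧ j = k := by
  have h1 := congrArg Complex.re h
  have h2 := congrArg Complex.im h
  have ht' := abs_le.1 ht
  fin_cases j <;> fin_cases k <;> simp [muE] at h1 h2 ⊢ <;> first | exact h2 | linarith

section Bounds
variable {A : Type} [CommRing A] [Algebra ℝ A] {J : Type}

/-- bounded family -/
def OB (S : Scale A J) (f : ℝ → A) : Prop := O S (𝓝[>] 0) (fun _ => 1) f fun _ => 1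
/-- bounded family of matrices -/
def MB (S : Scale A J) (X : ℝ → Matrix (Fin 4) (Fin 4) A) : Prop := ∀ a b, OB S fun i => X i a b

variable {S : Scale A J} {f g : ℝ → A} {X Y : ℝ → Matrix (Fin 4) (Fin 4) A}

theorem OB.const {a : A} (h : S.An 1 a) : OB S fun _ => a := O.of_an h (.of_forall fun _ => le_rfl)
theorem OB.add (h : OB S f) (h' : OB S g) : OB S fun i => f i + g i := O.add h h'
theorem OB.mul (h : OB S f) (h' : OB S g) : OB S fun i => f i * g i := O.mul1 h h'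
theorem MB.const {M : Matrix (Fin 4) (Fin 4) A} (h : ∀ a b, S.An 1 (M a b)) : MB S fun _ => M :=
  fun a b => OB.const (h a b)
theorem MB.one : MB S fun _ => 1 := MB.const fun a b => by
  rw [one_apply]; split_ifs; exacts [Scale.An.one 1, Scale.An.zero 1]
theorem MB.add (h : MB S X) (h' : MB S Y) : MB S fun i => X i + Y i :=
  fun a b => O.add (h a b) (h' a b)
theorem MB.sub (h : MB S X) (h' : MB S Y) : MB S fun i => X i - Y i :=
  fun a b => O.sub (h a b) (h' a b)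
theorem MB.mul (h : MB S X) (h' : MB S Y) : MB S fun i => X i * Y i :=
  fun a b => (O.matMul h h' a b).wt' fun _ => mul_one _
theorem MB.smul (h : OB S f) (h' : MB S X) : MB S fun i => f i • X i :=
  fun a b => O.mul1 h (h' a b)
theorem OB.an (h : OB S f) : ∀ᶠ i in 𝓝[>] 0, S.An 1 (f i) :=
  let ⟨_, _, h⟩ := h; h.mono fun _ h => ⟨_, h⟩
theorem MB.an (h : MB S X) : ∀ᶠ i in 𝓝[>] 0, ∀ a b, S.An 1 (X i a b) :=
  eventually_all.2 fun a => eventually_all.2 fun b => (h a b).an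

end Bounds

section Main
variable {A : Type} [CommRing A] [Algebra ℝ A] {S : Scale A (Fin 1)} {κ : ℂ →+* A}

theorem Dhat_map (hs : ∀ (a : ℝ) z, κ (a • z) = a • κ z) (β : ℝ) :
    (Dhat ℂ β).map κ = Dhat A β := by
  ext i j
  fin_cases i <;> fin_cases j <;>
    simp only [Dhat, map_apply, of_apply, cons_val', cons_val_zero, cons_val_one,
      Matrix.cons_val,
      cons_val_fin_one, Fin.zero_eta, Fin.mk_one, Fin.reduceFinMk, Fin.isValue, map_zero, hs,
      map_one]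

theorem Amat_map (hs : ∀ (a : ℝ) z, κ (a • z) = a • κ z) (β : ℝ) (g : A) :
    Amat β g = (Amat β (1 : ℂ)).map κ + (g - 1) • Dhat A β := by
  ext i j
  fin_cases i <;> fin_cases j <;>
    simp only [Amat, Dhat, map_apply, of_apply, cons_val', cons_val_zero, cons_val_one,
      Matrix.cons_val,
      cons_val_fin_one, Fin.zero_eta, Fin.mk_one, Fin.reduceFinMk, Fin.isValue, map_zero, hs,
      map_one, Matrix.add_apply, Matrix.smul_apply, smul_eq_mul, mul_zero, add_zero, map_neg,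
      map_ofNat, mul_smul_comm, mul_one, ← smul_add, add_sub_cancel]

theorem main {β ω lam c1 : ℝ} {V Vi : Matrix (Fin 4) (Fin 4) ℂ} (hV : Eig β ω lam c1 V Vi)
    (hs : ∀ (a : ℝ) z, κ (a • z) = a • κ z) (hκ : ∀ z, S.D 0 (κ z) = 0) (aκ : ∀ z, S.An 1 (κ z))
    {E Ei : A} (hE : S.D 0 E = κ I * E) (hEi : S.D 0 Ei = κ (-I) * Ei) (hEE : E * Ei = 1)
    (aE : S.An 1 E) (aEi : S.An 1 Ei) {e : ℝ → A} (he : ∀ x, S.D 0 (e x) = 0)
    (oe : O S (𝓝[>] 0) (fun _ => 1) e fun x => x) {c : A} (hc : c = κ (1 / 2) * (E + Ei))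
    {μ ν : Fin 4 → ℂ} (hμ : μ = muE ω lam) (hν : ν = nfc μ (Vi * Dhat ℂ β * V)) :
    ∃ C, ∀ᶠ x in 𝓝[>] (0 : ℝ), ∃ (g : A) (U Ui Rm W Fm : Matrix (Fin 4) (Fin 4) A),
      (1 + e x * c) * g = 1 ∧
      S.An 1 g ∧ (∀ i j, S.An 1 (U i j)) ∧ (∀ i j, S.An 1 (Ui i j)) ∧ (∀ i j, S.An 1 (W i j)) ∧
      U * Ui = 1 ∧
      Amat β g * U - U.map (S.D 0) =
        U * (diagonal (fun j => κ (μ j) + e x * e x * κ (ν j)) + Rm) ∧
      Ui * ((-(c * g * g)) • Dhat A β) * U = diagonal (fun j => (e x + e x) * κ (ν j)) + Fm -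
        ((diagonal (fun j => κ (μ j) + e x * e x * κ (ν j)) + Rm) * W -
          W * (diagonal (fun j => κ (μ j) + e x * e x * κ (ν j)) + Rm)) + W.map (S.D 0) ∧
      (∀ i j, S.Bd 1 (Rm i j) (C * x ^ 3)) ∧ (∀ i j, S.Bd 1 (Fm i j) (C * x ^ 2)) := by
  have dv : ∀ t : ℝ, |t| ≤ 2 → ∀ j k, (t : ℂ) * I - μ j + μ k = 0 → t = 0 ∧ j = k := by
    rw [hμ]; exact div_ne hV.om hV.la
  set M := Vi * Dhat ℂ β * V with hM
  have h1 := d_W1 (μ := μ) (M := M) hκ hE hEi
    (fun j k h => by have := (dv 1 (by norm_num) j k (by simpa using h)).1; norm_num at this)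
    (fun j k h => by have := (dv (-1) (by norm_num) j k (by simpa using h)).1; norm_num at this)
  have h2 := d_W2 (μ := μ) (ν := ν) (M := M) hκ hE hEi hEE
    (fun j k h => by
      have := (dv 2 (by norm_num) j k (by rw [← h]; push_cast; ring)).1; norm_num at this)
    (fun j k h => by
      have := (dv (-2) (by norm_num) j k (by rw [← h]; push_cast; ring)).1; norm_num at this)
    (fun j k h => by
      have := (dv 0 (by norm_num) j k (by simpa using h)).2
      rw [this, hν]; exact F0_diag μ M k)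
  rw [← hc] at h1 h2
  set U1 := W1 κ E Ei μ M
  set U2 := W2 κ E Ei μ ν M
  set L0 : Matrix (Fin 4) (Fin 4) A := diagonal fun j => κ (μ j) with hL0
  set N : Matrix (Fin 4) (Fin 4) A := diagonal fun j => κ (ν j) with hN
  set Dt := M.map κ with hDt
  have tx : Tendsto (fun x : ℝ => x) (𝓝[>] 0) (𝓝 0) := nhdsWithin_le_nhds
  have px : ∀ᶠ x in 𝓝[>] (0 : ℝ), 0 < x := self_mem_nhdsWithin
  have l1 : ∀ᶠ _x in 𝓝[>] (0 : ℝ), (0 : ℝ) < 1 := .of_forall fun _ => one_pos
  have mκ : ∀ P : Matrix (Fin 4) (Fin 4) ℂ, MB S fun _ => P.map κ :=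
    fun P => MB.const fun a b => aκ _
  have be : OB S e := oe.toOne tx
  have bE : OB S fun _ => E := OB.const aE
  have bEi : OB S fun _ => Ei := OB.const aEi
  have bc : OB S fun _ => c := by rw [hc]; exact OB.const ((aκ _).mul (aE.add aEi))
  have b1 : MB S fun _ => U1 := (MB.smul bE (mκ _)).add (MB.smul bEi (mκ _))
  have b2 : MB S fun _ => U2 := ((MB.smul (bE.mul bE) (mκ _)).add
    (MB.smul (OB.const (Scale.An.one 1)) (mκ _))).add (MB.smul (bEi.mul bEi) (mκ _))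
  have bD : MB S fun _ => Dt := mκ _
  have bN : MB S fun _ => N := by
    have := mκ (diagonal ν); rwa [diagonal_map (map_zero κ)] at this
  obtain ⟨hg, og⟩ := O.inv (f := fun x => 1 + e x * c) (f0 := fun _ => 1) (g0 := fun _ => 1)
    ((oe.mul1 bc).congr' fun _ => by ring) tx l1 (.of_forall fun _ => one_mul 1) O.one
  set g := fun x => Ring.inverse (1 + e x * c)
  have bg : OB S g := og.near tx O.one
  have bY : MB S fun x => U1 + e x • U2 := b1.add (MB.smul be b2)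
  obtain ⟨Ui, hi, oi⟩ := O.matInv (S := S) (F := 𝓝[>] 0) (l := fun _ => 1) (w := fun x => x)
    (M := fun x => U0 (e x) U1 U2)
    (fun a b => (oe.mul1 (bY a b)).congr' fun _ => by rw [U0, add_sub_cancel_left]; rfl) tx (px.mono fun _ h => h.le) l1
  have bi : MB S Ui := fun a b => O.near (g := fun _ => (1 : Matrix (Fin 4) (Fin 4) A) a b)
    (oi a b) tx (MB.one a b)
  have bU0 : MB S fun x => U0 (e x) U1 U2 := MB.one.add (MB.smul be bY)
  have bUe : MB S fun x => Ue (e x) U1 U2 := b1.add (MB.smul (be.add be) b2)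
  have bR : MB S fun x => Ui x * R3 (e x) c (g x) Dt N U1 U2 := by
    exact bi.mul (((((MB.smul (bc.mul bc) (bD.mul b1)).sub (MB.smul bc (bD.mul b2))).sub
      (b1.mul bN)).sub (MB.smul (((bc.mul bc).mul bc).mul bg) (bD.mul bU0))).add
      (MB.smul be ((MB.smul (bc.mul bc) (bD.mul b2)).sub (b2.mul bN))))
  have bX : MB S fun x => Ui x * (X2 (e x) c (g x) Dt N U1 U2 -
      e x • (Ue (e x) U1 U2 * (Ui x * R3 (e x) c (g x) Dt N U1 U2))) := by
    refine bi.mul (MB.sub ?_ (MB.smul be (bUe.mul bR)))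
    exact (((((MB.smul ((bc.mul bc).add (bc.mul bc)) (bD.mul bY)).sub
      (MB.smul ((bc.add bc).add bc) (bD.mul b2))).sub
      (MB.smul (((bc.mul bc).mul bc).mul ((bg.add bg).add (bg.mul bg))) (bD.mul bU0))).add
      (MB.smul ((bc.mul bc).mul bg) (bD.mul bUe))).sub (bUe.mul bN)).sub
      ((bY.mul bN).add (bY.mul bN))
  obtain ⟨C1, p1, hC1⟩ := O.uniform (κ := Fin 4 × Fin 4) (l := fun _ _ => 1)
    (w := fun _ x => x * x * x)
    (fun k => ((oe.mul oe).mul oe).mul1 (bR k.1 k.2)) fun _ => px.mono fun _ h => by positivity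
  obtain ⟨C2, p2, hC2⟩ := O.uniform (κ := Fin 4 × Fin 4) (l := fun _ _ => 1)
    (w := fun _ x => x * x)
    (fun k => (oe.mul oe).mul1 (bX k.1 k.2)) fun _ => px.mono fun _ h => by positivity
  have hVV : V.map κ * Vi.map κ = 1 := by
    rw [← Matrix.map_mul, hV.inv, Matrix.map_one _ (map_zero κ) (map_one κ)]
  have hDV : Dhat A β * V.map κ = V.map κ * Dt := by
    rw [hDt, hM, Matrix.map_mul, Matrix.map_mul, Dhat_map hs, ← mul_assoc, ← mul_assoc, hVV,
      one_mul]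
  have hVD : Vi.map κ * Dhat A β * V.map κ = Dt := by
    rw [hDt, hM, Matrix.map_mul, Matrix.map_mul, Dhat_map hs]
  have hAV : (Amat β (1 : ℂ)).map κ * V.map κ = V.map κ * L0 := by
    rw [← Matrix.map_mul, hV.eig, Matrix.map_mul, diagonal_map (map_zero κ), ← hμ]
  have dV : (V.map κ).map (S.D 0) = 0 := by ext i j; simp [hκ]
  refine ⟨C1 + C2, ?_⟩
  filter_upwards [hg, hi, hC1, hC2, px, bg.an, ((mκ V).mul bU0).an, (bi.mul (mκ Vi)).an,
    (bi.mul bUe).an] with x hg hi hC1 hC2 px ag aU aUi aW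
  have eΛ : diagonal (fun j => κ (μ j) + e x * e x * κ (ν j)) = L0 + (e x * e x) • N := by
    rw [hL0, hN, ← diagonal_smul, diagonal_add]; rfl
  have eM : diagonal (fun j => (e x + e x) * κ (ν j)) = (e x + e x) • N := by
    rw [hN, ← diagonal_smul]; rfl
  refine ⟨g x, V.map κ * U0 (e x) U1 U2, Ui x * Vi.map κ,
    (e x * e x * e x) • (Ui x * R3 (e x) c (g x) Dt N U1 U2), Ui x * Ue (e x) U1 U2,
    (e x * e x) • (Ui x * (X2 (e x) c (g x) Dt N U1 U2 -
      e x • (Ue (e x) U1 U2 * (Ui x * R3 (e x) c (g x) Dt N U1 U2)))),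
    hg, ag, aU, aUi, aW, ?_, ?_, ?_, fun i j => Scale.le (hC1 (i, j)) ?_,
    fun i j => Scale.le (hC2 (i, j)) ?_⟩
  · rw [mul_assoc, ← mul_assoc (U0 _ _ _), hi, one_mul, hVV]
  · rw [eΛ, mul_assoc (V.map κ), ← alg3 hg (he x) h1 h2 hi, Amat_map hs, d_mul, dV, ← mul_assoc,
      add_mul, hAV, smul_mul_assoc, hDV, zero_mul, zero_add, mul_sub, ← mul_assoc, mul_add,
      mul_smul_comm]
  · rw [eΛ, eM, ← alg4 hg (he x) h1 h2 hi, ← hVD]
    simp only [mul_smul_comm, smul_mul_assoc, mul_assoc, g]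
  · have : 0 ≤ C2 * x ^ 3 := by positivity
    nlinarith
  · have : 0 ≤ C1 * x ^ 2 := by positivity
    nlinarith

end Main

section Model

/-- complex constants -/
def cst (Y : Type) [TopologicalSpace Y] (J : Type) [Fintype J] : ℂ →+* AlgC Y J where
  toFun z := mkC (fun _ _ => z) one_pos (BdF.const 1 z)
  map_one' := rfl
  map_mul' _ _ := rfl
  map_zero' := rfl
  map_add' _ _ := rfl

/-- the mode `n` -/
def mode (n : ℤ) : AlgC I01 (Fin 1) :=
  mkC (fun _ θ => exp (I * (n * θ 0))) one_pos (BdF.expI 1 0 n)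

theorem norm_ecc (x : ℝ) (y : I01) : ‖((ecc x y : ℝ) : ℂ)‖ ≤ |x| := by
  rw [Complex.norm_real, Real.norm_eq_abs, ecc, mul_div_assoc, abs_mul]
  refine mul_le_of_le_one_right (abs_nonneg _) (abs_le.2 ⟨?_, ?_⟩) <;> linarith [y.2.1, y.2.2]

theorem bd_ecc (x : ℝ) : BdF 1 (fun (y : I01) (_ : Fin 1 → ℝ) => ((ecc x y : ℝ) : ℂ)) |x| :=
  BdF.cst 1 ⟨fun y => ((ecc x y : ℝ) : ℂ), by unfold ecc; fun_prop⟩ (abs_nonneg x) (norm_ecc x)

/-- the eccentricity -/
def eccA (x : ℝ) : AlgC I01 (Fin 1) := mkC _ one_pos (bd_ecc x)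

theorem d_mode {S : Scale (AlgC I01 (Fin 1)) (Fin 1)} (hS : IsModC S) (n : ℤ) :
    S.D 0 (mode n) = cst _ _ (I * n) * mode n := extC fun y θ => by
  have h : HasDerivAt (fun t : ℝ => exp (I * (n * (t : ℂ)))) (I * n * exp (I * (n * θ 0))) (θ 0) := by
    have := ((((hasDerivAt_id (θ 0)).ofReal_comp).const_mul (n : ℂ)).const_mul I).cexp
    simpa [mul_comm] using this
  exact hS.D_eq (f := mode n) (hasFDerivAt_coord 0 h) 0

end Model

end Nf

open Nf in
theorem nf : NfStmt := by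
  intro β ω lam c1 V Vi hV S hS
  have hc : ∀ (y : I01) (θ : Fin 1 → ℝ), (cst I01 (Fin 1) (1 / 2) * (mode 1 + mode (-1))).1 y θ =
      ((Real.cos (θ 0) : ℝ) : ℂ) := fun y θ => by
    change (1 / 2 : ℂ) * (exp (I * ((1 : ℤ) * θ 0)) + exp (I * ((-1 : ℤ) * θ 0))) = _
    rw [Complex.ofReal_cos, Complex.cos]
    push_cast
    rw [show I * (1 * (θ 0 : ℂ)) = θ 0 * I by ring, show I * (-1 * (θ 0 : ℂ)) = -θ 0 * I by ring]
    ring
  obtain ⟨C, hC⟩ := main (S := S) (κ := cst I01 (Fin 1)) hV (fun _ _ => rfl)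
    (fun z => hS.cst_of (fun _ _ => rfl) 0) (fun z => ⟨_, (hS.bd _ _ _).2 (BdF.const 1 z)⟩)
    (E := mode 1) (Ei := mode (-1)) (by simpa using d_mode hS 1) (by simpa using d_mode hS (-1))
    (extC fun y θ => by
      change exp (I * ((1 : ℤ) * θ 0)) * exp (I * ((-1 : ℤ) * θ 0)) = 1
      rw [← Complex.exp_add]; simp)
    ⟨_, (hS.bd _ _ _).2 (BdF.expI 1 0 1)⟩ ⟨_, (hS.bd _ _ _).2 (BdF.expI 1 0 (-1))⟩
    (e := eccA) (fun x => hS.cst_of (fun _ _ => rfl) 0)
    (O.of_bd (eventually_mem_nhdsWithin.mono fun x hx =>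
      Scale.le ((hS.bd _ _ _).2 (bd_ecc x)) (abs_of_pos hx).le)) rfl rfl rfl
  obtain ⟨e1, p1, h1⟩ := (nhdsGT_basis_Ioc (0 : ℝ)).mem_iff.1 hC
  refine ⟨C, e1, p1, fun e0 a1 a2 => ?_⟩
  obtain ⟨g, U, Ui, Rm, W, Fm, hg, h⟩ := h1 ⟨a1, a2⟩
  refine ⟨g, _, _, _, U, Ui, Rm, W, Fm, fun y θ => ?_, hc, fun j y θ => ?_, fun j y θ => ?_, h⟩
  · have := congrArg (evC y θ) hg
    rw [map_mul, map_add, map_mul, map_one, evC_apply, evC_apply, evC_apply, hc] at this
    rw [eq_inv_of_mul_eq_one_right this]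
    push_cast; rfl
  · rw [pow_two]; rfl
  · rw [two_mul]; rfl

end Pool.Agent.MP_1ba41f_an.K3
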