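import Mathlib
import Pool.Agent.MP_1ba41f_an.K3.Basic

/-! PROJECT KAM3: reducibility of an almost diagonal linear system. -/

noncomputable section
open Finset Matrix

namespace Pool.Agent.MP_1ba41f_an.K3

namespace Red
variable {A : Type} [CommRing A] [Algebra ℝ A]

/-- the error of the pair `(W, Δ)` -/
def err (δ : Derivation ℝ A A) (Λ : Fin 4 → A) (Rm : Matrix (Fin 4) (Fin 4) A)
    (v : (Fin 4 → Fin 4 → A) × (Fin 4 → A)) (i j : Fin 4) : A :=
  δ (v.1 i j) - (Λ i - Λ j) * v.1 i j + diagonal v.2 i j - Rm i j - ∑ k, Rm i k * v.1 k j +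
    v.1 i j * v.2 j

omit [Algebra ℝ A] in
theorem diag_add (a b : Fin 4 → A) (i j : Fin 4) :
    diagonal (a + b) i j = diagonal a i j + diagonal b i j := by
  by_cases h : i = j
  · subst h; simp
  · simp [diagonal_apply_ne _ h]

theorem err_add (δ : Derivation ℝ A A) (Λ : Fin 4 → A) (Rm : Matrix (Fin 4) (Fin 4) A)
    (v h : (Fin 4 → Fin 4 → A) × (Fin 4 → A)) (i j : Fin 4) :
    err δ Λ Rm (v + h) i j = err δ Λ Rm v i j +
      (δ (h.1 i j) - (Λ i - Λ j) * h.1 i j + diagonal h.2 i j) +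
      (-(∑ k, Rm i k * h.1 k j) + h.1 i j * v.2 j + v.1 i j * h.2 j + h.1 i j * h.2 j) := by
  simp only [err, Prod.fst_add, Prod.snd_add, Pi.add_apply, map_add, diag_add, mul_add,
    sum_add_distrib]
  ring

theorem diag_bd {J : Type} {S : Scale A J} {s c : ℝ} {a : Fin 4 → A} (hc : 0 ≤ c)
    (h : ∀ j, S.Bd s (a j) c) (i j : Fin 4) : S.Bd s (diagonal a i j) c := by
  by_cases e : i = j
  · subst e; simpa using h i
  · rw [diagonal_apply_ne _ e]; exact S.zero' s hc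

theorem final (δ : Derivation ℝ A A) (Λ : Fin 4 → A) (Rm : Matrix (Fin 4) (Fin 4) A)
    (v : (Fin 4 → Fin 4 → A) × (Fin 4 → A)) (h : ∀ i j, err δ Λ Rm v i j = 0) :
    (diagonal Λ + Rm) * (1 + Matrix.of v.1) - (Matrix.of v.1).map δ =
      (1 + Matrix.of v.1) * diagonal (Λ + v.2) := by
  ext i j
  have e := h i j
  unfold err at e
  rw [add_mul (1 : Matrix (Fin 4) (Fin 4) A), one_mul, mul_add, mul_one, add_mul]
  simp only [Matrix.sub_apply, Matrix.add_apply, diag_add,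
    diagonal_mul, mul_diagonal, Matrix.map_apply, Matrix.of_apply, Pi.add_apply]
  rw [Matrix.mul_apply]
  simp only [Matrix.of_apply]
  linear_combination -e

end Red

open Red in
theorem red : RedStmt := by
  intro A _ _ S s g κ Λ Rm hs hg hκ h18 hΛ hR hoff hdiag
  obtain ⟨L, L0, hL⟩ := Scale.An.uniform hΛ
  let n : Nm ((Fin 4 → Fin 4 → A) × (Fin 4 → A)) :=
    ((Nm.pi (Fin 4) (Nm.pi (Fin 4) (S.nm s hs))).scale g hg).prod (Nm.pi (Fin 4) (S.nmC s hs))
  have hn : ∀ v c, n.N v c ↔ (∀ i j, S.Bd s (v.1 i j) (c / g)) ∧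
      ∀ j, S.Cst (v.2 j) ∧ S.Bd s (v.2 j) c := fun v c => Iff.rfl
  obtain ⟨v, u, h1, h2⟩ := n.iterate (fun v k => ∀ i j, S.Bd s (err (S.D 0) Λ Rm v i j) k)
    (M := 1) zero_le_one hκ
    (fun i j => Scale.cong (Scale.neg (hR i j)) (by simp [err]))
    fun v k k0 k1 hv hP => by
      obtain ⟨hW, hΔ⟩ := (hn _ _).1 hv
      have hd := fun j => hdiag _ _ (Scale.neg (hP j j))
      choose wd m hm1 hm2 hm3 hm4 using hd
      have ho : ∀ i j, ∃ w, S.D 0 w - (Λ i - Λ j) * w + diagonal m i j =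
          -err (S.D 0) Λ Rm v i j ∧ S.Bd s w (k / g) := by
        intro i j
        by_cases e : i = j
        · subst e
          exact ⟨wd i, by rw [hm3, diagonal_apply_eq]; ring, hm4 i⟩
        · obtain ⟨w, a1, a2⟩ := hoff i j e _ _ (Scale.neg (hP i j))
          exact ⟨w, by rw [a1, diagonal_apply_ne _ e, add_zero], a2⟩
      choose w hw1 hw2 using ho
      refine ⟨(w, m), (hn _ _).2 ⟨fun i j => by rw [one_mul]; exact hw2 i j,
        fun j => ⟨hm1 j, by rw [one_mul]; exact hm2 j⟩⟩, fun i j => ?_⟩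
      rw [err_add, hw1, add_neg_cancel, zero_add]
      have b1 := Scale.neg (Scale.sum_card (ι := Fin 4) fun l => S.mul (hR i l) (hw2 l j))
      refine Scale.le (S.add (S.add (S.add b1 (S.mul (hw2 i j) (hΔ j).2))
        (S.mul (hW i j) (hm2 j))) (S.mul (hw2 i j) (hm2 j))) ?_
      have q0 : 0 ≤ k / g := div_nonneg k0 hg.le
      have q1 : k / g * k ≤ k / g * κ := mul_le_mul_of_nonneg_left k1 q0
      have q2 : k / g * (18 * κ) ≤ k / g * g := mul_le_mul_of_nonneg_left h18 q0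
      have q3 : k / g * g = k := div_mul_cancel₀ k hg.ne'
      have q4 : 2 * 1 * κ / g * k = 2 * (k / g * κ) := by ring
      simp only [Fintype.card_fin, Nat.cast_ofNat]
      rw [q4]
      nlinarith
  obtain ⟨hW, hΔ⟩ := (hn _ _).1 h1
  refine ⟨Matrix.of v.1, v.2, fun i j => by simpa using hW i j, fun j => (hΔ j).1,
    fun j => by simpa using (hΔ j).2, final _ _ _ _ fun i j => ?_⟩
  refine S.sep (s := s - s / 2) (c := κ + (2 * κ / g / (s / 2) + (L + L) * (2 * κ / g) + 2 * κ) +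
    (4 * (κ * (2 * κ / g)) + 2 * κ / g * (2 * κ) + 2 * κ / g * (2 * κ) +
      2 * κ / g * (2 * κ))) fun k => ?_
  obtain ⟨a1, a2, a3⟩ := h2 k
  obtain ⟨dW, dΔ⟩ := (hn _ _).1 a1
  obtain ⟨uW, uΔ⟩ := (hn _ _).1 a2
  have hl : s - s / 2 ≤ s := by linarith
  have e : v = u k + (v - u k) := by abel
  rw [e, err_add]
  have p2 : (0 : ℝ) < 2 ^ k := by positivity
  have t0 : 0 ≤ 2 * 1 * κ / 2 ^ k := by positivity
  have t1 : 2 * 1 * κ / 2 ^ k ≤ 2 * κ := by
    rw [mul_one]; exact div_le_self (by positivity) (one_le_pow₀ one_le_two)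
  have b1 := Scale.neg (Scale.sum_card (ι := Fin 4) fun l => S.mul (hR i l) (dW l j))
  have b2 := S.add (Scale.sub (S.der 0 (half_pos hs) (half_lt_self hs) (dW i j))
    (Scale.lev (S.mul (Scale.sub (hL i) (hL j)) (dW i j)) hl))
    (Scale.lev (diag_bd t0 (fun j => (dΔ j).2) i j) hl)
  have b3 := S.add (S.add (S.add b1 (S.mul (dW i j) (uΔ j).2)) (S.mul (uW i j) (dΔ j).2))
    (S.mul (dW i j) (Scale.le (dΔ j).2 t1))
  refine Scale.le (S.add (S.add (Scale.lev (a3 i j) hl) b2) (Scale.lev b3 hl)) (le_of_eq ?_)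
  simp only [Fintype.card_fin, Nat.cast_ofNat]
  ring

end Pool.Agent.MP_1ba41f_an.K3
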