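import Mathlib
import Pool.Agent.MP_1ba41f_an.K3.Spec

/-! PROJECT KAM3, module REG: the projection of the elliptic Floquet torus has a regular point. -/

noncomputable section
open Matrix Complex

namespace Pool.Agent.MP_1ba41f_an.K3

namespace Reg

theorem der0 {f : ℝ → ℂ} {d : ℂ} {θ : ℝ} (h : ∀ x, f x = 0) (hd : HasDerivAt f d θ) : d = 0 := by
  have e : f = fun _ => 0 := funext h
  rw [e] at hd
  exact hd.unique (hasDerivAt_const θ 0)

theorem prod_eq {p0 p1 p2 p3 : ℂ} (h : ∀ φ : ℝ, (p2 * exp (I * φ)).re * (I * p1 * exp (I * φ)).re =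
    (p3 * exp (I * φ)).re * (I * p0 * exp (I * φ)).re) : p2 * p1 - p3 * p0 = 0 := by
  have k : ∀ φ : ℝ, (p3.re * p0.im - p2.re * p1.im) * Real.cos φ ^ 2 +
      (p2.im * p1.im - p2.re * p1.re + p3.re * p0.re - p3.im * p0.im) * (Real.cos φ * Real.sin φ) +
      (p2.im * p1.re - p3.im * p0.re) * Real.sin φ ^ 2 = 0 := by
    intro φ
    have := h φ
    rw [mul_comm I (φ : ℂ)] at this
    simp only [mul_re, mul_im, I_re, I_im, exp_ofReal_mul_I_re, exp_ofReal_mul_I_im] at this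
    linear_combination this
  have k0 := k 0
  have k1 := k (Real.pi / 2)
  have k2 := k (Real.pi / 4)
  rw [Real.cos_zero, Real.sin_zero] at k0
  rw [Real.cos_pi_div_two, Real.sin_pi_div_two] at k1
  rw [Real.cos_pi_div_four, Real.sin_pi_div_four] at k2
  have s2 : √2 * √2 = 2 := Real.mul_self_sqrt (by norm_num)
  apply Complex.ext
  · simp only [sub_re, mul_re, zero_re]
    have a0 : p3.re * p0.im - p2.re * p1.im = 0 := by linear_combination k0
    have a1 : p2.im * p1.re - p3.im * p0.re = 0 := by linear_combination k1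
    rw [a0, a1] at k2
    linear_combination (-2) * k2 +
      (p2.im * p1.im - p2.re * p1.re + p3.re * p0.re - p3.im * p0.im) / 2 * s2
  · simp only [sub_im, mul_im, zero_im]
    linear_combination k1 - k0

theorem ex_lam {X Y U W : ℂ} (h : U * Y - W * X = 0) :
    (X = 0 ∧ Y = 0) ∨ ∃ l, U = l * X ∧ W = l * Y := by
  by_cases hX : X = 0
  · by_cases hY : Y = 0
    · exact Or.inl ⟨hX, hY⟩
    · refine Or.inr ⟨W / Y, ?_, by field_simp⟩
      field_simp; linear_combination h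
  · refine Or.inr ⟨U / X, by field_simp, ?_⟩
    field_simp; linear_combination -h

theorem core {X Y U W c s g : ℝ → ℂ} {l1 l2 e r : ℂ} (h1 : l1 ≠ 0) (h2 : l2 ≠ 0)
    (h12 : l1 - l2 ≠ 0) (he : e ≠ 0) (hg : ∀ θ, g θ * (1 + e * c θ) = 1)
    (hcs : ∀ θ, c θ ^ 2 + s θ ^ 2 = 1)
    (hc : ∀ θ, HasDerivAt c (-s θ) θ) (hs : ∀ θ, HasDerivAt s (c θ) θ)
    (hX : ∀ θ, HasDerivAt X (U θ - r * X θ) θ) (hY : ∀ θ, HasDerivAt Y (W θ - r * Y θ) θ)
    (hU : ∀ θ, HasDerivAt U (l1 * g θ * X θ + 2 * W θ - r * U θ) θ)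
    (hW : ∀ θ, HasDerivAt W (l2 * g θ * Y θ - 2 * U θ - r * W θ) θ)
    (F0 : ∀ θ, U θ * Y θ - W θ * X θ = 0) (θ : ℝ) : X θ = 0 ∧ Y θ = 0 ∧ U θ = 0 ∧ W θ = 0 := by
  have hh : ∀ θ, HasDerivAt (fun θ => 1 + e * c θ) (e * -s θ) θ :=
    fun θ => ((hc θ).const_mul e).const_add 1
  have F1 : ∀ θ, (l1 - l2) * (X θ * Y θ) + 2 * ((1 + e * c θ) * (X θ * U θ + Y θ * W θ)) = 0 := by
    intro θ
    have := der0 F0 (((hU θ).fun_mul (hY θ)).fun_sub ((hW θ).fun_mul (hX θ)))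
    linear_combination (1 + e * c θ) * this + 2 * r * (1 + e * c θ) * F0 θ -
      (l1 - l2) * X θ * Y θ * hg θ
  have F2 : ∀ θ, (l1 - l2) * (U θ * Y θ + X θ * W θ) - 2 * e * s θ * (X θ * U θ + Y θ * W θ) +
      2 * (1 + e * c θ) * (U θ ^ 2 + W θ ^ 2) + 2 * (l1 * X θ ^ 2 + l2 * Y θ ^ 2) = 0 := by
    intro θ
    have := der0 F1 ((((hX θ).fun_mul (hY θ)).const_mul (l1 - l2)).fun_add
      (((hh θ).fun_mul (((hX θ).fun_mul (hU θ)).fun_add ((hY θ).fun_mul (hW θ)))).const_mul 2))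
    linear_combination this + 2 * r * F1 θ + 4 * (1 + e * c θ) * F0 θ -
      2 * (l1 * X θ ^ 2 + l2 * Y θ ^ 2) * hg θ
  have hP : ∀ θ l, U θ = l * X θ → W θ = l * Y θ →
      HasDerivAt (fun θ => (l1 * (X θ * X θ) + l2 * (Y θ * Y θ)) * (X θ * X θ + Y θ * Y θ))
        (4 * (l - r) * ((l1 * (X θ * X θ) + l2 * (Y θ * Y θ)) * (X θ * X θ + Y θ * Y θ))) θ ∧
      HasDerivAt (fun θ => X θ * Y θ * (X θ * X θ + Y θ * Y θ))
        (4 * (l - r) * (X θ * Y θ * (X θ * X θ + Y θ * Y θ))) θ ∧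
      HasDerivAt (fun θ => X θ * Y θ * (X θ * Y θ)) (4 * (l - r) * (X θ * Y θ * (X θ * Y θ))) θ := by
    intro θ l e1 e2
    have a := hX θ
    have b := hY θ
    rw [e1] at a
    rw [e2] at b
    exact ⟨((((a.fun_mul a).const_mul l1).fun_add ((b.fun_mul b).const_mul l2)).fun_mul
        ((a.fun_mul a).fun_add (b.fun_mul b))).congr_deriv (by ring),
      ((a.fun_mul b).fun_mul ((a.fun_mul a).fun_add (b.fun_mul b))).congr_deriv (by ring),
      ((a.fun_mul b).fun_mul (a.fun_mul b)).congr_deriv (by ring)⟩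
  have G0 : ∀ θ, 4 * ((l1 * (X θ * X θ) + l2 * (Y θ * Y θ)) * (X θ * X θ + Y θ * Y θ) *
      (1 + e * c θ)) + 2 * (l1 - l2) * e * (X θ * Y θ * (X θ * X θ + Y θ * Y θ) * s θ) -
      (l1 - l2) ^ 2 * (X θ * Y θ * (X θ * Y θ)) = 0 := by
    intro θ
    rcases ex_lam (F0 θ) with ⟨a, b⟩ | ⟨l, a, b⟩
    · rw [a, b]; ring
    have f1 := F1 θ
    have f2 := F2 θ
    rw [a, b] at f1 f2
    linear_combination 2 * (X θ * X θ + Y θ * Y θ) * (1 + e * c θ) * f2 -
      ((l1 - l2) * (X θ * Y θ) - 2 * e * s θ * (X θ * X θ + Y θ * Y θ) +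
        2 * (1 + e * c θ) * l * (X θ * X θ + Y θ * Y θ)) * f1
  have G1 : ∀ θ, 2 * ((l1 * (X θ * X θ) + l2 * (Y θ * Y θ)) * (X θ * X θ + Y θ * Y θ) * s θ) -
      (l1 - l2) * (X θ * Y θ * (X θ * X θ + Y θ * Y θ) * c θ) = 0 := by
    intro θ
    rcases ex_lam (F0 θ) with ⟨a, b⟩ | ⟨l, a, b⟩
    · rw [a, b]; ring
    obtain ⟨p1, p2, p3⟩ := hP θ l a b
    have := der0 G0 ((((p1.fun_mul (hh θ)).const_mul 4).fun_add
      ((p2.fun_mul (hs θ)).const_mul (2 * (l1 - l2) * e))).fun_sub (p3.const_mul ((l1 - l2) ^ 2)))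
    refine mul_left_cancel₀ he ?_
    linear_combination (-1 / 2) * this + 2 * (l - r) * G0 θ
  have G2 : ∀ θ, 2 * ((l1 * (X θ * X θ) + l2 * (Y θ * Y θ)) * (X θ * X θ + Y θ * Y θ) * c θ) +
      (l1 - l2) * (X θ * Y θ * (X θ * X θ + Y θ * Y θ) * s θ) = 0 := by
    intro θ
    rcases ex_lam (F0 θ) with ⟨a, b⟩ | ⟨l, a, b⟩
    · rw [a, b]; ring
    obtain ⟨p1, p2, -⟩ := hP θ l a b
    have := der0 G1 (((p1.fun_mul (hs θ)).const_mul 2).fun_sub
      ((p2.fun_mul (hc θ)).const_mul (l1 - l2)))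
    linear_combination this - 4 * (l - r) * G1 θ
  have Z : ∀ θ, X θ = 0 ∧ Y θ = 0 := by
    intro θ
    have a : (l1 * (X θ * X θ) + l2 * (Y θ * Y θ)) * (X θ * X θ + Y θ * Y θ) = 0 := by
      linear_combination (s θ / 2) * G1 θ + (c θ / 2) * G2 θ -
        (l1 * (X θ * X θ) + l2 * (Y θ * Y θ)) * (X θ * X θ + Y θ * Y θ) * hcs θ
    have b : (l1 - l2) * (X θ * Y θ * (X θ * X θ + Y θ * Y θ)) = 0 := by
      linear_combination (-c θ) * G1 θ + s θ * G2 θ -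
        (l1 - l2) * (X θ * Y θ * (X θ * X θ + Y θ * Y θ)) * hcs θ
    have d : ((l1 - l2) * (X θ * Y θ)) ^ 2 = 0 := by
      linear_combination -G0 θ + 4 * (1 + e * c θ) * a + 2 * e * s θ * b
    have d2 := (mul_eq_zero.1 (pow_eq_zero_iff two_ne_zero |>.1 d)).resolve_left h12
    rcases mul_eq_zero.1 d2 with d3 | d3
    · refine ⟨d3, ?_⟩
      rw [d3] at a
      have : l2 * Y θ ^ 4 = 0 := by linear_combination a
      exact (pow_eq_zero_iff (by norm_num)).1 ((mul_eq_zero.1 this).resolve_left h2)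
    · refine ⟨?_, d3⟩
      rw [d3] at a
      have : l1 * X θ ^ 4 = 0 := by linear_combination a
      exact (pow_eq_zero_iff (by norm_num)).1 ((mul_eq_zero.1 this).resolve_left h1)
  have u := der0 (fun x => (Z x).1) (hX θ)
  have w := der0 (fun x => (Z x).2) (hY θ)
  rw [(Z θ).1] at u
  rw [(Z θ).2] at w
  exact ⟨(Z θ).1, (Z θ).2, by linear_combination u, by linear_combination w⟩

end Reg

open Reg in
theorem reg : RegStmt := by
  intro β e ρ p hβ he he2 hp h0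
  by_contra hn
  push Not at hn
  have hpos : ∀ θ, (1 + e * Real.cos θ : ℝ) ≠ 0 := fun θ => by
    have := Real.neg_one_le_cos θ
    nlinarith
  have key := core (X := fun θ => p θ 0) (Y := fun θ => p θ 1) (U := fun θ => p θ 2)
    (W := fun θ => p θ 3) (c := fun θ => (Real.cos θ : ℂ)) (s := fun θ => (Real.sin θ : ℂ))
    (g := fun θ => (((1 + e * Real.cos θ)⁻¹ : ℝ) : ℂ)) (l1 := ((2 * β + 3 : ℝ) : ℂ))
    (l2 := ((-β : ℝ) : ℂ)) (e := e) (r := I * ρ)
    (ofReal_ne_zero.2 (by linarith)) (ofReal_ne_zero.2 (by linarith))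
    (by rw [← ofReal_sub]; exact ofReal_ne_zero.2 (by linarith)) (ofReal_ne_zero.2 he.ne')
    (fun θ => by exact_mod_cast inv_mul_cancel₀ (hpos θ))
    (fun θ => by exact_mod_cast Real.cos_sq_add_sin_sq θ)
    (fun θ => by simpa only [ofReal_neg] using (Real.hasDerivAt_cos θ).ofReal_comp)
    (fun θ => (Real.hasDerivAt_sin θ).ofReal_comp)
    (fun θ => (hp θ 0).congr_deriv (by simp [Ac, Amat, mulVec, dotProduct, Fin.sum_univ_four]))
    (fun θ => (hp θ 1).congr_deriv (by simp [Ac, Amat, mulVec, dotProduct, Fin.sum_univ_four]))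
    (fun θ => (hp θ 2).congr_deriv (by simp [Ac, Amat, mulVec, dotProduct, Fin.sum_univ_four]))
    (fun θ => (hp θ 3).congr_deriv (by
      simp [Ac, Amat, mulVec, dotProduct, Fin.sum_univ_four]; ring))
    (fun θ => prod_eq (hn θ)) 0
  refine h0 (funext fun i => ?_)
  fin_cases i
  exacts [key.1, key.2.1, key.2.2.1, key.2.2.2]

end Pool.Agent.MP_1ba41f_an.K3
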