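import Mathlib
import Pool.Agent.MP_1ba41f_an.K3.Spec
import Pool.Agent.MP_1ba41f_an.K3.Model0

/-! PROJECT KAM3, module SOLV: small divisor, hyperbolic and gap solvers in the Fourier model. -/

noncomputable section
open Finset Complex

namespace Pool.Agent.MP_1ba41f_an.K3

namespace SolvX

section Gen
variable {Y : Type} [TopologicalSpace Y] {J : Type} [Fintype J]

/-- the divisor of a mode -/
def dv (om : J → ℝ) (μ : C(Y, ℂ)) (κ : J → ℤ) (y : Y) : ℂ :=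
  I * ((∑ j, om j * κ j : ℝ) : ℂ) - μ y

open Classical in
/-- the inverse divisor -/
def nn (om : J → ℝ) (μ : C(Y, ℂ)) (κ : J → ℤ) : C(Y, ℂ) :=
  if h : ∀ y, dv om μ κ y ≠ 0 then
    ⟨fun y => (dv om μ κ y)⁻¹, (continuous_const.sub μ.continuous).inv₀ h⟩ else 0

open Classical in
/-- indicator of the resonant modes -/
def rr (om : J → ℝ) (μ : C(Y, ℂ)) (κ : J → ℤ) : C(Y, ℂ) :=
  if ∀ y, dv om μ κ y ≠ 0 then 0 else 1

variable {om : J → ℝ} {μ : C(Y, ℂ)}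

theorem dv_nn (κ : J → ℤ) (y : Y) : dv om μ κ y * nn om μ κ y = 1 - rr om μ κ y := by
  unfold nn rr
  split_ifs with h
  · simpa using mul_inv_cancel₀ (h y)
  · simp

theorem norm_nn (κ : J → ℤ) (y : Y) : ‖nn om μ κ y‖ ≤ ‖dv om μ κ y‖⁻¹ := by
  unfold nn
  split_ifs with h <;> simp

theorem norm_rr (κ : J → ℤ) (y : Y) : ‖rr om μ κ y‖ ≤ 1 := by
  unfold rr
  split_ifs with h <;> simp

theorem rr_zero {κ : J → ℤ} (h : ∀ y, dv om μ κ y ≠ 0) (y : Y) : rr om μ κ y = 0 := by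
  unfold rr
  rw [if_pos h]
  rfl

theorem res {s c : ℝ} {F : Y → (J → ℝ) → ℂ} (h : BdF s F c) (om : J → ℝ) (μ : C(Y, ℂ)) :
    ∃ H M0 : Y → (J → ℝ) → ℂ, BdF s M0 c ∧
      ((∀ κ, κ ≠ 0 → ∀ y, dv om μ κ y ≠ 0) → ∀ y θ, M0 y θ = M0 y 0) ∧
      ((∀ κ y, dv om μ κ y ≠ 0) → ∀ y θ, M0 y θ = 0) ∧
      ∀ s' M : ℝ, 0 < s' → 0 ≤ M → (∀ κ y, ‖dv om μ κ y‖⁻¹ * Real.exp (max s' 0 * sz κ) ≤
        M * Real.exp (max s 0 * sz κ)) → BdF s' H (M * c) ∧ ∀ y θ, ∃ G : J → ℂ,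
          HasFDerivAt (H y) (grad G) θ ∧ ∑ j, om j * G j - μ y * H y θ = F y θ - M0 y θ := by
  obtain ⟨ι, k, a, b, h⟩ := h.rep
  have h0 := h.mult s (fun i => rr om μ (k i)) (fun _ => 1) zero_le_one (fun _ => zero_le_one)
    (fun i y => norm_rr _ _) fun _ => le_rfl
  refine ⟨fun y θ => ∑' i, nn om μ (k i) y * a i y * ph (k i) θ,
    fun y θ => ∑' i, rr om μ (k i) y * a i y * ph (k i) θ, by simpa using h0.bdF,
    fun hr y θ => tsum_congr fun i => ?_, fun hr y θ => ?_, fun s' M hs' hM hb => ?_⟩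
  · by_cases e : k i = 0
    · rw [e, ph_zero, ph_zero]
    · simp [rr_zero (hr _ e)]
  · simp [rr_zero (hr _)]
  have h1 := h.mult s' (fun i => nn om μ (k i))
    (fun i => M * Real.exp (max s 0 * sz (k i)) / Real.exp (max s' 0 * sz (k i))) hM
    (fun i => by positivity)
    (fun i y => (le_div_iff₀ (Real.exp_pos _)).2
      ((mul_le_mul_of_nonneg_right (norm_nn _ _) (Real.exp_pos _).le).trans (hb _ _)))
    fun i => le_of_eq (div_mul_cancel₀ _ (Real.exp_pos _).ne')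
  refine ⟨h1.bdF, fun y θ => ⟨_, (h1.der hs' y θ).2, ?_⟩⟩
  have h2 := (hasSum_sum (s := univ) fun j _ =>
    ((h1.der hs' y θ).1 j).hasSum.mul_left (om j : ℂ)).sub ((h1.hs y θ).mul_left (μ y))
  have h3 := (h.hs y θ).sub (h0.hs y θ)
  refine h2.unique (h3.congr_fun ?_)
  intro i
  have e := dv_nn (om := om) (μ := μ) (k i) y
  simp only [dv, ofReal_sum, ofReal_mul, ofReal_intCast, mul_sum] at e
  have e2 : ∑ j, (om j : ℂ) * (I * (k i j : ℂ) * (nn om μ (k i) * a i) y * ph (k i) θ) =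
      (∑ j, I * ((om j : ℂ) * k i j)) * (nn om μ (k i) y * a i y * ph (k i) θ) := by
    rw [sum_mul]
    exact sum_congr rfl fun j _ => by rw [ContinuousMap.mul_apply]; ring
  rw [e2]
  simp only [ContinuousMap.mul_apply]
  linear_combination (a i y * ph (k i) θ) * e

theorem grad_re {H : (J → ℝ) → ℂ} {G : J → ℂ} {θ : J → ℝ} (h : HasFDerivAt H (grad G) θ) :
    HasFDerivAt (fun θ => (H θ).re) (grad fun j => (G j).re) θ := by
  refine (Complex.reCLM.hasFDerivAt.comp θ h).congr_fderiv ?_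
  ext v
  simp [grad_apply]

end Gen

theorem lin_zero {φ : ℝ → ℝ} {c B : ℝ} (h : ∀ t, HasDerivAt φ c t) (hB : ∀ t, |φ t| ≤ B) :
    c = 0 := by
  by_contra hc
  have h1 : ∀ t, HasDerivAt (fun t => φ t - c * t) 0 t := fun t =>
    ((h t).sub ((hasDerivAt_id t).const_mul c)).congr_deriv (by ring)
  have h2 := is_const_of_deriv_eq_zero (fun t => (h1 t).differentiableAt)
    (fun t => (h1 t).deriv) ((2 * B + 1) / c) 0
  rw [mul_div_cancel₀ _ hc] at h2
  have a := abs_le.1 (hB ((2 * B + 1) / c))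
  have b := abs_le.1 (hB 0)
  linarith [a.2, b.1]

theorem exp_zero' {φ : ℝ → ℝ} {l B : ℝ} (hl : l ≠ 0) (h : ∀ t, HasDerivAt φ (l * φ t) t)
    (hB : ∀ t, |φ t| ≤ B) : φ 0 = 0 := by
  have h1 : ∀ t, HasDerivAt (fun t => φ t * Real.exp (-(l * t))) 0 t := fun t =>
    ((h t).mul ((hasDerivAt_id t).const_mul l).neg.exp).congr_deriv (by simp; ring)
  have h2 := fun t => is_const_of_deriv_eq_zero (fun t => (h1 t).differentiableAt)
    (fun t => (h1 t).deriv) t 0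
  have h3 : ∀ u : ℝ, |φ 0| ≤ B * Real.exp (-u) := fun u => by
    have := h2 (u / l)
    rw [mul_div_cancel₀ _ hl, mul_zero, neg_zero, Real.exp_zero, mul_one] at this
    rw [← this, abs_mul, abs_of_pos (Real.exp_pos _)]
    exact mul_le_mul_of_nonneg_right (hB _) (Real.exp_pos _).le
  have h4 := ge_of_tendsto' (Real.tendsto_exp_neg_atTop_nhds_zero.const_mul B) h3
  rw [mul_zero] at h4
  exact abs_nonpos_iff.1 h4

variable {Y : Type} [TopologicalSpace Y] {S : Scale (AlgR Y (Fin 2)) (Fin 2)} {ρ : ℝ}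

theorem L_apply (g : AlgR Y (Fin 2)) (y : Y) (θ : Fin 2 → ℝ) :
    (S.L ρ g).1 y θ = (S.D 0 g).1 y θ + ρ * (S.D 1 g).1 y θ := rfl

theorem line (hS : IsModR S) (g : AlgR Y (Fin 2)) (y : Y) (θ : Fin 2 → ℝ) (t : ℝ) :
    HasDerivAt (fun t : ℝ => g.1 y (θ + t • ![1, ρ])) ((S.L ρ g).1 y (θ + t • ![1, ρ])) t :=
  (hasDerivAt_line (hS.der g y _)).congr_deriv (by simp [L_apply])

theorem bdd (g : AlgR Y (Fin 2)) : ∃ B, ∀ y θ, |g.1 y θ| ≤ B :=
  let ⟨_, _, c, h⟩ := g.2; ⟨c, fun y θ => by simpa using h.norm_le y θ⟩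

theorem L_re (hS : IsModR S) {H : Y → (Fin 2 → ℝ) → ℂ} {g : AlgR Y (Fin 2)}
    (hg : g.1 = fun y θ => (H y θ).re) {y : Y} {θ : Fin 2 → ℝ} {G : Fin 2 → ℂ}
    (h : HasFDerivAt (H y) (grad G) θ) :
    (S.L ρ g).1 y θ = (∑ j, (((![1, ρ] : Fin 2 → ℝ) j : ℝ) : ℂ) * G j).re := by
  have h1 : HasFDerivAt (g.1 y) (grad fun j => (G j).re) θ := by rw [hg]; exact grad_re h
  rw [L_apply, hS.D_eq h1, hS.D_eq h1]
  simp

end SolvX

open SolvX

theorem solv : SolvStmt := by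
  intro Y _ _ S ρ γ hS hD
  have hγ := hD.1
  refine ⟨hγ, fun {s f c} hs hf => ?_, fun {s f c} l hs hl hf => ?_, fun {m g} hm hg => ?_,
    fun {g} l hl hg => ?_⟩
  · obtain ⟨H, M0, h0, h1, -, h2⟩ := res ((hS.bd _ _ _).1 hf) ![1, ρ] 0
    have hn : ∀ (κ : Fin 2 → ℤ) (y : Y), ‖dv ![1, ρ] 0 κ y‖ = |(κ 0 : ℝ) + κ 1 * ρ| := by
      intro κ y
      rw [dv, ContinuousMap.zero_apply, sub_zero, norm_mul, norm_I, one_mul, norm_real,
        Real.norm_eq_abs]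
      simp [mul_comm]
    have hp : ∀ κ : Fin 2 → ℤ, κ ≠ 0 → 0 < |(κ 0 : ℝ) + κ 1 * ρ| := fun κ hκ =>
      lt_of_le_of_ne (abs_nonneg _) fun e => by
        have := hD.2 κ hκ
        rw [← e, zero_mul] at this
        exact this.not_gt hγ
    have h3 := fun (d : ℝ) (hd : 0 < d) (hds : d < s) =>
      h2 (s - d) (1 / (γ * d)) (sub_pos.2 hds) (by positivity) fun κ y => by
        have a : ‖dv ![1, ρ] 0 κ y‖⁻¹ ≤ 1 / γ * sz κ := by
          rw [hn]
          by_cases e : κ = 0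
          · simp [e, sz_zero]
          · rw [inv_le_iff_one_le_mul₀ (hp κ e), one_div_mul_eq_div, div_mul_eq_mul_div,
              le_div_iff₀ hγ]
            linarith [hD.2 κ e]
        have b := mul_le_mul_of_nonneg_left (sz_wt hd hds κ) (one_div_pos.2 hγ).le
        refine (mul_le_mul_of_nonneg_right a (Real.exp_pos _).le).trans ?_
        rw [mul_assoc]
        refine b.trans (le_of_eq ?_)
        field_simp
    have h4 := h3 (s / 2) (half_pos hs) (half_lt_self hs)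
    refine ⟨mkR (fun y θ => (H y θ).re) (sub_pos.2 (half_lt_self hs)) h4.1.re,
      mkR (fun y θ => (M0 y θ).re) hs h0.re, hS.cst_of fun y θ => congrArg re
        (h1 (fun κ hκ y => norm_pos_iff.1 (by rw [hn]; exact hp κ hκ)) y θ),
      (hS.bd _ _ _).2 h0.re, extR fun y θ => ?_, fun d hd hds => (hS.bd _ _ _).2
        ((h3 d hd hds).1.re.mono le_rfl (le_of_eq (by ring)))⟩
    obtain ⟨G, g1, g2⟩ := h4.2 y θ
    rw [L_re hS rfl g1]
    rw [ContinuousMap.zero_apply, zero_mul, sub_zero] at g2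
    rw [g2]
    rfl
  · obtain ⟨H, M0, -, -, h1, h2⟩ := res ((hS.bd _ _ _).1 hf) ![1, ρ] (ContinuousMap.const Y (l : ℂ))
    have hl' := abs_pos.2 hl
    have hn : ∀ (κ : Fin 2 → ℤ) (y : Y), |l| ≤ ‖dv ![1, ρ] (ContinuousMap.const Y (l : ℂ)) κ y‖ :=
      fun κ y => le_trans (by simp [dv]) (abs_re_le_norm _)
    have h4 := h2 s (1 / |l|) hs (by positivity) fun κ y =>
      mul_le_mul_of_nonneg_right (by rw [one_div]; exact inv_anti₀ hl' (hn κ y))
        (Real.exp_pos _).le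
    refine ⟨mkR (fun y θ => (H y θ).re) hs h4.1.re, extR fun y θ => ?_,
      (hS.bd _ _ _).2 (h4.1.re.mono le_rfl (le_of_eq (by ring)))⟩
    obtain ⟨G, g1, g2⟩ := h4.2 y θ
    rw [h1 (fun κ y => norm_pos_iff.1 (hl'.trans_le (hn κ y))), sub_zero] at g2
    have g3 := congrArg re g2
    rw [sub_re, ← L_re hS (g := mkR (fun y θ => (H y θ).re) hs h4.1.re) rfl g1,
      ContinuousMap.const_apply, re_ofReal_mul] at g3
    exact g3
  · obtain ⟨B, hB⟩ := bdd g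
    refine extR fun y θ => ?_
    rw [hS.cst_apply hm]
    exact lin_zero (φ := fun t : ℝ => g.1 y (0 + t • ![1, ρ])) (fun t =>
      (line hS g y 0 t).congr_deriv (by rw [hg, hS.cst_apply hm])) fun t => hB _ _
  · obtain ⟨B, hB⟩ := bdd g
    refine extR fun y θ => ?_
    have := exp_zero' (φ := fun t : ℝ => g.1 y (θ + t • ![1, ρ])) hl (fun t =>
      (line hS g y θ t).congr_deriv (by rw [hg]; rfl)) fun t => hB _ _
    rw [zero_smul, add_zero] at this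
    exact this

theorem gap : GapStmt := by
  intro Y _ _ S hS
  refine ⟨fun μ f s c g hs hg hμ hn hf => ?_, fun f s c hs hf => ?_⟩
  · let μc : C(Y, ℂ) := ⟨fun y => μ.1 y 0, (contC μ).comp (f := fun y : Y => (y, 0)) (by fun_prop)⟩
    obtain ⟨H, M0, -, -, h1, h2⟩ := res ((hS.bd _ _ _).1 hf) (fun _ => 1) μc
    have hn' : ∀ (κ : Fin 1 → ℤ) (y : Y), g ≤ ‖dv (fun _ => 1) μc κ y‖ := fun κ y =>
      (hn y (κ 0)).trans_eq (by simp [dv, μc, mul_comm])
    have h4 := h2 s (1 / g) hs (by positivity) fun κ y =>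
      mul_le_mul_of_nonneg_right (by rw [one_div]; exact inv_anti₀ hg (hn' κ y))
        (Real.exp_pos _).le
    refine ⟨mkC H hs h4.1, extC fun y θ => ?_,
      (hS.bd _ _ _).2 (h4.1.mono le_rfl (le_of_eq (by ring)))⟩
    obtain ⟨G, g1, g2⟩ := h4.2 y θ
    rw [h1 (fun κ y => norm_pos_iff.1 (hg.trans_le (hn' κ y))), sub_zero] at g2
    have g3 : (S.D 0 (mkC H hs h4.1)).1 y θ = G 0 := hS.D_eq (f := mkC H hs h4.1) g1 0
    change (S.D 0 (mkC H hs h4.1)).1 y θ - μ.1 y θ * H y θ = _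
    rw [g3, hS.cst_apply hμ, ← g2]
    simp [μc]
  · obtain ⟨H, M0, h0, h1, -, h2⟩ := res ((hS.bd _ _ _).1 hf) (fun _ => 1) 0
    have hn : ∀ (κ : Fin 1 → ℤ) (y : Y), κ ≠ 0 → 1 ≤ ‖dv (fun _ => 1) 0 κ y‖ := fun κ y hκ => by
      have e : κ 0 ≠ 0 := fun e => hκ (funext fun j => by rw [Subsingleton.elim j 0]; exact e)
      have : (1 : ℝ) ≤ |(κ 0 : ℝ)| := by exact_mod_cast Int.one_le_abs e
      simpa [dv] using this
    have h4 := h2 s 1 hs zero_le_one fun κ y =>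
      mul_le_mul_of_nonneg_right (by
        by_cases e : κ = 0
        · simp [e, dv]
        · exact inv_le_one_of_one_le₀ (hn κ y e)) (Real.exp_pos _).le
    refine ⟨mkC H hs h4.1, mkC M0 hs h0, hS.cst_of fun y θ =>
      h1 (fun κ hκ y => norm_pos_iff.1 (one_pos.trans_le (hn κ y hκ))) y θ, (hS.bd _ _ _).2 h0,
      extC fun y θ => ?_, (hS.bd _ _ _).2 (h4.1.mono le_rfl (le_of_eq (one_mul c)))⟩
    obtain ⟨G, g1, g2⟩ := h4.2 y θ
    have g3 : (S.D 0 (mkC H hs h4.1)).1 y θ = G 0 := hS.D_eq (f := mkC H hs h4.1) g1 0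
    change _ = f.1 y θ - M0 y θ
    rw [g3, ← g2]
    simp

end Pool.Agent.MP_1ba41f_an.K3
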