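import Mathlib
import Pool.Agent.MP_1ba41f_an.K3.Basic

/-! PROJECT KAM3: one Newton step. -/

noncomputable section
open Finset Matrix Filter Topology

namespace Pool.Agent.MP_1ba41f_an.K3

namespace Step
variable {A : Type} [CommRing A] [Algebra ℝ A] {S : Scale A (Fin 2)} {ρ γ S0 : ℝ} {b : Base A}

/-- admissible tuples -/
structure Tup (S : Scale A (Fin 2)) (ρ S0 : ℝ) (b : Base A) (F : Fd A) where
  s : ℝ
  δ : ℝ
  η : ℝ
  ε : ℝ
  K : Fin 4 → A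
  e : A
  p : A
  adm : Adm S ρ S0 b F s δ η ε K e p

theorem odd (hb : IsBase S ρ S0 b) {T f : Fin 4 → A} {Q : Matrix (Fin 4) (Fin 4) A}
    (hT : ∀ i, S.r (T i) = -(b.R i • T i)) (hf : ∀ i, S.r (f i) = -(b.R i • f i))
    (hQ : ∀ j, Q 1 j = ∑ i, b.Om i j • T i) : S.r ((Q *ᵥ f) 1) = -(Q *ᵥ f) 1 := by
  simp only [Matrix.mulVec, dotProduct, hQ, sum_mul, map_sum, ← sum_neg_distrib]
  refine sum_congr rfl fun j _ => sum_congr rfl fun i _ => ?_
  rw [map_mul, map_smul, hT, hf]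
  have := congrArg (algebraMap ℝ A) (hb.ROm i j)
  simp only [map_mul, map_neg, Algebra.smul_def] at this ⊢
  linear_combination (T i * f j) * this

/-- symmetrisation -/
def sy (S : Scale A (Fin 2)) (b : Base A) (ξ : Fin 4 → A) (i : Fin 4) : A :=
  (1 / 2 : ℝ) • (ξ i + b.R i • S.r (ξ i))

theorem sy_r (hb : IsBase S ρ S0 b) (ξ : Fin 4 → A) (i : Fin 4) :
    S.r (sy S b ξ i) = b.R i • sy S b ξ i := by
  unfold sy
  rw [map_smul, map_add, map_smul, S.rr, smul_comm, smul_add (b.R i), smul_smul (b.R i), hb.RR,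
    one_smul, add_comm]

theorem sy_eq (hb : IsBase S ρ S0 b) {B : Matrix (Fin 4) (Fin 4) A} {ξ f : Fin 4 → A}
    (hB : ∀ i j, S.r (B i j) = -((b.R i * b.R j) • B i j))
    (hf : ∀ i, S.r (f i) = -(b.R i • f i)) (i : Fin 4) :
    S.L ρ (sy S b ξ i) - (B *ᵥ sy S b ξ) i - f i = (1 / 2 : ℝ) •
      ((S.L ρ (ξ i) - (B *ᵥ ξ) i - f i) - b.R i • S.r (S.L ρ (ξ i) - (B *ᵥ ξ) i - f i)) := by
  have h2 : algebraMap ℝ A (1 / 2) * 2 = 1 := by
    rw [show (2 : A) = algebraMap ℝ A 2 from (map_ofNat _ 2).symm, ← map_mul]; norm_num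
  have hR := congrArg (algebraMap ℝ A) (hb.RR i)
  rw [map_sub, map_sub, Scale.rL, hf]
  simp only [sy, Derivation.map_smul, map_add, Matrix.mulVec, dotProduct, Fin.sum_univ_four,
    map_mul, hB]
  simp only [Algebra.smul_def, map_mul, map_one] at hR ⊢
  linear_combination (f i) * h2 + algebraMap ℝ A (1 / 2) * (f i +
    B i 0 * algebraMap ℝ A (b.R 0) * S.r (ξ 0) + B i 1 * algebraMap ℝ A (b.R 1) * S.r (ξ 1) +
    B i 2 * algebraMap ℝ A (b.R 2) * S.r (ξ 2) + B i 3 * algebraMap ℝ A (b.R 3) * S.r (ξ 3)) * hR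

theorem O_mean {ι : Type} {Fl : Filter ι} (hS : S.Solv ρ γ) {s' : ℝ} (hs : 0 < s')
    {f m a : ι → A} {w : ι → ℝ} (l : ι → ℝ) (h : O S Fl (fun _ => s') f w)
    (hm : ∀ᶠ i in Fl, S.Cst (m i) ∧ S.L ρ (a i) = f i - m i) : O S Fl l m w := by
  obtain ⟨C, c0, h⟩ := h
  refine ⟨C, c0, ?_⟩
  filter_upwards [h, hm] with i h hm
  exact Scale.mean_bd hS _ hs h hm.1 hm.2

end Step

open Step in
theorem step : FrameStmt → LinStmt → StepStmt := by
  intro hFr hLin A _ _ S ρ γ S0 b F C0 r0 hS hb hF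
  obtain ⟨C1, η1, hη1, hfr⟩ := hFr A S ρ S0 b F C0 r0 hb hF
  obtain ⟨C', η2, hη2, hlin⟩ := hLin A S ρ γ S0 b C1 hS hb
  have hS0 := hb.pos
  let ι := Tup S ρ S0 b F
  let Fl : Filter ι := comap Tup.η (𝓝 0)
  have hη : Tendsto Tup.η Fl (𝓝 0) := tendsto_comap
  have ev : ∀ c, 0 < c → ∀ᶠ i in Fl, i.η ≤ c := fun c hc => by simpa using ev_le hη 1 hc
  have al : ∀ {P : ι → Prop}, (∀ i, P i) → ∀ᶠ i in Fl, P i := fun h => .of_forall h
  have d0 : ∀ i : ι, 0 < i.δ := fun i => i.adm.num.d0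
  have d1 : ∀ i : ι, i.δ ≤ 1 := fun i => i.adm.num.d1
  have e0 : ∀ i : ι, 0 < i.ε := fun i => i.adm.num.e0
  have h0 : ∀ i : ι, 0 < i.η := fun i => i.adm.num.h0
  have s1 : ∀ i : ι, S0 / 2 ≤ i.s - 3 * i.δ := fun i => i.adm.num.s1
  have s2 : ∀ i : ι, i.s ≤ S0 := fun i => i.adm.num.s2
  have sp : ∀ i : ι, 0 < i.s := fun i => by linarith [s1 i, d0 i]
  have s4 : ∀ i : ι, S0 / 4 ≤ i.s := fun i => by linarith [s1 i, d0 i]
  let T : ι → Fin 4 → A := fun i k => S.D 1 (i.K k)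
  let B : ι → Matrix (Fin 4) (Fin 4) A := fun i => F.B i.K i.e i.p
  let Z : ι → Fin 4 → A := fun i => F.Z i.K i.e i.p
  let E : ι → Fin 4 → A := fun i k => -(S.L ρ (i.K k) - F.X i.K i.e i.p k)
  let l : ι → ℝ := fun i => i.s - 2 * i.δ
  have lp : ∀ i : ι, i.δ < l i := fun i => by simp only [l]; linarith [s1 i]
  have near : ∀ᶠ i in Fl, ∀ s', s' ≤ i.s → Near S b s' r0 i.K i.e i.p :=
    (ev r0 hF.pos).mono fun i h s' hs' => ⟨fun k => S.mono (i.adm.near.K k) hs' h,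
      S.mono i.adm.near.e hs' h, S.mono i.adm.near.p hs' h⟩
  have rev := near.mono fun i h =>
    hF.rev (sp i) (s2 i) (h _ le_rfl) i.adm.ce i.adm.cp i.adm.sym
  have rT : ∀ i k, S.r (T i k) = -(b.R k • T i k) := fun i k => by
    simp only [T]; rw [S.rD, i.adm.sym, Derivation.map_smul]
  have rE : ∀ᶠ i in Fl, ∀ k, S.r (E i k) = -(b.R k • E i k) := rev.mono fun i h k => by
    simp only [E]
    rw [map_neg, map_sub, Scale.rL, i.adm.sym, h.1, Derivation.map_smul, smul_neg, smul_sub]; ring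
  -- frames
  obtain ⟨Y, hY⟩ := ev_choice (F := Fl) (P := fun i (y : Matrix (Fin 4) (Fin 4) A ×
      Matrix (Fin 4) (Fin 4) A × Matrix (Fin 4) (Fin 4) A) =>
      IsFrame S ρ b i.s i.δ i.η i.ε C1 (T i) (B i) y.1 y.2.1 y.2.2)
    ((ev η1 hη1).mono fun i h => by
      obtain ⟨P, Q, G, h⟩ := hfr _ _ _ _ _ _ _ i.adm h
      exact ⟨(P, Q, G), h⟩)
  let Q : ι → Matrix (Fin 4) (Fin 4) A := fun i => (Y i).2.1
  have oQ : ∀ j k, O S Fl Tup.s (fun i => Q i j k) fun _ => 1 := fun j k =>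
    O.of_bdC (C := C1) (hY.mono fun i h => by simpa using h.bQ j k) (al fun _ => zero_le_one)
  have oQ' : ∀ j k, O S Fl Tup.s (fun i => Q i j k - b.Q0 j k) Tup.η := fun j k =>
    O.of_bdC (hY.mono fun i h => h.nQ j k) (al fun i => (h0 i).le)
  have oZ' : ∀ k, O S Fl Tup.s (fun i => Z i k - b.Z0 k) Tup.η := fun k =>
    O.of_bdC ((ev r0 hF.pos).mono fun i h => hF.lipZ (sp i) (s2 i) i.adm.near h k)
      (al fun i => (h0 i).le)
  have oZ : ∀ k, O S Fl Tup.s (fun i => Z i k) fun _ => 1 := fun k =>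
    (oZ' k).near hη (O.of_an (hb.anZ k) (al s2))
  obtain ⟨w, w0, hw⟩ := O.uniform oZ fun _ => al fun _ => zero_le_one
  have oE : ∀ k, O S Fl Tup.s (fun i => E i k) Tup.ε := fun k =>
    O.of_bd (al fun i => Scale.neg (i.adm.err k))
  -- the two linear problems
  have lin : ∀ (f : ι → Fin 4 → A) (v : ι → ℝ), (∀ᶠ i in Fl, ∀ k, S.Bd i.s (f i k) (v i)) →
      (∀ᶠ i in Fl, ∀ k, S.r (f i k) = -(b.R k • f i k)) →
      ∃ y : ι → (Fin 4 → A) × A × A × A, ∀ᶠ i in Fl, S.Cst (y i).2.1 ∧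
        (∀ k, S.Bd (l i) ((y i).1 k) (C' * (v i / i.δ ^ 2))) ∧
        (∀ k, S.Bd (l i) (S.L ρ ((y i).1 k) - (B i *ᵥ (y i).1) k - f i k + (y i).2.1 * T i k)
          (C' * (i.ε * v i / i.δ ^ 3))) ∧
        S.L ρ (y i).2.2.1 = (Q i *ᵥ f i) 0 + (y i).2.2.2 - (y i).2.1 ∧
        S.Bd (S0 / 4) (y i).2.2.2 (C' * (i.η * v i)) := fun f v h1 h2 => by
    refine ev_choice (P := fun i (y : (Fin 4 → A) × A × A × A) => S.Cst y.2.1 ∧
        (∀ k, S.Bd (l i) (y.1 k) (C' * (v i / i.δ ^ 2))) ∧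
        (∀ k, S.Bd (l i) (S.L ρ (y.1 k) - (B i *ᵥ y.1) k - f i k + y.2.1 * T i k)
          (C' * (i.ε * v i / i.δ ^ 3))) ∧
        S.L ρ y.2.2.1 = (Q i *ᵥ f i) 0 + y.2.2.2 - y.2.1 ∧
        S.Bd (S0 / 4) y.2.2.2 (C' * (i.η * v i))) ?_
    filter_upwards [h1, h2, hY, ev η2 hη2] with i h1 h2 hY h
    obtain ⟨ξ, m, a, Φ, h⟩ := hlin _ _ _ _ _ _ _ _ _ i.adm.num h hY (f i) (v i) h1
      (odd hb (rT i) h2 hY.row)
    exact ⟨(ξ, m, a, Φ), h⟩
  obtain ⟨y0, hy0⟩ := lin E Tup.ε (al fun i k => Scale.neg (i.adm.err k)) rE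
  obtain ⟨y1, hy1⟩ := lin Z (fun _ => w) (hw.mono fun i h k => by simpa using h k)
    (rev.mono fun i h => h.2.2)
  have p2 : ∀ i : ι, 0 ≤ i.ε / i.δ ^ 2 := fun i => by have := d0 i; have := e0 i; positivity
  have p3 : ∀ i : ι, 0 ≤ i.ε / i.δ ^ 3 := fun i => by have := d0 i; have := e0 i; positivity
  have p4 : ∀ i : ι, 0 ≤ i.ε ^ 2 / i.δ ^ 4 := fun i => by have := d0 i; positivity
  have om0 : O S Fl l (fun i => (y0 i).2.1) Tup.ε := by
    refine O_mean hS (s' := S0 / 4) (by linarith) (a := fun i => (y0 i).2.2.1) l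
      (f := fun i => (Q i *ᵥ E i) 0 + (y0 i).2.2.2) (O.add ?_ ?_)
      (hy0.mono fun i h => ⟨h.1, h.2.2.2.1⟩)
    · exact ((O.mulVec oQ oE 0).wt' fun _ => one_mul _).lev (al s4)
    · refine (O.of_bdC (hy0.mono fun i h => h.2.2.2.2)
        (al fun i => mul_nonneg (h0 i).le (e0 i).le)).wt ((ev 1 one_pos).mono fun i h => ?_)
      exact mul_le_of_le_one_left (e0 i).le h
  have om1 : O S Fl l (fun i => (y1 i).2.1 - algebraMap ℝ A b.t) Tup.η := by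
    refine O_mean hS (s' := S0 / 4) (by linarith) (a := fun i => (y1 i).2.2.1 - b.g0) l
      (f := fun i => ((Q i - b.Q0) *ᵥ Z i) 0 + (b.Q0 *ᵥ (Z i - b.Z0)) 0 + (y1 i).2.2.2)
      (O.add (O.add ?_ ?_) ?_) (hy1.mono fun i h => ⟨h.1.sub (Scale.Cst.alg _), ?_⟩)
    · exact ((O.mulVec (M := fun i => Q i - b.Q0) oQ' oZ 0).wt' fun _ => mul_one _).lev (al s4)
    · exact ((O.mulVec (M := fun _ => b.Q0) (v := fun i => Z i - b.Z0)
        (fun j k => O.of_an (hb.anQ j k) (al s2)) oZ' 0).wt' fun _ => one_mul _).lev (al s4)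
    · exact O.of_bdC (C := C' * w) (hy1.mono fun i h => Scale.le h.2.2.2.2 (le_of_eq (by ring)))
        (al fun i => (h0 i).le)
    · rw [map_sub, h.2.2.2.1, sub_mulVec, mulVec_sub, Pi.sub_apply, Pi.sub_apply, hb.tors]; ring
  obtain ⟨hinv, oinv⟩ := O.inv (g0 := fun _ => algebraMap ℝ A b.t⁻¹) om1 hη
    (al fun i => (d0 i).trans (lp i))
    (al fun _ => by rw [← map_mul, mul_inv_cancel₀ hb.t0, map_one])
    (O.of_an (Scale.An.alg S0 _) (al fun i => by simp only [l]; linarith [s2 i, d0 i]))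
  have oinv1 := oinv.near hη
    (O.of_an (Scale.An.alg S0 _) (al fun i => by simp only [l]; linarith [s2 i, d0 i]))
  let x : ι → A := fun i => -((y0 i).2.1 * Ring.inverse (y1 i).2.1)
  have ox : O S Fl l x Tup.ε := (om0.mul1 oinv1).neg
  have cx : ∀ᶠ i in Fl, S.Cst (x i) := by
    filter_upwards [hy0, hy1, hinv] with i a0 a1 a2
    exact (a0.1.mul (a1.1.inv a2)).neg
  let ξ' : ι → Fin 4 → A := fun i k => (y0 i).1 k + x i * (y1 i).1 k
  let f : ι → Fin 4 → A := fun i k => E i k + Z i k * x i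
  have oξ' : ∀ k, O S Fl l (fun i => ξ' i k) fun i => i.ε / i.δ ^ 2 := fun k =>
    (O.of_bdC (hy0.mono fun i h => h.2.1 k) (al p2)).add
      ((ox.mul (O.of_bdC (C := C' * w) (w := fun i => 1 / i.δ ^ 2)
        (hy1.mono fun i h => Scale.le (h.2.1 k) (le_of_eq (by ring)))
        (al fun i => by have := d0 i; positivity))).wt' fun i => by ring)
  have oR : ∀ k, O S Fl l (fun i => S.L ρ (ξ' i k) - (B i *ᵥ ξ' i) k - f i k)
      fun i => i.ε ^ 2 / i.δ ^ 4 := fun k => by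
    refine (((O.of_bdC (hy0.mono fun i h => h.2.2.1 k)
      (al fun i => by have := d0 i; have := e0 i; positivity)).add
      ((ox.mul (O.of_bdC (C := C' * w) (w := fun i => i.ε / i.δ ^ 3)
        (hy1.mono fun i h => Scale.le (h.2.2.1 k) (le_of_eq (by ring))) (al p3))).wt'
        fun i => by ring)).congr ?_).wt (al fun i => ?_)
    · filter_upwards [hinv, cx] with i a2 a3
      simp only [ξ', f, map_add, Derivation.leibniz, a3.L, Matrix.mulVec, dotProduct,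
        Fin.sum_univ_four, smul_eq_mul]
      simp only [x]
      linear_combination (-((y0 i).2.1 * T i k)) * a2
    · rw [← pow_two]
      exact div_le_div_of_nonneg_left (sq_nonneg _) (pow_pos (d0 i) _)
        (pow_le_pow_of_le_one (d0 i).le (d1 i) (by norm_num))
  let ξ : ι → Fin 4 → A := fun i => sy S b (ξ' i)
  have oξ : ∀ k, O S Fl l (fun i => ξ i k) fun i => i.ε / i.δ ^ 2 := fun k =>
    ((oξ' k).add ((oξ' k).refl.smul (b.R k))).smul (1 / 2)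
  have oRs : ∀ k, O S Fl l (fun i => S.L ρ (ξ i k) - (B i *ᵥ ξ i) k - f i k)
      fun i => i.ε ^ 2 / i.δ ^ 4 := fun k => by
    refine (((oR k).sub ((oR k).refl.smul (b.R k))).smul (1 / 2)).congr ?_
    filter_upwards [rev, rE, cx] with i a1 a2 a3
    refine (sy_eq hb a1.2.1 (fun j => ?_) k).symm
    simp only [f]
    rw [map_add, map_mul, a2, a3.r, show S.r (Z i j) = _ from a1.2.2 j, smul_add, neg_mul,
      smul_mul_assoc, neg_add]
  have q1 : ∀ i : ι, i.ε ≤ i.ε / i.δ ^ 2 := fun i =>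
    le_div_self (e0 i).le (pow_pos (d0 i) _) (pow_le_one₀ (d0 i).le (d1 i))
  have q2 : ∀ i : ι, i.ε / i.δ ^ 2 ≤ i.ε / i.δ ^ 3 := fun i =>
    div_le_div_of_nonneg_left (e0 i).le (pow_pos (d0 i) _)
      (pow_le_pow_of_le_one (d0 i).le (d1 i) (by norm_num))
  have q3 : ∀ i : ι, i.ε / i.δ ^ 2 ≤ i.η := fun i =>
    (div_le_iff₀ (pow_pos (d0 i) _)).2 i.adm.num.e1
  have ox2 : O S Fl l x fun i => i.ε / i.δ ^ 2 := ox.wt (al q1)
  obtain ⟨c1, c10, hc1⟩ := O.uniform oξ fun _ => al p2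
  obtain ⟨c2, c20, hc2⟩ := ox2
  have oT : ∀ k, O S Fl l (fun i => F.X (i.K + ξ i) (i.e + x i) i.p k - F.X i.K i.e i.p k -
      (B i *ᵥ ξ i) k - Z i k * x i) fun i => i.ε ^ 2 / i.δ ^ 4 := fun k => by
    refine O.of_bdC (C := C0 * (c1 + c2) ^ 2) ?_ (al p4)
    filter_upwards [near, hc1, hc2, ev_le hη (c1 + c2) hF.pos] with i a1 a2 a3 a4
    have hl : l i ≤ i.s := by simp only [l]; linarith [d0 i]
    refine Scale.le (hF.tay (κ := (c1 + c2) * (i.ε / i.δ ^ 2)) ((d0 i).trans (lp i))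
      (hl.trans (s2 i)) (a1 _ hl) (fun j => Scale.le (a2 j) ?_) (Scale.le a3 ?_) ?_ k)
      (le_of_eq (by ring))
    · nlinarith [mul_nonneg c20 (p2 i)]
    · nlinarith [mul_nonneg c10 (p2 i)]
    · exact (mul_le_mul_of_nonneg_left (q3 i) (add_nonneg c10 c20)).trans a4
  have hl3 : ∀ᶠ i in Fl, i.s - 3 * i.δ ≤ l i := al fun i => by simp only [l]; linarith [d0 i]
  have o1 : ∀ k, O S Fl (fun i => i.s - 3 * i.δ) (fun i => ξ i k) fun i => i.ε / i.δ ^ 3 :=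
    fun k => ((oξ k).wt (al q2)).lev hl3
  have o2 : ∀ k, O S Fl (fun i => i.s - 3 * i.δ) (fun i => S.D 1 (ξ i k))
      fun i => i.ε / i.δ ^ 3 := fun k =>
    (((oξ k).der 1 (d := Tup.δ) (al fun i => ⟨d0 i, lp i⟩)).wt' fun i => by
      rw [div_div, ← pow_succ]).lev (al fun i => by simp only [l]; linarith)
  have o3 : O S Fl (fun i => i.s - 3 * i.δ) x fun i => i.ε / i.δ ^ 3 :=
    (ox.wt (al fun i => (q1 i).trans (q2 i))).lev hl3
  have o4 : ∀ k, O S Fl (fun i => i.s - 3 * i.δ)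
      (fun i => S.L ρ ((i.K + ξ i) k) - F.X (i.K + ξ i) (i.e + x i) i.p k)
      fun i => i.ε ^ 2 / i.δ ^ 4 := fun k =>
    (((oRs k).sub (oT k)).congr' fun i => by
      simp only [f, E, Pi.add_apply, map_add]; ring).lev hl3
  obtain ⟨a1, a10, h1⟩ := O.uniform o1 fun _ => al p3
  obtain ⟨a2, a20, h2⟩ := O.uniform o2 fun _ => al p3
  obtain ⟨a3, a30, h3⟩ := o3
  obtain ⟨a4, a40, h4⟩ := O.uniform o4 fun _ => al p4
  obtain ⟨η0, hη0, H⟩ := ev_comap (h1.and (h2.and (h3.and (h4.and cx))))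
  refine ⟨a1 + a2 + a3 + a4, η0, hη0, fun s δ η ε K e p adm hle => ?_⟩
  let i : ι := ⟨s, δ, η, ε, K, e, p, adm⟩
  obtain ⟨g1, g2, g3, g4, g5⟩ := H i (by rw [abs_of_pos (h0 i)]; exact hle)
  exact ⟨ξ i, x i, g5, sy_r hb _,
    fun k => Scale.le (g1 k) (mul_le_mul_of_nonneg_right (by linarith) (p3 i)),
    fun k => Scale.le (g2 k) (mul_le_mul_of_nonneg_right (by linarith) (p3 i)),
    Scale.le g3 (mul_le_mul_of_nonneg_right (by linarith) (p3 i)),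
    fun k => Scale.le (g4 k) (mul_le_mul_of_nonneg_right (by linarith) (p4 i))⟩

end Pool.Agent.MP_1ba41f_an.K3
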