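import Mathlib
import Pool.Agent.MP_1ba41f_an.K3.Spec

/-! PROJECT KAM3, module SYM: normalisation of the Floquet solutions. -/

noncomputable section
open Finset Matrix Complex

namespace Pool.Agent.MP_1ba41f_an.K3

namespace SymA

theorem per {s : ℝ} {f : ℝ → ℂ} (h : An1 s f) (θ : ℝ) : f (θ + 2 * Real.pi) = f θ := by
  obtain ⟨c, I', k, a, b, -, -, -, -, h4⟩ := h
  have h1 := h4 () fun _ => θ + 2 * Real.pi
  have h2 := h4 () fun _ => θ
  have e : ∀ i, ph (k i) (fun _ => θ + 2 * Real.pi) = ph (k i) fun _ => θ := fun i => by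
    simp only [ph, univ_unique, sum_singleton]
    rw [Complex.exp_eq_exp_iff_exists_int]
    exact ⟨k i default, by push_cast; ring⟩
  simp only [e] at h1
  exact h1.unique h2

theorem an_mul {s : ℝ} {f : ℝ → ℂ} (h : An1 s f) (c : ℂ) : An1 s fun θ => c * f θ :=
  let ⟨_, h⟩ := h
  ⟨_, (BdF.const s c).mul h⟩

theorem sol_exp {f : ℝ → ℂ} {c : ℂ} (h : ∀ θ, HasDerivAt f (c * f θ) θ) (θ : ℝ) :
    f θ = f 0 * exp (c * θ) := by
  have h1 : ∀ θ : ℝ, HasDerivAt (fun θ : ℝ => f θ * exp (-(c * θ))) 0 θ := fun θ => by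
    have h2 : HasDerivAt (fun θ : ℝ => -(c * (θ : ℂ))) (-c) θ :=
      ((hasDerivAt_id θ).ofReal_comp.const_mul c).neg.congr_deriv (by simp)
    exact ((h θ).mul h2.cexp).congr_deriv (by ring)
  have h2 := is_const_of_deriv_eq_zero (fun θ => (h1 θ).differentiableAt) (fun θ => (h1 θ).deriv)
    θ 0
  simp only [ofReal_zero, mul_zero, neg_zero, Complex.exp_zero, mul_one] at h2
  rw [← h2, mul_assoc, ← Complex.exp_add, neg_add_cancel, Complex.exp_zero, mul_one]

theorem exists_scal {κ : ℂ} (h : (starRingEnd ℂ) κ * κ = 1) :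
    ∃ c : ℂ, c ≠ 0 ∧ (starRingEnd ℂ) c * κ = c := by
  by_cases e : κ = -1
  · exact ⟨I, I_ne_zero, by simp [e]⟩
  · refine ⟨1 + κ, fun e' => e (by linear_combination e'), ?_⟩
    rw [map_add, map_one]
    linear_combination h

variable {β e s : ℝ} {μ : Fin 4 → ℂ} {U Ui : ℝ → Matrix (Fin 4) (Fin 4) ℂ}

/-- a periodic Floquet solution with exponent `ν` -/
structure Fl (β e : ℝ) (ν : ℂ) (v : ℝ → Fin 4 → ℂ) : Prop where
  per : v (2 * Real.pi) = v 0
  ode : ∀ θ i, HasDerivAt (fun θ => v θ i) ((Ac β e θ *ᵥ v θ) i - ν * v θ i) θ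

variable {ν : ℂ} {v : ℝ → Fin 4 → ℂ}

theorem coord (h : PreFloq β e s μ U Ui) (hv : Fl β e ν v) (j : Fin 4) (θ : ℝ) :
    (Ui θ *ᵥ v θ) j = (Ui 0 *ᵥ v 0) j * exp ((μ j - ν) * θ) := by
  refine sol_exp (f := fun θ => (Ui θ *ᵥ v θ) j) (fun θ => ?_) θ
  have h1 := HasDerivAt.fun_sum (u := univ) fun i _ => (h.odei θ j i).mul (hv.ode θ i)
  refine h1.congr_deriv ?_
  have h2 : ((Ui θ * Ac β e θ) *ᵥ v θ) j = (Ui θ *ᵥ (Ac β e θ *ᵥ v θ)) j := by rw [mulVec_mulVec]
  simp only [mulVec, dotProduct] at h2 ⊢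
  simp only [sub_mul, mul_sub, sum_add_distrib, sum_sub_distrib, mul_sum, h2]
  simp only [mul_assoc, mul_left_comm]
  ring

theorem coord_zero (h : PreFloq β e s μ U Ui) (hv : Fl β e ν v) (j : Fin 4)
    (hj : ∀ n : ℤ, μ j - ν ≠ n * I) (θ : ℝ) : (Ui θ *ᵥ v θ) j = 0 := by
  have h1 := coord h hv j (2 * Real.pi)
  have h2 : Ui (2 * Real.pi) = Ui 0 := by
    ext a b
    simpa using per (h.anUi a b) 0
  rw [h2, hv.per] at h1
  have h3 : (Ui 0 *ᵥ v 0) j = 0 := by
    by_contra h4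
    obtain ⟨n, hn⟩ := Complex.exp_eq_one_iff.1 ((mul_eq_left₀ h4).1 h1.symm)
    refine hj n (mul_right_cancel₀ (b := (2 * Real.pi : ℂ)) (by simp [Real.pi_ne_zero]) ?_)
    push_cast at hn
    linear_combination hn
  rw [coord h hv j, h3, zero_mul]

theorem inv' (h : PreFloq β e s μ U Ui) (θ : ℝ) : Ui θ * U θ = 1 := mul_eq_one_comm.1 (h.inv θ)

theorem col_ne (h : PreFloq β e s μ U Ui) (a : Fin 4) (θ : ℝ) : ∃ i, U θ i a ≠ 0 := by
  by_contra h1
  push Not at h1
  have := congrFun (congrFun (inv' h θ) a) a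
  simp [mul_apply, h1] at this

/-- a nonzero Floquet solution whose exponent is not resonant with the others -/
theorem single (h : PreFloq β e s μ U Ui) (hv : Fl β e ν v) (a : Fin 4) (h0 : v 0 ≠ 0)
    (hj : ∀ j, j ≠ a → ∀ n : ℤ, μ j - ν ≠ n * I) (ha : ∀ n : ℤ, μ a - ν = n * I → n = 0) :
    ν = μ a ∧ ∃ κ : ℂ, ∀ θ i, v θ i = κ * U θ i a := by
  have h1 : ∀ θ i, v θ i = (Ui θ *ᵥ v θ) a * U θ i a := fun θ i => by
    have : v θ = U θ *ᵥ (Ui θ *ᵥ v θ) := by rw [mulVec_mulVec, h.inv, one_mulVec]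
    rw [congrFun this i, mul_comm]
    exact sum_eq_single (f := fun j => U θ i j * (Ui θ *ᵥ v θ) j) a
      (fun j _ hja => by rw [coord_zero h hv j (hj j hja), mul_zero])
      fun h => (h (mem_univ a)).elim
  have h2 : μ a - ν = 0 := by
    by_contra h3
    refine h0 (funext fun i => ?_)
    rw [h1, coord_zero h hv a (fun n hn => h3 (by rw [hn, ha n hn]; simp)), zero_mul]
    rfl
  refine ⟨(sub_eq_zero.1 h2).symm, (Ui 0 *ᵥ v 0) a, fun θ i => ?_⟩
  rw [h1, coord h hv, h2, zero_mul, Complex.exp_zero, mul_one]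

theorem conj_Ac (θ : ℝ) (x : Fin 4 → ℂ) (i : Fin 4) :
    (starRingEnd ℂ) ((Ac β e θ *ᵥ x) i) = (Ac β e θ *ᵥ fun j => (starRingEnd ℂ) (x j)) i := by
  fin_cases i <;> simp [Ac, Amat, mulVec, dotProduct, Fin.sum_univ_four, -ofReal_cos, map_ofNat]

theorem rev_Ac (θ : ℝ) (x : Fin 4 → ℂ) (i : Fin 4) :
    (Ac β e θ *ᵥ fun j => (R0 j : ℂ) * x j) i = -((R0 i : ℂ) * (Ac β e (-θ) *ᵥ x) i) := by
  fin_cases i <;> simp [Ac, Amat, R0, mulVec, dotProduct, Fin.sum_univ_four, -ofReal_cos] <;> ring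

theorem col_ode (h : PreFloq β e s μ U Ui) (a : Fin 4) (θ : ℝ) (i : Fin 4) :
    HasDerivAt (fun θ => U θ i a) ((Ac β e θ *ᵥ fun j => U θ j a) i - μ a * U θ i a) θ := by
  rw [mul_comm]
  exact h.ode θ i a

theorem fl_conj (h : PreFloq β e s μ U Ui) (a : Fin 4) :
    Fl β e ((starRingEnd ℂ) (μ a)) fun θ i => (starRingEnd ℂ) (U θ i a) where
  per := funext fun i => congrArg _ (by simpa using per (h.anU i a) 0)
  ode θ i := by
    rw [← conj_Ac, ← map_mul, ← map_sub]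
    exact (col_ode h a θ i).star

theorem fl_rev (h : PreFloq β e s μ U Ui) (a : Fin 4) :
    Fl β e (-(starRingEnd ℂ) (μ a)) fun θ i => (R0 i : ℂ) * (starRingEnd ℂ) (U (-θ) i a) where
  per := funext fun i => by
    have := per (h.anU i a) (-(2 * Real.pi))
    simp only [neg_add_cancel] at this
    simp only [neg_zero, this]
  ode θ i := by
    have h1 := (((fl_conj h a).ode (-θ) i).scomp θ (hasDerivAt_neg θ)).const_mul (R0 i : ℂ)
    refine h1.congr_deriv ?_
    rw [rev_Ac]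
    simp only [neg_smul, one_smul]
    ring

theorem R0_sq (i : Fin 4) : (R0 i : ℂ) * R0 i = 1 := by fin_cases i <;> simp [R0]

theorem ne_of_re {z : ℂ} (h : z.re ≠ 0) (n : ℤ) : z ≠ n * I := fun e => h (by simp [e])

/-- the hyperbolic columns -/
theorem hyp (h : PreFloq β e s μ U Ui) (a : Fin 4) (hj : ∀ j, j ≠ a → (μ j).re ≠ (μ a).re)
    (ha : |(μ a).im| < 1 / 2) :
    μ a = (μ a).re ∧ ∃ c : ℂ, c ≠ 0 ∧ ∀ θ i, (c * U θ i a).im = 0 := by
  obtain ⟨i0, hi⟩ := col_ne h a 0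
  obtain ⟨h1, κ, h2⟩ := single h (fl_conj h a) a
    (fun e => hi (by simpa using congrFun e i0))
    (fun j hja => ne_of_re (by simpa [sub_eq_zero] using hj j hja)) fun n hn => by
      have h3 := congrArg Complex.im hn
      simp only [sub_im, conj_im, mul_im, intCast_re, I_im, intCast_im, I_re] at h3
      have h4 : |(n : ℝ)| < 1 := by
        rw [abs_lt] at ha ⊢
        constructor <;> linarith [ha.1, ha.2]
      exact Int.abs_lt_one_iff.1 (by exact_mod_cast h4)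
  obtain ⟨c, hc, h3⟩ := exists_scal (κ := κ) (by
    have h4 := congrArg (starRingEnd ℂ) (h2 0 i0)
    rw [conj_conj, map_mul, h2 0 i0, ← mul_assoc] at h4
    exact ((mul_eq_right₀ hi).1 h4.symm))
  refine ⟨(conj_eq_iff_re.1 h1).symm, c, hc, fun θ i => conj_eq_iff_im.1 ?_⟩
  rw [map_mul, h2, ← mul_assoc, h3]

/-- the elliptic column -/
theorem ell (h : PreFloq β e s μ U Ui) : μ 0 = I * (μ 0).im ∧ ∃ c : ℂ, c ≠ 0 ∧
    ∀ θ i, (starRingEnd ℂ) (c * U (-θ) i 0) = (R0 i : ℂ) * (c * U θ i 0) := by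
  obtain ⟨i0, hi⟩ := col_ne h 0 0
  obtain ⟨l, l0, l1, l2, l3⟩ := h.c2
  rw [abs_lt] at l0
  have hR : ∀ i, (R0 i : ℂ) ≠ 0 := fun i => left_ne_zero_of_mul_eq_one (R0_sq i)
  obtain ⟨h1, κ, h2⟩ := single h (fl_rev h 0) 0
    (fun e => hi (by simpa [hR] using congrFun e i0))
    (fun j hj => by
      fin_cases j
      · exact (hj rfl).elim
      · simpa using h.c1
      · exact ne_of_re (by simp; linarith [l0.1])
      · exact ne_of_re (by simp; linarith [l0.2])) fun n hn => by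
      simpa using (congrArg Complex.im hn).symm
  have h5 : ∀ θ i, (starRingEnd ℂ) (U (-θ) i 0) = R0 i * (κ * U θ i 0) := fun θ i => by
    rw [← h2, ← mul_assoc, R0_sq, one_mul]
  obtain ⟨c, hc, h3⟩ := exists_scal (κ := κ) (by
    have h6 := h5 0 i0
    rw [neg_zero] at h6
    have h4 := congrArg (starRingEnd ℂ) h6
    rw [conj_conj, map_mul, map_mul, h6, conj_ofReal] at h4
    refine (mul_eq_right₀ hi).1 ?_
    linear_combination -h4 - (starRingEnd ℂ) κ * κ * U 0 i0 0 * R0_sq i0)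
  refine ⟨?_, c, hc, fun θ i => ?_⟩
  · have := congrArg Complex.re h1
    simp only [neg_re, conj_re] at this
    exact Complex.ext (by simp; linarith) (by simp)
  · rw [map_mul, h5]
    linear_combination (R0 i : ℂ) * U θ i 0 * h3

end SymA

open SymA in
theorem sym : SymStmt := by
  intro β e s μ U Ui h
  obtain ⟨l, l0, l1, l2, l3⟩ := h.c2
  rw [abs_lt] at l0 l1
  obtain ⟨m0, c0, hc0, s0⟩ := ell h
  obtain ⟨m2, c2, hc2, s2⟩ := hyp h 2 (fun j hj => by
    fin_cases j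
    exacts [(l0.2.trans l2).ne, (l1.2.trans l2).ne, (hj rfl).elim,
      (show (μ 3).re < _ by linarith [l0.1, l0.2]).ne]) h.c3.1
  obtain ⟨m3, c3, hc3, s3⟩ := hyp h 3 (fun j hj => by
    fin_cases j
    exacts [(l3.trans l0.1).ne', (l3.trans l1.1).ne',
      (show _ < (μ 2).re by linarith [l0.1, l0.2]).ne', (hj rfl).elim]) h.c3.2
  let c : Fin 3 → ℂ := ![c0, c2, c3]
  let n : Fin 3 → Fin 4 := ![0, 2, 3]
  have hc : ∀ a, c a ≠ 0 := fun a => by fin_cases a; exacts [hc0, hc2, hc3]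
  have hn : Function.Injective n := by decide
  have hm : ∀ a, (![I * (μ 0).im, (μ 2).re, (μ 3).re] : Fin 3 → ℂ) a = μ (n a) := fun a => by
    fin_cases a; exacts [m0.symm, m2.symm, m3.symm]
  refine ⟨(μ 2).re, (μ 3).re, fun a θ i => c a * U θ i (n a),
    fun a θ i => (c a)⁻¹ * Ui θ (n a) i, fun a i => an_mul (h.anU _ _) _,
    fun a i => an_mul (h.anUi _ _) _, h.ang, by linarith [l0.1, l0.2], by linarith [l0.1, l0.2],
    fun a θ i => ?_, fun a b θ => ?_, fun a θ => ?_, fun θ i => ⟨s2 θ i, s3 θ i⟩, s0, ?_⟩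
  · refine ((col_ode h (n a) θ i).const_mul (c a)).congr_deriv ?_
    rw [hm]
    simp only [mulVec, dotProduct, mul_sub, mul_sum, mul_left_comm]
  · have h1 := congrFun (congrFun (inv' h θ) (n a)) (n b)
    rw [mul_apply, one_apply] at h1
    have h2 : ((fun i => (c a)⁻¹ * Ui θ (n a) i) ⬝ᵥ fun i => c b * U θ i (n b)) =
        (c a)⁻¹ * c b * ∑ i, Ui θ (n a) i * U θ i (n b) := by
      rw [mul_sum]
      exact sum_congr rfl fun i _ => by ring
    rw [h2, h1]
    by_cases hab : a = b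
    · simp [hab, hc]
    · simp [hab, hn.ne hab]
  · have h1 := coord_zero h (fl_conj h 0) (n a) (fun k hk => by
      have r0 : (μ 0).re = 0 := by rw [m0]; simp
      fin_cases a
      · have h3 := congrArg Complex.im hk
        simp [n] at h3
        refine h.irr ⟨k / 2, ?_⟩
        push_cast
        linarith
      · exact ne_of_re (by simp [n, r0]; linarith [l0.1, l0.2]) k hk
      · exact ne_of_re (by simp [n, r0]; linarith [l0.1, l0.2]) k hk) θ
    have h2 : ((fun i => (c a)⁻¹ * Ui θ (n a) i) ⬝ᵥ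
        fun i => (starRingEnd ℂ) (c 0 * U θ i (n 0))) =
        (c a)⁻¹ * (starRingEnd ℂ) (c 0) * (Ui θ *ᵥ fun i => (starRingEnd ℂ) (U θ i 0)) (n a) := by
      simp only [mulVec, dotProduct, mul_sum, map_mul]
      exact sum_congr rfl fun i _ => by simp only [n, cons_val_zero]; ring
    rw [h2, h1, mul_zero]
  · obtain ⟨W, τ, w1, w2, w3⟩ := h.tors
    refine ⟨W, τ, w1, w2, fun θ => ?_⟩
    refine (w3 θ).congr_deriv (congrArg (· - τ) ?_)
    rw [Matrix.mul_assoc]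
    simp only [mulVec, dotProduct, mul_apply, mul_sum]
    refine sum_congr rfl fun i _ => sum_congr rfl fun j _ => ?_
    simp only [n, cons_val_zero]
    field_simp [hc 0]

end Pool.Agent.MP_1ba41f_an.K3
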