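import Mathlib
import Pool.Agent.MP_1ba41f_an.K3.Basic

/-! PROJECT KAM3, module TORI: the invariant tori in pointwise form. -/

noncomputable section
open Finset Matrix

namespace Pool.Agent.MP_1ba41f_an.K3

namespace Tori

section
variable {Y : Type} [TopologicalSpace Y] {J : Type} [Fintype J] {s c : ℝ}
  {F : Y → (J → ℝ) → ℂ}

theorem sumb {I : Type} {k : I → J → ℤ} {b : I → ℝ} (h0 : ∀ i, 0 ≤ b i)
    (h2 : Summable (fun i => b i * Real.exp (max s 0 * sz (k i)))) : Summable b :=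
  Summable.of_nonneg_of_le h0 (fun i => le_mul_of_one_le_right (h0 i) (one_le_wt _ _)) h2

theorem nle (h : BdF s F c) (y : Y) (θ : J → ℝ) : ‖F y θ‖ ≤ c := by
  obtain ⟨I, k, a, b, h0, h1, h2, h3, h4⟩ := h
  refine le_trans ((h4 y θ).norm_le_of_bounded h2.hasSum fun i => ?_) h3
  rw [norm_mul, norm_ph, mul_one]
  exact (h1 i y).trans (le_mul_of_one_le_right (h0 i) (one_le_wt _ _))

theorem cont (h : BdF s F c) : Continuous (Function.uncurry F) := by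
  obtain ⟨I, k, a, b, h0, h1, h2, h3, h4⟩ := h
  have e : Function.uncurry F = fun z : Y × (J → ℝ) => ∑' i, a i z.1 * ph (k i) z.2 := by
    funext z; exact (h4 z.1 z.2).tsum_eq.symm
  rw [e]
  refine continuous_tsum (fun i => ?_) (sumb h0 h2) fun i z => ?_
  · unfold ph; fun_prop
  · rw [norm_mul, norm_ph, mul_one]; exact h1 i z.1

theorem per [DecidableEq J] (h : BdF s F c) (y : Y) (θ : J → ℝ) (j : J) :
    F y (θ + Pi.single j (2 * Real.pi)) = F y θ := by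
  obtain ⟨I, k, a, b, h0, h1, h2, h3, h4⟩ := h
  refine (h4 y _).unique ?_
  have e : ∀ i, ph (k i) (θ + Pi.single j (2 * Real.pi)) = ph (k i) θ := fun i => by
    unfold ph
    have : (∑ l, (k i l : ℝ) * (θ + (Pi.single j (2 * Real.pi) : J → ℝ)) l) =
        ∑ l, (k i l : ℝ) * θ l + k i j * (2 * Real.pi) := by
      simp [mul_add, sum_add_distrib, Pi.single_apply]
    rw [this]
    push_cast
    rw [mul_add, Complex.exp_add,
      show Complex.I * ((k i j : ℂ) * (2 * Real.pi)) = k i j * (2 * Real.pi * Complex.I) by ring,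
      Complex.exp_int_mul_two_pi_mul_I, mul_one]
  simpa only [e] using h4 y θ

end

abbrev A2 : Type := AlgR I01 (Fin 2)

/-- evaluation at a point -/
def ev (y : I01) (θ : Fin 2 → ℝ) : A2 →ₐ[ℝ] ℝ :=
  ((Pi.evalAlgHom ℝ (fun _ : Fin 2 → ℝ => ℝ) θ).comp
    (Pi.evalAlgHom ℝ (fun _ : I01 => (Fin 2 → ℝ) → ℝ) y)).comp (AlgR I01 (Fin 2)).val

theorem ev_apply (y : I01) (θ : Fin 2 → ℝ) (f : A2) : ev y θ f = f.1 y θ := rfl

theorem contR (f : A2) : Continuous (Function.uncurry f.1) := by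
  obtain ⟨s, -, c, h⟩ := f.2
  exact (Complex.continuous_re.comp (cont h)).congr fun z => by simp [Function.uncurry]

theorem perR (f : A2) (y : I01) (θ : Fin 2 → ℝ) (j : Fin 2) :
    f.1 y (θ + Pi.single j (2 * Real.pi)) = f.1 y θ := by
  obtain ⟨s, -, c, h⟩ := f.2
  exact_mod_cast per h y θ j

variable {S : Scale A2 (Fin 2)}

theorem evb (hS : IsModR S) (y : I01) (θ : Fin 2 → ℝ) (s : ℝ) (f : A2) (c : ℝ)
    (h : S.Bd s f c) : |ev y θ f| ≤ c := by
  simpa [ev_apply] using nle ((hS.bd s f c).1 h) y θ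

theorem cst_val (hS : IsModR S) {f : A2} (h : S.Cst f) (y : I01) (θ : Fin 2 → ℝ) :
    f.1 y θ = f.1 y 0 := by
  have hd : ∀ θ, HasFDerivAt (f.1 y) (0 : (Fin 2 → ℝ) →L[ℝ] ℝ) θ := fun θ => by
    have := hS.der f y θ
    have e : (grad fun j => (S.D j f).1 y θ) = (0 : (Fin 2 → ℝ) →L[ℝ] ℝ) := by
      ext v
      simp [grad_apply, h _]
    rwa [e] at this
  exact is_const_of_fderiv_eq_zero (fun θ => (hd θ).differentiableAt) (fun θ => (hd θ).fderiv) θ 0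

theorem cst_of (hS : IsModR S) {f : A2} (h : ∀ y θ, f.1 y θ = f.1 y 0) : S.Cst f := by
  intro j
  apply Subtype.ext
  funext y θ
  have h1 : HasFDerivAt (f.1 y) (0 : (Fin 2 → ℝ) →L[ℝ] ℝ) θ := by
    rw [show f.1 y = fun _ => f.1 y 0 from funext (h y)]
    exact hasFDerivAt_const _ _
  have h2 := DFunLike.congr_fun ((hS.der f y θ).unique h1) (Pi.single j 1)
  rw [grad_apply] at h2
  simpa [Pi.single_apply] using h2

theorem bd_amp {ε : ℝ} (hε : 0 ≤ ε) (s : ℝ) :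
    BdF s (fun (y : I01) (_ : Fin 2 → ℝ) => ((ε * y.1 : ℝ) : ℂ)) ε :=
  BdF.cst s (⟨fun y : I01 => ((ε * y.1 : ℝ) : ℂ), by fun_prop⟩ : C(I01, ℂ)) hε fun y => by
    simp only [ContinuousMap.coe_mk, Complex.norm_real, Real.norm_eq_abs]
    rw [abs_of_nonneg (mul_nonneg hε y.2.1)]
    exact mul_le_of_le_one_right hε y.2.2

/-- the amplitude -/
def amp (ε : ℝ) (hε : 0 ≤ ε) : A2 := ⟨fun y _ => ε * y.1, 1, one_pos, ε, bd_amp hε 1⟩

theorem det_ne {a b c d a' b' c' d' M κ δ : ℝ} (ha : |a| ≤ M) (hb : |b| ≤ M) (hc : |c| ≤ M)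
    (hd : |d| ≤ M) (h1 : |a' - a| ≤ κ) (h2 : |b' - b| ≤ κ) (h3 : |c' - c| ≤ κ)
    (h4 : |d' - d| ≤ κ) (hκ : κ ≤ 1) (e : a * b - c * d = δ) (hδ : (4 * M + 2) * κ < |δ|) :
    a' * b' - c' * d' ≠ 0 := by
  intro h0
  have hk : 0 ≤ κ := (abs_nonneg _).trans h1
  have hM : 0 ≤ M := (abs_nonneg _).trans ha
  have m : ∀ {x y X Z : ℝ}, |x| ≤ X → |y| ≤ Z → |x * y| ≤ X * Z := fun hx hy => by
    rw [abs_mul]; exact mul_le_mul hx hy (abs_nonneg _) ((abs_nonneg _).trans hx)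
  have t1 := abs_le.1 (m ha h2)
  have t2 := abs_le.1 (m h1 hb)
  have t3 := abs_le.1 (m h1 (h2.trans hκ))
  have t4 := abs_le.1 (m hc h4)
  have t5 := abs_le.1 (m h3 hd)
  have t6 := abs_le.1 (m h3 (h4.trans hκ))
  have : |δ| ≤ (4 * M + 2) * κ := by
    rw [abs_le]
    constructor <;> nlinarith [t1.1, t1.2, t2.1, t2.2, t3.1, t3.2, t4.1, t4.2, t5.1, t5.2, t6.1, t6.2]
  linarith

end Tori

open Tori in
theorem tori : ModCStmt → ModRStmt → SolvStmt → KamStmt → FieldStmt → PreStmt → SymStmt →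
    BaseStmt → ToriStmt := by
  intro hC hR hSolv hKam hField hPre hSym hBase a t hk
  have hβ : 0 < kap a t - 1 := sub_pos.2 hk
  obtain ⟨e, s, γ, μ, U, Ui, he, he2, hs, hD, hP⟩ := hPre _ hβ
  obtain ⟨l2, l3, p, q, hF⟩ := hSym _ _ _ _ _ _ hP
  obtain ⟨SC, hSC⟩ := hC I01 (Fin 2)
  obtain ⟨S, hS⟩ := hR I01 (Fin 2) SC hSC
  have hSo := hSolv I01 S _ γ hS hD
  obtain ⟨b, cs, g, hb, hbf, hcs, θ0, δ, hδ, hdet⟩ :=
    hBase S _ e s _ γ l2 l3 p q hS hSo hβ he he2 hs hF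
  obtain ⟨C, r0, hfl, hpt⟩ := hField _ S a t s e b cs g hs he he2 hb.anK hbf
  obtain ⟨M, hM0, hM⟩ := Scale.An.uniform (S := S) (s := s / 4)
    (f := fun z : Fin 2 × Fin 4 => S.D z.1 (b.K0 z.2))
    fun z => (hb.anK z.2).der z.1 (by positivity) (by linarith)
  have hδ0 : 0 < |δ| := abs_pos.2 hδ
  obtain ⟨κ, hκ0, hκ1, hκ2⟩ : ∃ κ : ℝ, 0 < κ ∧ κ ≤ 1 ∧ (4 * M + 2) * κ < |δ| := by
    refine ⟨min 1 (|δ| / (4 * M + 3)), lt_min one_pos (by positivity), min_le_left _ _, ?_⟩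
    have h1 : min 1 (|δ| / (4 * M + 3)) * (4 * M + 3) ≤ |δ| :=
      (le_div_iff₀ (by positivity)).1 (min_le_right _ _)
    have h2 : 0 < min 1 (|δ| / (4 * M + 3)) := lt_min one_pos (by positivity)
    linarith
  obtain ⟨ε0, hε0, hK⟩ := hKam _ S _ γ s b _ C r0 hSo hb hfl (min r0 (κ * (s / 4)))
    (lt_min hfl.pos (by positivity))
  obtain ⟨K, e', hce, hN, hL⟩ := hK (amp ε0 hε0.le) (cst_of hS fun _ _ => rfl)
    ((hS.bd _ _ _).2 (bd_amp hε0.le s))
  have hN' : Near S b (s / 2) r0 K e' (amp ε0 hε0.le) :=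
    ⟨fun i => Scale.le (hN.K i) (min_le_left _ _), Scale.le hN.e (min_le_left _ _),
      Scale.le hN.p (min_le_left _ _)⟩
  have hp := fun y θ => hpt (s / 2) K e' _ (by positivity) (by linarith) hN' (ev y θ)
    (evb hS y θ) (by rw [ev_apply, hcs]; exact Real.abs_cos_le_one _)
  have henv : ∀ y θ, env (fun i => ev y θ (K i)) (ev y θ e') (ev y θ (amp ε0 hε0.le)) (ev y θ cs) =
      env (fun i => (K i).1 y θ) (e'.1 y 0) (ε0 * y.1) (Real.cos (θ 0)) := fun y θ => by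
    rw [ev_apply y θ e', cst_val hS hce, ev_apply y θ cs, hcs]; rfl
  refine ⟨(μ 0).im, ε0, fun y θ i => (K i).1 y θ, fun j y θ i => (S.D j (K i)).1 y θ,
    fun y => e'.1 y 0, hP.irr, hε0, continuous_pi fun i => contR (K i),
    fun j => continuous_pi fun i => contR (S.D j (K i)), fun y θ i => hS.der (K i) y θ,
    fun y θ j => funext fun i => perR (K i) y θ j, fun y θ => henv y θ ▸ (hp y θ).1,
    fun y θ i => ?_, θ0, fun y => ?_⟩
  · rw [← henv y θ, ← (hp y θ).2 i, ← hL i, Scale.L_apply, map_add, map_smul]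
    rfl
  · have hn : ∀ j i, |(S.D j (K i)).1 y θ0 - (S.D j (b.K0 i)).1 y θ0| ≤ κ := fun j i => by
      have h1 := S.der (d := s / 4) j (by positivity) (by linarith)
        (Scale.le (hN.K i) (min_le_right _ _))
      have h2 := evb hS y θ0 _ _ _ h1
      rw [map_sub, map_sub, mul_div_assoc, div_self (by positivity), mul_one] at h2
      exact h2
    have hm : ∀ j i, |(S.D j (b.K0 i)).1 y θ0| ≤ M := fun j i => evb hS y θ0 _ _ _ (hM (j, i))
    exact det_ne (hm 0 0) (hm 1 1) (hm 0 1) (hm 1 0) (hn 0 0) (hn 1 1) (hn 0 1) (hn 1 0) hκ1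
      (hdet y) hκ2

end Pool.Agent.MP_1ba41f_an.K3
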